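import Mathlib

/-! Basic facts on the unit ball of `ℂⁿ`: pairing, rank one determinants, ball automorphisms. -/

set_option autoImplicit false
open Set Metric Filter Topology MeasureTheory

namespace Pool.Agent.Ball44

/-- The space `ℂⁿ`. -/
abbrev E (n : ℕ) := EuclideanSpace ℂ (Fin n)

variable {n : ℕ}

/-- The pairing `∑ zⱼ conj wⱼ`, linear in the first variable. -/
noncomputable def ip (z w : E n) : ℂ := inner ℂ w z

lemma ip_add_left (x y w : E n) : ip (x + y) w = ip x w + ip y w := inner_add_right _ _ _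
lemma ip_add_right (x y w : E n) : ip w (x + y) = ip w x + ip w y := inner_add_left _ _ _
lemma ip_sub_left (x y w : E n) : ip (x - y) w = ip x w - ip y w := inner_sub_right _ _ _
lemma ip_sub_right (x y w : E n) : ip w (x - y) = ip w x - ip w y := inner_sub_left _ _ _
lemma ip_smul_left (c : ℂ) (x w : E n) : ip (c • x) w = c * ip x w := inner_smul_right _ _ _
lemma ip_smul_right (c : ℂ) (x w : E n) : ip w (c • x) = (starRingEnd ℂ) c * ip w x :=
  inner_smul_left _ _ _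
lemma ip_conj (x y : E n) : (starRingEnd ℂ) (ip x y) = ip y x := inner_conj_symm _ _
lemma ip_self (x : E n) : ip x x = ((‖x‖ ^ 2 : ℝ) : ℂ) := by
  unfold ip
  rw [inner_self_eq_norm_sq_to_K]
  push_cast
  rfl
@[simp] lemma ip_zero_left (x : E n) : ip 0 x = 0 := inner_zero_right _
@[simp] lemma ip_zero_right (x : E n) : ip x 0 = 0 := inner_zero_left _

lemma norm_ip_le (x y : E n) : ‖ip x y‖ ≤ ‖x‖ * ‖y‖ := by
  rw [mul_comm]; exact norm_inner_le_norm _ _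

lemma norm_ip_comm (x y : E n) : ‖ip x y‖ = ‖ip y x‖ := by
  rw [← ip_conj, RCLike.norm_conj]

/-- The pairing as a continuous linear functional of the first variable. -/
noncomputable def ipL (w : E n) : E n →L[ℂ] ℂ := innerSL ℂ w

lemma ipL_apply (w z : E n) : ipL w z = ip z w := rfl

lemma re_one_sub_ip_ge (x y : E n) : 1 - ‖x‖ * ‖y‖ ≤ (1 - ip x y).re := by
  have h := Complex.re_le_norm (ip x y)
  have h2 := norm_ip_le x y
  simp only [Complex.sub_re, Complex.one_re]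
  linarith

lemma norm_one_sub_ip_ge (x y : E n) : 1 - ‖x‖ * ‖y‖ ≤ ‖1 - ip x y‖ :=
  (re_one_sub_ip_ge x y).trans (Complex.re_le_norm _)

lemma norm_one_sub_ip_ge_left {x y : E n} (hy : ‖y‖ ≤ 1) : 1 - ‖x‖ ≤ ‖1 - ip x y‖ := by
  refine le_trans ?_ (norm_one_sub_ip_ge x y)
  nlinarith [norm_nonneg x]

lemma norm_one_sub_ip_ge_right {x y : E n} (hx : ‖x‖ ≤ 1) : 1 - ‖y‖ ≤ ‖1 - ip x y‖ := by
  refine le_trans ?_ (norm_one_sub_ip_ge x y)
  nlinarith [norm_nonneg y]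

lemma one_sub_ip_ne_zero_left {x y : E n} (hx : ‖x‖ < 1) (hy : ‖y‖ ≤ 1) : 1 - ip x y ≠ 0 := by
  intro h
  have := norm_one_sub_ip_ge_left (x := x) hy
  rw [h, norm_zero] at this
  linarith

lemma one_sub_ip_ne_zero_right {x y : E n} (hx : ‖x‖ ≤ 1) (hy : ‖y‖ < 1) : 1 - ip x y ≠ 0 := by
  intro h
  have := norm_one_sub_ip_ge_right (y := y) hx
  rw [h, norm_zero] at this
  linarith

lemma norm_one_sub_ip_le {x y : E n} (hx : ‖x‖ ≤ 1) (hy : ‖y‖ ≤ 1) : ‖1 - ip x y‖ ≤ 2 := by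
  calc ‖1 - ip x y‖ ≤ ‖(1 : ℂ)‖ + ‖ip x y‖ := norm_sub_le _ _
    _ ≤ 1 + ‖x‖ * ‖y‖ := by
      rw [norm_one]; exact add_le_add le_rfl (norm_ip_le x y)
    _ ≤ 2 := by nlinarith [norm_nonneg x, norm_nonneg y]

lemma norm_one_sub_ip_comm (x y : E n) : ‖1 - ip x y‖ = ‖1 - ip y x‖ := by
  rw [← RCLike.norm_conj (1 - ip x y), map_sub, map_one, ip_conj]

/-- Rank one perturbation of a scalar matrix. -/
lemma det_rank_one (α : ℂ) (w z : E n) :
    α * LinearMap.det (α • LinearMap.id + (ipL z : E n →ₗ[ℂ] ℂ).smulRight w : E n →ₗ[ℂ] E n) =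
      α ^ n * (α + ip w z) := by
  by_cases hα : α = 0
  · subst hα
    rcases Nat.eq_zero_or_pos n with hn | hn
    · subst hn
      have : w = 0 := Subsingleton.elim _ _
      simp [this]
    · rw [zero_mul, zero_pow hn.ne', zero_mul]
  · have h1 : (α • LinearMap.id + (ipL z : E n →ₗ[ℂ] ℂ).smulRight w : E n →ₗ[ℂ] E n) =
        α • (LinearMap.transvection (ipL z : E n →ₗ[ℂ] ℂ) (α⁻¹ • w)) := by
      ext1 x
      simp only [LinearMap.add_apply, LinearMap.smul_apply, LinearMap.id_apply,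
        LinearMap.smulRight_apply, LinearMap.transvection.apply, smul_add, smul_smul]
      congr 2
      field_simp
    rw [h1, LinearMap.det_smul, LinearMap.transvection.det]
    have h2 : Module.finrank ℂ (E n) = n := by simp
    rw [h2]
    have h3 : (ipL z : E n →ₗ[ℂ] ℂ) (α⁻¹ • w) = α⁻¹ * ip w z := by
      rw [map_smul, smul_eq_mul]; rfl
    rw [h3]
    field_simp

/-- `s = √(1 - |z|²)`. -/
noncomputable def sz (z : E n) : ℝ := Real.sqrt (1 - ‖z‖ ^ 2)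

lemma sz_sq {z : E n} (hz : ‖z‖ < 1) : sz z ^ 2 = 1 - ‖z‖ ^ 2 := by
  unfold sz
  rw [Real.sq_sqrt]
  nlinarith [norm_nonneg z]

lemma sz_pos {z : E n} (hz : ‖z‖ < 1) : 0 < sz z := by
  unfold sz
  apply Real.sqrt_pos.2
  nlinarith [norm_nonneg z]

/-- The linear part of the ball automorphism. -/
noncomputable def Lz (z x : E n) : E n := (sz z : ℂ) • x + (ip x z / (1 + sz z)) • z

/-- The involutive automorphism of the ball exchanging `0` and `z`. -/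
noncomputable def aut (z x : E n) : E n := (1 - ip x z)⁻¹ • (z - Lz z x)

lemma aut_zero (z : E n) : aut z 0 = z := by
  simp [aut, Lz]

lemma ip_Lz {z : E n} (hz : ‖z‖ < 1) (x : E n) : ip (Lz z x) z = ip x z := by
  have h1 : (1 + (sz z : ℂ)) ≠ 0 := by
    have := sz_pos hz
    exact_mod_cast (by linarith : (1 + sz z) ≠ 0)
  have h2 : ((sz z : ℝ) : ℂ) ^ 2 = 1 - ((‖z‖ : ℝ) : ℂ) ^ 2 := by
    exact_mod_cast sz_sq hz
  unfold Lz
  rw [ip_add_left, ip_smul_left, ip_smul_left, ip_self]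
  push_cast
  have h3 : ((‖z‖ : ℝ) : ℂ) ^ 2 = 1 - ((sz z : ℝ) : ℂ) ^ 2 := by rw [h2]; ring
  rw [h3]
  field_simp
  ring

lemma Lz_self {z : E n} (hz : ‖z‖ < 1) : Lz z z = z := by
  have h1 : (1 + (sz z : ℂ)) ≠ 0 := by
    have := sz_pos hz
    exact_mod_cast (by linarith : (1 + sz z) ≠ 0)
  have h2 : ((sz z : ℝ) : ℂ) ^ 2 = 1 - ((‖z‖ : ℝ) : ℂ) ^ 2 := by
    exact_mod_cast sz_sq hz
  unfold Lz
  rw [← add_smul, ip_self]
  push_cast
  have h3 : ((‖z‖ : ℝ) : ℂ) ^ 2 = 1 - ((sz z : ℝ) : ℂ) ^ 2 := by rw [h2]; ring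
  rw [h3]
  have : (sz z : ℂ) + (1 - (sz z : ℂ) ^ 2) / (1 + sz z) = 1 := by
    field_simp
    ring
  rw [this, one_smul]

lemma Lz_add (z x y : E n) : Lz z (x + y) = Lz z x + Lz z y := by
  unfold Lz
  rw [ip_add_left, add_div, add_smul, smul_add]
  abel

lemma Lz_smul (z x : E n) (c : ℂ) : Lz z (c • x) = c • Lz z x := by
  unfold Lz
  rw [ip_smul_left, smul_add, smul_smul, smul_smul, smul_smul]
  congr 2
  · ring
  · ring

lemma Lz_Lz {z : E n} (hz : ‖z‖ < 1) (x : E n) :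
    Lz z (Lz z x) = ((sz z : ℂ) ^ 2) • x + (ip x z) • z := by
  have h1 : (1 + (sz z : ℂ)) ≠ 0 := by
    have := sz_pos hz
    exact_mod_cast (by linarith : (1 + sz z) ≠ 0)
  have e : Lz z (Lz z x) = (sz z : ℂ) • Lz z x + (ip (Lz z x) z / (1 + sz z)) • z := rfl
  rw [e, ip_Lz hz]
  unfold Lz
  rw [smul_add, smul_smul, smul_smul, add_assoc, ← add_smul]
  congr 2
  · ring
  · field_simp
    ring

lemma ip_Lz_comm {z : E n} (x y : E n) : ip (Lz z x) y = ip x (Lz z y) := by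
  unfold Lz
  rw [ip_add_left, ip_add_right, ip_smul_left, ip_smul_left, ip_smul_right, ip_smul_right]
  simp only [map_div₀, map_add, map_one, Complex.conj_ofReal, ip_conj]
  ring

lemma one_sub_aut {z x : E n} (hz : ‖z‖ < 1) (hx : ‖x‖ ≤ 1) :
    1 - ip (aut z x) z = ((1 - ‖z‖ ^ 2 : ℝ) : ℂ) / (1 - ip x z) := by
  have h1 : 1 - ip x z ≠ 0 := one_sub_ip_ne_zero_right hx hz
  unfold aut
  rw [ip_smul_left, ip_sub_left, ip_Lz hz, ip_self]
  field_simp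
  push_cast
  ring

lemma aut_aut {z x : E n} (hz : ‖z‖ < 1) (hx : ‖x‖ ≤ 1) : aut z (aut z x) = x := by
  have h1 : 1 - ip x z ≠ 0 := one_sub_ip_ne_zero_right hx hz
  have hs : (sz z : ℂ) ^ 2 ≠ 0 := by
    have := sz_pos hz
    exact pow_ne_zero _ (by exact_mod_cast this.ne')
  have e : aut z (aut z x) = (1 - ip (aut z x) z)⁻¹ • (z - Lz z (aut z x)) := rfl
  have h2 : z - Lz z (aut z x) = ((sz z : ℂ) ^ 2 / (1 - ip x z)) • x := by
    unfold aut
    have e2 : z - Lz z x = z + (-1 : ℂ) • Lz z x := by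
      rw [neg_smul, one_smul, sub_eq_add_neg]
    rw [Lz_smul, e2, Lz_add, Lz_smul, Lz_self hz, Lz_Lz hz]
    have e3 : z = ((1 - ip x z)⁻¹ * (1 - ip x z)) • z := by
      rw [inv_mul_cancel₀ h1, one_smul]
    nth_rewrite 1 [e3]
    module
  rw [e, h2, one_sub_aut hz hx, smul_smul, ← sz_sq hz]
  push_cast
  have : (((sz z : ℝ) : ℂ) ^ 2 / (1 - ip x z))⁻¹ * ((sz z : ℂ) ^ 2 / (1 - ip x z)) = 1 :=
    inv_mul_cancel₀ (div_ne_zero hs h1)
  rw [this, one_smul]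

lemma norm_sq_sub (x y : E n) : ‖x - y‖ ^ 2 = ‖x‖ ^ 2 - 2 * (ip x y).re + ‖y‖ ^ 2 := by
  have := @norm_sub_sq ℂ (E n) _ _ _ x y
  rw [this]
  have h : RCLike.re (inner ℂ x y) = (ip x y).re := by
    rw [← ip_conj y x]
    rfl
  rw [h]

lemma norm_Lz_sq {z : E n} (hz : ‖z‖ < 1) (x : E n) :
    ‖Lz z x‖ ^ 2 = (sz z) ^ 2 * ‖x‖ ^ 2 + ‖ip x z‖ ^ 2 := by
  have h : ((‖Lz z x‖ ^ 2 : ℝ) : ℂ) = (((sz z) ^ 2 * ‖x‖ ^ 2 + ‖ip x z‖ ^ 2 : ℝ) : ℂ) := by
    rw [← ip_self, ip_Lz_comm, Lz_Lz hz, ip_add_right, ip_smul_right, ip_smul_right, ip_self]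
    simp only [map_pow, Complex.conj_ofReal]
    push_cast
    congr 1
    rw [mul_comm, Complex.mul_conj, Complex.normSq_eq_norm_sq]
    push_cast
    rfl
  exact_mod_cast h

lemma one_sub_norm_aut_sq {z x : E n} (hz : ‖z‖ < 1) (hx : ‖x‖ ≤ 1) :
    1 - ‖aut z x‖ ^ 2 = (1 - ‖z‖ ^ 2) * (1 - ‖x‖ ^ 2) / ‖1 - ip x z‖ ^ 2 := by
  have h1 : 1 - ip x z ≠ 0 := one_sub_ip_ne_zero_right hx hz
  have h2 : ‖1 - ip x z‖ ≠ 0 := norm_ne_zero_iff.2 h1
  have h3 : ‖1 - ip x z‖ ^ 2 = 1 - 2 * (ip x z).re + ‖ip x z‖ ^ 2 := by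
    rw [← Complex.normSq_eq_norm_sq, ← Complex.normSq_eq_norm_sq, Complex.normSq_apply,
      Complex.normSq_apply]
    simp only [Complex.sub_re, Complex.one_re, Complex.sub_im, Complex.one_im]
    ring
  have h4 : ‖z - Lz z x‖ ^ 2 = ‖z‖ ^ 2 - 2 * (ip x z).re + (sz z ^ 2 * ‖x‖ ^ 2 + ‖ip x z‖ ^ 2) := by
    rw [norm_sq_sub, norm_Lz_sq hz, ← ip_conj, ip_Lz hz, Complex.conj_re]
  unfold aut
  rw [norm_smul, norm_inv, mul_pow, inv_pow, h4, sz_sq hz]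
  field_simp
  rw [h3]
  ring

lemma aut_mem_ball {z x : E n} (hz : ‖z‖ < 1) (hx : ‖x‖ < 1) : ‖aut z x‖ < 1 := by
  have h1 : 1 - ip x z ≠ 0 := one_sub_ip_ne_zero_right hx.le hz
  have h2 : 0 < ‖1 - ip x z‖ := norm_pos_iff.2 h1
  have h3 := one_sub_norm_aut_sq hz hx.le
  have h4 : 0 < (1 - ‖z‖ ^ 2) * (1 - ‖x‖ ^ 2) / ‖1 - ip x z‖ ^ 2 := by
    have a1 : 0 < 1 - ‖z‖ ^ 2 := by nlinarith [norm_nonneg z]
    have a2 : 0 < 1 - ‖x‖ ^ 2 := by nlinarith [norm_nonneg x]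
    positivity
  rw [← h3] at h4
  nlinarith [norm_nonneg (aut z x)]

lemma aut_image_ball {z : E n} (hz : ‖z‖ < 1) : aut z '' (ball 0 1) = ball 0 1 := by
  apply Subset.antisymm
  · rintro _ ⟨x, hx, rfl⟩
    rw [mem_ball_zero_iff] at hx ⊢
    exact aut_mem_ball hz hx
  · intro x hx
    rw [mem_ball_zero_iff] at hx
    exact ⟨aut z x, by rw [mem_ball_zero_iff]; exact aut_mem_ball hz hx, aut_aut hz hx.le⟩

lemma aut_injOn {z : E n} (hz : ‖z‖ < 1) : InjOn (aut z) (ball 0 1) := by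
  intro x hx y hy h
  rw [mem_ball_zero_iff] at hx hy
  rw [← aut_aut hz hx.le, h, aut_aut hz hy.le]

/-- The derivative of the ball automorphism. -/
noncomputable def autD (z x : E n) : E n →L[ℂ] E n :=
  (1 - ip x z)⁻¹ • ((-(sz z : ℂ)) • ContinuousLinearMap.id ℂ (E n) +
    (ipL z).smulRight (aut z x - (1 + (sz z : ℂ))⁻¹ • z))

lemma hasFDerivAt_aut {z x : E n} (hz : ‖z‖ < 1) (hx : ‖x‖ ≤ 1) :
    HasFDerivAt (aut z) (autD z x) x := by
  have h1 : 1 - ip x z ≠ 0 := one_sub_ip_ne_zero_right hx hz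
  have hd1 : HasFDerivAt (fun y : E n => 1 - ip y z) (-(ipL z)) x := by
    have := ((ipL z).hasFDerivAt (x := x)).const_sub 1
    exact this
  have hd2 : HasFDerivAt (fun y : E n => (1 - ip y z)⁻¹)
      ((-((1 - ip x z) ^ 2)⁻¹) • (-(ipL z))) x := by
    exact (hasDerivAt_inv h1).comp_hasFDerivAt x hd1
  have hd3 : HasFDerivAt (fun y : E n => z - Lz z y)
      (-((sz z : ℂ) • ContinuousLinearMap.id ℂ (E n) +
        ((1 + (sz z : ℂ))⁻¹ • ipL z).smulRight z)) x := by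
    have := (((sz z : ℂ) • ContinuousLinearMap.id ℂ (E n) +
        ((1 + (sz z : ℂ))⁻¹ • ipL z).smulRight z).hasFDerivAt (x := x)).const_sub z
    refine this.congr_of_eventuallyEq (Eventually.of_forall fun y => ?_)
    simp only [Lz, _root_.add_apply, _root_.smul_apply,
      ContinuousLinearMap.id_apply, ContinuousLinearMap.smulRight_apply, ipL_apply, smul_eq_mul]
    rw [div_eq_inv_mul]
  have hd4 := hd2.smul hd3
  refine hd4.congr_fderiv ?_
  ext1 v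
  simp only [autD, _root_.add_apply, _root_.smul_apply,
    _root_.neg_apply, ContinuousLinearMap.id_apply,
    ContinuousLinearMap.smulRight_apply, ipL_apply, smul_eq_mul]
  unfold aut
  have h2 : ((1 - ip x z) ^ 2)⁻¹ = (1 - ip x z)⁻¹ * (1 - ip x z)⁻¹ := by
    rw [sq, mul_inv]
  rw [h2]
  module

lemma det_autD {z x : E n} (hz : ‖z‖ < 1) (hx : ‖x‖ ≤ 1) :
    LinearMap.det (autD z x : E n →ₗ[ℂ] E n) =
      (-(sz z : ℂ)) ^ n * (sz z : ℂ) / (1 - ip x z) ^ (n + 1) := by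
  have h1 : 1 - ip x z ≠ 0 := one_sub_ip_ne_zero_right hx hz
  have hs : (sz z : ℂ) ≠ 0 := by exact_mod_cast (sz_pos hz).ne'
  have hs1 : (1 + (sz z : ℂ)) ≠ 0 := by
    have := sz_pos hz
    exact_mod_cast (by linarith : (1 + sz z) ≠ 0)
  have h0 : (autD z x : E n →ₗ[ℂ] E n) = (1 - ip x z)⁻¹ • ((-(sz z : ℂ)) • LinearMap.id +
      (ipL z : E n →ₗ[ℂ] ℂ).smulRight (aut z x - (1 + (sz z : ℂ))⁻¹ • z)) := by
    ext1 v
    rfl
  have h2 := det_rank_one (-(sz z : ℂ)) (aut z x - (1 + (sz z : ℂ))⁻¹ • z) z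
  have h3 : ip (aut z x - (1 + (sz z : ℂ))⁻¹ • z) z =
      1 - (sz z : ℂ) ^ 2 / (1 - ip x z) - (1 - (sz z : ℂ)) := by
    have h4 := one_sub_aut hz hx
    have h5 : ip (aut z x) z = 1 - ((1 - ‖z‖ ^ 2 : ℝ) : ℂ) / (1 - ip x z) := by
      rw [← h4]; ring
    rw [ip_sub_left, ip_smul_left, h5, ← sz_sq hz, ip_self]
    have h6 : ((‖z‖ ^ 2 : ℝ) : ℂ) = 1 - (sz z : ℂ) ^ 2 := by
      have := sz_sq hz
      have h7 : ‖z‖ ^ 2 = 1 - sz z ^ 2 := by linarith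
      rw [h7]; push_cast; rfl
    rw [h6]
    push_cast
    field_simp
    ring
  rw [h3] at h2
  rw [h0, LinearMap.det_smul]
  have hfin : Module.finrank ℂ (E n) = n := by simp
  rw [hfin]
  have h4 : LinearMap.det ((-(sz z : ℂ)) • LinearMap.id +
      (ipL z : E n →ₗ[ℂ] ℂ).smulRight (aut z x - (1 + (sz z : ℂ))⁻¹ • z)) =
      (-(sz z : ℂ)) ^ n * ((sz z : ℂ) / (1 - ip x z)) := by
    have h5 : (-(sz z : ℂ)) ≠ 0 := neg_ne_zero.2 hs
    apply mul_left_cancel₀ h5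
    rw [h2]
    field_simp
    ring
  rw [h4, inv_pow, pow_succ]
  field_simp

lemma norm_det_autD {z x : E n} (hz : ‖z‖ < 1) (hx : ‖x‖ ≤ 1) :
    ‖LinearMap.det (autD z x : E n →ₗ[ℂ] E n)‖ =
      (sz z) ^ (n + 1) / ‖1 - ip x z‖ ^ (n + 1) := by
  rw [det_autD hz hx]
  have := sz_pos hz
  simp only [norm_div, norm_mul, norm_pow, norm_neg, Complex.norm_real, Real.norm_eq_abs,
    abs_of_pos this]
  rw [← pow_succ]

end Pool.Agent.Ball44
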