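import Mathlib
import Pool.Agent.Helper44_Ball.Basic

/-! Holomorphic change of variables, mean value property and reproducing formula on the ball. -/

set_option autoImplicit false
open Set Metric Filter Topology MeasureTheory

namespace Pool.Agent.Ball44

variable {n : ℕ}

lemma abs_det_real (A : E n →L[ℂ] E n) :
    |(A.restrictScalars ℝ).det| = ‖LinearMap.det (A : E n →ₗ[ℂ] E n)‖ ^ 2 := by
  have h : (A.restrictScalars ℝ).det = LinearMap.det ((A : E n →ₗ[ℂ] E n).restrictScalars ℝ) := rfl
  rw [h, LinearMap.det_restrictScalars, Algebra.norm_complex_apply, Complex.normSq_eq_norm_sq,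
    abs_of_nonneg (by positivity)]

variable {F : Type*} [NormedAddCommGroup F] [NormedSpace ℝ F]

/-- Holomorphic change of variables. -/
lemma integral_image_holo {s : Set (E n)} {f : E n → E n} {f' : E n → E n →L[ℂ] E n}
    (hs : MeasurableSet s) (hf' : ∀ x ∈ s, HasFDerivAt f (f' x) x) (hf : InjOn f s)
    (g : E n → F) :
    ∫ x in f '' s, g x = ∫ x in s, (‖LinearMap.det (f' x : E n →ₗ[ℂ] E n)‖ ^ 2) • g (f x) := by
  rw [integral_image_eq_integral_abs_det_fderiv_smul volume hs
    (f' := fun x => (f' x).restrictScalars ℝ)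
    (fun x hx => ((hf' x hx).restrictScalars ℝ).hasFDerivWithinAt) hf g]
  simp only [abs_det_real]

lemma integrableOn_image_holo {s : Set (E n)} {f : E n → E n} {f' : E n → E n →L[ℂ] E n}
    (hs : MeasurableSet s) (hf' : ∀ x ∈ s, HasFDerivAt f (f' x) x) (hf : InjOn f s)
    (g : E n → F) :
    IntegrableOn g (f '' s) ↔
      IntegrableOn (fun x => (‖LinearMap.det (f' x : E n →ₗ[ℂ] E n)‖ ^ 2) • g (f x)) s := by
  rw [integrableOn_image_iff_integrableOn_abs_det_fderiv_smul volume hs
    (f' := fun x => (f' x).restrictScalars ℝ)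
    (fun x hx => ((hf' x hx).restrictScalars ℝ).hasFDerivWithinAt) hf g]
  simp only [abs_det_real]

lemma lintegral_image_holo {s : Set (E n)} {f : E n → E n} {f' : E n → E n →L[ℂ] E n}
    (hs : MeasurableSet s) (hf' : ∀ x ∈ s, HasFDerivAt f (f' x) x) (hf : InjOn f s)
    (g : E n → ENNReal) :
    ∫⁻ x in f '' s, g x = ∫⁻ x in s,
      ENNReal.ofReal (‖LinearMap.det (f' x : E n →ₗ[ℂ] E n)‖ ^ 2) * g (f x) := by
  rw [lintegral_image_eq_lintegral_abs_det_fderiv_mul volume hs
    (f' := fun x => (f' x).restrictScalars ℝ)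
    (fun x hx => ((hf' x hx).restrictScalars ℝ).hasFDerivWithinAt) hf g]
  simp only [abs_det_real]

/-- Rotation invariance of the ball. -/
lemma smul_image_ball {c : ℂ} (hc : ‖c‖ = 1) :
    (fun w : E n => c • w) '' ball 0 1 = ball 0 1 := by
  have hc0 : c ≠ 0 := by
    intro h; rw [h, norm_zero] at hc; norm_num at hc
  apply Subset.antisymm
  · rintro _ ⟨x, hx, rfl⟩
    rw [mem_ball_zero_iff] at hx ⊢
    simpa [norm_smul, hc] using hx
  · intro x hx
    rw [mem_ball_zero_iff] at hx
    refine ⟨c⁻¹ • x, ?_, ?_⟩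
    · rw [mem_ball_zero_iff, norm_smul, norm_inv, hc]
      simpa using hx
    · simp [smul_smul, hc0]

lemma hasFDerivAt_smul_const (c : ℂ) (x : E n) :
    HasFDerivAt (fun w : E n => c • w) (c • ContinuousLinearMap.id ℂ (E n)) x :=
  (c • ContinuousLinearMap.id ℂ (E n)).hasFDerivAt

lemma det_smul_id (c : ℂ) :
    LinearMap.det ((c • ContinuousLinearMap.id ℂ (E n) : E n →L[ℂ] E n) : E n →ₗ[ℂ] E n) =
      c ^ n := by
  have : ((c • ContinuousLinearMap.id ℂ (E n) : E n →L[ℂ] E n) : E n →ₗ[ℂ] E n) =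
    c • LinearMap.id := rfl
  rw [this, LinearMap.det_smul, LinearMap.det_id]
  simp

lemma injective_smul_const {c : ℂ} (hc0 : c ≠ 0) (s : Set (E n)) :
    InjOn (fun w : E n => c • w) s := fun x _ y _ h => by
  simpa [hc0] using h

lemma integral_ball_rot {c : ℂ} (hc : ‖c‖ = 1) (g : E n → F) :
    ∫ w in ball (0 : E n) 1, g (c • w) = ∫ w in ball (0 : E n) 1, g w := by
  have hc0 : c ≠ 0 := by
    intro h; rw [h, norm_zero] at hc; norm_num at hc
  have h := integral_image_holo (s := ball (0 : E n) 1) (f := fun w => c • w)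
    (f' := fun _ => c • ContinuousLinearMap.id ℂ (E n)) measurableSet_ball
    (fun x _ => hasFDerivAt_smul_const c x) (injective_smul_const hc0 _) g
  rw [smul_image_ball hc] at h
  rw [h]
  simp only [det_smul_id, norm_pow, hc, one_pow, one_smul]

lemma integrableOn_ball_rot {c : ℂ} (hc : ‖c‖ = 1) {g : E n → F}
    (hg : IntegrableOn g (ball (0 : E n) 1)) :
    IntegrableOn (fun w => g (c • w)) (ball (0 : E n) 1) := by
  have hc0 : c ≠ 0 := by
    intro h; rw [h, norm_zero] at hc; norm_num at hc
  have h := integrableOn_image_holo (s := ball (0 : E n) 1) (f := fun w => c • w)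
    (f' := fun _ => c • ContinuousLinearMap.id ℂ (E n)) measurableSet_ball
    (fun x _ => hasFDerivAt_smul_const c x) (injective_smul_const hc0 _) g
  rw [smul_image_ball hc] at h
  simpa only [det_smul_id, norm_pow, hc, one_pow, one_smul] using h.1 hg

/-- Volume of the ball. -/
noncomputable def vb (n : ℕ) : ℝ := volume.real (ball (0 : E n) 1)

lemma vb_pos (n : ℕ) : 0 < vb n := by
  unfold vb
  rw [measureReal_def]
  exact ENNReal.toReal_pos (measure_ball_pos volume (0 : E n) one_pos).ne' measure_ball_lt_top.ne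

/-- Mean value property on the ball. -/
theorem mean_value_ball {f : E n → ℂ} (hf : DifferentiableOn ℂ f (ball 0 1))
    (hi : IntegrableOn f (ball 0 1)) :
    ∫ w in ball (0 : E n) 1, f w = vb n * f 0 := by
  have hcm : ∀ θ : ℝ, ‖circleMap 0 1 θ‖ = 1 := fun θ => by simp
  -- the double integral
  have hprod : Integrable (Function.uncurry fun (θ : ℝ) (w : E n) => f (circleMap 0 1 θ • w))
      ((volume.restrict (Ioc 0 (2 * Real.pi))).prod (volume.restrict (ball (0 : E n) 1))) := by
    have hmeas : AEStronglyMeasurable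
        (Function.uncurry fun (θ : ℝ) (w : E n) => f (circleMap 0 1 θ • w))
        ((volume.restrict (Ioc 0 (2 * Real.pi))).prod (volume.restrict (ball (0 : E n) 1))) := by
      rw [Measure.prod_restrict]
      refine ContinuousOn.aestronglyMeasurable ?_ (measurableSet_Ioc.prod measurableSet_ball)
      refine hf.continuousOn.comp ?_ ?_
      · exact (((continuous_circleMap 0 1).comp continuous_fst).smul
          continuous_snd).continuousOn
      · rintro ⟨θ, w⟩ ⟨_, hw⟩
        simp only [mem_ball_zero_iff] at hw ⊢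
        rw [norm_smul, hcm, one_mul]
        exact hw
    rw [integrable_prod_iff hmeas]
    refine ⟨Eventually.of_forall fun θ => integrableOn_ball_rot (hcm θ) hi, ?_⟩
    simp only [Function.uncurry_apply_pair]
    have : (fun θ : ℝ => ∫ w in ball (0 : E n) 1, ‖f (circleMap 0 1 θ • w)‖) =
        fun _ => ∫ w in ball (0 : E n) 1, ‖f w‖ := by
      funext θ
      exact integral_ball_rot (hcm θ) (fun w => ‖f w‖)
    rw [this]
    exact integrable_const _
  have hswap := integral_integral_swap hprod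
  have h1 : ∀ θ : ℝ, ∫ w in ball (0 : E n) 1, f (circleMap 0 1 θ • w) =
      ∫ w in ball (0 : E n) 1, f w := fun θ => integral_ball_rot (hcm θ) f
  have h2 : ∀ w ∈ ball (0 : E n) 1, ∫ θ in Ioc 0 (2 * Real.pi), f (circleMap 0 1 θ • w) =
      2 * Real.pi * f 0 := by
    intro w hw
    rw [mem_ball_zero_iff] at hw
    rw [← intervalIntegral.integral_of_le (by positivity)]
    have hd : DiffContOnCl ℂ (fun c : ℂ => f (c • w)) (ball 0 |(1 : ℝ)|) := by
      apply DifferentiableOn.diffContOnCl
      rw [abs_one, closure_ball (0 : ℂ) one_ne_zero]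
      intro c hc
      rw [mem_closedBall_zero_iff] at hc
      have hcw : c • w ∈ ball (0 : E n) 1 := by
        rw [mem_ball_zero_iff, norm_smul]
        nlinarith [norm_nonneg w]
      refine DifferentiableAt.differentiableWithinAt ?_
      exact ((hf _ hcw).differentiableAt (isOpen_ball.mem_nhds hcw)).comp c (by fun_prop)
    have hc := hd.circleAverage
    rw [Real.circleAverage_def, zero_smul] at hc
    rw [← hc]
    simp only [Complex.real_smul]
    push_cast
    have : (2 * (Real.pi : ℂ)) ≠ 0 := by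
      exact_mod_cast (by positivity : (2 * Real.pi) ≠ 0)
    rw [mul_inv_cancel_left₀ this]
  rw [setIntegral_congr_fun measurableSet_ball h2] at hswap
  simp only [h1] at hswap
  rw [setIntegral_const, setIntegral_const, measureReal_def, Real.volume_Ioc] at hswap
  have h3 : (2 * (Real.pi : ℂ)) ≠ 0 := by
    exact_mod_cast (by positivity : (2 * Real.pi) ≠ 0)
  have h4 : (ENNReal.ofReal (2 * Real.pi - 0)).toReal = 2 * Real.pi := by
    rw [sub_zero, ENNReal.toReal_ofReal (by positivity)]
  rw [h4] at hswap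
  simp only [Complex.real_smul] at hswap
  push_cast at hswap
  apply mul_left_cancel₀ h3
  rw [hswap]
  unfold vb
  ring

lemma continuous_ip_left (w : E n) : Continuous fun z => ip z w := (ipL w).continuous

lemma continuous_ip_right (z : E n) : Continuous fun w => ip z w := by
  have : (fun w => ip z w) = fun w => (starRingEnd ℂ) (ip w z) := by
    funext w; rw [ip_conj]
  rw [this]
  exact Complex.continuous_conj.comp (continuous_ip_left z)

/-- The Bergman kernel (up to a constant). -/
noncomputable def ker (z w : E n) : ℂ := ((1 - ip z w) ^ (n + 1))⁻¹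

lemma norm_ker (z w : E n) : ‖ker z w‖ = (‖1 - ip z w‖ ^ (n + 1))⁻¹ := by
  unfold ker
  rw [norm_inv, norm_pow]

lemma conj_ker (z w : E n) : (starRingEnd ℂ) (ker z w) = ker w z := by
  unfold ker
  rw [map_inv₀, map_pow, map_sub, map_one, ip_conj]

lemma norm_ker_le {z w : E n} (hz : ‖z‖ < 1) (hw : ‖w‖ ≤ 1) :
    ‖ker z w‖ ≤ ((1 - ‖z‖) ^ (n + 1))⁻¹ := by
  rw [norm_ker]
  have h1 : 0 < 1 - ‖z‖ := by linarith
  have h2 := norm_one_sub_ip_ge_left (x := z) hw
  gcongr

lemma continuousOn_ker_right {z : E n} (hz : ‖z‖ < 1) :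
    ContinuousOn (fun w => ker z w) (closedBall 0 1) := by
  unfold ker
  refine ContinuousOn.inv₀ ?_ ?_
  · exact ((continuous_const.sub (continuous_ip_right z)).pow _).continuousOn
  · intro w hw
    rw [mem_closedBall_zero_iff] at hw
    exact pow_ne_zero _ (one_sub_ip_ne_zero_left hz hw)

lemma differentiableOn_ker_left {w : E n} (hw : ‖w‖ ≤ 1) :
    DifferentiableOn ℂ (fun z => ker z w) (ball 0 1) := by
  intro z hz
  rw [mem_ball_zero_iff] at hz
  have h1 : DifferentiableAt ℂ (fun z => (1 - ip z w) ^ (n + 1)) z :=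
    (((ipL w).differentiableAt (x := z)).const_sub 1).pow _
  exact (h1.inv (pow_ne_zero _ (one_sub_ip_ne_zero_left hz hw))).differentiableWithinAt

lemma integrableOn_mul_ker {f : E n → ℂ} (hi : IntegrableOn f (ball 0 1)) {z : E n}
    (hz : ‖z‖ < 1) : IntegrableOn (fun w => f w * ker z w) (ball 0 1) := by
  refine Integrable.mul_bdd (c := ((1 - ‖z‖) ^ (n + 1))⁻¹) hi ?_ ?_
  · exact ((continuousOn_ker_right hz).mono ball_subset_closedBall).aestronglyMeasurable
      measurableSet_ball
  · refine (ae_restrict_iff' measurableSet_ball).2 (Eventually.of_forall fun w hw => ?_)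
    rw [mem_ball_zero_iff] at hw
    exact norm_ker_le hz hw.le

lemma aut_kernel_identity {z x : E n} (hz : ‖z‖ < 1) (hx : ‖x‖ < 1) :
    ((‖LinearMap.det (autD z x : E n →ₗ[ℂ] E n)‖ ^ 2 : ℝ) : ℂ) * ker (aut z x) z = ker z x := by
  have h1 : 1 - ip x z ≠ 0 := one_sub_ip_ne_zero_right hx.le hz
  have h1' : 1 - ip z x ≠ 0 := one_sub_ip_ne_zero_right hz.le hx
  have hs := sz_pos hz
  have hs' : (sz z : ℂ) ≠ 0 := by exact_mod_cast hs.ne'
  have h2 : ((‖1 - ip x z‖ : ℝ) : ℂ) ^ 2 = (1 - ip x z) * (1 - ip z x) := by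
    have h3 : 1 - ip z x = (starRingEnd ℂ) (1 - ip x z) := by
      rw [map_sub, map_one, ip_conj]
    rw [h3, Complex.mul_conj, Complex.normSq_eq_norm_sq]
    push_cast
    rfl
  rw [norm_det_autD hz hx.le]
  unfold ker
  rw [one_sub_aut hz hx.le, ← sz_sq hz]
  push_cast
  have h4 : (((sz z : ℂ) ^ (n + 1) / ((‖1 - ip x z‖ : ℝ) : ℂ) ^ (n + 1)) ^ 2) =
      ((sz z : ℂ) ^ 2) ^ (n + 1) / (((1 - ip x z) * (1 - ip z x)) ^ (n + 1)) := by
    rw [← h2, div_pow, ← pow_mul, ← pow_mul, ← pow_mul, ← pow_mul, mul_comm (n + 1) 2]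
  rw [h4, div_pow, mul_pow]
  have h5 : ((sz z : ℂ) ^ 2) ^ (n + 1) ≠ 0 := pow_ne_zero _ (pow_ne_zero _ hs')
  have h6 : (1 - ip x z) ^ (n + 1) ≠ 0 := pow_ne_zero _ h1
  have h7 : (1 - ip z x) ^ (n + 1) ≠ 0 := pow_ne_zero _ h1'
  field_simp

/-- Reproducing formula of the Bergman kernel for integrable holomorphic functions. -/
theorem reproducing {f : E n → ℂ} (hf : DifferentiableOn ℂ f (ball 0 1))
    (hi : IntegrableOn f (ball 0 1)) {z : E n} (hz : ‖z‖ < 1) :
    ∫ w in ball (0 : E n) 1, f w * ker z w = vb n * f z := by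
  set G : E n → ℂ := fun w => f (aut z w) * ker w z with hG
  have hGd : DifferentiableOn ℂ G (ball 0 1) := by
    refine DifferentiableOn.mul ?_ (differentiableOn_ker_left hz.le)
    intro w hw
    have hw' := hw
    rw [mem_ball_zero_iff] at hw
    have h1 : aut z w ∈ ball (0 : E n) 1 := by
      rw [mem_ball_zero_iff]; exact aut_mem_ball hz hw
    exact (((hf _ h1).differentiableAt (isOpen_ball.mem_nhds h1)).comp w
      (hasFDerivAt_aut hz hw.le).differentiableAt).differentiableWithinAt
  have hcalc : ∀ x ∈ ball (0 : E n) 1,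
      (‖LinearMap.det (autD z x : E n →ₗ[ℂ] E n)‖ ^ 2) • G (aut z x) = f x * ker z x := by
    intro x hx
    rw [mem_ball_zero_iff] at hx
    simp only [hG, aut_aut hz hx.le, Complex.real_smul]
    rw [← aut_kernel_identity hz hx]
    ring
  have hint : IntegrableOn G (ball 0 1) := by
    have h := integrableOn_image_holo (s := ball (0 : E n) 1) (f := aut z) (f' := autD z)
      measurableSet_ball (fun x hx => hasFDerivAt_aut hz (mem_ball_zero_iff.1 hx).le)
      (aut_injOn hz) G
    rw [aut_image_ball hz] at h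
    rw [h]
    exact (integrableOn_congr_fun hcalc measurableSet_ball).2 (integrableOn_mul_ker hi hz)
  have h1 := mean_value_ball hGd hint
  have h2 := integral_image_holo (s := ball (0 : E n) 1) (f := aut z) (f' := autD z)
      measurableSet_ball (fun x hx => hasFDerivAt_aut hz (mem_ball_zero_iff.1 hx).le)
      (aut_injOn hz) G
  rw [aut_image_ball hz, setIntegral_congr_fun measurableSet_ball hcalc] at h2
  rw [← h2, h1]
  simp [hG, aut_zero, ker]

end Pool.Agent.Ball44
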