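import Mathlib
import Pool.Agent.Helper44_Ball.Basic

/-! Schwarz type estimates for holomorphic discs in the ball. -/

set_option autoImplicit false
open Set Metric Filter Topology

namespace Pool.Agent.Ball44

variable {n : ℕ}

lemma re_bound_aux {a b : ℂ} {k : ℝ} (ha : 0 < a.re) (hb : 0 < b.re) (hk0 : 0 ≤ k) (hk : k ≤ 1)
    (h : ‖a - b‖ ≤ k * ‖a + (starRingEnd ℂ) b‖) : a.re * (1 - k) ≤ b.re * (1 + k) := by
  have h1 : ‖a - b‖ ^ 2 ≤ (k * ‖a + (starRingEnd ℂ) b‖) ^ 2 := by gcongr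
  rw [mul_pow, ← Complex.normSq_eq_norm_sq, ← Complex.normSq_eq_norm_sq, Complex.normSq_apply,
    Complex.normSq_apply] at h1
  simp only [Complex.sub_re, Complex.sub_im, Complex.add_re, Complex.add_im, Complex.conj_re,
    Complex.conj_im] at h1
  have h2 : (a.re - b.re) ^ 2 ≤ (k * (a.re + b.re)) ^ 2 := by
    have hk2 : k ^ 2 ≤ 1 := by nlinarith
    nlinarith [sq_nonneg (a.im - b.im)]
  have h3 := abs_le_of_sq_le_sq' h2 (by positivity)
  linarith [h3.2]

/-- Harnack and Schwarz estimates in a disc. -/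
lemma harnack_disc {F : ℂ → ℂ} {c : ℂ} {R : ℝ} (hF : DifferentiableOn ℂ F (ball c R))
    (hpos : ∀ ζ ∈ ball c R, 0 < (F ζ).re) {ζ : ℂ} (hζ : ζ ∈ ball c R) :
    (F ζ).re * (R - ‖ζ - c‖) ≤ (F c).re * (R + ‖ζ - c‖) ∧
    (F c).re * (R - ‖ζ - c‖) ≤ (F ζ).re * (R + ‖ζ - c‖) := by
  have hR : 0 < R := (dist_nonneg).trans_lt (mem_ball.1 hζ)
  have hζ' : ‖ζ - c‖ < R := by rwa [mem_ball, dist_eq_norm] at hζ
  have hc : c ∈ ball c R := mem_ball_self hR
  set G : ℂ → ℂ := fun w => (F w - F c) / (F w + (starRingEnd ℂ) (F c)) with hG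
  have hden : ∀ w ∈ ball c R, F w + (starRingEnd ℂ) (F c) ≠ 0 := by
    intro w hw h
    have h1 := congrArg Complex.re h
    simp only [Complex.add_re, Complex.conj_re, Complex.zero_re] at h1
    have := hpos w hw
    have := hpos c hc
    linarith
  have hGd : DifferentiableOn ℂ G (ball c R) :=
    (hF.sub_const _).div (hF.add_const _) hden
  have hG0 : G c = 0 := by simp [hG]
  have hGm : MapsTo G (ball c R) (closedBall (G c) 1) := by
    intro w hw
    rw [hG0, mem_closedBall_zero_iff, hG]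
    simp only
    rw [norm_div, div_le_one (norm_pos_iff.2 (hden w hw))]
    apply le_of_sq_le_sq _ (norm_nonneg _)
    rw [← Complex.normSq_eq_norm_sq, ← Complex.normSq_eq_norm_sq, Complex.normSq_apply,
      Complex.normSq_apply]
    simp only [Complex.sub_re, Complex.sub_im, Complex.add_re, Complex.add_im, Complex.conj_re,
      Complex.conj_im]
    nlinarith [hpos w hw, hpos c hc, mul_pos (hpos w hw) (hpos c hc)]
  have hS := Complex.dist_le_div_mul_dist_of_mapsTo_ball hGd hGm hζ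
  rw [hG0, dist_zero_right, dist_eq_norm] at hS
  have hk0 : 0 ≤ ‖ζ - c‖ / R := by positivity
  have hk1 : ‖ζ - c‖ / R ≤ 1 := by rw [div_le_one hR]; exact hζ'.le
  have hS2 : ‖F ζ - F c‖ ≤ (‖ζ - c‖ / R) * ‖F ζ + (starRingEnd ℂ) (F c)‖ := by
    have h1 : ‖G ζ‖ = ‖F ζ - F c‖ / ‖F ζ + (starRingEnd ℂ) (F c)‖ := norm_div _ _
    rw [h1, div_le_iff₀ (norm_pos_iff.2 (hden ζ hζ))] at hS
    calc _ ≤ _ := hS
      _ = _ := by ring
  have hS3 : ‖F c - F ζ‖ ≤ (‖ζ - c‖ / R) * ‖F c + (starRingEnd ℂ) (F ζ)‖ := by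
    have e1 : ‖F c - F ζ‖ = ‖F ζ - F c‖ := norm_sub_rev _ _
    have e2 : ‖F c + (starRingEnd ℂ) (F ζ)‖ = ‖F ζ + (starRingEnd ℂ) (F c)‖ := by
      rw [← RCLike.norm_conj (F c + (starRingEnd ℂ) (F ζ)), map_add, Complex.conj_conj, add_comm]
    rw [e1, e2]
    exact hS2
  have a1 := re_bound_aux (hpos ζ hζ) (hpos c hc) hk0 hk1 hS2
  have a2 := re_bound_aux (hpos c hc) (hpos ζ hζ) hk0 hk1 hS3
  constructor
  · have := mul_le_mul_of_nonneg_right a1 hR.le
    have e1 : (F ζ).re * (1 - ‖ζ - c‖ / R) * R = (F ζ).re * (R - ‖ζ - c‖) := by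
      field_simp
    have e2 : (F c).re * (1 + ‖ζ - c‖ / R) * R = (F c).re * (R + ‖ζ - c‖) := by
      field_simp
    linarith
  · have := mul_le_mul_of_nonneg_right a2 hR.le
    have e1 : (F c).re * (1 - ‖ζ - c‖ / R) * R = (F c).re * (R - ‖ζ - c‖) := by
      field_simp
    have e2 : (F ζ).re * (1 + ‖ζ - c‖ / R) * R = (F ζ).re * (R + ‖ζ - c‖) := by
      field_simp
    linarith

/-- Derivative bound for functions with positive real part. -/
lemma norm_deriv_le_of_re_pos {F : ℂ → ℂ} {c : ℂ} {R : ℝ} (hR : 0 < R)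
    (hF : DifferentiableOn ℂ F (ball c R)) (hpos : ∀ ζ ∈ ball c R, 0 < (F ζ).re) :
    ‖deriv F c‖ ≤ 2 * (F c).re / R := by
  have hc : c ∈ ball c R := mem_ball_self hR
  set G : ℂ → ℂ := fun w => (F w - F c) / (F w + (starRingEnd ℂ) (F c)) with hG
  have hden : ∀ w ∈ ball c R, F w + (starRingEnd ℂ) (F c) ≠ 0 := by
    intro w hw h
    have h1 := congrArg Complex.re h
    simp only [Complex.add_re, Complex.conj_re, Complex.zero_re] at h1
    have := hpos w hw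
    have := hpos c hc
    linarith
  have hGd : DifferentiableOn ℂ G (ball c R) :=
    (hF.sub_const _).div (hF.add_const _) hden
  have hG0 : G c = 0 := by simp [hG]
  have hGm : MapsTo G (ball c R) (closedBall (G c) 1) := by
    intro w hw
    rw [hG0, mem_closedBall_zero_iff, hG]
    simp only
    rw [norm_div, div_le_one (norm_pos_iff.2 (hden w hw))]
    apply le_of_sq_le_sq _ (norm_nonneg _)
    rw [← Complex.normSq_eq_norm_sq, ← Complex.normSq_eq_norm_sq, Complex.normSq_apply,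
      Complex.normSq_apply]
    simp only [Complex.sub_re, Complex.sub_im, Complex.add_re, Complex.add_im, Complex.conj_re,
      Complex.conj_im]
    nlinarith [hpos w hw, hpos c hc, mul_pos (hpos w hw) (hpos c hc)]
  have hS := Complex.norm_deriv_le_div_of_mapsTo_ball hGd hGm hR
  have hFd : HasDerivAt F (deriv F c) c :=
    ((hF c hc).differentiableAt (isOpen_ball.mem_nhds hc)).hasDerivAt
  have hGderiv : HasDerivAt G (deriv F c / (F c + (starRingEnd ℂ) (F c))) c := by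
    have h1 := (hFd.sub_const (F c)).div (hFd.add_const ((starRingEnd ℂ) (F c))) (hden c hc)
    refine h1.congr_deriv ?_
    have := hden c hc
    simp only [sub_self, zero_mul, sub_zero]
    field_simp
  rw [hGderiv.deriv, norm_div, Complex.add_conj] at hS
  have h2 : ‖((2 * (F c).re : ℝ) : ℂ)‖ = 2 * (F c).re := by
    rw [Complex.norm_real, Real.norm_eq_abs, abs_of_pos]
    have := hpos c hc
    linarith
  rw [h2, div_le_div_iff₀ (by have := hpos c hc; linarith) hR] at hS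
  rw [le_div_iff₀ hR]
  linarith

lemma norm_sub_unit_sq_le {x y : E n} (hx : ‖x‖ ≤ 1) (hy : ‖y‖ = 1) :
    ‖x - y‖ ^ 2 ≤ 2 * (1 - ip x y).re := by
  rw [norm_sq_sub, hy]
  simp only [Complex.sub_re, Complex.one_re]
  nlinarith [norm_nonneg x]

/-- There is a unit vector in the direction of `x` (needs `n ≠ 0`). -/
lemma exists_unit {x : E n} (hn : 0 < n) : ∃ y : E n, ‖y‖ = 1 ∧ x = (‖x‖ : ℂ) • y := by
  by_cases hx : x = 0
  · refine ⟨EuclideanSpace.single ⟨0, hn⟩ 1, by simp, by simp [hx]⟩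
  · refine ⟨((‖x‖ : ℂ)⁻¹) • x, ?_, ?_⟩
    · rw [norm_smul, norm_inv, Complex.norm_real, norm_norm,
        inv_mul_cancel₀ (norm_ne_zero_iff.2 hx)]
    · rw [smul_smul, mul_inv_cancel₀, one_smul]
      exact_mod_cast norm_ne_zero_iff.2 hx

lemma re_one_sub_unit {x y : E n} (hy : ‖y‖ = 1) (hxy : x = (‖x‖ : ℂ) • y) :
    (1 - ip x y).re = 1 - ‖x‖ := by
  have h : ip x y = (‖x‖ : ℂ) := by
    nth_rewrite 1 [hxy]
    rw [ip_smul_left, ip_self, hy]
    simp
  rw [h]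
  simp

variable {f : ℂ → E n} {c : ℂ} {R : ℝ}

lemma disc_re_pos (hm : ∀ ζ ∈ ball c R, ‖f ζ‖ < 1) {y : E n} (hy : ‖y‖ = 1) :
    ∀ ζ ∈ ball c R, 0 < (1 - ip (f ζ) y).re := by
  intro ζ hζ
  have := re_one_sub_ip_ge (f ζ) y
  have := hm ζ hζ
  rw [hy, mul_one] at *
  linarith

lemma disc_ip_diff (hd : DifferentiableOn ℂ f (ball c R)) (y : E n) :
    DifferentiableOn ℂ (fun ζ => 1 - ip (f ζ) y) (ball c R) :=
  ((ipL y).differentiable.comp_differentiableOn hd).const_sub 1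

lemma disc_deriv_ip (hR : 0 < R) (hd : DifferentiableOn ℂ f (ball c R))
    (hm : ∀ ζ ∈ ball c R, ‖f ζ‖ < 1) {y : E n} (hy : ‖y‖ = 1) (hfy : f c = (‖f c‖ : ℂ) • y) :
    ‖ip (deriv f c) y‖ ≤ 2 * (1 - ‖f c‖) / R := by
  have hc : c ∈ ball c R := mem_ball_self hR
  have h1 := norm_deriv_le_of_re_pos hR (disc_ip_diff hd y) (disc_re_pos hm hy)
  have h2 : HasDerivAt (fun ζ => 1 - ip (f ζ) y) (-(ip (deriv f c) y)) c := by
    have hfd : HasDerivAt f (deriv f c) c :=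
      ((hd c hc).differentiableAt (isOpen_ball.mem_nhds hc)).hasDerivAt
    exact ((ipL y).hasFDerivAt.comp_hasDerivAt c hfd).const_sub 1
  rw [h2.deriv, norm_neg, re_one_sub_unit hy hfy] at h1
  exact h1

lemma disc_deriv (hn : 0 < n) (hR : 0 < R) (hd : DifferentiableOn ℂ f (ball c R))
    (hm : ∀ ζ ∈ ball c R, ‖f ζ‖ < 1) :
    ‖deriv f c‖ ≤ 10 * Real.sqrt (1 - ‖f c‖) / R := by
  obtain ⟨y, hy, hfy⟩ := exists_unit (x := f c) hn
  have hc : c ∈ ball c R := mem_ball_self hR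
  have h6 : 0 < 1 - ‖f c‖ := by linarith [hm c hc]
  have h1 : ∀ ζ ∈ ball c (R / 2), ‖f ζ - y‖ ≤ Real.sqrt (6 * (1 - ‖f c‖)) := by
    intro ζ hζ
    have hζ' : ζ ∈ ball c R := ball_subset_ball (by linarith) hζ
    have hh := (harnack_disc (disc_ip_diff hd y) (disc_re_pos hm hy) hζ').1
    rw [re_one_sub_unit hy hfy] at hh
    have hz : ‖ζ - c‖ < R / 2 := by rwa [mem_ball, dist_eq_norm] at hζ
    have hp := disc_re_pos hm hy ζ hζ'
    have h3 : (1 - ip (f ζ) y).re ≤ 3 * (1 - ‖f c‖) := by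
      have e1 : (1 - ip (f ζ) y).re * (R / 2) ≤ (1 - ip (f ζ) y).re * (R - ‖ζ - c‖) :=
        mul_le_mul_of_nonneg_left (by linarith) hp.le
      have e2 : (1 - ‖f c‖) * (R + ‖ζ - c‖) ≤ (1 - ‖f c‖) * (3 * R / 2) :=
        mul_le_mul_of_nonneg_left (by linarith) h6.le
      have e3 : (1 - ip (f ζ) y).re * (R / 2) ≤ (3 * (1 - ‖f c‖)) * (R / 2) := by linarith
      exact le_of_mul_le_mul_right e3 (by positivity)
    apply Real.le_sqrt_of_sq_le
    have := norm_sub_unit_sq_le (hm ζ hζ').le hy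
    linarith
  have hmaps : MapsTo f (ball c (R / 2)) (closedBall (f c) (2 * Real.sqrt (6 * (1 - ‖f c‖)))) := by
    intro ζ hζ
    rw [mem_closedBall, dist_eq_norm]
    have e1 := h1 ζ hζ
    have e2 := h1 c (mem_ball_self (by positivity))
    calc ‖f ζ - f c‖ = ‖(f ζ - y) - (f c - y)‖ := by congr 1; abel
      _ ≤ ‖f ζ - y‖ + ‖f c - y‖ := norm_sub_le _ _
      _ ≤ _ := by linarith
  have h2 := Complex.norm_deriv_le_div_of_mapsTo_ball (hd.mono (ball_subset_ball (by linarith)))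
    hmaps (by positivity)
  refine h2.trans ?_
  rw [Real.sqrt_mul (by norm_num)]
  have h7 : Real.sqrt 6 ≤ 5 / 2 := by
    rw [show (5 / 2 : ℝ) = Real.sqrt ((5 / 2) ^ 2) by rw [Real.sqrt_sq (by norm_num)]]
    exact Real.sqrt_le_sqrt (by norm_num)
  rw [div_le_div_iff₀ (by positivity) hR]
  have h8 := Real.sqrt_nonneg (1 - ‖f c‖)
  nlinarith [mul_nonneg h8 hR.le]

/-- Harnack's inequality for `1 - |f|`. -/
lemma disc_harnack (hn : 0 < n) (hd : DifferentiableOn ℂ f (ball c R))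
    (hm : ∀ ζ ∈ ball c R, ‖f ζ‖ < 1) {ζ : ℂ} (hζ : ζ ∈ ball c R) :
    (1 - ‖f c‖) * (R - ‖ζ - c‖) ≤ (1 - ‖f ζ‖) * (R + ‖ζ - c‖) := by
  obtain ⟨y, hy, hfy⟩ := exists_unit (x := f ζ) hn
  have hz : ‖ζ - c‖ < R := by rwa [mem_ball, dist_eq_norm] at hζ
  have hh := (harnack_disc (disc_ip_diff hd y) (disc_re_pos hm hy) hζ).2
  rw [re_one_sub_unit hy hfy] at hh
  have h1 : 1 - ‖f c‖ ≤ (1 - ip (f c) y).re := by
    have := re_one_sub_ip_ge (f c) y
    rwa [hy, mul_one] at this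
  have h2 : (1 - ‖f c‖) * (R - ‖ζ - c‖) ≤ (1 - ip (f c) y).re * (R - ‖ζ - c‖) :=
    mul_le_mul_of_nonneg_right h1 (by linarith)
  linarith

end Pool.Agent.Ball44
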