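import Mathlib
import Pool.Agent.Helper44_Ball.Schwarz
import Pool.Agent.Helper44_Ball.MeanValue
import Pool.Agent.Helper23_Squeeze.Holo

/-! The setting: a bounded domain with `C²` defining function, biholomorphic to the ball. -/

set_option autoImplicit false
set_option maxSynthPendingDepth 3
open Set Metric Filter Topology MeasureTheory

namespace Pool.Agent.Ball44

variable {n : ℕ}

/-- The data of the problem. -/
structure Setup (n : ℕ) (ρ : E n → ℝ) (φ ψ : E n → E n) : Prop where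
  hn : 0 < n
  smooth : ContDiff ℝ 2 ρ
  bdd : Bornology.IsBounded {z | ρ z < 0}
  grad : ∀ z, ρ z = 0 → fderiv ℝ ρ z ≠ 0
  hφ : DifferentiableOn ℂ φ (ball 0 1)
  hψ : DifferentiableOn ℂ ψ {z | ρ z < 0}
  mφ : MapsTo φ (ball 0 1) {z | ρ z < 0}
  mψ : MapsTo ψ {z | ρ z < 0} (ball 0 1)
  left : ∀ z ∈ ball (0 : E n) 1, ψ (φ z) = z
  right : ∀ w ∈ {z | ρ z < 0}, φ (ψ w) = w

/-- Jacobian determinant. -/
noncomputable def jac (φ : E n → E n) (z : E n) : ℂ :=
  LinearMap.det (fderiv ℂ φ z : E n →ₗ[ℂ] E n)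

lemma differentiableOn_det {U : Set (E n)} {A : E n → E n →L[ℂ] E n}
    (hA : ∀ v, DifferentiableOn ℂ (fun z => A z v) U) :
    DifferentiableOn ℂ (fun z => LinearMap.det (A z : E n →ₗ[ℂ] E n)) U := by
  set b := (EuclideanSpace.basisFun (Fin n) ℂ).toBasis with hb
  have h : ∀ z, LinearMap.det (A z : E n →ₗ[ℂ] E n) =
      ∑ σ : Equiv.Perm (Fin n), ((Equiv.Perm.sign σ : ℤ) : ℂ) *
        ∏ i, (A z (EuclideanSpace.single i 1)) (σ i) := by
    intro z
    rw [← LinearMap.det_toMatrix b, Matrix.det_apply']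
    simp [LinearMap.toMatrix_apply, hb]
  simp only [h]
  refine DifferentiableOn.fun_sum fun σ _ => ?_
  refine DifferentiableOn.const_mul ?_ _
  have key : ∀ t : Finset (Fin n), DifferentiableOn ℂ
      (fun z => ∏ i ∈ t, (A z (EuclideanSpace.single i 1)) (σ i)) U := by
    intro t
    induction t using Finset.induction_on with
    | empty => simp
    | insert a t ha ih =>
      simp only [Finset.prod_insert ha]
      exact ((EuclideanSpace.proj (𝕜 := ℂ) (σ a)).differentiable.comp_differentiableOn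
        (hA _)).mul ih
  exact key _

lemma differentiableOn_jac {φ : E n → E n} {U : Set (E n)} (hU : IsOpen U)
    (hφ : DifferentiableOn ℂ φ U) : DifferentiableOn ℂ (jac φ) U :=
  differentiableOn_det fun v => Squeeze.differentiableOn_fderiv_apply hU hφ v

namespace Setup

variable {ρ : E n → ℝ} {φ ψ : E n → E n} (S : Setup n ρ φ ψ)

include S

lemma isOpen_dom : IsOpen {z | ρ z < 0} := isOpen_lt S.smooth.continuous continuous_const

lemma cont : Continuous ρ := S.smooth.continuous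

lemma φ_diffAt {z : E n} (hz : z ∈ ball (0 : E n) 1) : DifferentiableAt ℂ φ z :=
  (S.hφ z hz).differentiableAt (isOpen_ball.mem_nhds hz)

lemma ψ_diffAt {w : E n} (hw : ρ w < 0) : DifferentiableAt ℂ ψ w :=
  (S.hψ w hw).differentiableAt (S.isOpen_dom.mem_nhds hw)

lemma ρφ_neg {z : E n} (hz : z ∈ ball (0 : E n) 1) : ρ (φ z) < 0 := S.mφ hz

lemma norm_ψ_lt {w : E n} (hw : ρ w < 0) : ‖ψ w‖ < 1 := mem_ball_zero_iff.1 (S.mψ hw)

lemma injOn_φ : InjOn φ (ball 0 1) := fun x hx y hy h => by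
  rw [← S.left x hx, h, S.left y hy]

lemma image_φ : φ '' (ball 0 1) = {z | ρ z < 0} := by
  apply Subset.antisymm
  · rintro _ ⟨z, hz, rfl⟩
    exact S.mφ hz
  · intro w hw
    exact ⟨ψ w, S.mψ hw, S.right w hw⟩

lemma jac_mul {z : E n} (hz : z ∈ ball (0 : E n) 1) : jac ψ (φ z) * jac φ z = 1 := by
  have h1 : HasFDerivAt φ (fderiv ℂ φ z) z := (S.φ_diffAt hz).hasFDerivAt
  have h2 : HasFDerivAt ψ (fderiv ℂ ψ (φ z)) (φ z) := (S.ψ_diffAt (S.mφ hz)).hasFDerivAt
  have h3 := h2.comp z h1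
  have h4 : HasFDerivAt (ψ ∘ φ) (ContinuousLinearMap.id ℂ (E n)) z := by
    refine (hasFDerivAt_id z).congr_of_eventuallyEq ?_
    filter_upwards [isOpen_ball.mem_nhds hz] with y hy
    exact S.left y hy
  have h5 := h3.unique h4
  unfold jac
  rw [← LinearMap.det_comp]
  have h6 : ((fderiv ℂ ψ (φ z) : E n →ₗ[ℂ] E n) ∘ₗ (fderiv ℂ φ z : E n →ₗ[ℂ] E n)) =
      ((fderiv ℂ ψ (φ z) ∘L fderiv ℂ φ z : E n →L[ℂ] E n) : E n →ₗ[ℂ] E n) := rfl
  rw [h6, h5]
  exact LinearMap.det_id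

lemma jac_ne_zero {z : E n} (hz : z ∈ ball (0 : E n) 1) : jac φ z ≠ 0 := by
  intro h
  have := S.jac_mul hz
  rw [h, mul_zero] at this
  exact zero_ne_one this

lemma norm_jac_mul {z : E n} (hz : z ∈ ball (0 : E n) 1) : ‖jac ψ (φ z)‖ * ‖jac φ z‖ = 1 := by
  rw [← norm_mul, S.jac_mul hz, norm_one]

lemma jac_diff : DifferentiableOn ℂ (jac φ) (ball 0 1) := differentiableOn_jac isOpen_ball S.hφ

lemma exists_radius : ∃ R : ℝ, 0 < R ∧ ∀ x, ρ x < 0 → ‖x‖ < R := by
  obtain ⟨R, hR⟩ := S.bdd.subset_ball 0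
  refine ⟨max R 1, by positivity, fun x hx => ?_⟩
  have := hR hx
  rw [mem_ball_zero_iff] at this
  exact this.trans_le (le_max_left _ _)

lemma isCompact_le {c : ℝ} (hc : c < 0) : IsCompact {x | ρ x ≤ c} := by
  obtain ⟨R, hR, h⟩ := S.exists_radius
  refine (isCompact_closedBall (0 : E n) R).of_isClosed_subset
    (isClosed_le S.cont continuous_const) ?_
  intro x hx
  rw [mem_closedBall_zero_iff]
  exact (h x (lt_of_le_of_lt hx hc)).le

/-- Uniform bounds for the defining function. -/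
lemma exists_bounds : ∃ M : ℝ, 1 ≤ M ∧ (∀ x, ρ x < 0 → -ρ x ≤ M) ∧
    (∀ x, ρ x < 0 → ‖fderiv ℝ ρ x‖ ≤ M) ∧
    ∀ x, ρ x < 0 → ∀ h : E n, ‖h‖ ≤ 2 → ρ (x + h) ≤ ρ x + fderiv ℝ ρ x h + M * ‖h‖ ^ 2 := by
  obtain ⟨R, hR, hball⟩ := S.exists_radius
  have hK : IsCompact (closedBall (0 : E n) (R + 2)) := isCompact_closedBall _ _
  have hcd : ContDiff ℝ 1 (fderiv ℝ ρ) := S.smooth.fderiv_right (by norm_num)
  have hc1 : Continuous (fderiv ℝ ρ) := hcd.continuous
  have hc2 : Continuous (fderiv ℝ (fderiv ℝ ρ)) := hcd.continuous_fderiv (by norm_num)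
  obtain ⟨M0, hM0⟩ := (hK.image S.cont.norm).bddAbove
  obtain ⟨M1, hM1⟩ := (hK.image hc1.norm).bddAbove
  obtain ⟨M2, hM2⟩ := (hK.image hc2.norm).bddAbove
  have hmem : ∀ x, ρ x < 0 → x ∈ closedBall (0 : E n) (R + 2) := fun x hx => by
    rw [mem_closedBall_zero_iff]
    linarith [hball x hx]
  refine ⟨max 1 (max M0 (max M1 M2)), le_max_left _ _, ?_, ?_, ?_⟩
  · intro x hx
    have h1 : ‖ρ x‖ ≤ M0 := hM0 ⟨x, hmem x hx, rfl⟩
    rw [Real.norm_eq_abs] at h1
    calc -ρ x ≤ |ρ x| := neg_le_abs _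
      _ ≤ M0 := h1
      _ ≤ _ := (le_max_left _ _).trans (le_max_right _ _)
  · intro x hx
    have h1 : ‖fderiv ℝ ρ x‖ ≤ M1 := hM1 ⟨x, hmem x hx, rfl⟩
    exact h1.trans (((le_max_left _ _).trans (le_max_right _ _)).trans (le_max_right _ _))
  · intro x hx h hh
    have hconv : Convex ℝ (closedBall x ‖h‖) := convex_closedBall _ _
    have hsub : closedBall x ‖h‖ ⊆ closedBall (0 : E n) (R + 2) := by
      intro y hy
      rw [mem_closedBall, dist_eq_norm] at hy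
      rw [mem_closedBall_zero_iff]
      calc ‖y‖ = ‖(y - x) + x‖ := by congr 1; abel
        _ ≤ ‖y - x‖ + ‖x‖ := norm_add_le _ _
        _ ≤ R + 2 := by linarith [hball x hx]
    have hM2' : ∀ y ∈ closedBall x ‖h‖, ‖fderiv ℝ (fderiv ℝ ρ) y‖ ≤ M2 := fun y hy =>
      hM2 ⟨y, hsub hy, rfl⟩
    have h1 : ∀ y ∈ closedBall x ‖h‖, ‖fderiv ℝ ρ y - fderiv ℝ ρ x‖ ≤ M2 * ‖h‖ := by
      intro y hy
      have h2 := hconv.norm_image_sub_le_of_norm_fderiv_le (𝕜 := ℝ) (f := fderiv ℝ ρ) (C := M2)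
        (fun z _ => (hcd.differentiable (by norm_num)) z) hM2'
        (mem_closedBall_self (norm_nonneg h)) hy
      refine h2.trans ?_
      rw [mem_closedBall, dist_eq_norm] at hy
      have : 0 ≤ M2 := (norm_nonneg _).trans (hM2' x (mem_closedBall_self (norm_nonneg h)))
      gcongr
    have h3 := hconv.norm_image_sub_le_of_norm_hasFDerivWithin_le' (𝕜 := ℝ) (f := ρ)
      (f' := fderiv ℝ ρ) (φ := fderiv ℝ ρ x) (C := M2 * ‖h‖)
      (fun z _ => ((S.smooth.differentiable (by norm_num)) z).hasFDerivAt.hasFDerivWithinAt)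
      h1 (mem_closedBall_self (norm_nonneg h)) (y := x + h)
      (by rw [mem_closedBall, dist_eq_norm, add_sub_cancel_left])
    rw [add_sub_cancel_left, Real.norm_eq_abs] at h3
    have h4 := (abs_le.1 h3).2
    have h5 : M2 * ‖h‖ * ‖h‖ ≤ max 1 (max M0 (max M1 M2)) * ‖h‖ ^ 2 := by
      have : M2 ≤ max 1 (max M0 (max M1 M2)) :=
        ((le_max_right _ _).trans (le_max_right _ _)).trans (le_max_right _ _)
      have h6 : 0 ≤ ‖h‖ ^ 2 := by positivity
      nlinarith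
    linarith

end Setup

end Pool.Agent.Ball44
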