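import Mathlib
import Pool.Agent.Helper44_Ball.Setup

/-! Determinant estimates from holomorphic discs. -/

set_option autoImplicit false
set_option maxSynthPendingDepth 3
open Set Metric Filter Topology MeasureTheory

namespace Pool.Agent.Ball44

variable {n : ℕ}

lemma norm_det_le_of_basis (b : OrthonormalBasis (Fin n) ℂ (E n)) (T : E n →ₗ[ℂ] E n)
    (r : Fin n → ℝ) (hr : ∀ k, 0 ≤ r k) {C : ℝ} (h : ∀ k, ‖T (b k)‖ * r k ≤ C) :
    ‖LinearMap.det T‖ * ∏ k, r k ≤ n.factorial * C ^ n := by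
  set M : Matrix (Fin n) (Fin n) ℂ := LinearMap.toMatrix b.toBasis b.toBasis T with hM
  have hMe : ∀ i k, M i k = b.repr (T (b k)) i := by
    intro i k
    simp [hM, LinearMap.toMatrix_apply]
  have h1 : LinearMap.det T = M.det := (LinearMap.det_toMatrix b.toBasis T).symm
  set D : Matrix (Fin n) (Fin n) ℂ := Matrix.diagonal fun k => (r k : ℂ) with hD
  have h2 : ‖(M * D).det‖ = ‖LinearMap.det T‖ * ∏ k, r k := by
    rw [Matrix.det_mul, norm_mul, ← h1, hD, Matrix.det_diagonal, norm_prod]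
    congr 1
    refine Finset.prod_congr rfl fun k _ => ?_
    rw [Complex.norm_real, Real.norm_eq_abs, abs_of_nonneg (hr k)]
  have h3 := Matrix.det_le (A := M * D) (abv := (NormedField.toAbsoluteValue ℂ)) (x := C) ?_
  · have h3' : ‖(M * D).det‖ ≤ (Fintype.card (Fin n)).factorial • C ^ (Fintype.card (Fin n)) := h3
    rw [Fintype.card_fin, nsmul_eq_mul, h2] at h3'
    exact h3'
  · intro i k
    change ‖(M * D) i k‖ ≤ C
    rw [hD, Matrix.mul_diagonal, norm_mul, Complex.norm_real, Real.norm_eq_abs,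
      abs_of_nonneg (hr k), hMe]
    refine le_trans ?_ (h k)
    refine mul_le_mul_of_nonneg_right ?_ (hr k)
    calc ‖b.repr (T (b k)) i‖ ≤ ‖b.repr (T (b k))‖ := PiLp.norm_apply_le _ i
      _ = ‖T (b k)‖ := b.repr.norm_map _

lemma det_bound (b : OrthonormalBasis (Fin n) ℂ (E n)) (A : E n →L[ℂ] E n)
    (r : Fin n → ℝ) (hr : ∀ k, 0 ≤ r k) {y : E n} (hy : ‖y‖ = 1) {g C : ℝ} (hg : 0 < g)
    (hg1 : g ≤ 1)
    (h1 : ∀ k, ‖A (b k)‖ * r k ≤ C * Real.sqrt g) (h2 : ∀ k, ‖ip (A (b k)) y‖ * r k ≤ C * g) :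
    ‖LinearMap.det (A : E n →ₗ[ℂ] E n)‖ * ∏ k, r k ≤
      n.factorial * (2 * C) ^ n * (Real.sqrt g) ^ (n + 1) := by
  set σ : ℝ := (Real.sqrt g)⁻¹ with hσ
  have hsg : 0 < Real.sqrt g := Real.sqrt_pos.2 hg
  have hσ0 : 0 < σ := inv_pos.2 hsg
  have hσ1 : 1 ≤ σ := by
    rw [hσ, one_le_inv₀ hsg]
    rw [show (1 : ℝ) = Real.sqrt 1 by simp]
    exact Real.sqrt_le_sqrt hg1
  have hsq : Real.sqrt g ^ 2 = g := Real.sq_sqrt hg.le
  have hσg : σ ^ 2 * g = 1 := by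
    rw [hσ, inv_pow, hsq]
    field_simp
  have hσs : σ * Real.sqrt g = 1 := by rw [hσ]; field_simp
  set T : E n →ₗ[ℂ] E n := (σ : ℂ) • LinearMap.id +
    (ipL y : E n →ₗ[ℂ] ℂ).smulRight (((σ ^ 2 - σ : ℝ) : ℂ) • y) with hT
  have hdet : ‖LinearMap.det T‖ = σ ^ (n + 1) := by
    have h := det_rank_one (σ : ℂ) (((σ ^ 2 - σ : ℝ) : ℂ) • y) y
    rw [ip_smul_left, ip_self, hy] at h
    have h' : (σ : ℂ) * LinearMap.det T = (σ : ℂ) * (σ : ℂ) ^ (n + 1) := by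
      rw [hT, h]
      push_cast
      ring
    have hσc : (σ : ℂ) ≠ 0 := by exact_mod_cast hσ0.ne'
    rw [mul_left_cancel₀ hσc h', norm_pow, Complex.norm_real, Real.norm_eq_abs, abs_of_pos hσ0]
  have hTx : ∀ x : E n, ‖T x‖ ≤ σ * ‖x‖ + σ ^ 2 * ‖ip x y‖ := by
    intro x
    have e : T x = (σ : ℂ) • x + (ip x y) • (((σ ^ 2 - σ : ℝ) : ℂ) • y) := rfl
    rw [e]
    refine (norm_add_le _ _).trans ?_
    rw [norm_smul, norm_smul, norm_smul, hy, mul_one, Complex.norm_real, Complex.norm_real,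
      Real.norm_eq_abs, Real.norm_eq_abs, abs_of_pos hσ0, abs_of_nonneg (by nlinarith), mul_comm ‖ip x y‖]
    have := norm_nonneg (ip x y)
    nlinarith
  have h3 : ∀ k, ‖(T ∘ₗ (A : E n →ₗ[ℂ] E n)) (b k)‖ * r k ≤ 2 * C := by
    intro k
    have e1 := hTx (A (b k))
    have e2 : ‖(T ∘ₗ (A : E n →ₗ[ℂ] E n)) (b k)‖ * r k ≤
        σ * (‖A (b k)‖ * r k) + σ ^ 2 * (‖ip (A (b k)) y‖ * r k) := by
      have := mul_le_mul_of_nonneg_right e1 (hr k)
      calc _ ≤ _ := this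
        _ = _ := by ring
    have e3 : σ * (‖A (b k)‖ * r k) ≤ C := by
      calc _ ≤ σ * (C * Real.sqrt g) := mul_le_mul_of_nonneg_left (h1 k) hσ0.le
        _ = C * (σ * Real.sqrt g) := by ring
        _ = C := by rw [hσs, mul_one]
    have e4 : σ ^ 2 * (‖ip (A (b k)) y‖ * r k) ≤ C := by
      calc _ ≤ σ ^ 2 * (C * g) := mul_le_mul_of_nonneg_left (h2 k) (by positivity)
        _ = C * (σ ^ 2 * g) := by ring
        _ = C := by rw [hσg, mul_one]
    linarith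
  have h4 := norm_det_le_of_basis b (T ∘ₗ (A : E n →ₗ[ℂ] E n)) r hr h3
  rw [LinearMap.det_comp, norm_mul, hdet] at h4
  have h5 : σ ^ (n + 1) * Real.sqrt g ^ (n + 1) = 1 := by
    rw [← mul_pow, hσs, one_pow]
  calc ‖LinearMap.det (A : E n →ₗ[ℂ] E n)‖ * ∏ k, r k
      = (σ ^ (n + 1) * ‖LinearMap.det (A : E n →ₗ[ℂ] E n)‖ * ∏ k, r k) *
        Real.sqrt g ^ (n + 1) := by
        rw [mul_assoc (σ ^ (n + 1)), mul_comm (σ ^ (n + 1)), mul_assoc _ (σ ^ (n + 1)), h5, mul_one]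
    _ ≤ _ := mul_le_mul_of_nonneg_right h4 (by positivity)

/-- Real functionals on `ℂⁿ` are real parts of pairings. -/
lemma exists_normal (hn : 0 < n) (ℓ : E n →L[ℝ] ℝ) : ∃ ν : E n, ‖ν‖ = 1 ∧
    ∀ v, ℓ v = ‖ℓ‖ * (ip v ν).re := by
  set L : E n →L[ℂ] ℂ := StrongDual.extendRCLike ℓ with hL
  set G : E n := (InnerProductSpace.toDual ℂ (E n)).symm L with hG
  have h1 : ∀ v, ip v G = L v := fun v => InnerProductSpace.toDual_symm_apply
  have h2 : ∀ v, ℓ v = (ip v G).re := by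
    intro v
    rw [h1]
    exact (StrongDual.re_extendRCLike_apply (𝕜 := ℂ) ℓ v).symm
  have h3 : ‖G‖ = ‖ℓ‖ := by
    rw [hG, LinearIsometryEquiv.norm_map, hL]
    exact StrongDual.norm_extendRCLike ℓ
  by_cases h0 : ‖ℓ‖ = 0
  · refine ⟨EuclideanSpace.single ⟨0, hn⟩ 1, by simp, fun v => ?_⟩
    rw [h0] at h3
    rw [h2, norm_eq_zero.1 h3, h0]
    simp
  · refine ⟨((‖ℓ‖⁻¹ : ℝ) : ℂ) • G, ?_, fun v => ?_⟩
    · rw [norm_smul, h3, Complex.norm_real, norm_inv, norm_norm, inv_mul_cancel₀ h0]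
    · rw [ip_smul_right, Complex.conj_ofReal, Complex.re_ofReal_mul, h2, ← mul_assoc,
        mul_inv_cancel₀ h0, one_mul]

namespace Setup

variable {ρ : E n → ℝ} {φ ψ : E n → E n} (S : Setup n ρ φ ψ)

include S

/-- Derivative bounds for `ψ` from a disc in the domain. -/
lemma disc_est {f : ℂ → E n} {R : ℝ} (hR : 0 < R) (hd : DifferentiableOn ℂ f (ball 0 R))
    (hm : ∀ ζ ∈ ball (0 : ℂ) R, ρ (f ζ) < 0) :
    ‖fderiv ℂ ψ (f 0) (deriv f 0)‖ * R ≤ 10 * Real.sqrt (1 - ‖ψ (f 0)‖) ∧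
    ∀ y : E n, ‖y‖ = 1 → ψ (f 0) = (‖ψ (f 0)‖ : ℂ) • y →
      ‖ip (fderiv ℂ ψ (f 0) (deriv f 0)) y‖ * R ≤ 10 * (1 - ‖ψ (f 0)‖) := by
  have h0 : (0 : ℂ) ∈ ball (0 : ℂ) R := mem_ball_self hR
  have hd2 : DifferentiableOn ℂ (ψ ∘ f) (ball 0 R) := by
    intro ζ hζ
    exact ((S.ψ_diffAt (hm ζ hζ)).comp ζ
      ((hd ζ hζ).differentiableAt (isOpen_ball.mem_nhds hζ))).differentiableWithinAt
  have hm2 : ∀ ζ ∈ ball (0 : ℂ) R, ‖(ψ ∘ f) ζ‖ < 1 := fun ζ hζ => S.norm_ψ_lt (hm ζ hζ)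
  have hder : deriv (ψ ∘ f) 0 = fderiv ℂ ψ (f 0) (deriv f 0) := by
    have h1 : HasDerivAt f (deriv f 0) 0 :=
      ((hd 0 h0).differentiableAt (isOpen_ball.mem_nhds h0)).hasDerivAt
    exact ((S.ψ_diffAt (hm 0 h0)).hasFDerivAt.comp_hasDerivAt 0 h1).deriv
  constructor
  · have := disc_deriv S.hn hR hd2 hm2
    rw [hder, le_div_iff₀ hR] at this
    exact this
  · intro y hy hyy
    have := disc_deriv_ip hR hd2 hm2 hy hyy
    rw [hder, le_div_iff₀ hR] at this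
    have h2 : 0 ≤ 1 - ‖ψ (f 0)‖ := by linarith [S.norm_ψ_lt (hm 0 h0)]
    refine this.trans ?_
    have e : (ψ ∘ f) 0 = ψ (f 0) := rfl
    rw [e]
    linarith

/-- Determinant estimate from a family of discs along an orthonormal basis. -/
lemma det_est {x : E n} (hx : ρ x < 0) (b : OrthonormalBasis (Fin n) ℂ (E n)) (r : Fin n → ℝ)
    (hr : ∀ k, 0 < r k)
    (hdisc : ∀ k, ∃ f : ℂ → E n, DifferentiableOn ℂ f (ball 0 (r k)) ∧ f 0 = x ∧
      deriv f 0 = b k ∧ ∀ ζ ∈ ball (0 : ℂ) (r k), ρ (f ζ) < 0) :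
    ‖jac ψ x‖ * ∏ k, r k ≤ n.factorial * 20 ^ n * (Real.sqrt (1 - ‖ψ x‖)) ^ (n + 1) := by
  obtain ⟨y, hy, hyy⟩ := exists_unit (x := ψ x) S.hn
  have hg : 0 < 1 - ‖ψ x‖ := by linarith [S.norm_ψ_lt hx]
  have hg1 : 1 - ‖ψ x‖ ≤ 1 := by linarith [norm_nonneg (ψ x)]
  have h := det_bound b (fderiv ℂ ψ x) r (fun k => (hr k).le) hy hg hg1 (C := 10) ?_ ?_
  · have e : (2 * 10 : ℝ) = 20 := by norm_num
    rw [e] at h
    exact h
  · intro k
    obtain ⟨f, hd, h0, h1, hm⟩ := hdisc k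
    have := (S.disc_est (hr k) hd hm).1
    rwa [h0, h1] at this
  · intro k
    obtain ⟨f, hd, h0, h1, hm⟩ := hdisc k
    have := (S.disc_est (hr k) hd hm).2 y hy (by rw [h0]; exact hyy)
    rwa [h0, h1] at this

/-- Uniform discs through points of the domain. -/
theorem det_est_uniform : ∃ C : ℝ, 0 < C ∧ ∀ x, ρ x < 0 →
    ‖jac ψ x‖ * (Real.sqrt (-ρ x)) ^ (n + 1) ≤ C * (Real.sqrt (1 - ‖ψ x‖)) ^ (n + 1) := by
  obtain ⟨M, hM1, hMρ, hMd, hMt⟩ := S.exists_bounds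
  have hM0 : 0 < M := by linarith
  obtain ⟨m, rfl⟩ : ∃ m, n = m + 1 := ⟨n - 1, by have := S.hn; omega⟩
  refine ⟨(m + 1).factorial * 20 ^ (m + 1) * (2 * M ^ (m + 1)), by positivity, fun x hx => ?_⟩
  set δ := -ρ x with hδ
  have hδ0 : 0 < δ := by linarith
  have hδM : δ ≤ M := hMρ x hx
  have hsδ : 0 < Real.sqrt δ := Real.sqrt_pos.2 hδ0
  have hsq : Real.sqrt δ ^ 2 = δ := Real.sq_sqrt hδ0.le
  have hsδM : Real.sqrt δ ≤ M := by
    rw [Real.sqrt_le_left hM0.le]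
    nlinarith
  obtain ⟨ν, hν, hνd⟩ := exists_normal (n := m + 1) S.hn (fderiv ℝ ρ x)
  -- adapted orthonormal basis
  obtain ⟨b, hb⟩ := Orthonormal.exists_orthonormalBasis_extension_of_card_eq (𝕜 := ℂ)
    (E := E (m + 1)) (ι := Fin (m + 1)) (by simp) (v := fun _ => ν) (s := {0}) (by
      rw [orthonormal_iff_ite]
      rintro ⟨i, hi⟩ ⟨j, hj⟩
      rw [mem_singleton_iff] at hi hj
      subst hi; subst hj
      simp [Set.domRestrict, inner_self_eq_norm_sq_to_K, hν])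
  have hb0 : b 0 = ν := hb 0 rfl
  have hbn : ∀ k, k ≠ 0 → ip (b k) ν = 0 := by
    intro k hk
    rw [← hb0]
    exact b.orthonormal.2 hk.symm
  set r : Fin (m + 1) → ℝ := fun k => if k = 0 then δ / (2 * M) else Real.sqrt δ / M with hr
  have hr0 : ∀ k, 0 < r k := by
    intro k
    simp only [hr]
    split_ifs <;> positivity
  have hmain := S.det_est hx b r hr0 (by
    intro k
    refine ⟨fun ζ => x + ζ • b k, ?_, by simp, ?_, ?_⟩
    · exact ((differentiable_id.smul_const _).const_add _).differentiableOn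
    · have : HasDerivAt (fun ζ : ℂ => x + ζ • b k) ((1 : ℂ) • b k) 0 :=
        ((hasDerivAt_id (0 : ℂ)).smul_const (b k)).const_add x
      rw [this.deriv, one_smul]
    · intro ζ hζ
      rw [mem_ball_zero_iff] at hζ
      have hnb : ‖ζ • b k‖ = ‖ζ‖ := by rw [norm_smul, b.orthonormal.1 k, mul_one]
      have hζ1 : ‖ζ‖ ≤ 1 := by
        refine hζ.le.trans ?_
        simp only [hr]
        split_ifs
        · rw [div_le_one (by positivity)]; linarith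
        · rw [div_le_one hM0]; exact hsδM
      have hT := hMt x hx (ζ • b k) (by rw [hnb]; linarith)
      rw [hnb] at hT
      by_cases hk : k = 0
      · have hζ2 : ‖ζ‖ < δ / (2 * M) := by simpa [hr, hk] using hζ
        rw [lt_div_iff₀ (by positivity)] at hζ2
        have h1 : fderiv ℝ ρ x (ζ • b k) ≤ M * ‖ζ‖ := by
          calc _ ≤ ‖fderiv ℝ ρ x (ζ • b k)‖ := Real.le_norm_self _
            _ ≤ ‖fderiv ℝ ρ x‖ * ‖ζ • b k‖ := ContinuousLinearMap.le_opNorm _ _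
            _ ≤ M * ‖ζ‖ := by rw [hnb]; gcongr; exact hMd x hx
        have h2 : M * ‖ζ‖ ^ 2 ≤ M * ‖ζ‖ := by
          have := norm_nonneg ζ
          have : ‖ζ‖ ^ 2 ≤ ‖ζ‖ := by nlinarith
          gcongr
        show ρ (x + ζ • b k) < 0
        nlinarith
      · have hζ2 : ‖ζ‖ < Real.sqrt δ / M := by simpa [hr, hk] using hζ
        rw [lt_div_iff₀ hM0] at hζ2
        have h1 : fderiv ℝ ρ x (ζ • b k) = 0 := by
          rw [hνd, ip_smul_left, hbn k hk, mul_zero, Complex.zero_re, mul_zero]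
        have h2 : (‖ζ‖ * M) ^ 2 < δ := by
          rw [← hsq]
          gcongr
        have h3 : M * ‖ζ‖ ^ 2 ≤ (‖ζ‖ * M) ^ 2 := by
          have := sq_nonneg ‖ζ‖
          nlinarith
        show ρ (x + ζ • b k) < 0
        linarith)
  rw [Fin.prod_univ_succ] at hmain
  have hprod : (∏ i : Fin m, r i.succ) = (Real.sqrt δ / M) ^ m := by
    rw [Finset.prod_congr rfl (g := fun _ => Real.sqrt δ / M), Finset.prod_const,
      Finset.card_univ, Fintype.card_fin]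
    intro i _
    simp [hr, Fin.succ_ne_zero]
  have hr00 : r 0 = δ / (2 * M) := by simp [hr]
  rw [hprod, hr00] at hmain
  have h4 : Real.sqrt δ ^ (m + 1 + 1) = (δ / (2 * M) * (Real.sqrt δ / M) ^ m) * (2 * M ^ (m + 1)) := by
    rw [div_pow, show m + 1 + 1 = m + 2 from rfl, pow_add, hsq]
    field_simp
    ring
  rw [h4, ← mul_assoc]
  calc ‖jac ψ x‖ * (δ / (2 * M) * (Real.sqrt δ / M) ^ m) * (2 * M ^ (m + 1))
      ≤ ((m + 1).factorial * 20 ^ (m + 1) * Real.sqrt (1 - ‖ψ x‖) ^ (m + 1 + 1)) *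
        (2 * M ^ (m + 1)) := mul_le_mul_of_nonneg_right hmain (by positivity)
    _ = _ := by ring

end Setup

end Pool.Agent.Ball44
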