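import Mathlib
import Pool.Agent.Helper44_Ball.DetBound

/-! Comparison of `1 - |ψ|` with the defining function. -/

set_option autoImplicit false
set_option maxSynthPendingDepth 3
open Set Metric Filter Topology MeasureTheory

namespace Pool.Agent.Ball44

variable {n : ℕ}

namespace Setup

variable {ρ : E n → ℝ} {φ ψ : E n → E n} (S : Setup n ρ φ ψ)

include S

lemma exists_grad_lower : ∃ c : ℝ, 0 < c ∧ ∀ x, ρ x < 0 → -ρ x < c → c ≤ ‖fderiv ℝ ρ x‖ := by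
  have hcd : ContDiff ℝ 1 (fderiv ℝ ρ) := S.smooth.fderiv_right (by norm_num)
  have hc1 : Continuous (fderiv ℝ ρ) := hcd.continuous
  have hK : IsCompact (closure {x | ρ x < 0}) := S.bdd.isCompact_closure
  by_cases hne : (closure {x | ρ x < 0}).Nonempty
  · obtain ⟨x0, hx0, hmin⟩ := hK.exists_isMinOn hne
      (f := fun x => ‖fderiv ℝ ρ x‖ + |ρ x|) (hc1.norm.add S.cont.abs).continuousOn
    have hpos : 0 < ‖fderiv ℝ ρ x0‖ + |ρ x0| := by
      by_cases h : ρ x0 = 0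
      · have := norm_pos_iff.2 (S.grad x0 h)
        positivity
      · have := abs_pos.2 h
        positivity
    refine ⟨(‖fderiv ℝ ρ x0‖ + |ρ x0|) / 2, by positivity, fun x hx hx2 => ?_⟩
    have h1 : ‖fderiv ℝ ρ x0‖ + |ρ x0| ≤ ‖fderiv ℝ ρ x‖ + |ρ x| := hmin (subset_closure hx)
    rw [abs_of_neg hx] at h1
    linarith
  · refine ⟨1, one_pos, fun x hx _ => ?_⟩
    exact (hne ⟨x, subset_closure hx⟩).elim

lemma exists_gap {c : ℝ} (hc : 0 < c) : ∃ e : ℝ, 0 < e ∧ ∀ x, ρ x ≤ -c → e ≤ 1 - ‖ψ x‖ := by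
  have hK : IsCompact {x | ρ x ≤ -c} := S.isCompact_le (by linarith)
  have hsub : {x | ρ x ≤ -c} ⊆ {x | ρ x < 0} := fun x hx =>
    lt_of_le_of_lt (show ρ x ≤ -c from hx) (by linarith)
  by_cases hne : ({x | ρ x ≤ -c} : Set (E n)).Nonempty
  · obtain ⟨x0, hx0, hmin⟩ := hK.exists_isMinOn hne
      (f := fun x => 1 - ‖ψ x‖) (continuousOn_const.sub (S.hψ.continuousOn.mono hsub).norm)
    refine ⟨1 - ‖ψ x0‖, by linarith [S.norm_ψ_lt (hsub hx0)], fun x hx => hmin hx⟩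
  · exact ⟨1, one_pos, fun x hx => (hne ⟨x, hx⟩).elim⟩

theorem exists_lower : ∃ c : ℝ, 0 < c ∧ ∀ x, ρ x < 0 → c * (-ρ x) ≤ 1 - ‖ψ x‖ := by
  obtain ⟨M, hM1, hMρ, hMd, hMt⟩ := S.exists_bounds
  have hM0 : 0 < M := by linarith
  obtain ⟨c1, hc1, hgrad⟩ := S.exists_grad_lower
  obtain ⟨e1, he1, hgap1⟩ := S.exists_gap (c := c1) hc1
  obtain ⟨e2, he2, hgap2⟩ := S.exists_gap (c := c1 ^ 2 / (4 * M)) (by positivity)
  refine ⟨min (e1 / M) (e2 / (4 * M)), by positivity, fun x hx => ?_⟩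
  set δ := -ρ x with hδ
  have hδ0 : 0 < δ := by linarith
  have hδM : δ ≤ M := hMρ x hx
  by_cases hxc : δ < c1
  · obtain ⟨ν, hν, hνd⟩ := exists_normal S.hn (fderiv ℝ ρ x)
    set D := ‖fderiv ℝ ρ x‖ with hD
    have hDM : D ≤ M := hMd x hx
    have hDc : c1 ≤ D := hgrad x hx hxc
    set r0 : ℝ := D / (2 * M) with hr0
    have hD0 : 0 < D := by linarith
    have hr00 : 0 < r0 := by rw [hr0]; positivity
    have hr01 : r0 ≤ 1 / 2 := by
      rw [hr0, div_le_iff₀ (by positivity)]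
      linarith
    have hDr : D = 2 * M * r0 := by rw [hr0]; field_simp
    set R : ℝ := Real.sqrt (r0 ^ 2 + δ / M) with hR
    have hR2 : R ^ 2 = r0 ^ 2 + δ / M := Real.sq_sqrt (by positivity)
    have hR0 : 0 < R := Real.sqrt_pos.2 (by positivity)
    have hδM' : δ / M ≤ 1 := by rw [div_le_one hM0]; exact hδM
    have hR1 : R ≤ 3 / 2 := by nlinarith
    have hrR : r0 < R := by
      have : 0 < δ / M := by positivity
      nlinarith
    have hkey : ∀ ζ : ℂ, ‖ζ‖ ≤ R → ρ (x + (ζ - r0) • ν) ≤ -δ + M * (‖ζ‖ ^ 2 - r0 ^ 2) := by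
      intro ζ hζ
      have hn1 : ‖(ζ - r0) • ν‖ = ‖ζ - r0‖ := by rw [norm_smul, hν, mul_one]
      have hn2 : ‖ζ - (r0 : ℂ)‖ ≤ 2 := by
        refine (norm_sub_le _ _).trans ?_
        rw [Complex.norm_real, Real.norm_eq_abs, abs_of_pos hr00]
        linarith
      have h1 := hMt x hx ((ζ - r0) • ν) (by rw [hn1]; exact hn2)
      rw [hn1, hνd, ip_smul_left, ip_self, hν] at h1
      have h2 : ((ζ - (r0 : ℂ)) * ((1 ^ 2 : ℝ) : ℂ)).re = ζ.re - r0 := by simp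
      have h3 : ‖ζ - (r0 : ℂ)‖ ^ 2 = ‖ζ‖ ^ 2 - 2 * r0 * ζ.re + r0 ^ 2 := by
        rw [← Complex.normSq_eq_norm_sq, ← Complex.normSq_eq_norm_sq, Complex.normSq_apply,
          Complex.normSq_apply]
        simp only [Complex.sub_re, Complex.sub_im, Complex.ofReal_re, Complex.ofReal_im]
        ring
      rw [h2, h3, hDr] at h1
      have e : ρ x = -δ := by rw [hδ]; ring
      rw [e] at h1
      linarith
    set f : ℂ → E n := fun ζ => x + (ζ - r0) • ν with hf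
    have hneg : ∀ ζ ∈ ball (0 : ℂ) R, ρ (f ζ) < 0 := by
      intro ζ hζ
      rw [mem_ball_zero_iff] at hζ
      have h1 := hkey ζ hζ.le
      have h2 : ‖ζ‖ ^ 2 < R ^ 2 := by gcongr
      rw [hR2] at h2
      have h3 : M * (‖ζ‖ ^ 2 - r0 ^ 2) < M * (δ / M) := by
        apply mul_lt_mul_of_pos_left _ hM0
        linarith
      have h4 : M * (δ / M) = δ := by field_simp
      show ρ (x + (ζ - r0) • ν) < 0
      linarith
    have hfd : Differentiable ℂ f := by fun_prop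
    have hd2 : DifferentiableOn ℂ (ψ ∘ f) (ball 0 R) := by
      intro ζ hζ
      exact ((S.ψ_diffAt (hneg ζ hζ)).comp ζ (hfd ζ)).differentiableWithinAt
    have hm2 : ∀ ζ ∈ ball (0 : ℂ) R, ‖(ψ ∘ f) ζ‖ < 1 := fun ζ hζ => S.norm_ψ_lt (hneg ζ hζ)
    have hζ0 : (r0 : ℂ) ∈ ball (0 : ℂ) R := by
      rw [mem_ball_zero_iff, Complex.norm_real, Real.norm_eq_abs, abs_of_pos hr00]
      exact hrR
    have hH := disc_harnack S.hn hd2 hm2 hζ0
    rw [sub_zero, Complex.norm_real, Real.norm_eq_abs, abs_of_pos hr00] at hH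
    have hfr : f r0 = x := by simp [hf]
    have e1 : (ψ ∘ f) (r0 : ℂ) = ψ x := by rw [Function.comp_apply, hfr]
    rw [e1] at hH
    have hf0 : ρ (f 0) ≤ -(c1 ^ 2 / (4 * M)) := by
      have h1 := hkey 0 (by rw [norm_zero]; exact hR0.le)
      rw [norm_zero] at h1
      have h2 : c1 ^ 2 / (4 * M) ≤ M * r0 ^ 2 := by
        rw [hr0, div_pow, div_le_iff₀ (by positivity)]
        have h3 : M * (D ^ 2 / (2 * M) ^ 2) * (4 * M) = D ^ 2 := by field_simp; norm_num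
        rw [h3]
        gcongr
      show ρ (x + ((0 : ℂ) - r0) • ν) ≤ _
      linarith
    have h1 : e2 ≤ 1 - ‖(ψ ∘ f) 0‖ := hgap2 _ hf0
    have hRr : (R - r0) * (R + r0) = δ / M := by
      have : (R - r0) * (R + r0) = R ^ 2 - r0 ^ 2 := by ring
      rw [this, hR2]; ring
    have hS : 0 < R + r0 := by positivity
    have h2 : e2 * (δ / M) ≤ (1 - ‖ψ x‖) * (R + r0) ^ 2 := by
      rw [← hRr]
      calc e2 * ((R - r0) * (R + r0)) ≤ (1 - ‖(ψ ∘ f) 0‖) * ((R - r0) * (R + r0)) := by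
            apply mul_le_mul_of_nonneg_right h1
            have : 0 < R - r0 := by linarith
            positivity
        _ = ((1 - ‖(ψ ∘ f) 0‖) * (R - r0)) * (R + r0) := by ring
        _ ≤ ((1 - ‖ψ x‖) * (R + r0)) * (R + r0) := mul_le_mul_of_nonneg_right hH hS.le
        _ = _ := by ring
    have h3 : 0 ≤ 1 - ‖ψ x‖ := by linarith [S.norm_ψ_lt hx]
    have h4 : (1 - ‖ψ x‖) * (R + r0) ^ 2 ≤ (1 - ‖ψ x‖) * 4 := by
      apply mul_le_mul_of_nonneg_left _ h3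
      nlinarith
    have h5 : e2 / (4 * M) * δ ≤ 1 - ‖ψ x‖ := by
      have : e2 / (4 * M) * δ = e2 * (δ / M) / 4 := by field_simp
      rw [this]
      linarith
    refine le_trans ?_ h5
    apply mul_le_mul_of_nonneg_right (min_le_right _ _) hδ0.le
  · push Not at hxc
    have h1 : e1 ≤ 1 - ‖ψ x‖ := hgap1 x (by linarith)
    refine le_trans ?_ h1
    calc min (e1 / M) (e2 / (4 * M)) * δ ≤ (e1 / M) * M := by
          apply mul_le_mul (min_le_left _ _) hδM hδ0.le (by positivity)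
      _ = e1 := by field_simp

/-- `-ρ∘φ ≤ C (1 - |z|)`. -/
theorem exists_upper : ∃ C : ℝ, 0 < C ∧ ∀ z ∈ ball (0 : E n) 1, -ρ (φ z) ≤ C * (1 - ‖z‖) := by
  obtain ⟨c, hc, h⟩ := S.exists_lower
  refine ⟨c⁻¹, by positivity, fun z hz => ?_⟩
  have h1 := h (φ z) (S.mφ hz)
  rw [S.left z hz] at h1
  rw [← div_eq_inv_mul, le_div_iff₀ hc]
  linarith

/-- `(-ρ∘φ)^{(n+1)/2} ≤ C |u| (1-|z|)^{(n+1)/2}`. -/
theorem exists_upper_jac : ∃ C : ℝ, 0 < C ∧ ∀ z ∈ ball (0 : E n) 1,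
    (Real.sqrt (-ρ (φ z))) ^ (n + 1) ≤ C * ‖jac φ z‖ * (Real.sqrt (1 - ‖z‖)) ^ (n + 1) := by
  obtain ⟨C, hC, h⟩ := S.det_est_uniform
  refine ⟨C, hC, fun z hz => ?_⟩
  have h1 := h (φ z) (S.mφ hz)
  rw [S.left z hz] at h1
  have h2 := S.norm_jac_mul hz
  have h3 : 0 < ‖jac φ z‖ := norm_pos_iff.2 (S.jac_ne_zero hz)
  calc Real.sqrt (-ρ (φ z)) ^ (n + 1)
      = ‖jac φ z‖ * (‖jac ψ (φ z)‖ * Real.sqrt (-ρ (φ z)) ^ (n + 1)) := by
        rw [← mul_assoc, mul_comm ‖jac φ z‖, h2, one_mul]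
    _ ≤ ‖jac φ z‖ * (C * Real.sqrt (1 - ‖z‖) ^ (n + 1)) := by gcongr
    _ = _ := by ring

end Setup

end Pool.Agent.Ball44
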