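import Mathlib
import Pool.Agent.Helper44_Ball.Setup

/-! Integration by parts against conjugate holomorphic functions. -/

set_option autoImplicit false
set_option maxSynthPendingDepth 3
open Set Metric Filter Topology MeasureTheory

namespace Pool.Agent.Ball44

variable {n : ℕ}

/-- Cutoff function `θ(y) = y` for `y ≤ -2`, `0` for `y ≥ -1`. -/
noncomputable def cutθ (y : ℝ) : ℝ := y * Real.smoothTransition (-y - 1)

lemma cutθ_eq_self {y : ℝ} (h : y ≤ -2) : cutθ y = y := by
  unfold cutθ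
  rw [Real.smoothTransition.one_of_one_le (by linarith), mul_one]

lemma cutθ_eq_zero {y : ℝ} (h : -1 ≤ y) : cutθ y = 0 := by
  unfold cutθ
  rw [Real.smoothTransition.zero_of_nonpos (by linarith), mul_zero]

lemma abs_cutθ_le (y : ℝ) : |cutθ y| ≤ |y| := by
  unfold cutθ
  rw [abs_mul]
  have h1 := Real.smoothTransition.nonneg (-y - 1)
  have h2 := Real.smoothTransition.le_one (-y - 1)
  rw [abs_of_nonneg h1]
  nlinarith [abs_nonneg y]

lemma contDiff_cutθ : ContDiff ℝ 1 cutθ := by
  unfold cutθ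
  refine contDiff_id.mul (Real.smoothTransition.contDiff.comp ?_)
  fun_prop

lemma exists_cutθ_deriv_bound : ∃ C : ℝ, 0 < C ∧ ∀ y, |deriv cutθ y| ≤ C := by
  have hc : Continuous (deriv cutθ) := contDiff_cutθ.continuous_deriv (by norm_num)
  obtain ⟨C, hC⟩ := (isCompact_Icc (a := (-3 : ℝ)) (b := 0)).exists_bound_of_continuousOn
    hc.continuousOn
  refine ⟨max C 1, by positivity, fun y => ?_⟩
  by_cases h1 : y < -2
  · have : deriv cutθ y = 1 := by
      have h2 : cutθ =ᶠ[𝓝 y] id := by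
        filter_upwards [gt_mem_nhds h1] with z hz
        exact cutθ_eq_self hz.le
      rw [h2.deriv_eq, deriv_id]
    rw [this, abs_one]
    exact le_max_right _ _
  · by_cases h2 : -1 < y
    · have : deriv cutθ y = 0 := by
        have h3 : cutθ =ᶠ[𝓝 y] fun _ => 0 := by
          filter_upwards [lt_mem_nhds h2] with z hz
          exact cutθ_eq_zero hz.le
        rw [h3.deriv_eq, deriv_const]
      rw [this, abs_zero]
      positivity
    · push Not at h1 h2
      exact (hC y ⟨by linarith, by linarith⟩).trans (le_max_left _ _)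

/-- Wirtinger derivative in the direction `e`. -/
noncomputable def wd (a : E n → ℂ) (e x : E n) : ℂ :=
  (1 / 2) * (fderiv ℝ a x e - Complex.I * fderiv ℝ a x (Complex.I • e))

lemma norm_wd_le (a : E n → ℂ) (e x : E n) : ‖wd a e x‖ ≤ ‖fderiv ℝ a x‖ * ‖e‖ := by
  unfold wd
  rw [norm_mul]
  have h1 : ‖(1 / 2 : ℂ)‖ = 1 / 2 := by norm_num
  rw [h1]
  have h2 : ‖fderiv ℝ a x e - Complex.I * fderiv ℝ a x (Complex.I • e)‖ ≤
      ‖fderiv ℝ a x‖ * ‖e‖ + ‖fderiv ℝ a x‖ * ‖e‖ := by
    refine (norm_sub_le _ _).trans ?_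
    refine add_le_add ((fderiv ℝ a x).le_opNorm e) ?_
    rw [norm_mul, Complex.norm_I, one_mul]
    refine ((fderiv ℝ a x).le_opNorm _).trans ?_
    rw [norm_smul, Complex.norm_I, one_mul]
  linarith

lemma continuous_wd {a : E n → ℂ} (ha : ContDiff ℝ 1 a) (e : E n) : Continuous (wd a e) := by
  have h : Continuous (fderiv ℝ a) := ha.continuous_fderiv (by norm_num)
  unfold wd
  fun_prop

lemma wd_mul {a b : E n → ℂ} {x : E n} (ha : DifferentiableAt ℝ a x)
    (hb : DifferentiableAt ℝ b x) (e : E n) :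
    wd (fun y => a y * b y) e x = wd a e x * b x + a x * wd b e x := by
  unfold wd
  rw [fderiv_fun_mul ha hb]
  simp only [_root_.add_apply, _root_.smul_apply, smul_eq_mul]
  ring

/-- The Wirtinger derivative of the conjugate of a holomorphic function vanishes. -/
lemma fderiv_conj_holo {H : E n → ℂ} {x : E n} (hH : DifferentiableAt ℂ H x) (v : E n) :
    fderiv ℝ (fun y => (starRingEnd ℂ) (H y)) x v = (starRingEnd ℂ) (fderiv ℂ H x v) := by
  have h1 : HasFDerivAt H ((fderiv ℂ H x).restrictScalars ℝ) x :=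
    hH.hasFDerivAt.restrictScalars ℝ
  have h2 := (Complex.conjCLE.toContinuousLinearMap.hasFDerivAt (x := H x)).comp x h1
  have h3 : fderiv ℝ (fun y => (starRingEnd ℂ) (H y)) x =
      Complex.conjCLE.toContinuousLinearMap.comp ((fderiv ℂ H x).restrictScalars ℝ) :=
    h2.fderiv
  rw [h3]
  rfl

lemma wd_conj_holo {H : E n → ℂ} {x : E n} (hH : DifferentiableAt ℂ H x) (e : E n) :
    fderiv ℝ (fun y => (starRingEnd ℂ) (H y)) x e -
      Complex.I * fderiv ℝ (fun y => (starRingEnd ℂ) (H y)) x (Complex.I • e) = 0 := by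
  rw [fderiv_conj_holo hH, fderiv_conj_holo hH, map_smul, smul_eq_mul, map_mul, Complex.conj_I]
  ring_nf
  rw [Complex.I_sq]
  ring

namespace Setup

variable {ρ : E n → ℝ} {φ ψ : E n → E n} (S : Setup n ρ φ ψ)

include S

lemma isCompact_closure : IsCompact (closure {x | ρ x < 0}) := S.bdd.isCompact_closure

/-- Continuous functions are bounded on the domain. -/
lemma bdd_of_continuous {F : Type*} [NormedAddCommGroup F] {g : E n → F} (hg : Continuous g) :
    ∃ C : ℝ, 0 ≤ C ∧ ∀ x, ρ x < 0 → ‖g x‖ ≤ C := by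
  obtain ⟨C, hC⟩ := S.isCompact_closure.exists_bound_of_continuousOn hg.continuousOn
  exact ⟨max C 0, le_max_right _ _, fun x hx => (hC x (subset_closure hx)).trans (le_max_left _ _)⟩

/-- Integration by parts with compactly supported first factor. -/
lemma ibp_compact {a : E n → ℂ} (ha : ContDiff ℝ 1 a) {c : ℝ} (hc : 0 < c)
    (hsupp : ∀ x, -c < ρ x → a x = 0) {H : E n → ℂ} (hH : DifferentiableOn ℂ H {x | ρ x < 0})
    (e : E n) : ∫ x in {x | ρ x < 0}, wd a e x * (starRingEnd ℂ) (H x) = 0 := by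
  have hΩ := S.isOpen_dom
  have hK : IsCompact {x | ρ x ≤ -c} := S.isCompact_le (by linarith)
  have hKΩ : {x | ρ x ≤ -c} ⊆ {x | ρ x < 0} := fun x hx =>
    lt_of_le_of_lt (show ρ x ≤ -c from hx) (by linarith)
  have hts : tsupport a ⊆ {x | ρ x ≤ -c} := by
    apply closure_minimal _ (isClosed_le S.cont continuous_const)
    intro x hx
    by_contra h
    exact hx (hsupp x (not_le.1 h))
  have hHd : ∀ x ∈ {x | ρ x < 0}, DifferentiableAt ℂ H x := fun x hx =>
    (hH x hx).differentiableAt (hΩ.mem_nhds hx)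
  set g : E n → ℂ := fun y => (starRingEnd ℂ) (H y) with hg
  have hgd : ∀ x ∈ {x | ρ x < 0}, DifferentiableAt ℝ g x := by
    intro x hx
    exact (Complex.conjCLE.toContinuousLinearMap.differentiableAt).comp x
      ((hHd x hx).restrictScalars ℝ)
  have hgc : ContinuousOn g {x | ρ x < 0} := fun x hx => (hgd x hx).continuousAt.continuousWithinAt
  have hgdc : ∀ v : E n, ContinuousOn (fun x => fderiv ℝ g x v) {x | ρ x < 0} := by
    intro v
    have h1 : ContinuousOn (fun x => (starRingEnd ℂ) (fderiv ℂ H x v)) {x | ρ x < 0} := by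
      refine Complex.continuous_conj.comp_continuousOn ?_
      exact (Squeeze.continuousOn_fderiv hΩ hH).clm_apply continuousOn_const
    refine h1.congr fun x hx => ?_
    exact fderiv_conj_holo (hHd x hx) v
  have ha0 : ∀ x ∉ {x | ρ x ≤ -c}, a x = 0 := fun x hx => hsupp x (not_le.1 hx)
  have had0 : ∀ x ∉ {x | ρ x ≤ -c}, fderiv ℝ a x = 0 := by
    intro x hx
    have h1 : a =ᶠ[𝓝 x] fun _ => 0 := by
      have : {x | ρ x ≤ -c}ᶜ ∈ 𝓝 x :=
        (isClosed_le S.cont continuous_const).isOpen_compl.mem_nhds hx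
      filter_upwards [this] with y hy
      exact ha0 y hy
    rw [h1.fderiv_eq]
    simp
  have hac : Continuous a := ha.continuous
  have hadc : ∀ v : E n, Continuous (fun x => fderiv ℝ a x v) := by
    intro v
    have h : Continuous (fderiv ℝ a) := ha.continuous_fderiv (by norm_num)
    fun_prop
  have hint : ∀ F : E n → ℂ, ContinuousOn F {x | ρ x < 0} → (∀ x ∉ {x | ρ x ≤ -c}, F x = 0) →
      Integrable F := by
    intro F hF h0
    have h1 : IntegrableOn F {x | ρ x ≤ -c} := (hF.mono hKΩ).integrableOn_compact hK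
    exact h1.integrable_of_forall_notMem_eq_zero h0
  have key : ∀ v : E n, ∫ x, a x * fderiv ℝ g x v = - ∫ x, fderiv ℝ a x v * g x := by
    intro v
    apply integral_mul_fderiv_eq_neg_fderiv_mul_of_integrable
    · exact hint _ ((hadc v).continuousOn.mul hgc) (fun x hx => by rw [had0 x hx]; simp)
    · exact hint _ (hac.continuousOn.mul (hgdc v)) (fun x hx => by rw [ha0 x hx]; simp)
    · exact hint _ (hac.continuousOn.mul hgc) (fun x hx => by rw [ha0 x hx]; simp)
    · intro x _
      exact (ha.differentiable (by norm_num)) x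
    · intro x hx
      exact hgd x (hKΩ (hts hx))
  have hi1 : ∀ v : E n, Integrable (fun x => fderiv ℝ a x v * g x) := fun v =>
    hint _ ((hadc v).continuousOn.mul hgc) (fun x hx => by rw [had0 x hx]; simp)
  have hi2 : ∀ v : E n, Integrable (fun x => a x * fderiv ℝ g x v) := fun v =>
    hint _ (hac.continuousOn.mul (hgdc v)) (fun x hx => by rw [ha0 x hx]; simp)
  have hfull : ∫ x in {x | ρ x < 0}, wd a e x * g x = ∫ x, wd a e x * g x := by
    apply setIntegral_eq_integral_of_forall_compl_eq_zero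
    intro x hx
    have : x ∉ {x | ρ x ≤ -c} := fun h => hx (hKΩ h)
    unfold wd
    rw [had0 x this]
    simp
  rw [hfull]
  have h1 : ∀ x, wd a e x * g x = (1 / 2) * (fderiv ℝ a x e * g x) -
      (Complex.I / 2) * (fderiv ℝ a x (Complex.I • e) * g x) := by
    intro x
    unfold wd
    ring
  simp only [h1]
  rw [integral_sub ((hi1 e).const_mul _) ((hi1 _).const_mul _), integral_const_mul,
    integral_const_mul]
  have h2 := key e
  have h3 := key (Complex.I • e)
  have h4 : ∫ x, fderiv ℝ a x e * g x = - ∫ x, a x * fderiv ℝ g x e := by rw [h2, neg_neg]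
  have h5 : ∫ x, fderiv ℝ a x (Complex.I • e) * g x =
    - ∫ x, a x * fderiv ℝ g x (Complex.I • e) := by rw [h3, neg_neg]
  rw [h4, h5]
  have h6 : ∫ x, a x * fderiv ℝ g x e = Complex.I * ∫ x, a x * fderiv ℝ g x (Complex.I • e) := by
    rw [← integral_const_mul]
    apply integral_congr_ae
    refine Eventually.of_forall fun x => ?_
    by_cases hx : x ∈ {x | ρ x ≤ -c}
    · have h7 := wd_conj_holo (hHd x (hKΩ hx)) e
      rw [sub_eq_zero] at h7
      show a x * fderiv ℝ g x e = Complex.I * (a x * fderiv ℝ g x (Complex.I • e))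
      rw [h7]
      ring
    · simp only [ha0 x hx, zero_mul, mul_zero]
  rw [h6]
  ring

/-- Integration by parts for functions vanishing on the boundary like the defining function. -/
theorem ibp {b : E n → ℂ} (hb : ContDiff ℝ 1 b) {H : E n → ℂ}
    (hH : DifferentiableOn ℂ H {x | ρ x < 0}) (hi : IntegrableOn H {x | ρ x < 0}) (e : E n) :
    ∫ x in {x | ρ x < 0}, wd (fun y => (ρ y : ℂ) * b y) e x * (starRingEnd ℂ) (H x) = 0 := by
  have hΩ := S.isOpen_dom
  have hρ1 : ContDiff ℝ 1 ρ := S.smooth.of_le (by norm_num)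
  have hρc : ContDiff ℝ 1 (fun x => (ρ x : ℂ)) := Complex.ofRealCLM.contDiff.comp hρ1
  obtain ⟨Cθ, hCθ, hCθ'⟩ := exists_cutθ_deriv_bound
  -- the cut off functions
  set A : ℕ → E n → ℂ := fun k x => ((cutθ ((k + 1 : ℝ) * ρ x) / (k + 1 : ℝ) : ℝ) : ℂ) * b x with hA
  have hAr : ∀ k : ℕ, ContDiff ℝ 1 (fun x => cutθ ((k + 1 : ℝ) * ρ x) / (k + 1 : ℝ)) := by
    intro k
    exact (contDiff_cutθ.comp (contDiff_const.mul hρ1)).div_const _
  have hAc : ∀ k, ContDiff ℝ 1 (A k) := by
    intro k
    exact (Complex.ofRealCLM.contDiff.comp (hAr k)).mul hb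
  have hzero : ∀ k : ℕ, ∫ x in {x | ρ x < 0}, wd (A k) e x * (starRingEnd ℂ) (H x) = 0 := by
    intro k
    have hk : (0 : ℝ) < k + 1 := by positivity
    refine S.ibp_compact (hAc k) (c := 1 / (k + 1)) (by positivity) ?_ hH e
    intro x hx
    have h1 : -1 ≤ (k + 1 : ℝ) * ρ x := by
      have := mul_lt_mul_of_pos_left hx hk
      have e2 : (k + 1 : ℝ) * -(1 / (k + 1)) = -1 := by field_simp
      linarith
    simp only [hA]
    rw [cutθ_eq_zero h1]
    simp
  -- bounds
  obtain ⟨B1, hB10, hB1⟩ := S.bdd_of_continuous hb.continuous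
  obtain ⟨B2, hB20, hB2⟩ := S.bdd_of_continuous (hb.continuous_fderiv (by norm_num))
  obtain ⟨B3, hB30, hB3⟩ := S.bdd_of_continuous (hρ1.continuous_fderiv (by norm_num))
  obtain ⟨B4, hB40, hB4⟩ := S.bdd_of_continuous S.cont
  have hbound : ∀ k : ℕ, ∀ x, ρ x < 0 → ‖wd (A k) e x‖ ≤ (Cθ * B3 * B1 + B4 * B2) * ‖e‖ := by
    intro k x hx
    have hk : (0 : ℝ) < k + 1 := by positivity
    refine (norm_wd_le _ _ _).trans ?_
    refine mul_le_mul_of_nonneg_right ?_ (norm_nonneg e)
    have hd1 : HasFDerivAt (fun x => cutθ ((k + 1 : ℝ) * ρ x) / (k + 1 : ℝ))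
        ((deriv cutθ ((k + 1 : ℝ) * ρ x)) • fderiv ℝ ρ x) x := by
      have e1 : HasFDerivAt (fun x => (k + 1 : ℝ) * ρ x) ((k + 1 : ℝ) • fderiv ℝ ρ x) x :=
        ((hρ1.differentiable (by norm_num)) x).hasFDerivAt.const_mul _
      have e2 : HasDerivAt cutθ (deriv cutθ ((k + 1 : ℝ) * ρ x)) ((k + 1 : ℝ) * ρ x) :=
        ((contDiff_cutθ.differentiable (by norm_num)) _).hasDerivAt
      have e3 := (e2.comp_hasFDerivAt x e1).mul_const ((k + 1 : ℝ)⁻¹)
      refine HasFDerivAt.congr_fderiv (f' := (k + 1 : ℝ)⁻¹ •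
        deriv cutθ ((k + 1 : ℝ) * ρ x) • (k + 1 : ℝ) • fderiv ℝ ρ x) ?_ ?_
      · exact e3
      · rw [smul_smul, smul_smul]
        congr 1
        field_simp
    have hd2 : HasFDerivAt (fun x => ((cutθ ((k + 1 : ℝ) * ρ x) / (k + 1 : ℝ) : ℝ) : ℂ))
        (Complex.ofRealCLM.comp ((deriv cutθ ((k + 1 : ℝ) * ρ x)) • fderiv ℝ ρ x)) x :=
      Complex.ofRealCLM.hasFDerivAt.comp x hd1
    have hd3 := hd2.mul ((hb.differentiable (by norm_num)) x).hasFDerivAt
    have hd4 : fderiv ℝ (A k) x = _ := hd3.fderiv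
    rw [hd4]
    refine (norm_add_le _ _).trans ?_
    rw [norm_smul, norm_smul, add_comm]
    refine add_le_add ?_ ?_
    · rw [mul_comm]
      refine mul_le_mul ?_ (hB1 x hx) (norm_nonneg _) (by positivity)
      refine (ContinuousLinearMap.opNorm_comp_le _ _).trans ?_
      rw [Complex.ofRealCLM_norm, one_mul, norm_smul, Real.norm_eq_abs]
      exact mul_le_mul (hCθ' _) (hB3 x hx) (norm_nonneg _) hCθ.le
    · refine mul_le_mul ?_ (hB2 x hx) (norm_nonneg _) hB40
      rw [Complex.norm_real, Real.norm_eq_abs, abs_div, abs_of_pos hk, div_le_iff₀ hk]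
      refine (abs_cutθ_le _).trans ?_
      rw [abs_mul, abs_of_pos hk, mul_comm]
      have := hB4 x hx
      rw [Real.norm_eq_abs] at this
      gcongr
  -- pointwise convergence
  have hlim : ∀ x, ρ x < 0 → Tendsto (fun k : ℕ => wd (A k) e x * (starRingEnd ℂ) (H x)) atTop
      (𝓝 (wd (fun y => (ρ y : ℂ) * b y) e x * (starRingEnd ℂ) (H x))) := by
    intro x hx
    apply tendsto_const_nhds.congr'
    obtain ⟨N, hN⟩ := exists_nat_gt (2 / (-ρ x))
    filter_upwards [eventually_ge_atTop N] with k hk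
    have hkN : (N : ℝ) ≤ k := by exact_mod_cast hk
    have hk1 : (0 : ℝ) < k + 1 := by positivity
    have h1 : (k + 1 : ℝ) * ρ x < -2 := by
      rw [div_lt_iff₀ (by linarith)] at hN
      nlinarith
    have h2 : (fun y => (ρ y : ℂ) * b y) =ᶠ[𝓝 x] A k := by
      have hopen : {y | (k + 1 : ℝ) * ρ y < -2} ∈ 𝓝 x :=
        (isOpen_lt (continuous_const.mul S.cont) continuous_const).mem_nhds h1
      filter_upwards [hopen] with y hy
      simp only [hA]
      rw [cutθ_eq_self (le_of_lt hy)]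
      push_cast
      field_simp
    have h3 : wd (fun y => (ρ y : ℂ) * b y) e x = wd (A k) e x := by
      unfold wd
      rw [h2.fderiv_eq]
    rw [h3]
  have hint : IntegrableOn (fun x => (starRingEnd ℂ) (H x)) {x | ρ x < 0} :=
    (Complex.conjCLE.toContinuousLinearMap.integrable_comp hi)
  have htend := tendsto_integral_of_dominated_convergence (μ := volume.restrict {x | ρ x < 0})
    (F := fun k x => wd (A k) e x * (starRingEnd ℂ) (H x))
    (f := fun x => wd (fun y => (ρ y : ℂ) * b y) e x * (starRingEnd ℂ) (H x))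
    (bound := fun x => ((Cθ * B3 * B1 + B4 * B2) * ‖e‖) * ‖H x‖)
    (fun k => ((continuous_wd (hAc k) e).aestronglyMeasurable.mul hint.aestronglyMeasurable))
    (hi.norm.const_mul _)
    (fun k => (ae_restrict_iff' hΩ.measurableSet).2 (Eventually.of_forall fun x hx => by
      rw [norm_mul, RCLike.norm_conj]
      exact mul_le_mul_of_nonneg_right (hbound k x hx) (norm_nonneg _)))
    ((ae_restrict_iff' hΩ.measurableSet).2 (Eventually.of_forall fun x hx => hlim x hx))
  simp only [hzero] at htend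
  exact (tendsto_nhds_unique tendsto_const_nhds htend).symm

end Setup

end Pool.Agent.Ball44
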