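import Mathlib
import Pool.Agent.Helper44_Ball.IBP
import Pool.Agent.Helper44_Ball.Hopf

/-! Bell's trick: integral representation of `u · (f ∘ φ)` with density vanishing on the boundary. -/

set_option autoImplicit false
set_option maxSynthPendingDepth 3
open Set Metric Filter Topology MeasureTheory

namespace Pool.Agent.Ball44

variable {n : ℕ}

/-- coordinate vector -/
noncomputable def ev (j : Fin n) : E n := EuclideanSpace.single j 1

/-- `∂ρ/∂z_j`. -/
noncomputable def Pj (ρ : E n → ℝ) (j : Fin n) (x : E n) : ℂ :=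
  (1 / 2) * ((fderiv ℝ ρ x (ev j) : ℝ) - Complex.I * (fderiv ℝ ρ x (Complex.I • ev j) : ℝ))

/-- the denominator `|∂ρ|² + ρ²`. -/
noncomputable def Dn (ρ : E n → ℝ) (x : E n) : ℝ := ∑ j, ‖Pj ρ j x‖ ^ 2 + ρ x ^ 2

/-- the vector field `N`. -/
noncomputable def Nj (ρ : E n → ℝ) (j : Fin n) (x : E n) : ℂ :=
  (starRingEnd ℂ) (Pj ρ j x) * ((Dn ρ x)⁻¹ : ℝ)

/-- the density `h_f`. -/
noncomputable def hf (ρ : E n → ℝ) (f : E n → ℂ) (x : E n) : ℂ :=
  ∑ j, wd (fun y => f y * Nj ρ j y) (ev j) x - (ρ x : ℂ) * f x * ((Dn ρ x)⁻¹ : ℝ)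

lemma contDiff_Pj {ρ : E n → ℝ} (h : ContDiff ℝ 2 ρ) (j : Fin n) : ContDiff ℝ 1 (Pj ρ j) := by
  have hcd : ContDiff ℝ 1 (fderiv ℝ ρ) := h.fderiv_right (by norm_num)
  have h1 : ∀ v : E n, ContDiff ℝ 1 (fun x => ((fderiv ℝ ρ x v : ℝ) : ℂ)) := fun v =>
    Complex.ofRealCLM.contDiff.comp (hcd.clm_apply contDiff_const)
  unfold Pj
  exact contDiff_const.mul ((h1 _).sub (contDiff_const.mul (h1 _)))

lemma contDiff_Dn {ρ : E n → ℝ} (h : ContDiff ℝ 2 ρ) : ContDiff ℝ 1 (Dn ρ) := by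
  unfold Dn
  have h1 : ∀ j, ContDiff ℝ 1 (fun x => ‖Pj ρ j x‖ ^ 2) := fun j =>
    (contDiff_Pj h j).norm_sq ℝ
  exact (ContDiff.sum fun j _ => h1 j).add ((h.of_le (by norm_num)).pow 2)

lemma eq_sum_ev (v : E n) : v = ∑ j, (v j) • ev j := by
  ext i
  simp [ev, Finset.sum_apply, Pi.single_apply]

lemma fderiv_eq_zero_of_Pj {ρ : E n → ℝ} {x : E n} (h : ∀ j, Pj ρ j x = 0) :
    fderiv ℝ ρ x = 0 := by
  have h1 : ∀ j, fderiv ℝ ρ x (ev j) = 0 ∧ fderiv ℝ ρ x (Complex.I • ev j) = 0 := by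
    intro j
    have h2 := h j
    unfold Pj at h2
    have h3 : ((fderiv ℝ ρ x (ev j) : ℝ) : ℂ) -
        Complex.I * (fderiv ℝ ρ x (Complex.I • ev j) : ℝ) = 0 := by
      have : (1 / 2 : ℂ) ≠ 0 := by norm_num
      exact (mul_eq_zero.1 h2).resolve_left this
    have h4 := congrArg Complex.re h3
    have h5 := congrArg Complex.im h3
    simp at h4 h5
    exact ⟨h4, h5⟩
  ext v
  conv_lhs => rw [eq_sum_ev v]
  rw [map_sum]
  apply Finset.sum_eq_zero
  intro j _
  have h2 : (v j) • ev j = (v j).re • ev j + (v j).im • (Complex.I • ev j) := by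
    conv_lhs => rw [← Complex.re_add_im (v j)]
    rw [add_smul, mul_smul]
    rfl
  rw [h2, map_add, map_smul, map_smul, (h1 j).1, (h1 j).2]
  simp

namespace Setup

variable {ρ : E n → ℝ} {φ ψ : E n → E n} (S : Setup n ρ φ ψ)

include S

lemma Dn_pos (x : E n) : 0 < Dn ρ x := by
  unfold Dn
  by_cases h : ρ x = 0
  · have h1 : ∃ j, Pj ρ j x ≠ 0 := by
      by_contra hne
      push Not at hne
      exact S.grad x h (fderiv_eq_zero_of_Pj hne)
    obtain ⟨j, hj⟩ := h1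
    have h2 : 0 < ∑ j, ‖Pj ρ j x‖ ^ 2 := by
      apply Finset.sum_pos'
      · intro i _; positivity
      · exact ⟨j, Finset.mem_univ j, by have := norm_pos_iff.2 hj; positivity⟩
    positivity
  · have : 0 < ρ x ^ 2 := by positivity
    have h2 : 0 ≤ ∑ j, ‖Pj ρ j x‖ ^ 2 := Finset.sum_nonneg fun i _ => by positivity
    positivity

lemma contDiff_Nj (j : Fin n) : ContDiff ℝ 1 (Nj ρ j) := by
  unfold Nj
  have h1 : ContDiff ℝ 1 (fun x => (starRingEnd ℂ) (Pj ρ j x)) :=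
    Complex.conjCLE.toContinuousLinearMap.contDiff.comp (contDiff_Pj S.smooth j)
  have h2 : ContDiff ℝ 1 (fun x => (((Dn ρ x)⁻¹ : ℝ) : ℂ)) :=
    Complex.ofRealCLM.contDiff.comp
      ((contDiff_Dn S.smooth).inv (fun x => (S.Dn_pos x).ne'))
  exact h1.mul h2

lemma wd_ρ (j : Fin n) (x : E n) : wd (fun y => (ρ y : ℂ)) (ev j) x = Pj ρ j x := by
  have hρ1 : DifferentiableAt ℝ ρ x := (S.smooth.differentiable (by norm_num)) x
  have h1 : ∀ v, fderiv ℝ (fun y => (ρ y : ℂ)) x v = ((fderiv ℝ ρ x v : ℝ) : ℂ) := by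
    intro v
    have h2 : HasFDerivAt (fun y => (ρ y : ℂ)) (Complex.ofRealCLM.comp (fderiv ℝ ρ x)) x :=
      Complex.ofRealCLM.hasFDerivAt.comp x hρ1.hasFDerivAt
    rw [h2.fderiv]
    rfl
  unfold wd Pj
  rw [h1, h1]

/-- Bell's identity. -/
lemma bell_identity {f : E n → ℂ} (hf' : ContDiff ℝ 1 f) (x : E n) :
    f x - ∑ j, wd (fun y => (ρ y : ℂ) * (f y * Nj ρ j y)) (ev j) x = -(ρ x : ℂ) * hf ρ f x := by
  have hρ1 : DifferentiableAt ℝ (fun y => (ρ y : ℂ)) x :=
    (Complex.ofRealCLM.contDiff.comp (S.smooth.of_le (by norm_num) :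
      ContDiff ℝ 1 ρ)).differentiable (by norm_num) x
  have hN : ∀ j, DifferentiableAt ℝ (fun y => f y * Nj ρ j y) x := fun j =>
    ((hf'.mul (S.contDiff_Nj j)).differentiable (by norm_num)) x
  have h1 : ∀ j, wd (fun y => (ρ y : ℂ) * (f y * Nj ρ j y)) (ev j) x =
      Pj ρ j x * (f x * Nj ρ j x) + (ρ x : ℂ) * wd (fun y => f y * Nj ρ j y) (ev j) x := by
    intro j
    rw [wd_mul hρ1 (hN j), S.wd_ρ]
  have h2 : ∑ j, Pj ρ j x * (f x * Nj ρ j x) =
      f x * (1 - (ρ x : ℂ) ^ 2 * ((Dn ρ x)⁻¹ : ℝ)) := by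
    have h3 : ∀ j, Pj ρ j x * (f x * Nj ρ j x) =
        f x * ((Dn ρ x)⁻¹ : ℝ) * ((‖Pj ρ j x‖ ^ 2 : ℝ) : ℂ) := by
      intro j
      unfold Nj
      have h4 : Pj ρ j x * (starRingEnd ℂ) (Pj ρ j x) = ((‖Pj ρ j x‖ ^ 2 : ℝ) : ℂ) := by
        rw [Complex.mul_conj, Complex.normSq_eq_norm_sq]
      rw [← h4]
      ring
    simp only [h3]
    rw [← Finset.mul_sum]
    have h5 : (∑ j, ((‖Pj ρ j x‖ ^ 2 : ℝ) : ℂ)) = ((Dn ρ x : ℝ) : ℂ) - (ρ x : ℂ) ^ 2 := by
      unfold Dn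
      push_cast
      ring
    rw [h5]
    have h6 : ((Dn ρ x : ℝ) : ℂ) ≠ 0 := by exact_mod_cast (S.Dn_pos x).ne'
    push_cast
    field_simp
  simp only [h1]
  rw [Finset.sum_add_distrib, h2, ← Finset.mul_sum]
  unfold hf
  ring

lemma continuous_hf {f : E n → ℂ} (hf' : ContDiff ℝ 1 f) : Continuous (hf ρ f) := by
  unfold hf
  have h1 : Continuous (fun x => (((Dn ρ x)⁻¹ : ℝ) : ℂ)) :=
    Complex.continuous_ofReal.comp
      (((contDiff_Dn S.smooth).continuous).inv₀ (fun x => (S.Dn_pos x).ne'))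
  refine Continuous.sub ?_ ?_
  · exact continuous_finsetSum _ fun j _ => continuous_wd (hf'.mul (S.contDiff_Nj j)) _
  · exact ((Complex.continuous_ofReal.comp S.cont).mul hf'.continuous).mul h1

lemma finite_volume : volume {x | ρ x < 0} ≠ ⊤ := by
  obtain ⟨R, hR⟩ := S.bdd.subset_ball 0
  exact ((measure_mono hR).trans_lt measure_ball_lt_top).ne

/-- Bounded continuous times integrable is integrable. -/
lemma integrable_mul {g H : E n → ℂ} (hg : Continuous g) (hi : IntegrableOn H {x | ρ x < 0}) :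
    IntegrableOn (fun x => g x * (starRingEnd ℂ) (H x)) {x | ρ x < 0} := by
  obtain ⟨B, hB0, hB⟩ := S.bdd_of_continuous hg
  have hint : IntegrableOn (fun x => (starRingEnd ℂ) (H x)) {x | ρ x < 0} :=
    (Complex.conjCLE.toContinuousLinearMap.integrable_comp hi)
  refine Integrable.bdd_mul (c := B) hint hg.aestronglyMeasurable ?_
  exact (ae_restrict_iff' S.isOpen_dom.measurableSet).2 (Eventually.of_forall fun x hx => hB x hx)

/-- Bell's trick on the domain. -/
theorem bell_domain {f : E n → ℂ} (hf' : ContDiff ℝ 1 f) {H : E n → ℂ}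
    (hH : DifferentiableOn ℂ H {x | ρ x < 0}) (hi : IntegrableOn H {x | ρ x < 0}) :
    ∫ x in {x | ρ x < 0}, f x * (starRingEnd ℂ) (H x) =
      ∫ x in {x | ρ x < 0}, (-(ρ x : ℂ) * hf ρ f x) * (starRingEnd ℂ) (H x) := by
  have h1 : ∀ x, f x * (starRingEnd ℂ) (H x) =
      (-(ρ x : ℂ) * hf ρ f x) * (starRingEnd ℂ) (H x) +
      ∑ j, wd (fun y => (ρ y : ℂ) * (f y * Nj ρ j y)) (ev j) x * (starRingEnd ℂ) (H x) := by
    intro x
    rw [← Finset.sum_mul, ← add_mul, ← S.bell_identity hf' x]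
    ring
  have hρ1 : ContDiff ℝ 1 (fun y => (ρ y : ℂ)) := Complex.ofRealCLM.contDiff.comp
    (S.smooth.of_le (by norm_num) : ContDiff ℝ 1 ρ)
  have hc : ∀ j, ContDiff ℝ 1 (fun y => (ρ y : ℂ) * (f y * Nj ρ j y)) := fun j =>
    hρ1.mul (hf'.mul (S.contDiff_Nj j))
  simp only [h1]
  rw [integral_add]
  · rw [integral_finsetSum]
    · have h2 : ∀ j, ∫ x in {x | ρ x < 0}, wd (fun y => (ρ y : ℂ) * (f y * Nj ρ j y)) (ev j) x *
          (starRingEnd ℂ) (H x) = 0 := fun j => S.ibp (hf'.mul (S.contDiff_Nj j)) hH hi (ev j)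
      simp only [h2, Finset.sum_const_zero, add_zero]
    · intro j _
      exact S.integrable_mul (continuous_wd (hc j) _) hi
  · refine S.integrable_mul ?_ hi
    exact (Complex.continuous_ofReal.comp S.cont).neg.mul (S.continuous_hf hf')
  · exact integrable_finsetSum _ fun j _ => S.integrable_mul (continuous_wd (hc j) _) hi

lemma hasFDerivAt_φ : ∀ x ∈ ball (0 : E n) 1, HasFDerivAt φ (fderiv ℂ φ x) x := fun _ hx =>
  (S.φ_diffAt hx).hasFDerivAt

lemma integrable_jac_sq : IntegrableOn (fun w => ‖jac φ w‖ ^ 2) (ball (0 : E n) 1) := by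
  have h := integrableOn_image_holo (s := ball (0 : E n) 1) (f := φ) (f' := fderiv ℂ φ)
      measurableSet_ball S.hasFDerivAt_φ S.injOn_φ (fun _ => (1 : ℝ))
  rw [S.image_φ] at h
  have h2 : IntegrableOn (fun _ => (1 : ℝ)) {x | ρ x < 0} :=
    integrableOn_const S.finite_volume
  have h3 := h.1 h2
  simpa [jac] using h3

lemma integrable_jac : IntegrableOn (jac φ) (ball (0 : E n) 1) := by
  have h1 : IntegrableOn (fun w => 1 + ‖jac φ w‖ ^ 2) (ball (0 : E n) 1) :=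
    (integrableOn_const measure_ball_lt_top.ne).add S.integrable_jac_sq
  refine Integrable.mono' h1 (S.jac_diff.continuousOn.aestronglyMeasurable measurableSet_ball) ?_
  refine Eventually.of_forall fun w => ?_
  nlinarith [sq_nonneg (‖jac φ w‖ - 1), norm_nonneg (jac φ w)]

/-- The density on the ball. -/
noncomputable def _root_.Pool.Agent.Ball44.sf (ρ : E n → ℝ) (φ : E n → E n) (f : E n → ℂ)
    (w : E n) : ℂ := jac φ w * (-(ρ (φ w) : ℂ) * hf ρ f (φ w))

lemma continuousOn_φ : ContinuousOn φ (ball 0 1) := S.hφ.continuousOn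

lemma continuousOn_sf {f : E n → ℂ} (hf' : ContDiff ℝ 1 f) :
    ContinuousOn (sf ρ φ f) (ball 0 1) := by
  unfold sf
  refine S.jac_diff.continuousOn.mul ?_
  have h1 : Continuous (fun x => -(ρ x : ℂ) * hf ρ f x) :=
    (Complex.continuous_ofReal.comp S.cont).neg.mul (S.continuous_hf hf')
  exact h1.comp_continuousOn S.continuousOn_φ

lemma exists_sf_bound {f : E n → ℂ} (hf' : ContDiff ℝ 1 f) :
    ∃ C : ℝ, 0 < C ∧ ∀ w ∈ ball (0 : E n) 1, ‖sf ρ φ f w‖ ≤ C * ‖jac φ w‖ * (1 - ‖w‖) := by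
  obtain ⟨B, hB0, hB⟩ := S.bdd_of_continuous (S.continuous_hf hf')
  obtain ⟨C, hC, hC'⟩ := S.exists_upper
  refine ⟨C * (B + 1), by positivity, fun w hw => ?_⟩
  have h1 := hB (φ w) (S.mφ hw)
  have h2 := hC' w hw
  have h3 : 0 < -ρ (φ w) := by linarith [S.ρφ_neg hw]
  unfold sf
  rw [norm_mul, norm_mul, norm_neg, Complex.norm_real, Real.norm_eq_abs, abs_of_neg (S.ρφ_neg hw)]
  have h5 : 0 < 1 - ‖w‖ := by rw [mem_ball_zero_iff] at hw; linarith
  calc ‖jac φ w‖ * (-ρ (φ w) * ‖hf ρ f (φ w)‖)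
      ≤ ‖jac φ w‖ * ((C * (1 - ‖w‖)) * (B + 1)) := by
        refine mul_le_mul_of_nonneg_left ?_ (norm_nonneg _)
        exact mul_le_mul h2 (by linarith) (norm_nonneg _) (by positivity)
    _ = _ := by ring

/-- Integral representation (Bell). -/
theorem bell_representation {f : E n → ℂ} (hf' : Differentiable ℂ f) {z : E n} (hz : ‖z‖ < 1) :
    vb n * (jac φ z * f (φ z)) = ∫ w in ball (0 : E n) 1, sf ρ φ f w * ker z w := by
  have hfc : ContDiff ℝ 1 f := by
    rw [contDiff_one_iff_fderiv]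
    have hfr : Differentiable ℝ f := fun x => (hf' x).restrictScalars ℝ
    refine ⟨hfr, ?_⟩
    have h1 : Continuous (fderiv ℂ f) := by
      have := Squeeze.continuousOn_fderiv isOpen_univ (hf'.differentiableOn (s := univ))
      exact continuousOn_univ.1 this
    have h2 : fderiv ℝ f = fun x => (fderiv ℂ f x).restrictScalars ℝ := by
      funext x
      exact ((hf' x).hasFDerivAt.restrictScalars ℝ).fderiv
    rw [h2]
    exact (ContinuousLinearMap.restrictScalarsL ℂ (E n) ℂ ℝ ℝ).continuous.comp h1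
  have hΩ := S.isOpen_dom
  have hmeas : MeasurableSet (ball (0 : E n) 1) := measurableSet_ball
  -- the holomorphic function on the domain
  set H : E n → ℂ := fun x => ker (ψ x) z / jac φ (ψ x) with hH
  have hker : DifferentiableOn ℂ (fun w => ker w z) (ball 0 1) := differentiableOn_ker_left hz.le
  have hHd : DifferentiableOn ℂ H {x | ρ x < 0} := by
    have h1 : DifferentiableOn ℂ (fun w => ker w z / jac φ w) (ball 0 1) := by
      simp only [div_eq_mul_inv]
      exact hker.mul (S.jac_diff.inv (fun w hw => S.jac_ne_zero hw))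
    exact h1.comp S.hψ S.mψ
  have hHφ : ∀ w ∈ ball (0 : E n) 1, H (φ w) = ker w z / jac φ w := by
    intro w hw
    simp only [hH]
    rw [S.left w hw]
  have hcalc : ∀ (g : E n → ℂ), ∀ w ∈ ball (0 : E n) 1,
      (‖LinearMap.det (fderiv ℂ φ w : E n →ₗ[ℂ] E n)‖ ^ 2) •
        (g (φ w) * (starRingEnd ℂ) (H (φ w))) = (jac φ w * g (φ w)) * ker z w := by
    intro g w hw
    have h1 : jac φ w ≠ 0 := S.jac_ne_zero hw
    have h1' : (starRingEnd ℂ) (jac φ w) ≠ 0 := by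
      rw [Ne, map_eq_zero]; exact h1
    rw [hHφ w hw, map_div₀, conj_ker, Complex.real_smul]
    have h2 : ((‖LinearMap.det (fderiv ℂ φ w : E n →ₗ[ℂ] E n)‖ ^ 2 : ℝ) : ℂ) =
        jac φ w * (starRingEnd ℂ) (jac φ w) := by
      rw [Complex.mul_conj, Complex.normSq_eq_norm_sq]
      rfl
    rw [h2]
    field_simp
  have hchange : ∀ g : E n → ℂ, ∫ x in {x | ρ x < 0}, g x * (starRingEnd ℂ) (H x) =
      ∫ w in ball (0 : E n) 1, (jac φ w * g (φ w)) * ker z w := by
    intro g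
    have h := integral_image_holo (s := ball (0 : E n) 1) (f := φ) (f' := fderiv ℂ φ)
      hmeas S.hasFDerivAt_φ S.injOn_φ (fun x => g x * (starRingEnd ℂ) (H x))
    rw [S.image_φ] at h
    rw [h]
    exact setIntegral_congr_fun hmeas (hcalc g)
  -- integrability of `H`
  have hHi : IntegrableOn H {x | ρ x < 0} := by
    have h := integrableOn_image_holo (s := ball (0 : E n) 1) (f := φ) (f' := fderiv ℂ φ)
      hmeas S.hasFDerivAt_φ S.injOn_φ H
    rw [S.image_φ] at h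
    rw [h]
    have h1 : IntegrableOn (fun w => ((1 - ‖z‖) ^ (n + 1))⁻¹ * ‖jac φ w‖) (ball (0 : E n) 1) :=
      S.integrable_jac.norm.const_mul _
    have hcont : ContinuousOn (fun x => (‖LinearMap.det (fderiv ℂ φ x : E n →ₗ[ℂ] E n)‖ ^ 2) •
        H (φ x)) (ball (0 : E n) 1) := by
      have e1 : ContinuousOn (fun x => ‖jac φ x‖ ^ 2) (ball (0 : E n) 1) :=
        S.jac_diff.continuousOn.norm.pow 2
      have e2 : ContinuousOn (fun x => H (φ x)) (ball (0 : E n) 1) :=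
        hHd.continuousOn.comp S.continuousOn_φ S.mφ
      exact e1.smul e2
    refine Integrable.mono' h1 (hcont.aestronglyMeasurable hmeas) ?_
    refine (ae_restrict_iff' hmeas).2 (Eventually.of_forall fun w hw => ?_)
    rw [norm_smul, hHφ w hw, norm_div]
    have h2 : 0 < ‖jac φ w‖ := norm_pos_iff.2 (S.jac_ne_zero hw)
    have h3 : ‖(‖LinearMap.det (fderiv ℂ φ w : E n →ₗ[ℂ] E n)‖ ^ 2 : ℝ)‖ = ‖jac φ w‖ ^ 2 := by
      rw [Real.norm_eq_abs, abs_of_nonneg (by positivity)]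
      rfl
    rw [h3]
    have h4 : ‖ker w z‖ ≤ ((1 - ‖z‖) ^ (n + 1))⁻¹ := by
      rw [← RCLike.norm_conj, conj_ker]
      exact norm_ker_le hz (mem_ball_zero_iff.1 hw).le
    calc ‖jac φ w‖ ^ 2 * (‖ker w z‖ / ‖jac φ w‖) = ‖ker w z‖ * ‖jac φ w‖ := by
          field_simp
      _ ≤ _ := mul_le_mul_of_nonneg_right h4 h2.le
  have hbell := S.bell_domain hfc hHd hHi
  rw [hchange f, hchange (fun x => -(ρ x : ℂ) * hf ρ f x)] at hbell
  -- reproducing formula
  have hdiff : DifferentiableOn ℂ (fun w => jac φ w * f (φ w)) (ball 0 1) :=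
    S.jac_diff.mul (hf'.comp_differentiableOn S.hφ)
  have hint : IntegrableOn (fun w => jac φ w * f (φ w)) (ball 0 1) := by
    obtain ⟨B, hB0, hB⟩ := S.bdd_of_continuous hf'.continuous
    refine Integrable.mul_bdd (c := B) S.integrable_jac ?_ ?_
    · exact (hf'.continuous.comp_continuousOn S.continuousOn_φ).aestronglyMeasurable hmeas
    · exact (ae_restrict_iff' hmeas).2 (Eventually.of_forall fun w hw => hB _ (S.mφ hw))
  have hrep := reproducing hdiff hint hz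
  rw [← hrep, hbell]
  rfl

end Setup

end Pool.Agent.Ball44
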