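import Mathlib

/-! Non-isotropic expansion of the kernel: pointwise estimates. -/

set_option autoImplicit false
open Set Metric Filter Topology

namespace Pool.Agent.Ball44

lemma one_var_exp (m j : ℕ) : ∃ a : ℕ → ℂ, ∃ C : ℝ, 0 < C ∧ ∀ x : ℂ, ‖x‖ ≤ 1 / 2 →
    ‖((1 + x) ^ m)⁻¹ - ∑ k ∈ Finset.range j, a k * x ^ k‖ ≤ C * ‖x‖ ^ j := by
  have han : AnalyticAt ℂ (fun x : ℂ => ((1 + x) ^ m)⁻¹) 0 := by
    have h1 : AnalyticAt ℂ (fun x : ℂ => (1 + x) ^ m) 0 := by fun_prop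
    exact h1.inv (by simp)
  obtain ⟨p, hp⟩ := han
  have hO := hp.isBigO_sub_partialSum_pow j
  obtain ⟨C, hC⟩ := hO.bound
  obtain ⟨r, hr, hb⟩ := Metric.eventually_nhds_iff_ball.1 hC
  refine ⟨fun k => p.coeff k, ?_⟩
  set S : ℝ := ∑ k ∈ Finset.range j, ‖p.coeff k‖ with hS
  have hS0 : 0 ≤ S := Finset.sum_nonneg fun _ _ => norm_nonneg _
  refine ⟨max C 0 + (2 ^ m + S) / r ^ j + 1, by positivity, fun x hx => ?_⟩
  have hps : p.partialSum j x = ∑ k ∈ Finset.range j, p.coeff k * x ^ k := by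
    unfold FormalMultilinearSeries.partialSum
    refine Finset.sum_congr rfl fun k _ => ?_
    rw [FormalMultilinearSeries.apply_eq_pow_smul_coeff, smul_eq_mul, mul_comm]
  by_cases hxr : ‖x‖ < r
  · have h1 := hb x (by rwa [mem_ball_zero_iff])
    rw [zero_add, hps, Real.norm_eq_abs, abs_of_nonneg (by positivity)] at h1
    refine h1.trans ?_
    apply mul_le_mul_of_nonneg_right _ (by positivity)
    have := le_max_left C 0
    have h3 : 0 ≤ (2 ^ m + S) / r ^ j := by positivity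
    linarith
  · push Not at hxr
    have h1 : ‖((1 + x) ^ m)⁻¹‖ ≤ 2 ^ m := by
      rw [norm_inv, norm_pow, ← inv_pow]
      have h2 : 1 / 2 ≤ ‖1 + x‖ := by
        have := norm_sub_norm_le (1 : ℂ) (-x)
        rw [norm_one, norm_neg, sub_neg_eq_add] at this
        linarith
      have h3 : ‖1 + x‖⁻¹ ≤ 2 := by
        rw [inv_le_comm₀ (by linarith) (by norm_num)]
        linarith
      gcongr
    have h2 : ‖∑ k ∈ Finset.range j, p.coeff k * x ^ k‖ ≤ S := by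
      refine (norm_sum_le _ _).trans ?_
      rw [hS]
      refine Finset.sum_le_sum fun k _ => ?_
      rw [norm_mul, norm_pow]
      have : ‖x‖ ^ k ≤ 1 := pow_le_one₀ (norm_nonneg x) (by linarith)
      nlinarith [norm_nonneg (p.coeff k)]
    calc _ ≤ ‖((1 + x) ^ m)⁻¹‖ + ‖∑ k ∈ Finset.range j, p.coeff k * x ^ k‖ := norm_sub_le _ _
      _ ≤ 2 ^ m + S := add_le_add h1 h2
      _ = (2 ^ m + S) / r ^ j * r ^ j := by field_simp
      _ ≤ (2 ^ m + S) / r ^ j * ‖x‖ ^ j := by gcongr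
      _ ≤ _ := by
        apply mul_le_mul_of_nonneg_right _ (by positivity)
        have := le_max_right C 0
        linarith

/-- Index set of weight at most `j`. -/
def Idx (j : ℕ) : Finset (ℕ × ℕ) :=
  ((Finset.range (j + 1)) ×ˢ (Finset.range (j + 1))).filter fun p => 2 * p.1 + p.2 ≤ j

/-- Index set of degree at most `j`. -/
def Full (j : ℕ) : Finset (ℕ × ℕ) :=
  ((Finset.range (j + 1)) ×ˢ (Finset.range (j + 1))).filter fun p => p.1 + p.2 ≤ j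

lemma mem_Idx {j : ℕ} {p : ℕ × ℕ} : p ∈ Idx j ↔ 2 * p.1 + p.2 ≤ j := by
  unfold Idx
  simp only [Finset.mem_filter, Finset.mem_product, Finset.mem_range]
  constructor
  · exact fun h => h.2
  · intro h; exact ⟨⟨by omega, by omega⟩, h⟩

lemma mem_Full {j : ℕ} {p : ℕ × ℕ} : p ∈ Full j ↔ p.1 + p.2 ≤ j := by
  unfold Full
  simp only [Finset.mem_filter, Finset.mem_product, Finset.mem_range]
  constructor
  · exact fun h => h.2
  · intro h; exact ⟨⟨by omega, by omega⟩, h⟩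

lemma Idx_subset_Full (j : ℕ) : Idx j ⊆ Full j := by
  intro p hp
  rw [mem_Idx] at hp
  rw [mem_Full]
  omega

lemma sum_full (a : ℕ → ℂ) (x y : ℂ) (j : ℕ) :
    ∑ k ∈ Finset.range (j + 1), a k * (x + y) ^ k =
      ∑ p ∈ Full j, (a (p.1 + p.2) * ((p.1 + p.2).choose p.1 : ℂ)) * x ^ p.1 * y ^ p.2 := by
  have hmaps : ∀ p ∈ Full j, p.1 + p.2 ∈ Finset.range (j + 1) := by
    intro p hp
    rw [mem_Full] at hp
    rw [Finset.mem_range]
    omega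
  rw [← Finset.sum_fiberwise_of_maps_to hmaps]
  refine Finset.sum_congr rfl fun k hk => ?_
  rw [Finset.mem_range] at hk
  have hfil : (Full j).filter (fun p => p.1 + p.2 = k) = Finset.HasAntidiagonal.antidiagonal k := by
    ext p
    rw [Finset.mem_filter, mem_Full, Finset.HasAntidiagonal.mem_antidiagonal]
    constructor
    · exact fun h => h.2
    · intro h; exact ⟨by omega, h⟩
  rw [hfil, (Commute.all x y).add_pow', Finset.mul_sum]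
  refine Finset.sum_congr rfl fun p hp => ?_
  rw [Finset.HasAntidiagonal.mem_antidiagonal] at hp
  rw [hp, nsmul_eq_mul]
  ring

/-- Expansion in the far region. -/
lemma two_var_exp (m j : ℕ) : ∃ c : ℕ × ℕ → ℂ, ∃ C : ℝ, 0 < C ∧ ∀ (x y : ℂ) (r : ℝ), 0 ≤ r →
    r ≤ 1 / 8 → ‖x‖ ≤ r ^ 2 → ‖y‖ ≤ 2 * r →
    ‖((1 + x + y) ^ m)⁻¹ - ∑ p ∈ Idx j, c p * x ^ p.1 * y ^ p.2‖ ≤ C * r ^ (j + 1) := by
  obtain ⟨a, C, hC, h⟩ := one_var_exp m (j + 1)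
  set c : ℕ × ℕ → ℂ := fun p => a (p.1 + p.2) * ((p.1 + p.2).choose p.1 : ℂ) with hc
  set S : ℝ := ∑ p ∈ Full j \ Idx j, ‖c p‖ * 2 ^ p.2 with hS
  have hS0 : 0 ≤ S := Finset.sum_nonneg fun _ _ => by positivity
  refine ⟨c, C * 3 ^ (j + 1) + S, by positivity, fun x y r hr hr8 hx hy => ?_⟩
  have hxy : ‖x + y‖ ≤ 3 * r := by
    refine (norm_add_le _ _).trans ?_
    nlinarith
  have h1 := h (x + y) (by linarith)
  rw [← add_assoc, sum_full] at h1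
  have hsplit : ∑ p ∈ Full j, (a (p.1 + p.2) * ((p.1 + p.2).choose p.1 : ℂ)) * x ^ p.1 * y ^ p.2 =
      ∑ p ∈ Full j \ Idx j, c p * x ^ p.1 * y ^ p.2 + ∑ p ∈ Idx j, c p * x ^ p.1 * y ^ p.2 :=
    (Finset.sum_sdiff (Idx_subset_Full j)).symm
  rw [hsplit] at h1
  have h2 : ‖∑ p ∈ Full j \ Idx j, c p * x ^ p.1 * y ^ p.2‖ ≤ S * r ^ (j + 1) := by
    refine (norm_sum_le _ _).trans ?_
    rw [hS, Finset.sum_mul]
    refine Finset.sum_le_sum fun p hp => ?_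
    rw [Finset.mem_sdiff, mem_Full, mem_Idx] at hp
    rw [norm_mul, norm_mul, norm_pow, norm_pow, mul_assoc, mul_assoc]
    refine mul_le_mul_of_nonneg_left ?_ (norm_nonneg _)
    calc ‖x‖ ^ p.1 * ‖y‖ ^ p.2 ≤ (r ^ 2) ^ p.1 * (2 * r) ^ p.2 := by gcongr
      _ = 2 ^ p.2 * r ^ (2 * p.1 + p.2) := by
        rw [mul_pow, ← pow_mul, pow_add]; ring
      _ ≤ 2 ^ p.2 * r ^ (j + 1) := by
        have : r ^ (2 * p.1 + p.2) ≤ r ^ (j + 1) :=
          pow_le_pow_of_le_one hr (by linarith) (by omega)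
        gcongr
  have h3 : C * ‖x + y‖ ^ (j + 1) ≤ C * 3 ^ (j + 1) * r ^ (j + 1) := by
    rw [mul_assoc, ← mul_pow]
    gcongr
  calc _ = ‖(((1 + x + y) ^ m)⁻¹ - (∑ p ∈ Full j \ Idx j, c p * x ^ p.1 * y ^ p.2 +
        ∑ p ∈ Idx j, c p * x ^ p.1 * y ^ p.2)) +
        ∑ p ∈ Full j \ Idx j, c p * x ^ p.1 * y ^ p.2‖ := by congr 1; ring
    _ ≤ _ := norm_add_le _ _
    _ ≤ C * 3 ^ (j + 1) * r ^ (j + 1) + S * r ^ (j + 1) := add_le_add (h1.trans h3) h2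
    _ = _ := by ring

/-- The pointwise expansion estimate. -/
theorem expansion_pointwise (n j : ℕ) : ∃ c : ℕ × ℕ → ℂ, ∃ C : ℝ, 0 < C ∧
    ∀ (Y X₁ X₂ : ℂ) (τ y α : ℝ), 0 ≤ τ → 0 < y → 0 < α → ‖Y‖ = y ^ 2 →
    ‖Y + X₁ + X₂‖ = α ^ 2 → ‖X₁‖ ≤ τ ^ 2 → ‖X₂‖ ≤ 2 * τ * y →
    ‖((Y + X₁ + X₂) ^ (n + 1))⁻¹ - ∑ p ∈ Idx j, c p * X₁ ^ p.1 * X₂ ^ p.2 *
        (Y ^ (n + 1 + p.1 + p.2))⁻¹‖ * (y ^ j * min (y ^ 2) (α ^ 2)) ≤
      C * τ ^ (j + 1) * ((y ^ (2 * n + 1))⁻¹ + (α ^ (2 * n + 1))⁻¹) := by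
  obtain ⟨c, C, hC, h⟩ := two_var_exp (n + 1) j
  set S : ℝ := ∑ p ∈ Idx j, ‖c p‖ * 2 ^ p.2 * 8 ^ (j + 1) with hS
  have hS0 : 0 ≤ S := Finset.sum_nonneg fun _ _ => by positivity
  refine ⟨c, C + S + 9 * 8 ^ j, by positivity, ?_⟩
  intro Y X₁ X₂ τ y α hτ hy hα hY hA hX₁ hX₂
  have hY0 : Y ≠ 0 := by
    rw [← norm_pos_iff, hY]; positivity
  have hyi : 0 < (y ^ (2 * n + 1))⁻¹ := by positivity
  have hαi : 0 < (α ^ (2 * n + 1))⁻¹ := by positivity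
  by_cases hfar : 8 * τ ≤ y
  · -- far region
    set r : ℝ := τ / y with hr
    have hr0 : 0 ≤ r := by positivity
    have hr8 : r ≤ 1 / 8 := by
      rw [hr, div_le_iff₀ hy]; linarith
    have hx : ‖X₁ / Y‖ ≤ r ^ 2 := by
      rw [norm_div, hY, hr, div_pow]
      gcongr
    have hx2 : ‖X₂ / Y‖ ≤ 2 * r := by
      rw [norm_div, hY, hr, div_le_iff₀ (by positivity)]
      have : 2 * (τ / y) * y ^ 2 = 2 * τ * y := by field_simp
      rw [this]; exact hX₂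
    have h1 := h (X₁ / Y) (X₂ / Y) r hr0 hr8 hx hx2
    have e : ((Y + X₁ + X₂) ^ (n + 1))⁻¹ - ∑ p ∈ Idx j, c p * X₁ ^ p.1 * X₂ ^ p.2 *
        (Y ^ (n + 1 + p.1 + p.2))⁻¹ =
        (Y ^ (n + 1))⁻¹ * (((1 + X₁ / Y + X₂ / Y) ^ (n + 1))⁻¹ -
          ∑ p ∈ Idx j, c p * (X₁ / Y) ^ p.1 * (X₂ / Y) ^ p.2) := by
      rw [mul_sub, Finset.mul_sum]
      congr 1
      · rw [← mul_inv, ← mul_pow]
        congr 2
        field_simp
      · refine Finset.sum_congr rfl fun p _ => ?_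
        rw [div_pow, div_pow, pow_add, pow_add]
        field_simp
    rw [e, norm_mul, norm_inv, norm_pow, hY]
    have hmin : min (y ^ 2) (α ^ 2) ≤ y ^ 2 := min_le_left _ _
    calc _ ≤ ((y ^ 2) ^ (n + 1))⁻¹ * (C * r ^ (j + 1)) * (y ^ j * y ^ 2) := by gcongr
      _ = C * τ ^ (j + 1) * (y ^ (2 * n + 1))⁻¹ := by
        rw [hr, div_pow]
        field_simp
        ring
      _ ≤ _ := by
        have h3 : 0 ≤ C * τ ^ (j + 1) * (α ^ (2 * n + 1))⁻¹ := by positivity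
        have h4 : 0 ≤ (S + 9 * 8 ^ j) * τ ^ (j + 1) * ((y ^ (2 * n + 1))⁻¹ + (α ^ (2 * n + 1))⁻¹) := by
          positivity
        nlinarith
  · -- near region
    push Not at hfar
    have hα9 : α ≤ 9 * τ := by
      apply le_of_sq_le_sq _ (by positivity)
      rw [← hA]
      calc ‖Y + X₁ + X₂‖ ≤ ‖Y‖ + ‖X₁‖ + ‖X₂‖ := norm_add₃_le
        _ ≤ y ^ 2 + τ ^ 2 + 2 * τ * y := by rw [hY]; gcongr
        _ ≤ (9 * τ) ^ 2 := by nlinarith
    have hmin1 : min (y ^ 2) (α ^ 2) ≤ y ^ 2 := min_le_left _ _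
    have hmin2 : min (y ^ 2) (α ^ 2) ≤ α ^ 2 := min_le_right _ _
    have hmin0 : 0 ≤ min (y ^ 2) (α ^ 2) := by positivity
    have h1 : ‖((Y + X₁ + X₂) ^ (n + 1))⁻¹‖ * (y ^ j * min (y ^ 2) (α ^ 2)) ≤
        9 * 8 ^ j * τ ^ (j + 1) * (α ^ (2 * n + 1))⁻¹ := by
      rw [norm_inv, norm_pow, hA]
      calc ((α ^ 2) ^ (n + 1))⁻¹ * (y ^ j * min (y ^ 2) (α ^ 2))
          ≤ ((α ^ 2) ^ (n + 1))⁻¹ * ((8 * τ) ^ j * α ^ 2) := by gcongr
        _ = (8 * τ) ^ j * (α * (α ^ (2 * n + 1))⁻¹) := by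
          field_simp
          ring
        _ ≤ (8 * τ) ^ j * ((9 * τ) * (α ^ (2 * n + 1))⁻¹) := by gcongr
        _ = _ := by rw [mul_pow]; ring
    have h2 : ‖∑ p ∈ Idx j, c p * X₁ ^ p.1 * X₂ ^ p.2 * (Y ^ (n + 1 + p.1 + p.2))⁻¹‖ *
        (y ^ j * min (y ^ 2) (α ^ 2)) ≤ S * τ ^ (j + 1) * (y ^ (2 * n + 1))⁻¹ := by
      calc _ ≤ (∑ p ∈ Idx j, ‖c p * X₁ ^ p.1 * X₂ ^ p.2 * (Y ^ (n + 1 + p.1 + p.2))⁻¹‖) *
            (y ^ j * y ^ 2) := by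
            have := norm_sum_le (Idx j) fun p => c p * X₁ ^ p.1 * X₂ ^ p.2 *
              (Y ^ (n + 1 + p.1 + p.2))⁻¹
            gcongr
        _ = ∑ p ∈ Idx j, ‖c p * X₁ ^ p.1 * X₂ ^ p.2 * (Y ^ (n + 1 + p.1 + p.2))⁻¹‖ *
            (y ^ j * y ^ 2) := Finset.sum_mul _ _ _
        _ ≤ ∑ p ∈ Idx j, (‖c p‖ * 2 ^ p.2 * 8 ^ (j + 1)) * τ ^ (j + 1) * (y ^ (2 * n + 1))⁻¹ := by
            refine Finset.sum_le_sum fun p hp => ?_
            rw [mem_Idx] at hp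
            rw [norm_mul, norm_mul, norm_mul, norm_inv, norm_pow, norm_pow, norm_pow, hY]
            obtain ⟨d, hd⟩ : ∃ d, j + 1 = 2 * p.1 + p.2 + d := ⟨j + 1 - (2 * p.1 + p.2), by omega⟩
            have hd1 : d ≤ j + 1 := by omega
            calc ‖c p‖ * ‖X₁‖ ^ p.1 * ‖X₂‖ ^ p.2 * ((y ^ 2) ^ (n + 1 + p.1 + p.2))⁻¹ *
                (y ^ j * y ^ 2)
                ≤ ‖c p‖ * (τ ^ 2) ^ p.1 * (2 * τ * y) ^ p.2 *
                  ((y ^ 2) ^ (n + 1 + p.1 + p.2))⁻¹ * (y ^ j * y ^ 2) := by gcongr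
              _ = ‖c p‖ * 2 ^ p.2 * τ ^ (2 * p.1 + p.2) * (y ^ d * (y ^ (2 * n + 1))⁻¹) := by
                  have e1 : y ^ j * y ^ 2 = y ^ (2 * p.1 + p.2 + d + 1) := by
                    rw [← pow_add]; congr 1; omega
                  have e2 : (y ^ 2) ^ (n + 1 + p.1 + p.2) =
                      y ^ (2 * n + 1) * y ^ (2 * p.1 + 2 * p.2 + 1) := by
                    rw [← pow_mul, ← pow_add]; congr 1; ring
                  rw [e1, e2, mul_pow, mul_pow, ← pow_mul]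
                  field_simp
                  ring
              _ ≤ ‖c p‖ * 2 ^ p.2 * τ ^ (2 * p.1 + p.2) * ((8 * τ) ^ d * (y ^ (2 * n + 1))⁻¹) := by
                  gcongr
              _ = ‖c p‖ * 2 ^ p.2 * 8 ^ d * τ ^ (j + 1) * (y ^ (2 * n + 1))⁻¹ := by
                  rw [hd, mul_pow]
                  ring
              _ ≤ _ := by
                  have : (8 : ℝ) ^ d ≤ 8 ^ (j + 1) := pow_le_pow_right₀ (by norm_num) hd1
                  gcongr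
        _ = _ := by
            rw [hS, Finset.sum_mul, Finset.sum_mul]
    calc _ ≤ (‖((Y + X₁ + X₂) ^ (n + 1))⁻¹‖ +
          ‖∑ p ∈ Idx j, c p * X₁ ^ p.1 * X₂ ^ p.2 * (Y ^ (n + 1 + p.1 + p.2))⁻¹‖) *
          (y ^ j * min (y ^ 2) (α ^ 2)) := by
          have := norm_sub_le ((Y + X₁ + X₂) ^ (n + 1))⁻¹
            (∑ p ∈ Idx j, c p * X₁ ^ p.1 * X₂ ^ p.2 * (Y ^ (n + 1 + p.1 + p.2))⁻¹)
          gcongr
      _ ≤ 9 * 8 ^ j * τ ^ (j + 1) * (α ^ (2 * n + 1))⁻¹ +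
          S * τ ^ (j + 1) * (y ^ (2 * n + 1))⁻¹ := by
          rw [add_mul]; exact add_le_add h1 h2
      _ ≤ _ := by
          have e1 : 0 ≤ C * τ ^ (j + 1) * ((y ^ (2 * n + 1))⁻¹ + (α ^ (2 * n + 1))⁻¹) := by
            positivity
          have e2 : 0 ≤ S * τ ^ (j + 1) * (α ^ (2 * n + 1))⁻¹ := by positivity
          have e3 : 0 ≤ 9 * 8 ^ j * τ ^ (j + 1) * (y ^ (2 * n + 1))⁻¹ := by positivity
          linarith

end Pool.Agent.Ball44
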