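import Mathlib
import Pool.Agent.Helper44_Ball.Expansion

/-! Elementary lemmas on weighted polynomial expansions. -/

set_option autoImplicit false
set_option maxSynthPendingDepth 3
open Set Metric Filter Topology MeasureTheory

namespace Pool.Agent.Ball44

/-- The tail of a weighted polynomial. -/
lemma poly_tail {j k : ℕ} (a : ℕ × ℕ → ℂ) (ha : ∀ p ∈ Idx j, 2 * p.1 + p.2 < k → a p = 0) :
    ∃ C : ℝ, 0 ≤ C ∧ ∀ ω l : ℂ, ‖ω‖ ≤ 1 → ‖l‖ ^ 2 ≤ 2 * ‖ω‖ →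
     ‖∑ p ∈ Idx j, a p * ω ^ p.1 * l ^ p.2 -
      ∑ p ∈ (Idx j).filter (fun p => 2 * p.1 + p.2 = k), a p * ω ^ p.1 * l ^ p.2‖ ≤
        C * (Real.sqrt ‖ω‖) ^ (k + 1) := by
  refine ⟨∑ p ∈ Idx j, ‖a p‖ * 2 ^ p.2, by positivity, fun ω l hω hl => ?_⟩
  rw [← Finset.sum_filter_add_sum_filter_not (Idx j) (fun p => 2 * p.1 + p.2 = k)]
  rw [add_sub_cancel_left, Finset.sum_mul]
  set s := Real.sqrt ‖ω‖ with hs
  have hs0 : 0 ≤ s := Real.sqrt_nonneg _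
  have hs2 : s ^ 2 = ‖ω‖ := Real.sq_sqrt (norm_nonneg _)
  have hs1 : s ≤ 1 := by
    rw [hs]; exact Real.sqrt_le_one.2 hω
  have hl2 : ‖l‖ ≤ 2 * s := by
    apply le_of_sq_le_sq _ (by positivity)
    rw [mul_pow, hs2]
    linarith [norm_nonneg ω]
  refine (norm_sum_le _ _).trans ?_
  refine (Finset.sum_le_sum (fun p hp => ?_)).trans
    (Finset.sum_le_sum_of_subset_of_nonneg (Finset.filter_subset _ _) (fun p _ _ => by positivity))
  rw [Finset.mem_filter] at hp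
  rcases lt_or_ge (2 * p.1 + p.2) k with h | h
  · rw [ha p hp.1 h]
    simp only [zero_mul, norm_zero]
    positivity
  · have h1 : k + 1 ≤ 2 * p.1 + p.2 := by
      have := hp.2
      omega
    rw [norm_mul, norm_mul, norm_pow, norm_pow, ← hs2]
    calc ‖a p‖ * (s ^ 2) ^ p.1 * ‖l‖ ^ p.2 ≤ ‖a p‖ * (s ^ 2) ^ p.1 * (2 * s) ^ p.2 := by gcongr
      _ = ‖a p‖ * 2 ^ p.2 * s ^ (2 * p.1 + p.2) := by
        rw [mul_pow, pow_add, pow_mul]; ring
      _ ≤ ‖a p‖ * 2 ^ p.2 * s ^ (k + 1) := by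
        apply mul_le_mul_of_nonneg_left _ (by positivity)
        exact pow_le_pow_of_le_one hs0 hs1 h1

lemma sum_weight_zero {j i : ℕ} (hij : 2 * i ≤ j) (a : ℕ × ℕ → ℂ) (ω : ℂ) :
    ∑ p ∈ (Idx j).filter (fun p => 2 * p.1 + p.2 = 2 * i), a p * ω ^ p.1 * (0 : ℂ) ^ p.2 =
      a (i, 0) * ω ^ i := by
  rw [Finset.sum_eq_single (i, 0)]
  · simp
  · intro p hp hne
    rw [Finset.mem_filter] at hp
    have : p.2 ≠ 0 := by
      intro h0
      apply hne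
      have h1 : p.1 = i := by omega
      exact Prod.ext h1 h0
    rw [zero_pow this, mul_zero]
  · intro hn
    exfalso
    apply hn
    rw [Finset.mem_filter, mem_Idx]
    constructor <;> simp <;> omega

lemma eq_zero_of_small {c : ℂ} {K : ℝ} (h : ∀ s : ℝ, 0 < s → s < 1 → ‖c‖ ≤ K * s) : c = 0 := by
  have h1 : Tendsto (fun s : ℝ => K * s) (𝓝[>] 0) (𝓝 0) := by
    have : Tendsto (fun s : ℝ => K * s) (𝓝 0) (𝓝 (K * 0)) := by
      exact (continuous_const.mul continuous_id).tendsto 0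
    rw [mul_zero] at this
    exact this.mono_left nhdsWithin_le_nhds
  have h2 : ∀ᶠ s : ℝ in 𝓝[>] 0, ‖c‖ ≤ K * s := by
    filter_upwards [Ioo_mem_nhdsGT (show (0 : ℝ) < 1 by norm_num)] with s hs
    exact h s hs.1 hs.2
  have h3 := ge_of_tendsto h1 h2
  exact norm_le_zero_iff.1 h3

/-- Leading order on a slice. -/
lemma slice_lead {g : ℂ → ℂ} {j i : ℕ} (hij : 2 * i ≤ j) {a : ℕ × ℕ → ℂ} {K C : ℝ} (hK : 0 ≤ K)
    (hC : 0 ≤ C)
    (h1 : ∀ ω : ℂ, ‖1 - ω‖ < 1 → ‖g ω - ∑ p ∈ Idx j, a p * ω ^ p.1 * (0 : ℂ) ^ p.2‖ ≤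
      K * (Real.sqrt ‖ω‖) ^ (j + 1))
    (h2 : ∀ ω : ℂ, ‖1 - ω‖ < 1 → ‖ω‖ ≤ 1 → ‖g ω‖ ≤ C * ‖ω‖ ^ i) :
    ∃ C' : ℝ, 0 ≤ C' ∧ ∀ ω : ℂ, ‖1 - ω‖ < 1 → ‖ω‖ ≤ 1 →
      ‖g ω - a (i, 0) * ω ^ i‖ ≤ C' * (Real.sqrt ‖ω‖) ^ (2 * i + 1) := by
  set a' : ℕ × ℕ → ℂ := fun p => if p.2 = 0 then a p else 0 with ha'
  have hsum : ∀ ω : ℂ, ∑ p ∈ Idx j, a p * ω ^ p.1 * (0 : ℂ) ^ p.2 =
      ∑ p ∈ Idx j, a' p * ω ^ p.1 * (0 : ℂ) ^ p.2 := by
    intro ω
    refine Finset.sum_congr rfl fun p _ => ?_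
    by_cases hp : p.2 = 0
    · simp [ha', hp]
    · rw [zero_pow hp, mul_zero, mul_zero]
  have hpow : ∀ ω : ℂ, ‖ω‖ ≤ 1 → ∀ m : ℕ, m ≤ j →
      (Real.sqrt ‖ω‖) ^ (j + 1) ≤ (Real.sqrt ‖ω‖) ^ (m + 1) := by
    intro ω hω m hm
    exact pow_le_pow_of_le_one (Real.sqrt_nonneg _) (Real.sqrt_le_one.2 hω) (by omega)
  have hmain : ∀ k : ℕ, k ≤ 2 * i → ∀ p ∈ Idx j, 2 * p.1 + p.2 < k → a' p = 0 := by
    intro k
    induction k with
    | zero => intro _ p _ h; omega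
    | succ k ih =>
      intro hk p hp hpk
      have ih' := ih (by omega)
      rcases Nat.lt_succ_iff_lt_or_eq.1 hpk with h | h
      · exact ih' p hp h
      · by_cases hp2 : p.2 = 0
        · obtain ⟨m, m2⟩ := p
          simp only at hp2 h
          subst hp2
          have hkm : k = 2 * m := by omega
          subst hkm
          obtain ⟨C₁, hC₁, hC₁'⟩ := poly_tail a' ih'
          refine eq_zero_of_small (K := C + K + C₁) fun s hs0 hs1 => ?_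
          have hω1 : ‖(1 : ℂ) - ((s ^ 2 : ℝ) : ℂ)‖ < 1 := by
            rw [← Complex.ofReal_one, ← Complex.ofReal_sub, Complex.norm_real, Real.norm_eq_abs,
              abs_lt]
            constructor <;> nlinarith
          have hωn : ‖((s ^ 2 : ℝ) : ℂ)‖ = s ^ 2 := by
            rw [Complex.norm_real, Real.norm_eq_abs, abs_of_nonneg (by positivity)]
          have hω2 : ‖((s ^ 2 : ℝ) : ℂ)‖ ≤ 1 := by
            rw [hωn]; nlinarith
          have hsq : Real.sqrt ‖((s ^ 2 : ℝ) : ℂ)‖ = s := by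
            rw [hωn, Real.sqrt_sq hs0.le]
          have e1 := h1 _ hω1
          have e2 := h2 _ hω1 hω2
          have e3 := hC₁' _ 0 hω2 (by rw [norm_zero, hωn]; nlinarith [sq_nonneg s])
          rw [hsum] at e1
          rw [sum_weight_zero (by omega)] at e3
          rw [hsq] at e1 e3
          rw [hωn] at e2
          have e4 : ‖a' (m, 0) * ((s ^ 2 : ℝ) : ℂ) ^ m‖ ≤ (C + K + C₁) * s ^ (2 * m + 1) := by
            set G := g ((s ^ 2 : ℝ) : ℂ) with hG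
            set S₀ := ∑ p ∈ Idx j, a' p * ((s ^ 2 : ℝ) : ℂ) ^ p.1 * (0 : ℂ) ^ p.2 with hS₀
            set L := a' (m, 0) * ((s ^ 2 : ℝ) : ℂ) ^ m with hL
            have t1 : L = G - (G - S₀) - (S₀ - L) := by ring
            have t2 : ‖L‖ ≤ ‖G‖ + ‖G - S₀‖ + ‖S₀ - L‖ := by
              calc ‖L‖ = ‖G - (G - S₀) - (S₀ - L)‖ := by rw [← t1]
                _ ≤ ‖G - (G - S₀)‖ + ‖S₀ - L‖ := norm_sub_le _ _
                _ ≤ _ := by
                  have := norm_sub_le G (G - S₀)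
                  linarith
            have t3 : s ^ (j + 1) ≤ s ^ (2 * m + 1) :=
              pow_le_pow_of_le_one hs0.le hs1.le (by omega)
            have t4 : (s ^ 2) ^ i ≤ s ^ (2 * m + 1) := by
              rw [← pow_mul]
              exact pow_le_pow_of_le_one hs0.le hs1.le (by omega)
            have t5 : K * s ^ (j + 1) ≤ K * s ^ (2 * m + 1) := by gcongr
            have t6 : C * (s ^ 2) ^ i ≤ C * s ^ (2 * m + 1) := by gcongr
            nlinarith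
          rw [norm_mul, norm_pow, hωn, ← pow_mul, pow_succ] at e4
          have hsp : 0 < s ^ (2 * m) := by positivity
          have e5 : ‖a' (m, 0)‖ * s ^ (2 * m) ≤ ((C + K + C₁) * s) * s ^ (2 * m) := by
            linarith
          exact le_of_mul_le_mul_right e5 hsp
        · simp [ha', hp2]
  obtain ⟨C₁, hC₁, hC₁'⟩ := poly_tail a' (hmain (2 * i) le_rfl)
  refine ⟨K + C₁, by positivity, fun ω hω1 hω2 => ?_⟩
  have e1 := h1 ω hω1
  have e3 := hC₁' ω 0 hω2 (by rw [norm_zero]; simp)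
  rw [sum_weight_zero hij] at e3
  have e4 : a' (i, 0) = a (i, 0) := by simp [ha']
  rw [e4] at e3
  rw [hsum] at e1
  have e5 : K * (Real.sqrt ‖ω‖) ^ (j + 1) ≤ K * (Real.sqrt ‖ω‖) ^ (2 * i + 1) := by
    have := hpow ω hω2 (2 * i) hij
    gcongr
  have e6 := norm_add_le (g ω - ∑ p ∈ Idx j, a' p * ω ^ p.1 * (0 : ℂ) ^ p.2)
    (∑ p ∈ Idx j, a' p * ω ^ p.1 * (0 : ℂ) ^ p.2 - a (i, 0) * ω ^ i)
  rw [sub_add_sub_cancel] at e6
  linarith

/-- The nonvanishing of the constant term by Hurwitz' theorem. -/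
lemma hurwitz_zero {P : ℂ → ℂ} {Q : Polynomial ℂ} (hPQ : ∀ μ, P μ = Q.eval μ) (hQ : Q ≠ 0) {k : ℕ}
    {f : ℝ → ℂ → ℂ} {C : ℝ} (hC : 0 ≤ C)
    (hf : ∀ s : ℝ, 0 < s → s < 1 → ∀ μ : ℂ, ‖μ‖ ≤ 1 → ‖f s μ - s ^ k * P μ‖ ≤ C * s ^ (k + 1))
    (hd : ∀ s : ℝ, 0 < s → s < 1 → ∀ μ : ℂ, ‖μ‖ ≤ 1 → DifferentiableAt ℂ (f s) μ)
    (hz : ∀ s : ℝ, 0 < s → s < 1 → ∀ μ : ℂ, ‖μ‖ ≤ 1 → f s μ ≠ 0) : P 0 ≠ 0 := by
  -- choose a radius
  obtain ⟨r, hr0, hr1, hr⟩ : ∃ r : ℝ, 0 < r ∧ r < 1 ∧ ∀ μ : ℂ, ‖μ‖ = r → P μ ≠ 0 := by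
    have hfin : (((Q.roots.toFinset.image (fun z => ‖z‖)) : Finset ℝ) : Set ℝ).Finite :=
      Finset.finite_toSet _
    have hinf : (Ioo (0 : ℝ) 1).Infinite := Ioo_infinite (by norm_num)
    obtain ⟨r, hr, hr'⟩ := (hinf.sdiff hfin).nonempty
    refine ⟨r, hr.1, hr.2, fun μ hμ h0 => hr' ?_⟩
    rw [Finset.mem_coe, Finset.mem_image]
    refine ⟨μ, ?_, hμ⟩
    rw [Multiset.mem_toFinset, Polynomial.mem_roots hQ, Polynomial.IsRoot.def, ← hPQ]
    exact h0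
  have hPc : Continuous P := by
    have : P = fun μ => Q.eval μ := funext hPQ
    rw [this]; exact Q.continuous
  obtain ⟨m, hm0, hm⟩ : ∃ m : ℝ, 0 < m ∧ ∀ μ : ℂ, ‖μ‖ = r → m ≤ ‖P μ‖ := by
    have hcomp : IsCompact (sphere (0 : ℂ) r) := isCompact_sphere _ _
    have hne : (sphere (0 : ℂ) r).Nonempty := NormedSpace.sphere_nonempty.2 hr0.le
    obtain ⟨μ₀, hμ₀, hmin⟩ := hcomp.exists_isMinOn hne (hPc.norm.continuousOn)
    refine ⟨‖P μ₀‖, norm_pos_iff.2 (hr μ₀ (mem_sphere_zero_iff_norm.1 hμ₀)), fun μ hμ => ?_⟩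
    exact hmin (mem_sphere_zero_iff_norm.2 hμ)
  set s : ℝ := min (1 / 2) (m / (4 * (C + 1))) with hs
  have hs0 : 0 < s := by positivity
  have hs1 : s < 1 := lt_of_le_of_lt (min_le_left _ _) (by norm_num)
  have hsC : C * s ≤ m / 4 := by
    have h1 : s ≤ m / (4 * (C + 1)) := min_le_right _ _
    calc C * s ≤ (C + 1) * (m / (4 * (C + 1))) := by
          apply mul_le_mul (by linarith) h1 hs0.le (by positivity)
      _ = m / 4 := by field_simp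
  have hsk : 0 < s ^ k := by positivity
  have hnsk : ‖((s : ℂ)) ^ k‖ = s ^ k := by
    rw [norm_pow, Complex.norm_real, Real.norm_eq_abs, abs_of_pos hs0]
  have hbd : ∀ μ : ℂ, ‖μ‖ = r → s ^ k * (m / 2) ≤ ‖f s μ‖ := by
    intro μ hμ
    have h1 := hf s hs0 hs1 μ (by rw [hμ]; exact hr1.le)
    have h2 : ‖(s : ℂ) ^ k * P μ‖ ≤ ‖f s μ‖ + ‖f s μ - s ^ k * P μ‖ := by
      have := norm_sub_le (f s μ) (f s μ - s ^ k * P μ)
      rwa [sub_sub_cancel] at this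
    rw [norm_mul, hnsk] at h2
    have h3 := hm μ hμ
    have h4 : s ^ k * m ≤ s ^ k * ‖P μ‖ := by gcongr
    have h5 : C * s ^ (k + 1) ≤ s ^ k * (m / 4) := by
      rw [pow_succ]; nlinarith
    nlinarith
  have hinv : ‖(f s 0)⁻¹‖ ≤ (s ^ k * (m / 2))⁻¹ := by
    refine Complex.norm_le_of_forall_mem_frontier_norm_le (U := ball (0 : ℂ) r)
      (f := fun μ => (f s μ)⁻¹) isBounded_ball ?_ ?_ (subset_closure (mem_ball_self hr0))
    · refine DifferentiableOn.diffContOnCl (DifferentiableOn.inv ?_ ?_)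
      · intro μ hμ
        rw [closure_ball _ hr0.ne', mem_closedBall_zero_iff] at hμ
        exact (hd s hs0 hs1 μ (hμ.trans hr1.le)).differentiableWithinAt
      · intro μ hμ
        rw [closure_ball _ hr0.ne', mem_closedBall_zero_iff] at hμ
        exact hz s hs0 hs1 μ (hμ.trans hr1.le)
    · intro μ hμ
      rw [frontier_ball _ hr0.ne', mem_sphere_zero_iff_norm] at hμ
      rw [norm_inv]
      exact inv_anti₀ (by positivity) (hbd μ hμ)
  rw [norm_inv] at hinv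
  have h0pos : 0 < ‖f s 0‖ := norm_pos_iff.2 (hz s hs0 hs1 0 (by simp))
  have h0 : s ^ k * (m / 2) ≤ ‖f s 0‖ := (inv_le_inv₀ h0pos (by positivity)).1 hinv
  intro hP0
  have h1 := hf s hs0 hs1 0 (by simp)
  rw [hP0, mul_zero, sub_zero] at h1
  have h5 : C * s ^ (k + 1) ≤ s ^ k * (m / 4) := by
    rw [pow_succ]; nlinarith
  nlinarith

end Pool.Agent.Ball44
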