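import Mathlib
import Pool.Agent.Helper44_Ball.MeanValue

/-! Uniform integrability of `|1 - ⟨z,w⟩|^{-(n+3/4)}`. -/

set_option autoImplicit false
set_option maxSynthPendingDepth 3
open Set Metric Filter Topology MeasureTheory

namespace Pool.Agent.Ball44

variable {n : ℕ}

lemma norm_sub_proj_sq (w e : E n) (he : ‖e‖ = 1) :
    ‖w - (ip w e) • e‖ ^ 2 = ‖w‖ ^ 2 - ‖ip w e‖ ^ 2 := by
  rw [norm_sq_sub, ip_smul_right, norm_smul, he]
  have h : ((starRingEnd ℂ) (ip w e) * ip w e).re = ‖ip w e‖ ^ 2 := by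
    rw [mul_comm, Complex.mul_conj, Complex.normSq_eq_norm_sq]
    simp [← Complex.ofReal_pow]
  rw [h]
  ring

/-- Volume of the non-isotropic balls. -/
lemma volume_koranyi {z : E n} (hz : ‖z‖ ≤ 1) {t : ℝ} (ht : 0 < t) (ht2 : t ≤ 1 / 2) :
    volume (ball (0 : E n) 1 ∩ {w | ‖1 - ip z w‖ ≤ t}) ≤
      ENNReal.ofReal ((2 * t) ^ (n + 1)) * volume (closedBall (0 : E n) 2) := by
  by_cases hz0 : z = 0
  · have hempty : ball (0 : E n) 1 ∩ {w | ‖1 - ip z w‖ ≤ t} = ∅ := by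
      ext w
      simp only [mem_inter_iff, mem_ofPred_eq, mem_empty_iff_false, iff_false, not_and, not_le]
      intro _
      rw [hz0, ip_zero_left, sub_zero, norm_one]
      linarith
    rw [hempty, measure_empty]
    exact bot_le
  have hznorm : 0 < ‖z‖ := norm_pos_iff.2 hz0
  set e : E n := ((‖z‖⁻¹ : ℝ) : ℂ) • z with he
  have he1 : ‖e‖ = 1 := by
    rw [he, norm_smul, Complex.norm_real, norm_inv, norm_norm, inv_mul_cancel₀ hznorm.ne']
  have hze : z = ((‖z‖ : ℝ) : ℂ) • e := by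
    rw [he, smul_smul, ← Complex.ofReal_mul, mul_inv_cancel₀ hznorm.ne', Complex.ofReal_one,
      one_smul]
  clear_value e
  set α : ℝ := Real.sqrt (2 * t) with hα
  have hα0 : 0 < α := Real.sqrt_pos.2 (by positivity)
  have hα2 : α ^ 2 = 2 * t := Real.sq_sqrt (by positivity)
  set L : E n →L[ℂ] E n := (α : ℂ) • ContinuousLinearMap.id ℂ (E n) +
    (ipL e).smulRight (((α ^ 2 - α : ℝ) : ℂ) • e) with hL
  have hLx : ∀ x, L x = (α : ℂ) • x + (ip x e) • (((α ^ 2 - α : ℝ) : ℂ) • e) := fun x => rfl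
  have hdet : ‖LinearMap.det (L : E n →ₗ[ℂ] E n)‖ = α ^ (n + 1) := by
    have h := det_rank_one (α : ℂ) (((α ^ 2 - α : ℝ) : ℂ) • e) e
    rw [ip_smul_left, ip_self, he1] at h
    have h' : (α : ℂ) * LinearMap.det (L : E n →ₗ[ℂ] E n) = (α : ℂ) * (α : ℂ) ^ (n + 1) := by
      have e1 : (L : E n →ₗ[ℂ] E n) = (α : ℂ) • LinearMap.id +
        (ipL e : E n →ₗ[ℂ] ℂ).smulRight (((α ^ 2 - α : ℝ) : ℂ) • e) := rfl
      rw [e1, h]
      push_cast
      ring
    have hσc : (α : ℂ) ≠ 0 := by exact_mod_cast hα0.ne'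
    rw [mul_left_cancel₀ hσc h', norm_pow, Complex.norm_real, Real.norm_eq_abs, abs_of_pos hα0]
  set c : E n := ((‖z‖⁻¹ : ℝ) : ℂ) • e with hc
  have hsub : ball (0 : E n) 1 ∩ {w | ‖1 - ip z w‖ ≤ t} ⊆
      (fun x => c + x) '' ((L.restrictScalars ℝ) '' (closedBall (0 : E n) 2)) := by
    rintro w ⟨hw, hwt⟩
    rw [mem_ball_zero_iff] at hw
    rw [mem_ofPred_eq] at hwt
    set w0 : E n := w - c with hw0
    set x : E n := ((α⁻¹ : ℝ) : ℂ) • (w0 - (ip w0 e) • e) +
      ((((2 * t)⁻¹ : ℝ) : ℂ) * ip w0 e) • e with hx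
    have hipx : ip x e = (((2 * t)⁻¹ : ℝ) : ℂ) * ip w0 e := by
      rw [hx, ip_add_left, ip_smul_left, ip_smul_left, ip_sub_left, ip_smul_left, ip_self, he1]
      push_cast
      ring
    have hαc : (α : ℂ) ≠ 0 := by exact_mod_cast hα0.ne'
    have htc : (t : ℂ) ≠ 0 := by exact_mod_cast ht.ne'
    have hα2c : (α : ℂ) ^ 2 = 2 * t := by exact_mod_cast hα2
    have hLx0 : L x = w0 := by
      rw [hLx, hipx, hx, smul_add, smul_smul, smul_smul, smul_smul]
      have e1 : (α : ℂ) * ((α⁻¹ : ℝ) : ℂ) = 1 := by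
        push_cast
        exact mul_inv_cancel₀ hαc
      rw [e1, one_smul]
      have e2 : (w0 - ip w0 e • e) + ((α : ℂ) * ((((2 * t)⁻¹ : ℝ) : ℂ) * ip w0 e)) • e +
          ((((2 * t)⁻¹ : ℝ) : ℂ) * ip w0 e * ((α ^ 2 - α : ℝ) : ℂ)) • e =
          w0 + (((((2 * t)⁻¹ : ℝ) : ℂ) * (α : ℂ) ^ 2 - 1) * ip w0 e) • e := by
        push_cast
        module
      rw [e2, hα2c]
      have e3 : (((2 * t)⁻¹ : ℝ) : ℂ) * (2 * (t : ℂ)) - 1 = 0 := by
        push_cast
        field_simp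
        ring
      rw [e3, zero_mul, zero_smul, add_zero]
    refine ⟨w0, ⟨x, ?_, hLx0⟩, by rw [hw0]; abel⟩
    rw [mem_closedBall_zero_iff]
    -- lower bound of the component
    have hzw : 1 - t ≤ ‖ip z w‖ := by
      have h1 : ‖(1 : ℂ)‖ ≤ ‖1 - ip z w‖ + ‖ip z w‖ := by
        calc ‖(1 : ℂ)‖ = ‖(1 - ip z w) + ip z w‖ := by congr 1; ring
          _ ≤ _ := norm_add_le _ _
      rw [norm_one] at h1
      linarith
    have hzw2 : ‖ip z w‖ = ‖z‖ * ‖ip w e‖ := by
      conv_lhs => rw [hze]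
      rw [ip_smul_left, norm_mul, Complex.norm_real, norm_norm, norm_ip_comm]
    have hz2 : 1 / 2 ≤ ‖z‖ := by
      have h1 := norm_ip_le z w
      nlinarith [norm_nonneg w]
    have hwe : 1 - t ≤ ‖ip w e‖ := by
      rw [hzw2] at hzw
      nlinarith [norm_nonneg (ip w e)]
    have hpw : w0 - (ip w0 e) • e = w - (ip w e) • e := by
      rw [hw0, ip_sub_left, hc, ip_smul_left, ip_self, he1]
      push_cast
      module
    have hperp : ‖w0 - (ip w0 e) • e‖ ≤ α := by
      apply le_of_sq_le_sq _ hα0.le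
      rw [hpw, norm_sub_proj_sq w e he1, hα2]
      nlinarith [norm_nonneg w, norm_nonneg (ip w e)]
    have hpar : ‖ip w0 e‖ ≤ 2 * t := by
      have h1 : ip w0 e = -(((‖z‖⁻¹ : ℝ) : ℂ) * (1 - ip w z)) := by
        have h2 : ip w z = ((‖z‖ : ℝ) : ℂ) * ip w e := by
          conv_lhs => rw [hze]
          rw [ip_smul_right, Complex.conj_ofReal]
        have h3 : ((‖z‖ : ℝ) : ℂ) ≠ 0 := by exact_mod_cast hznorm.ne'
        rw [hw0, ip_sub_left, hc, ip_smul_left, ip_self, he1, h2]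
        push_cast
        field_simp
        ring
      rw [h1, norm_neg, norm_mul, Complex.norm_real, norm_inv, norm_norm, norm_one_sub_ip_comm,
        inv_mul_le_iff₀ hznorm]
      nlinarith
    rw [hx]
    refine (norm_add_le _ _).trans ?_
    rw [norm_smul, norm_smul, he1, mul_one, norm_mul, Complex.norm_real, Complex.norm_real,
      norm_inv, norm_inv, Real.norm_eq_abs, Real.norm_eq_abs, abs_of_pos hα0,
      abs_of_pos (by positivity : 0 < 2 * t)]
    have h1 : α⁻¹ * ‖w0 - (ip w0 e) • e‖ ≤ 1 := by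
      rw [inv_mul_le_iff₀ hα0, mul_one]; exact hperp
    have h2 : (2 * t)⁻¹ * ‖ip w0 e‖ ≤ 1 := by
      rw [inv_mul_le_iff₀ (by positivity), mul_one]; exact hpar
    linarith
  refine (measure_mono hsub).trans ?_
  rw [image_add_left, measure_preimage_add, Measure.addHaar_image_continuousLinearMap]
  have h1 : |LinearMap.det ((L.restrictScalars ℝ : E n →L[ℝ] E n) : E n →ₗ[ℝ] E n)| =
      (2 * t) ^ (n + 1) := by
    have := abs_det_real L
    rw [hdet] at this
    have e : (L.restrictScalars ℝ).det =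
      LinearMap.det ((L.restrictScalars ℝ : E n →L[ℝ] E n) : E n →ₗ[ℝ] E n) := rfl
    rw [← e, this, ← hα2, ← pow_mul, ← pow_mul, mul_comm]
  rw [h1]

/-- Uniform bound of the kernel integrals. -/
theorem exists_kernel_bound (n : ℕ) : ∃ C : ENNReal, C ≠ ⊤ ∧ ∀ z : E n, ‖z‖ ≤ 1 →
    ∫⁻ w in ball (0 : E n) 1, ENNReal.ofReal ((‖1 - ip z w‖⁻¹) ^ ((n : ℝ) + 3 / 4)) ≤ C := by
  set p : ℝ := (n : ℝ) + 3 / 4 with hp
  have hp0 : 0 < p := by positivity
  set V : ENNReal := volume (closedBall (0 : E n) 2) with hV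
  have hVtop : V ≠ ⊤ := measure_closedBall_lt_top.ne
  -- finite one dimensional integrals
  set I1 : ENNReal := ∫⁻ t in Ioc (0 : ℝ) 2, ENNReal.ofReal (t ^ (p - 1)) with hI1
  set I2 : ENNReal := ∫⁻ t in Ioi (2 : ℝ), ENNReal.ofReal (2 ^ (n + 1) * t ^ (-(5 / 4) : ℝ)) with hI2
  have hI1top : I1 ≠ ⊤ := by
    have h1 : IntegrableOn (fun t : ℝ => t ^ (p - 1)) (Ioc 0 2) := by
      have := intervalIntegral.intervalIntegrable_rpow' (a := 0) (b := 2) (r := p - 1)
        (by linarith)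
      exact (intervalIntegrable_iff_integrableOn_Ioc_of_le (by norm_num)).1 this
    exact (Integrable.lintegral_lt_top h1).ne
  have hI2top : I2 ≠ ⊤ := by
    have h1 : IntegrableOn (fun t : ℝ => 2 ^ (n + 1) * t ^ (-(5 / 4) : ℝ)) (Ioi 2) :=
      (integrableOn_Ioi_rpow_of_lt (by norm_num) (by norm_num)).const_mul _
    exact (Integrable.lintegral_lt_top h1).ne
  refine ⟨ENNReal.ofReal p * (V * I1 + V * I2), ?_, ?_⟩
  · exact ENNReal.mul_ne_top ENNReal.ofReal_ne_top
      (ENNReal.add_ne_top.2 ⟨ENNReal.mul_ne_top hVtop hI1top, ENNReal.mul_ne_top hVtop hI2top⟩)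
  intro z hz
  have hmeas : AEMeasurable (fun w : E n => ‖1 - ip z w‖⁻¹) (volume.restrict (ball 0 1)) := by
    have h1 : Continuous fun w : E n => ‖1 - ip z w‖ :=
      (continuous_const.sub (continuous_ip_right z)).norm
    exact h1.measurable.inv.aemeasurable
  rw [lintegral_rpow_eq_lintegral_meas_le_mul (μ := volume.restrict (ball (0 : E n) 1))
    (Eventually.of_forall fun w => by positivity) hmeas hp0]
  gcongr
  have hsplit : Ioi (0 : ℝ) = Ioc 0 2 ∪ Ioi 2 := by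
    rw [Ioc_union_Ioi_eq_Ioi (by norm_num)]
  rw [hsplit]
  refine (lintegral_union_le _ _ _).trans ?_
  refine add_le_add ?_ ?_
  · rw [hI1, ← lintegral_const_mul' _ _ hVtop]
    refine lintegral_mono fun t => ?_
    gcongr
    rw [Measure.restrict_apply' measurableSet_ball]
    exact (measure_mono inter_subset_right).trans
      (measure_mono (ball_subset_closedBall.trans (closedBall_subset_closedBall (by norm_num))))
  · rw [hI2, ← lintegral_const_mul' _ _ hVtop]
    refine setLIntegral_mono' measurableSet_Ioi fun t ht => ?_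
    rw [mem_Ioi] at ht
    have ht0 : 0 < t := by linarith
    have htinv : t⁻¹ ≤ 1 / 2 := by
      rw [one_div]
      exact inv_anti₀ (by norm_num) ht.le
    have h1 : (volume.restrict (ball (0 : E n) 1)) {a | t ≤ ‖1 - ip z a‖⁻¹} ≤
        ENNReal.ofReal ((2 * t⁻¹) ^ (n + 1)) * V := by
      rw [Measure.restrict_apply' measurableSet_ball]
      refine le_trans (measure_mono ?_) (volume_koranyi hz (inv_pos.2 ht0) htinv)
      rintro w ⟨hw1, hw2⟩
      refine ⟨hw2, ?_⟩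
      rw [mem_ofPred_eq] at hw1 ⊢
      rw [mem_ball_zero_iff] at hw2
      have hpos : 0 < ‖1 - ip z w‖ := norm_pos_iff.2 (one_sub_ip_ne_zero_right hz hw2)
      exact (le_inv_comm₀ ht0 hpos).1 hw1
    calc (volume.restrict (ball (0 : E n) 1)) {a | t ≤ ‖1 - ip z a‖⁻¹} * ENNReal.ofReal (t ^ (p - 1))
        ≤ (ENNReal.ofReal ((2 * t⁻¹) ^ (n + 1)) * V) * ENNReal.ofReal (t ^ (p - 1)) := by gcongr
      _ = V * (ENNReal.ofReal ((2 * t⁻¹) ^ (n + 1)) * ENNReal.ofReal (t ^ (p - 1))) := by ring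
      _ = V * ENNReal.ofReal (2 ^ (n + 1) * t ^ (-(5 / 4) : ℝ)) := by
        rw [← ENNReal.ofReal_mul (by positivity)]
        congr 2
        rw [mul_pow, mul_assoc]
        congr 1
        rw [← Real.rpow_natCast, ← Real.rpow_neg_one, ← Real.rpow_mul ht0.le, ← Real.rpow_add ht0]
        congr 1
        rw [hp]
        push_cast
        ring

end Pool.Agent.Ball44
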