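import Mathlib
import Pool.Agent.Helper44_Ball.Bell
import Pool.Agent.Helper44_Ball.KernelInt

/-! Boundedness of the Jacobian determinant. -/

set_option autoImplicit false
set_option maxSynthPendingDepth 3
open Set Metric Filter Topology MeasureTheory

namespace Pool.Agent.Ball44

variable {n : ℕ}

/-- Quasi-triangle inequality of the Koranyi distance. -/
lemma koranyi_triangle {a b c : E n} (ha : ‖a‖ ≤ 1) (hb : ‖b‖ ≤ 1) (hc : ‖c‖ ≤ 1) :
    ‖1 - ip a b‖ ≤ 2 * (‖1 - ip a c‖ + ‖1 - ip c b‖) := by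
  set s : ℝ := Real.sqrt (1 - ‖c‖ ^ 2) with hs
  have hs0 : 0 ≤ s := Real.sqrt_nonneg _
  have hs2 : s ^ 2 = 1 - ‖c‖ ^ 2 := Real.sq_sqrt (by nlinarith [norm_nonneg c])
  set κ : ℝ := (1 + s)⁻¹ with hκ
  have hκs : κ ^ 2 * ‖c‖ ^ 2 - 2 * κ = -1 := by
    have h1 : ‖c‖ ^ 2 = 1 - s ^ 2 := by rw [hs2]; ring
    have h2 : 1 + s ≠ 0 := by positivity
    rw [h1, hκ]
    field_simp
    ring
  set R : E n → E n := fun x => x - ((κ : ℂ) * ip x c) • c with hR
  have hRR : ∀ x y : E n, ip (R x) (R y) = ip x y - ip x c * ip c y := by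
    intro x y
    have h1 : ((κ : ℂ) ^ 2 * ((‖c‖ ^ 2 : ℝ) : ℂ) - 2 * κ) = -1 := by exact_mod_cast hκs
    simp only [hR]
    rw [ip_sub_left, ip_sub_right, ip_sub_right, ip_smul_left, ip_smul_left, ip_smul_right,
      ip_smul_right, ip_self, map_mul, Complex.conj_ofReal, ip_conj]
    linear_combination (ip x c * ip c y) * h1
  have hRn : ∀ x : E n, ‖R x‖ ^ 2 = ‖x‖ ^ 2 - ‖ip x c‖ ^ 2 := by
    intro x
    have h1 : ((‖R x‖ ^ 2 : ℝ) : ℂ) = ((‖x‖ ^ 2 - ‖ip x c‖ ^ 2 : ℝ) : ℂ) := by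
      rw [← ip_self, hRR, ip_self, ← ip_conj x c, Complex.mul_conj, Complex.normSq_eq_norm_sq]
      push_cast
      ring
    exact_mod_cast h1
  set α := ip a c with hα
  set β := ip c b with hβ
  have hα1 : ‖α‖ ≤ 1 := (norm_ip_le a c).trans (by nlinarith [norm_nonneg a, norm_nonneg c])
  have hβ1 : ‖β‖ ≤ 1 := (norm_ip_le c b).trans (by nlinarith [norm_nonneg b, norm_nonneg c])
  have hα2 : 1 - ‖α‖ ≤ ‖1 - α‖ := by
    have := norm_sub_norm_le (1 : ℂ) α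
    rwa [norm_one] at this
  have hβ2 : 1 - ‖β‖ ≤ ‖1 - β‖ := by
    have := norm_sub_norm_le (1 : ℂ) β
    rwa [norm_one] at this
  have h1 : ‖ip a b - α * β‖ ≤ ‖R a‖ * ‖R b‖ := by
    rw [← hRR]; exact norm_ip_le _ _
  have h2 : ‖R a‖ ^ 2 ≤ 2 * ‖1 - α‖ := by
    rw [hRn]
    nlinarith [norm_nonneg a, norm_nonneg α]
  have h3 : ‖R b‖ ^ 2 ≤ 2 * ‖1 - β‖ := by
    rw [hRn, norm_ip_comm b c]
    nlinarith [norm_nonneg b, norm_nonneg β]
  have h4 : ‖R a‖ * ‖R b‖ ≤ ‖1 - α‖ + ‖1 - β‖ := by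
    nlinarith [sq_nonneg (‖R a‖ - ‖R b‖)]
  have h5 : ‖1 - α * β‖ ≤ ‖1 - α‖ + ‖1 - β‖ := by
    calc ‖1 - α * β‖ = ‖(1 - α) + α * (1 - β)‖ := by congr 1; ring
      _ ≤ ‖1 - α‖ + ‖α * (1 - β)‖ := norm_add_le _ _
      _ ≤ ‖1 - α‖ + ‖1 - β‖ := by
        rw [norm_mul]
        nlinarith [norm_nonneg (1 - β)]
  calc ‖1 - ip a b‖ = ‖(1 - α * β) - (ip a b - α * β)‖ := by congr 1; ring
    _ ≤ ‖1 - α * β‖ + ‖ip a b - α * β‖ := norm_sub_le _ _
    _ ≤ _ := by linarith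

/-- inverse Koranyi distance -/
noncomputable def kq (z w : E n) : ℝ := ‖1 - ip z w‖⁻¹

lemma kq_pos {z w : E n} (hz : ‖z‖ < 1) (hw : ‖w‖ ≤ 1) : 0 < kq z w :=
  inv_pos.2 (norm_pos_iff.2 (one_sub_ip_ne_zero_left hz hw))

lemma kq_pos' {z w : E n} (hz : ‖z‖ ≤ 1) (hw : ‖w‖ < 1) : 0 < kq z w :=
  inv_pos.2 (norm_pos_iff.2 (one_sub_ip_ne_zero_right hz hw))

lemma kq_nonneg (z w : E n) : 0 ≤ kq z w := inv_nonneg.2 (norm_nonneg _)

lemma kq_comm (z w : E n) : kq z w = kq w z := by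
  unfold kq
  rw [norm_one_sub_ip_comm]

lemma kq_ge {z w : E n} (hz : ‖z‖ ≤ 1) (hw : ‖w‖ < 1) : 1 / 2 ≤ kq z w := by
  unfold kq
  have h1 := norm_one_sub_ip_le hz hw.le
  have h2 : 0 < ‖1 - ip z w‖ := norm_pos_iff.2 (one_sub_ip_ne_zero_right hz hw)
  rw [one_div]
  exact inv_anti₀ h2 h1

lemma continuous_ip : Continuous fun p : E n × E n => ip p.1 p.2 := by
  unfold ip
  exact continuous_snd.inner continuous_fst

lemma measurable_kq : Measurable fun p : E n × E n => kq p.1 p.2 :=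
  (continuous_const.sub continuous_ip).norm.measurable.inv

lemma measurable_kq_right (z : E n) : Measurable fun w : E n => kq z w :=
  (continuous_const.sub (continuous_ip_right z)).norm.measurable.inv

lemma measurable_kq_pow (z : E n) (a : ℝ) :
    Measurable fun w : E n => ENNReal.ofReal ((kq z w) ^ a) :=
  ENNReal.measurable_ofReal.comp ((measurable_kq_right z).pow_const a)

lemma measurable_kq_pow_left (z : E n) (a : ℝ) :
    Measurable fun w : E n => ENNReal.ofReal ((kq w z) ^ a) := by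
  have h : Measurable fun w : E n => kq w z :=
    (continuous_const.sub (continuous_ip_left z)).norm.measurable.inv
  exact ENNReal.measurable_ofReal.comp (h.pow_const a)

lemma measurable_kq_pow_fst (z : E n) (a : ℝ) :
    Measurable fun p : E n × E n => ENNReal.ofReal ((kq z p.1) ^ a) :=
  (measurable_kq_pow z a).comp measurable_fst

lemma measurable_kq_pow_both (a : ℝ) :
    Measurable fun p : E n × E n => ENNReal.ofReal ((kq p.1 p.2) ^ a) :=
  ENNReal.measurable_ofReal.comp (measurable_kq.pow_const a)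

/-- Bounded integrals with exponent `n + 1/2`. -/
lemma exists_kernel_bound' (n : ℕ) : ∃ C : ENNReal, C ≠ ⊤ ∧ ∀ z : E n, ‖z‖ ≤ 1 →
    ∫⁻ w in ball (0 : E n) 1, ENNReal.ofReal ((kq z w) ^ ((n : ℝ) + 1 / 2)) ≤ C := by
  obtain ⟨C, hC, h⟩ := exists_kernel_bound n
  refine ⟨ENNReal.ofReal (2 ^ (1 / 4 : ℝ)) * C,
    ENNReal.mul_ne_top ENNReal.ofReal_ne_top hC, fun z hz => ?_⟩
  refine le_trans ?_ (mul_le_mul_right (h z hz) _)
  rw [← lintegral_const_mul' _ _ ENNReal.ofReal_ne_top]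
  refine setLIntegral_mono' measurableSet_ball fun w hw => ?_
  rw [mem_ball_zero_iff] at hw
  rw [← ENNReal.ofReal_mul (by positivity)]
  apply ENNReal.ofReal_le_ofReal
  have h1 := kq_pos' hz hw
  have h2 := kq_ge hz hw
  have e : (kq z w) ^ ((n : ℝ) + 1 / 2) * (kq z w) ^ (1 / 4 : ℝ) = (kq z w) ^ ((n : ℝ) + 3 / 4) := by
    rw [← Real.rpow_add h1]
    congr 1
    ring
  show (kq z w) ^ ((n : ℝ) + 1 / 2) ≤ 2 ^ (1 / 4 : ℝ) * (kq z w) ^ ((n : ℝ) + 3 / 4)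
  rw [← e, mul_comm ((kq z w) ^ ((n : ℝ) + 1 / 2)), ← mul_assoc,
    ← Real.mul_rpow (by norm_num) h1.le]
  have h3 : (1 : ℝ) ≤ (2 * kq z w) ^ (1 / 4 : ℝ) := Real.one_le_rpow (by linarith) (by norm_num)
  have h4 : 0 ≤ (kq z w) ^ ((n : ℝ) + 1 / 2) := by positivity
  nlinarith

/-- Pointwise convolution estimate. -/
lemma kernel_conv {X Y Z a : ℝ} (hX : 0 < X) (hY : 0 < Y) (hZ : 0 < Z) (h : min X Y ≤ 4 * Z)
    (ha : 1 / 2 ≤ a) (han : a ≤ n) :
    X ^ a * Y ^ (n : ℝ) ≤ 4 ^ a * Z ^ (a - 1 / 2) * (X ^ ((n : ℝ) + 1 / 2) + Y ^ ((n : ℝ) + 1 / 2)) := by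
  have h4 : (4 * Z) ^ (a - 1 / 2) ≤ 4 ^ a * Z ^ (a - 1 / 2) := by
    rw [Real.mul_rpow (by norm_num) hZ.le]
    have : (4 : ℝ) ^ (a - 1 / 2) ≤ 4 ^ a := Real.rpow_le_rpow_of_exponent_le (by norm_num) (by linarith)
    gcongr
  have hpX : 0 < X ^ ((n : ℝ) + 1 / 2) := by positivity
  have hpY : 0 < Y ^ ((n : ℝ) + 1 / 2) := by positivity
  have hp4 : 0 < 4 ^ a * Z ^ (a - 1 / 2) := by positivity
  rcases le_total X Y with hXY | hXY
  · rw [min_eq_left hXY] at h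
    have e1 : X ^ a = X ^ (a - 1 / 2) * X ^ (1 / 2 : ℝ) := by
      rw [← Real.rpow_add hX]; congr 1; ring
    have e2 : Y ^ ((n : ℝ) + 1 / 2) = Y ^ (1 / 2 : ℝ) * Y ^ (n : ℝ) := by
      rw [← Real.rpow_add hY]; congr 1; ring
    calc X ^ a * Y ^ (n : ℝ) = X ^ (a - 1 / 2) * (X ^ (1 / 2 : ℝ) * Y ^ (n : ℝ)) := by
          rw [e1]; ring
      _ ≤ (4 * Z) ^ (a - 1 / 2) * (Y ^ (1 / 2 : ℝ) * Y ^ (n : ℝ)) := by
          have h5 : X ^ (a - 1 / 2) ≤ (4 * Z) ^ (a - 1 / 2) :=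
            Real.rpow_le_rpow hX.le h (by linarith)
          have h6 : X ^ (1 / 2 : ℝ) ≤ Y ^ (1 / 2 : ℝ) := Real.rpow_le_rpow hX.le hXY (by norm_num)
          gcongr
      _ ≤ (4 ^ a * Z ^ (a - 1 / 2)) * (Y ^ (1 / 2 : ℝ) * Y ^ (n : ℝ)) := by gcongr
      _ ≤ _ := by
          rw [← e2]
          nlinarith
  · rw [min_eq_right hXY] at h
    have e1 : Y ^ (n : ℝ) = Y ^ (a - 1 / 2) * Y ^ ((n : ℝ) - a + 1 / 2) := by
      rw [← Real.rpow_add hY]; congr 1; ring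
    have e2 : X ^ ((n : ℝ) + 1 / 2) = X ^ a * X ^ ((n : ℝ) - a + 1 / 2) := by
      rw [← Real.rpow_add hX]; congr 1; ring
    calc X ^ a * Y ^ (n : ℝ) = Y ^ (a - 1 / 2) * (X ^ a * Y ^ ((n : ℝ) - a + 1 / 2)) := by
          rw [e1]; ring
      _ ≤ (4 * Z) ^ (a - 1 / 2) * (X ^ a * X ^ ((n : ℝ) - a + 1 / 2)) := by
          have h5 : Y ^ (a - 1 / 2) ≤ (4 * Z) ^ (a - 1 / 2) :=
            Real.rpow_le_rpow hY.le h (by linarith)
          have h6 : Y ^ ((n : ℝ) - a + 1 / 2) ≤ X ^ ((n : ℝ) - a + 1 / 2) :=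
            Real.rpow_le_rpow hY.le hXY (by linarith)
          gcongr
      _ ≤ (4 ^ a * Z ^ (a - 1 / 2)) * (X ^ a * X ^ ((n : ℝ) - a + 1 / 2)) := by gcongr
      _ ≤ _ := by
          rw [← e2]
          nlinarith

lemma kq_min_le {z w w' : E n} (hz : ‖z‖ < 1) (hw : ‖w‖ < 1) (hw' : ‖w'‖ < 1) :
    min (kq z w) (kq w w') ≤ 4 * kq z w' := by
  have h := koranyi_triangle hz.le hw'.le hw.le
  have hA : 0 < ‖1 - ip z w‖ := norm_pos_iff.2 (one_sub_ip_ne_zero_left hz hw.le)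
  have hB : 0 < ‖1 - ip w w'‖ := norm_pos_iff.2 (one_sub_ip_ne_zero_left hw hw'.le)
  have hD : 0 < ‖1 - ip z w'‖ := norm_pos_iff.2 (one_sub_ip_ne_zero_left hz hw'.le)
  unfold kq
  rcases le_total ‖1 - ip z w‖ ‖1 - ip w w'‖ with h1 | h1
  · refine (min_le_right _ _).trans ?_
    rw [← div_eq_mul_inv, le_div_iff₀ hD, inv_mul_le_iff₀ hB]
    linarith
  · refine (min_le_left _ _).trans ?_
    rw [← div_eq_mul_inv, le_div_iff₀ hD, inv_mul_le_iff₀ hA]
    linarith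

/-- Swapping the order of integration. -/
lemma swap_aux {α : Type*} [MeasurableSpace α] {μ : Measure α} [SFinite μ] {U : α → ENNReal}
    (hU : AEMeasurable U μ) {G : α → α → ENNReal} (hG : Measurable (Function.uncurry G)) :
    ∫⁻ w, ∫⁻ w', U w' * G w w' ∂μ ∂μ = ∫⁻ w', U w' * ∫⁻ w, G w w' ∂μ ∂μ := by
  have hm : AEMeasurable (Function.uncurry fun w w' : α => U w' * G w w') (μ.prod μ) :=
    AEMeasurable.mul hU.comp_snd hG.aemeasurable
  rw [lintegral_lintegral_swap hm]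
  refine lintegral_congr fun w' => ?_
  have hm2 : Measurable fun w => G w w' :=
    hG.comp (measurable_id.prodMk measurable_const)
  rw [lintegral_const_mul _ hm2]

lemma inner_bound {K : ENNReal} (hKb : ∀ z : E n, ‖z‖ ≤ 1 →
    ∫⁻ w in ball (0 : E n) 1, ENNReal.ofReal ((kq z w) ^ ((n : ℝ) + 1 / 2)) ≤ K)
    {a : ℝ} (ha1 : 1 / 2 ≤ a) (han : a ≤ n) {z w' : E n} (hz : ‖z‖ < 1) (hw'' : ‖w'‖ < 1) :
    ∫⁻ w in ball (0 : E n) 1, (ENNReal.ofReal ((kq w w') ^ (n : ℝ)) *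
      ENNReal.ofReal ((kq z w) ^ a)) ≤
      ENNReal.ofReal ((kq z w') ^ (a - 1 / 2)) * (ENNReal.ofReal (4 ^ a) * (K + K)) := by
  have hpt : ∀ w ∈ ball (0 : E n) 1, ENNReal.ofReal ((kq w w') ^ (n : ℝ)) *
      ENNReal.ofReal ((kq z w) ^ a) ≤ ENNReal.ofReal (4 ^ a * (kq z w') ^ (a - 1 / 2)) *
        (ENNReal.ofReal ((kq z w) ^ ((n : ℝ) + 1 / 2)) +
          ENNReal.ofReal ((kq w' w) ^ ((n : ℝ) + 1 / 2))) := by
    intro w hw
    have hw1 : ‖w‖ < 1 := mem_ball_zero_iff.1 hw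
    have hX := kq_pos hz hw1.le
    have hY := kq_pos hw1 hw''.le
    have hZ := kq_pos hz hw''.le
    have hY' := kq_pos hw'' hw1.le
    rw [← ENNReal.ofReal_mul (by positivity), ← ENNReal.ofReal_add (by positivity)
      (by positivity), ← ENNReal.ofReal_mul (by positivity)]
    apply ENNReal.ofReal_le_ofReal
    rw [kq_comm w' w, mul_comm]
    exact kernel_conv hX hY hZ (kq_min_le hz hw1 hw'') ha1 han
  refine (setLIntegral_mono' measurableSet_ball hpt).trans ?_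
  rw [lintegral_const_mul' _ _ ENNReal.ofReal_ne_top, lintegral_add_left]
  · rw [ENNReal.ofReal_mul (by positivity), mul_comm (ENNReal.ofReal (4 ^ a)), mul_assoc]
    refine mul_le_mul_right ?_ _
    refine mul_le_mul_right ?_ _
    exact add_le_add (hKb z hz.le) (hKb w' hw''.le)
  · exact measurable_kq_pow z ((n : ℝ) + 1 / 2)

lemma bootstrap_step {U : E n → ENNReal}
    (hU : AEMeasurable U (volume.restrict (ball (0 : E n) 1))) {C0 : ENNReal} (hC0 : C0 ≠ ⊤)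
    (h : ∀ z ∈ ball (0 : E n) 1,
      U z ≤ C0 * ∫⁻ w in ball (0 : E n) 1, U w * ENNReal.ofReal ((kq z w) ^ (n : ℝ)))
    {K : ENNReal} (hKb : ∀ z : E n, ‖z‖ ≤ 1 →
    ∫⁻ w in ball (0 : E n) 1, ENNReal.ofReal ((kq z w) ^ ((n : ℝ) + 1 / 2)) ≤ K)
    {a : ℝ} (ha1 : 1 / 2 ≤ a) (han : a ≤ n) {z : E n} (hz : ‖z‖ < 1) :
    ∫⁻ w in ball (0 : E n) 1, U w * ENNReal.ofReal ((kq z w) ^ a) ≤
      C0 * (ENNReal.ofReal (4 ^ a) * (K + K)) *
        ∫⁻ w in ball (0 : E n) 1, U w * ENNReal.ofReal ((kq z w) ^ (a - 1 / 2)) := by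
  have step1 : ∫⁻ w in ball (0 : E n) 1, U w * ENNReal.ofReal ((kq z w) ^ a) ≤
      ∫⁻ w in ball (0 : E n) 1, C0 * ∫⁻ w' in ball (0 : E n) 1,
        U w' * (ENNReal.ofReal ((kq w w') ^ (n : ℝ)) * ENNReal.ofReal ((kq z w) ^ a)) := by
    refine setLIntegral_mono' measurableSet_ball fun w hw => ?_
    refine (mul_le_mul_left (h w hw) _).trans (le_of_eq ?_)
    rw [mul_assoc, ← lintegral_mul_const' _ _ ENNReal.ofReal_ne_top]
    congr 1
    refine lintegral_congr fun w' => ?_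
    rw [mul_assoc]
  refine step1.trans ?_
  rw [lintegral_const_mul' _ _ hC0, mul_assoc C0]
  refine mul_le_mul_right ?_ _
  have hG : Measurable (Function.uncurry fun w w' : E n =>
      ENNReal.ofReal ((kq w w') ^ (n : ℝ)) * ENNReal.ofReal ((kq z w) ^ a)) :=
    (measurable_kq_pow_both (n : ℝ)).mul (measurable_kq_pow_fst z a)
  have hsw := swap_aux (μ := volume.restrict (ball (0 : E n) 1)) hU hG
  refine hsw.le.trans ?_
  have step2 : ∫⁻ w' in ball (0 : E n) 1, U w' * ∫⁻ w in ball (0 : E n) 1,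
      (ENNReal.ofReal ((kq w w') ^ (n : ℝ)) * ENNReal.ofReal ((kq z w) ^ a)) ≤
      ∫⁻ w' in ball (0 : E n) 1, (U w' * ENNReal.ofReal ((kq z w') ^ (a - 1 / 2))) *
        (ENNReal.ofReal (4 ^ a) * (K + K)) := by
    refine setLIntegral_mono' measurableSet_ball fun w' hw' => ?_
    rw [mul_assoc (U w')]
    refine mul_le_mul_right ?_ _
    exact inner_bound hKb ha1 han hz (mem_ball_zero_iff.1 hw')
  refine step2.trans ?_
  have hm : AEMeasurable (fun w' => U w' * ENNReal.ofReal ((kq z w') ^ (a - 1 / 2)))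
      (volume.restrict (ball (0 : E n) 1)) :=
    hU.mul (measurable_kq_pow z (a - 1 / 2)).aemeasurable
  rw [lintegral_mul_const'' _ hm, mul_comm]

/-- Bootstrapping: a function controlled by its own kernel integral is bounded. -/
theorem bootstrap {U : E n → ENNReal} (hU : AEMeasurable U (volume.restrict (ball (0 : E n) 1)))
    (hfin : ∫⁻ w in ball (0 : E n) 1, U w ≠ ⊤) {C0 : ENNReal} (hC0 : C0 ≠ ⊤)
    (h : ∀ z ∈ ball (0 : E n) 1,
      U z ≤ C0 * ∫⁻ w in ball (0 : E n) 1, U w * ENNReal.ofReal ((kq z w) ^ (n : ℝ))) :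
    ∃ C : ENNReal, C ≠ ⊤ ∧ ∀ z ∈ ball (0 : E n) 1, U z ≤ C := by
  obtain ⟨K, hK, hKb⟩ := exists_kernel_bound' n
  have claim : ∀ j : ℕ, j ≤ 2 * n → ∃ C : ENNReal, C ≠ ⊤ ∧ ∀ z ∈ ball (0 : E n) 1,
      U z ≤ C * ∫⁻ w in ball (0 : E n) 1, U w *
        ENNReal.ofReal ((kq z w) ^ (((2 * n - j : ℕ) : ℝ) / 2)) := by
    intro j
    induction j with
    | zero =>
      intro _
      refine ⟨C0, hC0, fun z hz => ?_⟩
      have e : ((2 * n - 0 : ℕ) : ℝ) / 2 = n := by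
        rw [Nat.sub_zero]; push_cast; ring
      rw [e]
      exact h z hz
    | succ j ih =>
      intro hj
      obtain ⟨C, hC, hCb⟩ := ih (by omega)
      set a : ℝ := ((2 * n - j : ℕ) : ℝ) / 2 with ha
      have ha' : ((2 * n - (j + 1) : ℕ) : ℝ) / 2 = a - 1 / 2 := by
        have : 2 * n - j = (2 * n - (j + 1)) + 1 := by omega
        rw [ha, this]
        push_cast
        ring
      have ha1 : 1 / 2 ≤ a := by
        have : 1 ≤ 2 * n - j := by omega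
        have h2 : (1 : ℝ) ≤ ((2 * n - j : ℕ) : ℝ) := by exact_mod_cast this
        rw [ha]; linarith
      have han : a ≤ n := by
        have : 2 * n - j ≤ 2 * n := by omega
        have h2 : ((2 * n - j : ℕ) : ℝ) ≤ ((2 * n : ℕ) : ℝ) := by exact_mod_cast this
        rw [ha]; push_cast at h2 ⊢; linarith
      rw [ha']
      refine ⟨C * (C0 * (ENNReal.ofReal (4 ^ a) * (K + K))), ?_, fun z hz => ?_⟩
      · exact ENNReal.mul_ne_top hC (ENNReal.mul_ne_top hC0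
          (ENNReal.mul_ne_top ENNReal.ofReal_ne_top (ENNReal.add_ne_top.2 ⟨hK, hK⟩)))
      refine (hCb z hz).trans ?_
      rw [mul_assoc C]
      refine mul_le_mul_right ?_ _
      exact bootstrap_step hU hC0 h hKb ha1 han (mem_ball_zero_iff.1 hz)
  obtain ⟨C, hC, hCb⟩ := claim (2 * n) le_rfl
  refine ⟨C * ∫⁻ w in ball (0 : E n) 1, U w, ENNReal.mul_ne_top hC hfin, fun z hz => ?_⟩
  refine (hCb z hz).trans (le_of_eq ?_)
  congr 1
  refine lintegral_congr fun w => ?_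
  simp

namespace Setup

variable {ρ : E n → ℝ} {φ ψ : E n → E n} (S : Setup n ρ φ ψ)

include S

/-- The Jacobian determinant is bounded. -/
theorem exists_jac_bound : ∃ C : ℝ, 0 < C ∧ ∀ z ∈ ball (0 : E n) 1, ‖jac φ z‖ ≤ C := by
  obtain ⟨B, hB0, hB⟩ := S.exists_sf_bound (f := fun _ => 1) contDiff_const
  have hvb := vb_pos n
  have hmain : ∀ z ∈ ball (0 : E n) 1, ‖jac φ z‖ₑ ≤ ENNReal.ofReal (B / vb n) *
      ∫⁻ w in ball (0 : E n) 1, ‖jac φ w‖ₑ * ENNReal.ofReal ((kq z w) ^ (n : ℝ)) := by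
    intro z hz
    have hz' : ‖z‖ < 1 := mem_ball_zero_iff.1 hz
    have h1 := S.bell_representation (f := fun _ => 1) (differentiable_const _) hz'
    simp only [mul_one] at h1
    have h2 : jac φ z = ((vb n)⁻¹ : ℝ) * ∫ w in ball (0 : E n) 1,
        sf ρ φ (fun _ => 1) w * ker z w := by
      rw [← h1]
      push_cast
      rw [inv_mul_cancel_left₀]
      exact_mod_cast hvb.ne'
    rw [h2, enorm_mul]
    have h3 : ‖(((vb n)⁻¹ : ℝ) : ℂ)‖ₑ = ENNReal.ofReal ((vb n)⁻¹) := by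
      rw [← ofReal_norm, Complex.norm_real, Real.norm_eq_abs, abs_of_pos (inv_pos.2 hvb)]
    rw [h3, div_eq_mul_inv, mul_comm B, ENNReal.ofReal_mul (by positivity), mul_assoc]
    refine mul_le_mul_right ?_ _
    refine (enorm_integral_le_lintegral_enorm _).trans ?_
    rw [← lintegral_const_mul' _ _ ENNReal.ofReal_ne_top]
    refine setLIntegral_mono' measurableSet_ball fun w hw => ?_
    have hw' : ‖w‖ < 1 := mem_ball_zero_iff.1 hw
    rw [← ofReal_norm, ← ofReal_norm, ← ENNReal.ofReal_mul (by positivity),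
      ← ENNReal.ofReal_mul hB0.le]
    apply ENNReal.ofReal_le_ofReal
    rw [norm_mul, norm_ker]
    have hA : 0 < ‖1 - ip z w‖ := norm_pos_iff.2 (one_sub_ip_ne_zero_left hz' hw'.le)
    have h4 : 1 - ‖w‖ ≤ ‖1 - ip z w‖ := norm_one_sub_ip_ge_right hz'.le
    calc ‖sf ρ φ (fun _ => 1) w‖ * (‖1 - ip z w‖ ^ (n + 1))⁻¹
        ≤ (B * ‖jac φ w‖ * ‖1 - ip z w‖) * (‖1 - ip z w‖ ^ (n + 1))⁻¹ := by
          apply mul_le_mul_of_nonneg_right _ (by positivity)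
          exact (hB w hw).trans (mul_le_mul_of_nonneg_left h4 (by positivity))
      _ = B * (‖jac φ w‖ * (kq z w) ^ (n : ℝ)) := by
          unfold kq
          rw [Real.rpow_natCast, pow_succ, inv_pow]
          field_simp
  have hmeas : AEMeasurable (fun w => ‖jac φ w‖ₑ) (volume.restrict (ball (0 : E n) 1)) :=
    (S.jac_diff.continuousOn.aestronglyMeasurable measurableSet_ball).enorm
  have hfin : ∫⁻ w in ball (0 : E n) 1, ‖jac φ w‖ₑ ≠ ⊤ := S.integrable_jac.2.ne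
  obtain ⟨C, hC, hCb⟩ := bootstrap hmeas hfin ENNReal.ofReal_ne_top hmain
  refine ⟨C.toReal + 1, by positivity, fun z hz => ?_⟩
  have h1 := hCb z hz
  have h2 : ‖jac φ z‖ ≤ C.toReal := by
    rw [← ofReal_norm] at h1
    exact (ENNReal.ofReal_le_iff_le_toReal hC).1 h1
  linarith

end Setup

end Pool.Agent.Ball44
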