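import Mathlib
import Pool.Agent.Helper44_Ball.SupBound

/-! Hölder continuity of kernel integrals up to the boundary. -/

set_option autoImplicit false
set_option maxSynthPendingDepth 3
open Set Metric Filter Topology MeasureTheory

namespace Pool.Agent.Ball44

variable {n : ℕ}

lemma inv_pow_sub_bound {A A' : ℂ} (hA : A ≠ 0) (hA' : A' ≠ 0) (h : ‖A‖ ≤ ‖A'‖) (m : ℕ) :
    ‖(A ^ m)⁻¹ - (A' ^ m)⁻¹‖ ≤ m * ‖A - A'‖ * (‖A‖⁻¹) ^ (m + 1) := by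
  have hx : 0 < ‖A‖ := norm_pos_iff.2 hA
  have hx' : 0 < ‖A'‖ := norm_pos_iff.2 hA'
  have hinv : ‖A'‖⁻¹ ≤ ‖A‖⁻¹ := inv_anti₀ hx h
  have h1 : ‖A⁻¹ - A'⁻¹‖ ≤ ‖A - A'‖ * (‖A‖⁻¹) ^ 2 := by
    have e : A⁻¹ - A'⁻¹ = (A' - A) * (A⁻¹ * A'⁻¹) := by
      field_simp
    rw [e, norm_mul, norm_mul, norm_inv, norm_inv, norm_sub_rev, sq]
    gcongr
  induction m with
  | zero => simp
  | succ m ih =>
    have e : (A ^ (m + 1))⁻¹ - (A' ^ (m + 1))⁻¹ =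
        ((A ^ m)⁻¹ - (A' ^ m)⁻¹) * A⁻¹ + (A' ^ m)⁻¹ * (A⁻¹ - A'⁻¹) := by
      rw [pow_succ, pow_succ, mul_inv, mul_inv]
      ring
    rw [e]
    refine (norm_add_le _ _).trans ?_
    rw [norm_mul, norm_mul, norm_inv, norm_inv, norm_pow]
    have h2 : ‖(A ^ m)⁻¹ - (A' ^ m)⁻¹‖ * ‖A‖⁻¹ ≤
        (m * ‖A - A'‖ * (‖A‖⁻¹) ^ (m + 1)) * ‖A‖⁻¹ := by gcongr
    have h3 : (‖A'‖ ^ m)⁻¹ * ‖A⁻¹ - A'⁻¹‖ ≤ (‖A‖⁻¹) ^ m * (‖A - A'‖ * (‖A‖⁻¹) ^ 2) := by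
      rw [← inv_pow]
      gcongr
    calc _ ≤ (m * ‖A - A'‖ * (‖A‖⁻¹) ^ (m + 1)) * ‖A‖⁻¹ +
          (‖A‖⁻¹) ^ m * (‖A - A'‖ * (‖A‖⁻¹) ^ 2) := add_le_add h2 h3
      _ = _ := by push_cast; ring

/-- Interpolated difference estimate for the kernel. -/
lemma kernel_diff_aux {A A' : ℂ} (hA : A ≠ 0) (hA' : A' ≠ 0) (h : ‖A‖ ≤ ‖A'‖) :
    ‖(A ^ (n + 1))⁻¹ - (A' ^ (n + 1))⁻¹‖ * ‖A‖ ≤
      (n + 2) * ‖A - A'‖ ^ (3 / 4 : ℝ) * (‖A‖⁻¹) ^ ((n : ℝ) + 3 / 4) := by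
  have hx : 0 < ‖A‖ := norm_pos_iff.2 hA
  have hx' : 0 < ‖A'‖ := norm_pos_iff.2 hA'
  have hinv : ‖A'‖⁻¹ ≤ ‖A‖⁻¹ := inv_anti₀ hx h
  set X := ‖A‖⁻¹ with hX
  have hX0 : 0 < X := inv_pos.2 hx
  have hXA : X * ‖A‖ = 1 := by rw [hX]; field_simp
  set D := ‖A - A'‖ with hD
  have hD0 : 0 ≤ D := norm_nonneg _
  have hbound1 : ‖(A ^ (n + 1))⁻¹ - (A' ^ (n + 1))⁻¹‖ * ‖A‖ ≤ (n + 1) * (D * X) * X ^ n := by
    have := inv_pow_sub_bound hA hA' h (n + 1)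
    calc _ ≤ ((n + 1 : ℕ) * D * X ^ (n + 1 + 1)) * ‖A‖ :=
          mul_le_mul_of_nonneg_right this hx.le
      _ = (n + 1) * (D * X) * X ^ n * (X * ‖A‖) := by push_cast; ring
      _ = _ := by rw [hXA, mul_one]
  have hbound2 : ‖(A ^ (n + 1))⁻¹ - (A' ^ (n + 1))⁻¹‖ * ‖A‖ ≤ 2 * X ^ n := by
    have h1 : ‖(A ^ (n + 1))⁻¹ - (A' ^ (n + 1))⁻¹‖ ≤ 2 * X ^ (n + 1) := by
      refine (norm_sub_le _ _).trans ?_
      rw [norm_inv, norm_inv, norm_pow, norm_pow, ← inv_pow, ← inv_pow]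
      have : (‖A'‖⁻¹) ^ (n + 1) ≤ X ^ (n + 1) := by gcongr
      linarith
    calc _ ≤ (2 * X ^ (n + 1)) * ‖A‖ := mul_le_mul_of_nonneg_right h1 hx.le
      _ = 2 * X ^ n * (X * ‖A‖) := by ring
      _ = _ := by rw [hXA, mul_one]
  have hpow : (X : ℝ) ^ ((n : ℝ) + 3 / 4) = X ^ n * X ^ (3 / 4 : ℝ) := by
    rw [Real.rpow_add hX0, Real.rpow_natCast]
  have hDX : (D * X) ^ (3 / 4 : ℝ) = D ^ (3 / 4 : ℝ) * X ^ (3 / 4 : ℝ) :=
    Real.mul_rpow hD0 hX0.le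
  have hrhs : (n + 2) * D ^ (3 / 4 : ℝ) * X ^ ((n : ℝ) + 3 / 4) =
      (n + 2) * (D * X) ^ (3 / 4 : ℝ) * X ^ n := by
    rw [hpow, hDX]; ring
  rw [hrhs]
  have hDX0 : 0 ≤ D * X := by positivity
  rcases le_total (D * X) 1 with h1 | h1
  · have h2 : D * X ≤ (D * X) ^ (3 / 4 : ℝ) := by
      rcases hDX0.eq_or_lt with h0 | h0
      · rw [← h0]; positivity
      · calc D * X = (D * X) ^ (1 : ℝ) := (Real.rpow_one _).symm
          _ ≤ (D * X) ^ (3 / 4 : ℝ) :=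
            Real.rpow_le_rpow_of_exponent_ge h0 h1 (by norm_num)
    calc _ ≤ (n + 1) * (D * X) * X ^ n := hbound1
      _ ≤ (n + 2) * (D * X) ^ (3 / 4 : ℝ) * X ^ n := by
        gcongr
        linarith
  · have h2 : 1 ≤ (D * X) ^ (3 / 4 : ℝ) := Real.one_le_rpow h1 (by norm_num)
    calc _ ≤ 2 * X ^ n := hbound2
      _ ≤ (n + 2) * (D * X) ^ (3 / 4 : ℝ) * X ^ n := by
        have : (2 : ℝ) ≤ (n + 2) * (D * X) ^ (3 / 4 : ℝ) := by
          have hn : (0 : ℝ) ≤ n := Nat.cast_nonneg n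
          nlinarith
        gcongr

/-- Difference of kernels against the boundary distance. -/
lemma kernel_diff {z z' w : E n} (hz : ‖z‖ ≤ 1) (hz' : ‖z'‖ ≤ 1) (hw : ‖w‖ < 1) :
    ‖ker z w - ker z' w‖ * (1 - ‖w‖) ≤ (n + 2) * ‖z - z'‖ ^ (3 / 4 : ℝ) *
      ((kq z w) ^ ((n : ℝ) + 3 / 4) + (kq z' w) ^ ((n : ℝ) + 3 / 4)) := by
  have hA : 1 - ip z w ≠ 0 := one_sub_ip_ne_zero_right hz hw
  have hA' : 1 - ip z' w ≠ 0 := one_sub_ip_ne_zero_right hz' hw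
  have h1 : ‖(1 - ip z w) - (1 - ip z' w)‖ ≤ ‖z - z'‖ := by
    have e : (1 - ip z w) - (1 - ip z' w) = -(ip (z - z') w) := by
      rw [ip_sub_left]; ring
    rw [e, norm_neg]
    refine (norm_ip_le _ _).trans ?_
    nlinarith [norm_nonneg (z - z')]
  have hk := kq_pos' hz hw
  have hk' := kq_pos' hz' hw
  have hd1 : 1 - ‖w‖ ≤ ‖1 - ip z w‖ := norm_one_sub_ip_ge_right hz
  have hd2 : 1 - ‖w‖ ≤ ‖1 - ip z' w‖ := norm_one_sub_ip_ge_right hz'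
  have hpos : 0 ≤ (kq z w) ^ ((n : ℝ) + 3 / 4) := by positivity
  have hpos' : 0 ≤ (kq z' w) ^ ((n : ℝ) + 3 / 4) := by positivity
  have hzz : 0 ≤ ‖z - z'‖ ^ (3 / 4 : ℝ) := by positivity
  have hn : (0 : ℝ) ≤ n := Nat.cast_nonneg n
  unfold ker
  rcases le_total ‖1 - ip z w‖ ‖1 - ip z' w‖ with h | h
  · have h2 := kernel_diff_aux (n := n) hA hA' h
    calc _ ≤ ‖((1 - ip z w) ^ (n + 1))⁻¹ - ((1 - ip z' w) ^ (n + 1))⁻¹‖ * ‖1 - ip z w‖ :=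
          mul_le_mul_of_nonneg_left hd1 (norm_nonneg _)
      _ ≤ _ := h2
      _ ≤ (n + 2) * ‖z - z'‖ ^ (3 / 4 : ℝ) * (kq z w) ^ ((n : ℝ) + 3 / 4) := by
          unfold kq
          gcongr
      _ ≤ _ := by
          apply mul_le_mul_of_nonneg_left _ (by positivity)
          linarith
  · have h2 := kernel_diff_aux (n := n) hA' hA h
    calc _ ≤ ‖((1 - ip z w) ^ (n + 1))⁻¹ - ((1 - ip z' w) ^ (n + 1))⁻¹‖ * ‖1 - ip z' w‖ :=
          mul_le_mul_of_nonneg_left hd2 (norm_nonneg _)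
      _ = ‖((1 - ip z' w) ^ (n + 1))⁻¹ - ((1 - ip z w) ^ (n + 1))⁻¹‖ * ‖1 - ip z' w‖ := by
          rw [norm_sub_rev]
      _ ≤ _ := h2
      _ ≤ (n + 2) * ‖z - z'‖ ^ (3 / 4 : ℝ) * (kq z' w) ^ ((n : ℝ) + 3 / 4) := by
          unfold kq
          rw [norm_sub_rev] at h1
          gcongr
      _ ≤ _ := by
          apply mul_le_mul_of_nonneg_left _ (by positivity)
          linarith

/-- Kernel integral. -/
noncomputable def KI (s : E n → ℂ) (z : E n) : ℂ := ∫ w in ball (0 : E n) 1, s w * ker z w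

lemma continuousOn_ker_right' {z : E n} (hz : ‖z‖ ≤ 1) :
    ContinuousOn (fun w => ker z w) (ball 0 1) := by
  unfold ker
  refine ContinuousOn.inv₀ ?_ ?_
  · exact ((continuous_const.sub (continuous_ip_right z)).pow _).continuousOn
  · intro w hw
    rw [mem_ball_zero_iff] at hw
    exact pow_ne_zero _ (one_sub_ip_ne_zero_right hz hw)

lemma kernel_lintegral_real {C : ENNReal} (hC : C ≠ ⊤) {g : E n → ℂ} {G : E n → ℝ}
    (hg : ContinuousOn g (ball 0 1)) (hG : ∀ w ∈ ball (0 : E n) 1, ‖g w‖ ≤ G w)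
    (hGi : ∫⁻ w in ball (0 : E n) 1, ENNReal.ofReal (G w) ≤ C) :
    IntegrableOn g (ball 0 1) ∧ ‖∫ w in ball (0 : E n) 1, g w‖ ≤ C.toReal := by
  have h1 : ∫⁻ w in ball (0 : E n) 1, ‖g w‖ₑ ≤ C := by
    refine le_trans (setLIntegral_mono' measurableSet_ball fun w hw => ?_) hGi
    rw [← ofReal_norm]
    exact ENNReal.ofReal_le_ofReal (hG w hw)
  refine ⟨⟨hg.aestronglyMeasurable measurableSet_ball, lt_of_le_of_lt h1 hC.lt_top⟩, ?_⟩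
  have h2 := (enorm_integral_le_lintegral_enorm (μ := volume.restrict (ball (0 : E n) 1)) g).trans h1
  rw [← ofReal_norm] at h2
  exact (ENNReal.ofReal_le_iff_le_toReal hC).1 h2

/-- Absolute convergence of the kernel integral up to the boundary. -/
lemma integrableOn_ki {s : E n → ℂ} {B : ℝ} (hs : ContinuousOn s (ball 0 1))
    (hB : ∀ w ∈ ball (0 : E n) 1, ‖s w‖ ≤ B * (1 - ‖w‖)) {z : E n} (hz : ‖z‖ ≤ 1) :
    IntegrableOn (fun w => s w * ker z w) (ball 0 1) := by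
  obtain ⟨K, hK, hKb⟩ := exists_kernel_bound' n
  have hB0 : 0 ≤ B := by
    have := hB 0 (by simp)
    simp at this
    exact (norm_nonneg _).trans this
  refine (kernel_lintegral_real (C := ENNReal.ofReal (B * 2) * K)
    (ENNReal.mul_ne_top ENNReal.ofReal_ne_top hK)
    (g := fun w => s w * ker z w) (G := fun w => (B * 2) * (kq z w) ^ ((n : ℝ) + 1 / 2))
    (hs.mul (continuousOn_ker_right' hz)) ?_ ?_).1
  · intro w hw
    have hw' : ‖w‖ < 1 := mem_ball_zero_iff.1 hw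
    have hk := kq_pos' hz hw'
    have hk2 := kq_ge hz hw'
    rw [norm_mul, norm_ker]
    have h1 : 1 - ‖w‖ ≤ ‖1 - ip z w‖ := norm_one_sub_ip_ge_right hz
    have hA : 0 < ‖1 - ip z w‖ := norm_pos_iff.2 (one_sub_ip_ne_zero_right hz hw')
    have e1 : (kq z w) ^ ((n : ℝ) + 1 / 2) = (kq z w) ^ n * (kq z w) ^ (1 / 2 : ℝ) := by
      rw [Real.rpow_add hk, Real.rpow_natCast]
    have h3 : (1 : ℝ) ≤ 2 * (kq z w) ^ (1 / 2 : ℝ) := by
      have h4 : (1 / 4 : ℝ) ^ (1 / 2 : ℝ) ≤ (kq z w) ^ (1 / 2 : ℝ) :=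
        Real.rpow_le_rpow (by norm_num) (by linarith) (by norm_num)
      have h5 : (1 / 4 : ℝ) ^ (1 / 2 : ℝ) = 1 / 2 := by
        rw [← Real.sqrt_eq_rpow, show (1 / 4 : ℝ) = (1 / 2) ^ 2 by norm_num,
          Real.sqrt_sq (by norm_num)]
      rw [h5] at h4
      linarith
    calc ‖s w‖ * (‖1 - ip z w‖ ^ (n + 1))⁻¹
        ≤ (B * ‖1 - ip z w‖) * (‖1 - ip z w‖ ^ (n + 1))⁻¹ := by
          apply mul_le_mul_of_nonneg_right _ (by positivity)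
          exact (hB w hw).trans (by gcongr)
      _ = B * (kq z w) ^ n := by
          unfold kq
          rw [pow_succ, inv_pow]
          field_simp
      _ ≤ B * ((kq z w) ^ n * (2 * (kq z w) ^ (1 / 2 : ℝ))) := by
          apply mul_le_mul_of_nonneg_left _ hB0
          have : 0 ≤ (kq z w) ^ n := by positivity
          nlinarith
      _ = _ := by rw [e1]; ring
  · have h1 : ∀ w, ENNReal.ofReal ((B * 2) * (kq z w) ^ ((n : ℝ) + 1 / 2)) =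
        ENNReal.ofReal (B * 2) * ENNReal.ofReal ((kq z w) ^ ((n : ℝ) + 1 / 2)) := fun w =>
      ENNReal.ofReal_mul (by positivity)
    simp only [h1]
    rw [lintegral_const_mul' _ _ ENNReal.ofReal_ne_top]
    exact mul_le_mul_right (hKb z hz) _

/-- Hölder continuity of kernel integrals on the closed ball. -/
theorem exists_holder (n : ℕ) : ∃ K : ℝ, 0 < K ∧ ∀ (s : E n → ℂ) (B : ℝ),
    ContinuousOn s (ball 0 1) → (∀ w ∈ ball (0 : E n) 1, ‖s w‖ ≤ B * (1 - ‖w‖)) →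
    ∀ z z' : E n, ‖z‖ ≤ 1 → ‖z'‖ ≤ 1 → ‖KI s z - KI s z'‖ ≤ K * B * ‖z - z'‖ ^ (3 / 4 : ℝ) := by
  obtain ⟨C, hC, hCb⟩ := exists_kernel_bound n
  refine ⟨(n + 2) * (C + C).toReal + 1, by positivity, fun s B hs hB z z' hz hz' => ?_⟩
  have hB0 : 0 ≤ B := by
    have := hB 0 (by simp)
    simp at this
    exact (norm_nonneg _).trans this
  unfold KI
  rw [← integral_sub (integrableOn_ki hs hB hz) (integrableOn_ki hs hB hz')]
  set T : ℝ := B * ((n + 2) * ‖z - z'‖ ^ (3 / 4 : ℝ)) with hT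
  have hT0 : 0 ≤ T := by positivity
  have key := (kernel_lintegral_real (C := ENNReal.ofReal T * (C + C))
    (ENNReal.mul_ne_top ENNReal.ofReal_ne_top (ENNReal.add_ne_top.2 ⟨hC, hC⟩))
    (g := fun w => s w * ker z w - s w * ker z' w)
    (G := fun w => T * ((kq z w) ^ ((n : ℝ) + 3 / 4) + (kq z' w) ^ ((n : ℝ) + 3 / 4)))
    ((hs.mul (continuousOn_ker_right' hz)).sub (hs.mul (continuousOn_ker_right' hz'))) ?_ ?_).2
  · refine key.trans ?_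
    rw [ENNReal.toReal_mul, ENNReal.toReal_ofReal hT0, hT]
    have h1 : 0 ≤ ‖z - z'‖ ^ (3 / 4 : ℝ) := by positivity
    have h2 : 0 ≤ B * ‖z - z'‖ ^ (3 / 4 : ℝ) := by positivity
    nlinarith
  · intro w hw
    have hw' : ‖w‖ < 1 := mem_ball_zero_iff.1 hw
    rw [← mul_sub, norm_mul]
    have h1 := kernel_diff hz hz' hw'
    calc ‖s w‖ * ‖ker z w - ker z' w‖ ≤ (B * (1 - ‖w‖)) * ‖ker z w - ker z' w‖ :=
          mul_le_mul_of_nonneg_right (hB w hw) (norm_nonneg _)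
      _ = B * (‖ker z w - ker z' w‖ * (1 - ‖w‖)) := by ring
      _ ≤ B * ((n + 2) * ‖z - z'‖ ^ (3 / 4 : ℝ) *
        ((kq z w) ^ ((n : ℝ) + 3 / 4) + (kq z' w) ^ ((n : ℝ) + 3 / 4))) :=
          mul_le_mul_of_nonneg_left h1 hB0
      _ = _ := by rw [hT]; ring
  · have h1 : ∀ w, ENNReal.ofReal (T * ((kq z w) ^ ((n : ℝ) + 3 / 4) +
        (kq z' w) ^ ((n : ℝ) + 3 / 4))) = ENNReal.ofReal T *
        (ENNReal.ofReal ((kq z w) ^ ((n : ℝ) + 3 / 4)) +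
          ENNReal.ofReal ((kq z' w) ^ ((n : ℝ) + 3 / 4))) := by
      intro w
      have := kq_nonneg z w
      have := kq_nonneg z' w
      rw [ENNReal.ofReal_mul hT0, ENNReal.ofReal_add (by positivity) (by positivity)]
    simp only [h1]
    rw [lintegral_const_mul' _ _ ENNReal.ofReal_ne_top,
      lintegral_add_left (measurable_kq_pow z ((n : ℝ) + 3 / 4))]
    refine mul_le_mul_right ?_ _
    exact add_le_add (hCb z hz) (hCb z' hz')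

end Pool.Agent.Ball44
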