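import Mathlib
import Pool.Agent.Helper44_Ball.Holder
import Pool.Agent.Helper44_Ball.Expansion

/-! Non-isotropic expansion of kernel integrals at a boundary point. -/

set_option autoImplicit false
set_option maxSynthPendingDepth 3
open Set Metric Filter Topology MeasureTheory

namespace Pool.Agent.Ball44

variable {n : ℕ}

lemma rpow_half_eq {r : ℝ} (hr : 0 < r) (n : ℕ) :
    (r⁻¹) ^ ((n : ℝ) + 1 / 2) = ((Real.sqrt r) ^ (2 * n + 1))⁻¹ := by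
  have hs : 0 < Real.sqrt r := Real.sqrt_pos.2 hr
  rw [Real.rpow_add (inv_pos.2 hr), Real.rpow_natCast, ← Real.sqrt_eq_rpow, Real.sqrt_inv,
    pow_succ, mul_inv, pow_mul, Real.sq_sqrt hr.le, inv_pow]

lemma kq_rpow_half {q x : E n} (hq : ‖q‖ ≤ 1) (hx : ‖x‖ < 1) :
    (kq q x) ^ ((n : ℝ) + 1 / 2) = ((Real.sqrt ‖1 - ip q x‖) ^ (2 * n + 1))⁻¹ :=
  rpow_half_eq (norm_pos_iff.2 (one_sub_ip_ne_zero_right hq hx)) n

/-- The transversal component is controlled by the square root of the Koranyi distance. -/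
lemma norm_ip_perp_sq {q ξ x : E n} (hq : ‖q‖ = 1) (hξ : ‖ξ‖ ≤ 1) (hξq : ip ξ q = 0)
    (hx : ‖x‖ ≤ 1) : ‖ip ξ x‖ ^ 2 ≤ 2 * ‖1 - ip q x‖ := by
  have h1 : ip ξ x = ip ξ (x - (ip x q) • q) := by
    rw [ip_sub_right, ip_smul_right, hξq, mul_zero, sub_zero]
  have h2 : ‖ip ξ x‖ ≤ ‖x - (ip x q) • q‖ := by
    rw [h1]
    refine (norm_ip_le _ _).trans ?_
    nlinarith [norm_nonneg (x - (ip x q) • q)]
  have h3 : ‖x - (ip x q) • q‖ ^ 2 = ‖x‖ ^ 2 - ‖ip x q‖ ^ 2 := by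
    have h4 : ((starRingEnd ℂ) (ip x q) * ip x q).re = ‖ip x q‖ ^ 2 := by
      rw [mul_comm, Complex.mul_conj, Complex.normSq_eq_norm_sq]
      simp [← Complex.ofReal_pow]
    rw [norm_sq_sub, ip_smul_right, norm_smul, hq, h4]
    ring
  have h4 : ‖ip x q‖ ≤ 1 := (norm_ip_le _ _).trans (by rw [hq, mul_one]; exact hx)
  have h5 : 1 - ‖ip x q‖ ≤ ‖1 - ip q x‖ := by
    rw [norm_one_sub_ip_comm]
    have := norm_sub_norm_le (1 : ℂ) (ip x q)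
    rwa [norm_one] at this
  calc ‖ip ξ x‖ ^ 2 ≤ ‖x - (ip x q) • q‖ ^ 2 := by gcongr
    _ = ‖x‖ ^ 2 - ‖ip x q‖ ^ 2 := h3
    _ ≤ 2 * ‖1 - ip q x‖ := by nlinarith [norm_nonneg x, norm_nonneg (ip x q)]

/-- The polynomial terms are integrable. -/
lemma term_bound {j : ℕ} {q ξ x : E n} (hq : ‖q‖ = 1) (hξ : ‖ξ‖ ≤ 1) (hξq : ip ξ q = 0)
    (hx : ‖x‖ < 1) {p : ℕ × ℕ} (hp : 2 * p.1 + p.2 ≤ j) {B : ℝ} (hB : 0 ≤ B) {sx : ℂ}
    (hs : ‖sx‖ ≤ B * (Real.sqrt ‖1 - ip q x‖) ^ j * (1 - ‖x‖)) :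
    ‖sx * ((ip q x) ^ p.1 * (ip ξ x) ^ p.2 * ((1 - ip q x) ^ (n + 1 + p.1 + p.2))⁻¹)‖ ≤
      B * 2 ^ (j + 1) * ((Real.sqrt ‖1 - ip q x‖) ^ (2 * n + 1))⁻¹ := by
  have hY : 0 < ‖1 - ip q x‖ := norm_pos_iff.2 (one_sub_ip_ne_zero_right hq.le hx)
  set y := Real.sqrt ‖1 - ip q x‖ with hy
  have hy0 : 0 < y := Real.sqrt_pos.2 hY
  have hy2 : y ^ 2 = ‖1 - ip q x‖ := Real.sq_sqrt hY.le
  have hyle : y ≤ 2 := by
    apply le_of_sq_le_sq _ (by norm_num)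
    rw [hy2]
    have := norm_one_sub_ip_le hq.le hx.le
    linarith
  have h1 : 1 - ‖x‖ ≤ y ^ 2 := by
    rw [hy2]; exact norm_one_sub_ip_ge_right hq.le
  have h2 : ‖ip ξ x‖ ≤ 2 * y := by
    apply le_of_sq_le_sq _ (by positivity)
    have := norm_ip_perp_sq hq hξ hξq hx.le
    rw [mul_pow, hy2]
    linarith
  have h3 : ‖ip q x‖ ≤ 1 := (norm_ip_le _ _).trans (by rw [hq, one_mul]; exact hx.le)
  obtain ⟨d, hd⟩ : ∃ d, j = 2 * p.1 + p.2 + d := ⟨j - (2 * p.1 + p.2), by omega⟩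
  rw [norm_mul, norm_mul, norm_mul, norm_inv, norm_pow, norm_pow, norm_pow, ← hy2]
  have h4 : ‖ip q x‖ ^ p.1 ≤ 1 := pow_le_one₀ (norm_nonneg _) h3
  have h5 : ‖sx‖ ≤ B * y ^ j * y ^ 2 := hs.trans (by gcongr)
  calc ‖sx‖ * (‖ip q x‖ ^ p.1 * ‖ip ξ x‖ ^ p.2 * ((y ^ 2) ^ (n + 1 + p.1 + p.2))⁻¹)
      ≤ (B * y ^ j * y ^ 2) * (1 * (2 * y) ^ p.2 * ((y ^ 2) ^ (n + 1 + p.1 + p.2))⁻¹) := by
        gcongr
    _ = B * 2 ^ p.2 * y ^ (d + 1) * (y ^ (2 * n + 1))⁻¹ := by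
        have e1 : y ^ j * y ^ 2 = y ^ (2 * p.1 + p.2 + (d + 1) + 1) := by
          rw [← pow_add, hd]; congr 1
        have e2 : (y ^ 2) ^ (n + 1 + p.1 + p.2) =
            y ^ (2 * n + 1) * y ^ (2 * p.1 + 2 * p.2 + 1) := by
          rw [← pow_mul, ← pow_add]; congr 1; ring
        rw [mul_assoc B, e1, e2, mul_pow]
        field_simp
        ring
    _ ≤ B * 2 ^ p.2 * 2 ^ (d + 1) * (y ^ (2 * n + 1))⁻¹ := by gcongr
    _ = B * 2 ^ (p.2 + (d + 1)) * (y ^ (2 * n + 1))⁻¹ := by rw [pow_add]; ring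
    _ ≤ _ := by
        have : (2 : ℝ) ^ (p.2 + (d + 1)) ≤ 2 ^ (j + 1) :=
          pow_le_pow_right₀ (by norm_num) (by omega)
        gcongr

/-- Expansion of kernel integrals at a boundary point. -/
theorem expansion_integral (n j : ℕ) : ∃ K : ℝ, 0 < K ∧ ∀ (s : E n → ℂ) (B : ℝ) (q : E n),
    ‖q‖ = 1 → ContinuousOn s (ball 0 1) →
    (∀ x ∈ ball (0 : E n) 1, ‖s x‖ ≤ B * (Real.sqrt ‖1 - ip q x‖) ^ j * (1 - ‖x‖)) →
    ∀ ξ : E n, ‖ξ‖ ≤ 1 → ip ξ q = 0 → ∃ a : ℕ × ℕ → ℂ, ∀ ω l : ℂ, ‖l‖ ^ 2 ≤ 2 * ‖ω‖ →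
      ‖(1 - ω) • q + l • ξ‖ < 1 →
      ‖KI s ((1 - ω) • q + l • ξ) - ∑ p ∈ Idx j, a p * ω ^ p.1 * l ^ p.2‖ ≤
        K * B * (Real.sqrt ‖ω‖) ^ (j + 1) := by
  obtain ⟨c, C, hC, hpt⟩ := expansion_pointwise n j
  obtain ⟨D, hD, hDb⟩ := exists_kernel_bound' n
  refine ⟨C * (D + D).toReal + 1, by positivity, ?_⟩
  intro s B q hq hs hB ξ hξ hξq
  have hB0 : 0 ≤ B := by
    have := hB 0 (by simp)
    simp at this
    exact (norm_nonneg _).trans this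
  -- the terms
  set T : ℕ × ℕ → E n → ℂ := fun p x =>
    s x * ((ip q x) ^ p.1 * (ip ξ x) ^ p.2 * ((1 - ip q x) ^ (n + 1 + p.1 + p.2))⁻¹) with hT
  have hcq : ContinuousOn (fun x => ip q x) (ball (0 : E n) 1) :=
    (continuous_ip_right q).continuousOn
  have hcξ : ContinuousOn (fun x => ip ξ x) (ball (0 : E n) 1) :=
    (continuous_ip_right ξ).continuousOn
  have hTc : ∀ p, ContinuousOn (T p) (ball 0 1) := by
    intro p
    refine hs.mul (((hcq.pow _).mul (hcξ.pow _)).mul (ContinuousOn.inv₀ ?_ ?_))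
    · exact (continuousOn_const.sub hcq).pow _
    · intro x hx
      rw [mem_ball_zero_iff] at hx
      exact pow_ne_zero _ (one_sub_ip_ne_zero_right hq.le hx)
  have hTi : ∀ p ∈ Idx j, IntegrableOn (T p) (ball 0 1) := by
    intro p hp
    rw [mem_Idx] at hp
    refine (kernel_lintegral_real (C := ENNReal.ofReal (B * 2 ^ (j + 1)) * D)
      (ENNReal.mul_ne_top ENNReal.ofReal_ne_top hD)
      (g := T p) (G := fun x => (B * 2 ^ (j + 1)) * (kq q x) ^ ((n : ℝ) + 1 / 2))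
      (hTc p) ?_ ?_).1
    · intro x hx
      have hx' : ‖x‖ < 1 := mem_ball_zero_iff.1 hx
      rw [kq_rpow_half hq.le hx']
      exact term_bound hq hξ hξq hx' hp hB0 (hB x hx)
    · have h1 : ∀ w, ENNReal.ofReal ((B * 2 ^ (j + 1)) * (kq q w) ^ ((n : ℝ) + 1 / 2)) =
          ENNReal.ofReal (B * 2 ^ (j + 1)) * ENNReal.ofReal ((kq q w) ^ ((n : ℝ) + 1 / 2)) :=
        fun w => ENNReal.ofReal_mul (by positivity)
      simp only [h1]
      rw [lintegral_const_mul' _ _ ENNReal.ofReal_ne_top]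
      exact mul_le_mul_right (hDb q hq.le) _
  refine ⟨fun p => c p * (-1) ^ p.2 * ∫ x in ball (0 : E n) 1, T p x, ?_⟩
  intro ω l hl hz
  set z : E n := (1 - ω) • q + l • ξ with hzdef
  have hsB : ∀ w ∈ ball (0 : E n) 1, ‖s w‖ ≤ (B * 2 ^ j) * (1 - ‖w‖) := by
    intro w hw
    have hw' : ‖w‖ < 1 := mem_ball_zero_iff.1 hw
    refine (hB w hw).trans ?_
    have h1 : Real.sqrt ‖1 - ip q w‖ ≤ 2 := by
      rw [Real.sqrt_le_left (by norm_num)]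
      have := norm_one_sub_ip_le hq.le hw'.le
      linarith
    have h2 : 0 ≤ 1 - ‖w‖ := by linarith
    gcongr
  have hki := integrableOn_ki hs hsB hz.le
  have hsum : ∑ p ∈ Idx j, (c p * (-1) ^ p.2 * ∫ x in ball (0 : E n) 1, T p x) * ω ^ p.1 * l ^ p.2 =
      ∫ x in ball (0 : E n) 1, ∑ p ∈ Idx j, (c p * (-1) ^ p.2 * ω ^ p.1 * l ^ p.2) * T p x := by
    rw [integral_finsetSum _ fun p hp => (hTi p hp).const_mul _]
    refine Finset.sum_congr rfl fun p _ => ?_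
    rw [integral_const_mul]
    ring
  have hsumi : IntegrableOn (fun x => ∑ p ∈ Idx j, (c p * (-1) ^ p.2 * ω ^ p.1 * l ^ p.2) * T p x)
      (ball (0 : E n) 1) :=
    integrable_finsetSum _ fun p hp => (hTi p hp).const_mul _
  rw [hsum]
  unfold KI
  rw [← integral_sub hki hsumi]
  set τ := Real.sqrt ‖ω‖ with hτ
  have hτ0 : 0 ≤ τ := Real.sqrt_nonneg _
  have hτ2 : τ ^ 2 = ‖ω‖ := Real.sq_sqrt (norm_nonneg _)
  set P : ℝ := B * (C * τ ^ (j + 1)) with hP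
  have hP0 : 0 ≤ P := by positivity
  have key := (kernel_lintegral_real (C := ENNReal.ofReal P * (D + D))
    (ENNReal.mul_ne_top ENNReal.ofReal_ne_top (ENNReal.add_ne_top.2 ⟨hD, hD⟩))
    (g := fun x => s x * ker z x -
      ∑ p ∈ Idx j, (c p * (-1) ^ p.2 * ω ^ p.1 * l ^ p.2) * T p x)
    (G := fun x => P * ((kq q x) ^ ((n : ℝ) + 1 / 2) + (kq z x) ^ ((n : ℝ) + 1 / 2)))
    ?_ ?_ ?_).2
  · refine key.trans ?_
    rw [ENNReal.toReal_mul, ENNReal.toReal_ofReal hP0, hP]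
    have h2 : 0 ≤ B * τ ^ (j + 1) := by positivity
    nlinarith
  · refine (hs.mul (continuousOn_ker_right' hz.le)).sub ?_
    exact continuousOn_finsetSum _ fun p _ => continuousOn_const.mul (hTc p)
  · intro x hx
    have hx' : ‖x‖ < 1 := mem_ball_zero_iff.1 hx
    set Y : ℂ := 1 - ip q x with hY
    set X₁ : ℂ := ω * ip q x with hX₁
    set X₂ : ℂ := -l * ip ξ x with hX₂
    have hA : Y + X₁ + X₂ = 1 - ip z x := by
      rw [hY, hX₁, hX₂, hzdef, ip_add_left, ip_smul_left, ip_smul_left]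
      ring
    have hYpos : 0 < ‖Y‖ := norm_pos_iff.2 (one_sub_ip_ne_zero_right hq.le hx')
    have hApos : 0 < ‖1 - ip z x‖ := norm_pos_iff.2 (one_sub_ip_ne_zero_right hz.le hx')
    set y := Real.sqrt ‖Y‖ with hy
    set α := Real.sqrt ‖1 - ip z x‖ with hα
    have hy0 : 0 < y := Real.sqrt_pos.2 hYpos
    have hα0 : 0 < α := Real.sqrt_pos.2 hApos
    have hy2 : y ^ 2 = ‖Y‖ := Real.sq_sqrt hYpos.le
    have hα2 : α ^ 2 = ‖1 - ip z x‖ := Real.sq_sqrt hApos.le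
    have hb1 : ‖X₁‖ ≤ τ ^ 2 := by
      rw [hτ2, hX₁, norm_mul]
      have h3 : ‖ip q x‖ ≤ 1 := (norm_ip_le _ _).trans (by rw [hq, one_mul]; exact hx'.le)
      nlinarith [norm_nonneg ω]
    have hb2 : ‖X₂‖ ≤ 2 * τ * y := by
      apply le_of_sq_le_sq _ (by positivity)
      rw [hX₂, norm_mul, norm_neg, mul_pow, mul_pow, mul_pow, hτ2, hy2]
      have h3 := norm_ip_perp_sq hq hξ hξq hx'.le
      calc ‖l‖ ^ 2 * ‖ip ξ x‖ ^ 2 ≤ (2 * ‖ω‖) * (2 * ‖1 - ip q x‖) := by gcongr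
        _ = _ := by rw [hY]; ring
    have hmain := hpt Y X₁ X₂ τ y α hτ0 hy0 hα0 hy2.symm (by rw [hA, hα2]) hb1 hb2
    have hfac : s x * ker z x - ∑ p ∈ Idx j, (c p * (-1) ^ p.2 * ω ^ p.1 * l ^ p.2) * T p x =
        s x * (((Y + X₁ + X₂) ^ (n + 1))⁻¹ - ∑ p ∈ Idx j, c p * X₁ ^ p.1 * X₂ ^ p.2 *
        (Y ^ (n + 1 + p.1 + p.2))⁻¹) := by
      rw [hA, mul_sub, Finset.mul_sum]
      congr 1
      refine Finset.sum_congr rfl fun p _ => ?_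
      have e1 : X₂ ^ p.2 = (-1) ^ p.2 * l ^ p.2 * (ip ξ x) ^ p.2 := by
        rw [hX₂, show -l * ip ξ x = (-1) * l * ip ξ x by ring, mul_pow, mul_pow]
      have e2 : X₁ ^ p.1 = ω ^ p.1 * (ip q x) ^ p.1 := by rw [hX₁, mul_pow]
      rw [e1, e2]
      simp only [hT, hY]
      ring
    rw [hfac, norm_mul, kq_rpow_half hq.le hx', kq_rpow_half hz.le hx']
    have hmin : 1 - ‖x‖ ≤ min (y ^ 2) (α ^ 2) := by
      apply le_min
      · rw [hy2]; exact norm_one_sub_ip_ge_right hq.le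
      · rw [hα2]; exact norm_one_sub_ip_ge_right hz.le
    set W := ‖((Y + X₁ + X₂) ^ (n + 1))⁻¹ - ∑ p ∈ Idx j, c p * X₁ ^ p.1 * X₂ ^ p.2 *
        (Y ^ (n + 1 + p.1 + p.2))⁻¹‖ with hW
    have hW0 : 0 ≤ W := norm_nonneg _
    calc ‖s x‖ * W ≤ (B * y ^ j * (1 - ‖x‖)) * W := by
          apply mul_le_mul_of_nonneg_right _ hW0
          exact hB x hx
      _ ≤ (B * y ^ j * min (y ^ 2) (α ^ 2)) * W := by gcongr
      _ = B * (W * (y ^ j * min (y ^ 2) (α ^ 2))) := by ring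
      _ ≤ B * (C * τ ^ (j + 1) * ((y ^ (2 * n + 1))⁻¹ + (α ^ (2 * n + 1))⁻¹)) := by gcongr
      _ = _ := by rw [hP]; ring
  · have h1 : ∀ w, ENNReal.ofReal (P * ((kq q w) ^ ((n : ℝ) + 1 / 2) +
        (kq z w) ^ ((n : ℝ) + 1 / 2))) = ENNReal.ofReal P *
        (ENNReal.ofReal ((kq q w) ^ ((n : ℝ) + 1 / 2)) +
          ENNReal.ofReal ((kq z w) ^ ((n : ℝ) + 1 / 2))) := by
      intro w
      have := kq_nonneg z w
      have := kq_nonneg q w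
      rw [ENNReal.ofReal_mul hP0, ENNReal.ofReal_add (by positivity) (by positivity)]
    simp only [h1]
    rw [lintegral_const_mul' _ _ ENNReal.ofReal_ne_top,
      lintegral_add_left (measurable_kq_pow q ((n : ℝ) + 1 / 2))]
    refine mul_le_mul_right ?_ _
    exact add_le_add (hDb q hq.le) (hDb z hz.le)

end Pool.Agent.Ball44
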