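import Mathlib
import Pool.Agent.Helper44_Ball.SupBound
import Pool.Agent.Helper44_Ball.SliceExp
import Pool.Agent.Helper44_Ball.PolyTail

/-! Leading term of the Jacobian at a boundary point. -/

set_option autoImplicit false
set_option maxSynthPendingDepth 3
open Set Metric Filter Topology MeasureTheory

namespace Pool.Agent.Ball44

variable {n : ℕ}

/-- Vanishing of order `j/2` of the Jacobian at `q` in the nonisotropic sense. -/
def VO (φ : E n → E n) (q : E n) (j : ℕ) : Prop :=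
  ∃ C : ℝ, 0 ≤ C ∧ ∀ w ∈ ball (0 : E n) 1, ‖jac φ w‖ ≤ C * (Real.sqrt ‖1 - ip q w‖) ^ j

/-- The product of the Jacobian and the function composed with `φ`. -/
noncomputable def Uf (φ : E n → E n) (f : E n → ℂ) (z : E n) : ℂ :=
  vb n * (jac φ z * f (φ z))

namespace Setup

variable {ρ : E n → ℝ} {φ ψ : E n → E n} (S : Setup n ρ φ ψ)

include S

lemma VO_zero (q : E n) : VO φ q 0 := by
  obtain ⟨C, hC, h⟩ := S.exists_jac_bound
  exact ⟨C, hC.le, fun w hw => by simpa using h w hw⟩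

lemma Uf_eq_KI {f : E n → ℂ} (hf' : Differentiable ℂ f) {z : E n} (hz : ‖z‖ < 1) :
    Uf φ f z = KI (sf ρ φ f) z := S.bell_representation hf' hz

lemma contDiff_one_of_entire {f : E n → ℂ} (hf' : Differentiable ℂ f) : ContDiff ℝ 1 f := by
  rw [contDiff_one_iff_fderiv]
  have hfr : Differentiable ℝ f := fun x => (hf' x).restrictScalars ℝ
  refine ⟨hfr, ?_⟩
  have h1 : Continuous (fderiv ℂ f) := by
    have := Squeeze.continuousOn_fderiv isOpen_univ (hf'.differentiableOn (s := univ))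
    exact continuousOn_univ.1 this
  have h2 : fderiv ℝ f = fun x => (fderiv ℂ f x).restrictScalars ℝ := by
    funext x
    exact ((hf' x).hasFDerivAt.restrictScalars ℝ).fderiv
  rw [h2]
  exact (ContinuousLinearMap.restrictScalarsL ℂ (E n) ℂ ℝ ℝ).continuous.comp h1

lemma U_expansion {q : E n} (hq : ‖q‖ = 1) {j : ℕ} (hV : VO φ q j) {f : E n → ℂ}
    (hf' : Differentiable ℂ f) :
    ∃ K : ℝ, 0 ≤ K ∧ ∀ ξ : E n, ‖ξ‖ ≤ 1 → ip ξ q = 0 → ∃ a : ℕ × ℕ → ℂ, ∀ ω l : ℂ,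
      ‖l‖ ^ 2 ≤ 2 * ‖ω‖ → ‖(1 - ω) • q + l • ξ‖ < 1 →
      ‖Uf φ f ((1 - ω) • q + l • ξ) - ∑ p ∈ Idx j, a p * ω ^ p.1 * l ^ p.2‖ ≤
        K * (Real.sqrt ‖ω‖) ^ (j + 1) := by
  obtain ⟨K, hK, hexp⟩ := expansion_integral n j
  obtain ⟨C, hC, hCV⟩ := hV
  have hfc := S.contDiff_one_of_entire hf'
  obtain ⟨B, hB, hB'⟩ := S.exists_sf_bound hfc
  refine ⟨K * (B * C), by positivity, fun ξ hξ hξq => ?_⟩
  have hb : ∀ x ∈ ball (0 : E n) 1, ‖sf ρ φ f x‖ ≤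
      (B * C) * (Real.sqrt ‖1 - ip q x‖) ^ j * (1 - ‖x‖) := by
    intro x hx
    have h1 := hB' x hx
    have h2 := hCV x hx
    have h3 : 0 ≤ 1 - ‖x‖ := by rw [mem_ball_zero_iff] at hx; linarith
    calc ‖sf ρ φ f x‖ ≤ B * ‖jac φ x‖ * (1 - ‖x‖) := h1
      _ ≤ B * (C * (Real.sqrt ‖1 - ip q x‖) ^ j) * (1 - ‖x‖) := by gcongr
      _ = _ := by ring
  obtain ⟨a, ha⟩ := hexp (sf ρ φ f) (B * C) q hq (S.continuousOn_sf hfc) hb ξ hξ hξq
  refine ⟨a, fun ω l hl hz => ?_⟩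
  rw [S.Uf_eq_KI hf' hz]
  exact ha ω l hl hz

/-- Leading homogeneous part of the Jacobian. -/
lemma exists_leading {q : E n} (hq : ‖q‖ = 1) {j : ℕ} (hV : VO φ q j) (hV' : ¬ VO φ q (j + 1)) :
    ∃ (ξ : E n) (k : ℕ) (a : ℕ × ℕ → ℂ) (C : ℝ), ‖ξ‖ ≤ 1 ∧ ip ξ q = 0 ∧ k ≤ j ∧ 0 ≤ C ∧
      (∃ p ∈ Idx j, 2 * p.1 + p.2 = k ∧ a p ≠ 0) ∧
      ∀ ω l : ℂ, ‖ω‖ ≤ 1 → ‖l‖ ^ 2 ≤ 2 * ‖ω‖ → ‖(1 - ω) • q + l • ξ‖ < 1 →
      ‖Uf φ (fun _ => 1) ((1 - ω) • q + l • ξ) -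
        ∑ p ∈ (Idx j).filter (fun p => 2 * p.1 + p.2 = k), a p * ω ^ p.1 * l ^ p.2‖ ≤
        C * (Real.sqrt ‖ω‖) ^ (k + 1) := by
  obtain ⟨K, hK, hexp⟩ := S.U_expansion hq hV (f := fun _ => 1) (differentiable_const _)
  choose a ha using hexp
  by_cases hall : ∀ ξ (h1 : ‖ξ‖ ≤ 1) (h2 : ip ξ q = 0), ∀ p ∈ Idx j, a ξ h1 h2 p = 0
  · exfalso
    apply hV'
    have hvb := vb_pos n
    refine ⟨K / vb n, by positivity, fun w hw => ?_⟩
    have hw' : ‖w‖ < 1 := mem_ball_zero_iff.1 hw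
    set ω : ℂ := 1 - ip w q with hω
    set v : E n := w - (ip w q) • q with hv
    set ξ : E n := ((‖v‖ : ℂ)⁻¹) • v with hξ
    have hvl : ((‖v‖ : ℂ)) • ξ = v := by
      by_cases hv0 : v = 0
      · rw [hξ, hv0]; simp
      · rw [hξ, smul_smul, mul_inv_cancel₀, one_smul]
        exact_mod_cast (norm_pos_iff.2 hv0).ne'
    have hξ1 : ‖ξ‖ ≤ 1 := by
      rw [hξ, norm_smul, norm_inv, Complex.norm_real, norm_norm]
      by_cases hv0 : ‖v‖ = 0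
      · rw [hv0]; simp
      · rw [inv_mul_cancel₀ hv0]
    have hξ2 : ip ξ q = 0 := by
      rw [hξ, ip_smul_left, hv, ip_sub_left, ip_smul_left, ip_self, hq]
      simp
    have hz : (1 - ω) • q + (‖v‖ : ℂ) • ξ = w := by
      rw [hvl, hω, hv, sub_sub_cancel, add_sub_cancel]
    have hl : ‖(‖v‖ : ℂ)‖ ^ 2 ≤ 2 * ‖ω‖ := by
      rw [Complex.norm_real, norm_norm, hv, norm_sub_proj_sq w q hq]
      have h4 : ‖ip w q‖ ≤ 1 := (norm_ip_le _ _).trans (by rw [hq, mul_one]; exact hw'.le)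
      have h5 : 1 - ‖ip w q‖ ≤ ‖ω‖ := by
        have := norm_sub_norm_le (1 : ℂ) (ip w q)
        rwa [norm_one] at this
      nlinarith [norm_nonneg w, norm_nonneg (ip w q)]
    have key := ha ξ hξ1 hξ2 ω (‖v‖ : ℂ) hl (by rw [hz]; exact hw')
    rw [hz, Finset.sum_eq_zero, sub_zero] at key
    · unfold Uf at key
      rw [mul_one, norm_mul, Complex.norm_real, Real.norm_eq_abs, abs_of_pos hvb] at key
      rw [norm_one_sub_ip_comm, div_mul_eq_mul_div, le_div_iff₀ hvb]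
      linarith
    · intro p hp
      rw [hall ξ hξ1 hξ2 p hp]
      ring
  · push Not at hall
    obtain ⟨ξ, h1, h2, p, hp, hne⟩ := hall
    classical
    have hex : ∃ k, ∃ p ∈ Idx j, 2 * p.1 + p.2 = k ∧ a ξ h1 h2 p ≠ 0 := ⟨_, p, hp, rfl, hne⟩
    obtain ⟨p', hp', hk', hne'⟩ := Nat.find_spec hex
    set k := Nat.find hex with hk
    have hmin : ∀ p ∈ Idx j, 2 * p.1 + p.2 < k → a ξ h1 h2 p = 0 := by
      intro p hp hlt
      by_contra hne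
      exact Nat.find_min hex hlt ⟨p, hp, rfl, hne⟩
    obtain ⟨C, hC, hC'⟩ := poly_tail _ hmin
    have hkj : k ≤ j := by
      rw [mem_Idx] at hp'
      omega
    refine ⟨ξ, k, a ξ h1 h2, K + C, h1, h2, hkj, by positivity, ⟨p', hp', hk', hne'⟩, ?_⟩
    intro ω l hω hl hz
    have e1 := ha ξ h1 h2 ω l hl hz
    have e2 := hC' ω l hω hl
    have e3 : (Real.sqrt ‖ω‖) ^ (j + 1) ≤ (Real.sqrt ‖ω‖) ^ (k + 1) :=
      pow_le_pow_of_le_one (Real.sqrt_nonneg _) (Real.sqrt_le_one.2 hω) (by omega)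
    have e4 : K * (Real.sqrt ‖ω‖) ^ (j + 1) ≤ K * (Real.sqrt ‖ω‖) ^ (k + 1) := by gcongr
    have e6 := norm_add_le (Uf φ (fun _ => 1) ((1 - ω) • q + l • ξ) -
      ∑ p ∈ Idx j, a ξ h1 h2 p * ω ^ p.1 * l ^ p.2)
      (∑ p ∈ Idx j, a ξ h1 h2 p * ω ^ p.1 * l ^ p.2 -
        ∑ p ∈ (Idx j).filter (fun p => 2 * p.1 + p.2 = k), a ξ h1 h2 p * ω ^ p.1 * l ^ p.2)
    rw [sub_add_sub_cancel] at e6
    linarith

lemma Uf_one_ne_zero {z : E n} (hz : ‖z‖ < 1) : Uf φ (fun _ => 1) z ≠ 0 := by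
  unfold Uf
  have hvb := vb_pos n
  rw [mul_one]
  exact mul_ne_zero (by exact_mod_cast hvb.ne') (S.jac_ne_zero (mem_ball_zero_iff.2 hz))

lemma Uf_one_diffAt {z : E n} (hz : ‖z‖ < 1) : DifferentiableAt ℂ (Uf φ (fun _ => 1)) z := by
  unfold Uf
  have h1 : DifferentiableAt ℂ (jac φ) z :=
    (S.jac_diff z (mem_ball_zero_iff.2 hz)).differentiableAt
      (isOpen_ball.mem_nhds (mem_ball_zero_iff.2 hz))
  exact (h1.mul_const _).const_mul _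

/-- Leading order of the Jacobian on the complex normal slice. -/
lemma exists_slice_leading {q : E n} (hq : ‖q‖ = 1) {j : ℕ} (hV : VO φ q j)
    (hV' : ¬ VO φ q (j + 1)) :
    ∃ (i : ℕ) (b : ℂ) (C : ℝ), 2 * i ≤ j ∧ b ≠ 0 ∧ 0 ≤ C ∧
      ∀ ω : ℂ, ‖1 - ω‖ < 1 → ‖ω‖ ≤ 1 →
      ‖Uf φ (fun _ => 1) ((1 - ω) • q) - b * ω ^ i‖ ≤ C * (Real.sqrt ‖ω‖) ^ (2 * i + 1) := by
  obtain ⟨ξ, k, a, C, hξ1, hξ2, hkj, hC, ⟨p₀, hp₀, hpk, hne⟩, hexp⟩ := S.exists_leading hq hV hV'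
  set F := (Idx j).filter (fun p => 2 * p.1 + p.2 = k) with hF
  set Q : Polynomial ℂ := ∑ p ∈ F, Polynomial.C (a p) * Polynomial.X ^ p.2 with hQdef
  have hp₀F : p₀ ∈ F := Finset.mem_filter.2 ⟨hp₀, hpk⟩
  have hQ : Q ≠ 0 := by
    intro h0
    have h1 := congrArg (fun R => Polynomial.coeff R p₀.2) h0
    simp only [hQdef, Polynomial.finsetSum_coeff, Polynomial.coeff_C_mul_X_pow,
      Polynomial.coeff_zero] at h1
    rw [Finset.sum_eq_single p₀] at h1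
    · simp at h1; exact hne h1
    · intro p hp hpne
      rw [if_neg]
      intro h2
      apply hpne
      have h3 := (Finset.mem_filter.1 hp).2
      exact Prod.ext (by omega) h2.symm
    · intro h; exact absurd hp₀F h
  have hev : ∀ μ : ℂ, ∑ p ∈ F, a p * μ ^ p.2 = Q.eval μ := by
    intro μ
    rw [hQdef, Polynomial.eval_finsetSum]
    refine Finset.sum_congr rfl fun p _ => ?_
    simp
  -- points
  have hpt : ∀ s : ℝ, 0 < s → s < 1 → ∀ μ : ℂ, ‖μ‖ ≤ 1 →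
      ‖(1 - ((s ^ 2 : ℝ) : ℂ)) • q + ((s : ℂ) * μ) • ξ‖ < 1 := by
    intro s hs0 hs1 μ hμ
    have h1 : ‖(1 - ((s ^ 2 : ℝ) : ℂ)) • q + ((s : ℂ) * μ) • ξ‖ ^ 2 =
        (1 - s ^ 2) ^ 2 + s ^ 2 * ‖μ‖ ^ 2 * ‖ξ‖ ^ 2 := by
      have h2 := norm_sq_sub ((1 - ((s ^ 2 : ℝ) : ℂ)) • q) (-(((s : ℂ) * μ) • ξ))
      rw [sub_neg_eq_add] at h2
      rw [h2]
      have h3 : ip ((1 - ((s ^ 2 : ℝ) : ℂ)) • q) (-(((s : ℂ) * μ) • ξ)) = 0 := by
        rw [← neg_smul, ip_smul_right, ip_smul_left]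
        have : ip q ξ = 0 := by rw [← ip_conj, hξ2, map_zero]
        rw [this]; ring
      rw [h3, norm_neg, norm_smul, norm_smul, norm_mul, hq]
      have h4 : ‖(1 : ℂ) - ((s ^ 2 : ℝ) : ℂ)‖ = 1 - s ^ 2 := by
        rw [← Complex.ofReal_one, ← Complex.ofReal_sub, Complex.norm_real, Real.norm_eq_abs,
          abs_of_nonneg (by nlinarith)]
      rw [h4, Complex.norm_real, Real.norm_eq_abs, abs_of_pos hs0]
      simp
      ring
    have h5 : ‖(1 - ((s ^ 2 : ℝ) : ℂ)) • q + ((s : ℂ) * μ) • ξ‖ ^ 2 < 1 := by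
      rw [h1]
      have h6 : ‖μ‖ ^ 2 ≤ 1 := by nlinarith [norm_nonneg μ]
      have h7 : ‖ξ‖ ^ 2 ≤ 1 := by nlinarith [norm_nonneg ξ]
      have h8 : ‖μ‖ ^ 2 * ‖ξ‖ ^ 2 ≤ 1 := by
        calc ‖μ‖ ^ 2 * ‖ξ‖ ^ 2 ≤ 1 * 1 := by gcongr
          _ = 1 := one_mul 1
      have h9 : 0 < s ^ 2 := by positivity
      have h10 : s ^ 2 < 1 := by nlinarith
      nlinarith
    nlinarith [norm_nonneg ((1 - ((s ^ 2 : ℝ) : ℂ)) • q + ((s : ℂ) * μ) • ξ)]
  have hzero : (∑ p ∈ F, a p * (0 : ℂ) ^ p.2) ≠ 0 := by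
    refine hurwitz_zero (P := fun μ => ∑ p ∈ F, a p * μ ^ p.2) hev hQ (k := k)
      (f := fun s μ => Uf φ (fun _ => 1) ((1 - ((s ^ 2 : ℝ) : ℂ)) • q + ((s : ℂ) * μ) • ξ))
      hC ?_ ?_ ?_
    · intro s hs0 hs1 μ hμ
      have hωn : ‖((s ^ 2 : ℝ) : ℂ)‖ = s ^ 2 := by
        rw [Complex.norm_real, Real.norm_eq_abs, abs_of_nonneg (by positivity)]
      have h1 := hexp ((s ^ 2 : ℝ) : ℂ) ((s : ℂ) * μ) (by rw [hωn]; nlinarith) (by
        rw [hωn, norm_mul, Complex.norm_real, Real.norm_eq_abs, abs_of_pos hs0, mul_pow]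
        have h6 : ‖μ‖ ^ 2 ≤ 1 := by nlinarith [norm_nonneg μ]
        nlinarith [sq_nonneg s]) (hpt s hs0 hs1 μ hμ)
      rw [hωn, Real.sqrt_sq hs0.le] at h1
      have h2 : ∑ p ∈ F, a p * ((s ^ 2 : ℝ) : ℂ) ^ p.1 * ((s : ℂ) * μ) ^ p.2 =
          (s : ℂ) ^ k * ∑ p ∈ F, a p * μ ^ p.2 := by
        rw [Finset.mul_sum]
        refine Finset.sum_congr rfl fun p hp => ?_
        have h3 := (Finset.mem_filter.1 hp).2
        rw [← h3, pow_add, pow_mul, mul_pow]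
        push_cast
        ring
      rw [h2] at h1
      exact h1
    · intro s hs0 hs1 μ hμ
      have h1 := S.Uf_one_diffAt (hpt s hs0 hs1 μ hμ)
      have h2 : DifferentiableAt ℂ (fun μ : ℂ =>
          (1 - ((s ^ 2 : ℝ) : ℂ)) • q + ((s : ℂ) * μ) • ξ) μ :=
        (((differentiableAt_id.const_mul _).smul_const ξ)).const_add _
      exact DifferentiableAt.comp (g := Uf φ (fun _ => 1)) μ h1 h2
    · intro s hs0 hs1 μ hμ
      exact S.Uf_one_ne_zero (hpt s hs0 hs1 μ hμ)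
  obtain ⟨p, hpF, hpne⟩ := Finset.exists_ne_zero_of_sum_ne_zero hzero
  have hp2 : p.2 = 0 := by
    by_contra h
    rw [zero_pow h, mul_zero] at hpne
    exact hpne rfl
  rw [hp2, pow_zero, mul_one] at hpne
  have hpk' := (Finset.mem_filter.1 hpF).2
  have hk2 : k = 2 * p.1 := by omega
  have hpe : p = (p.1, 0) := Prod.ext rfl hp2
  refine ⟨p.1, a (p.1, 0), C, by omega, by rw [← hpe]; exact hpne, hC, ?_⟩
  intro ω hω1 hω2
  have h1 := hexp ω 0 hω2 (by rw [norm_zero]; nlinarith [norm_nonneg ω]) (by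
    rw [zero_smul, add_zero, norm_smul, hq, mul_one]; exact hω1)
  rw [zero_smul, add_zero, hF, hk2, sum_weight_zero (by omega)] at h1
  exact h1

/-- Main structure theorem at a boundary point. -/
theorem dichotomy {q : E n} (hq : ‖q‖ = 1) {j : ℕ} (hV : VO φ q j) (hV' : ¬ VO φ q (j + 1)) :
    ∃ (i : ℕ) (b : ℂ) (p₀ : E n), b ≠ 0 ∧
      Tendsto (fun ω : ℂ => Uf φ (fun _ => 1) ((1 - ω) • q) / ω ^ i)
        (𝓝[{ω | ‖1 - ω‖ < 1}] 0) (𝓝 b) ∧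
      Tendsto (fun ω : ℂ => φ ((1 - ω) • q)) (𝓝[{ω | ‖1 - ω‖ < 1}] 0) (𝓝 p₀) := by
  obtain ⟨i, b, C, hij, hb, hC, hlead⟩ := S.exists_slice_leading hq hV hV'
  set D : Set ℂ := {ω | ‖1 - ω‖ < 1} with hD
  have hDne : ∀ ω ∈ D, ω ≠ 0 := by
    rintro ω hω rfl
    rw [hD, mem_ofPred_eq, sub_zero, norm_one] at hω
    exact lt_irrefl _ hω
  have hDnorm : ∀ ω ∈ D, ‖(1 - ω) • q‖ < 1 := by
    intro ω hω
    rw [norm_smul, hq, mul_one]; exact hω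
  -- general division lemma
  have hdiv : ∀ (g : ℂ → ℂ) (c : ℂ) (C' : ℝ), (∀ ω ∈ D, ‖ω‖ ≤ 1 →
      ‖g ω - c * ω ^ i‖ ≤ C' * (Real.sqrt ‖ω‖) ^ (2 * i + 1)) →
      Tendsto (fun ω => g ω / ω ^ i) (𝓝[D] 0) (𝓝 c) := by
    intro g c C' hg
    rw [tendsto_iff_norm_sub_tendsto_zero]
    have hlim : Tendsto (fun ω : ℂ => C' * Real.sqrt ‖ω‖) (𝓝[D] 0) (𝓝 0) := by
      have h1 : Continuous (fun ω : ℂ => C' * Real.sqrt ‖ω‖) :=
        continuous_const.mul (Real.continuous_sqrt.comp continuous_norm)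
      have h2 := h1.tendsto 0
      simp only [norm_zero, Real.sqrt_zero, mul_zero] at h2
      exact h2.mono_left nhdsWithin_le_nhds
    refine squeeze_zero' (Eventually.of_forall fun _ => norm_nonneg _) ?_ hlim
    have h1 : ∀ᶠ ω in 𝓝[D] (0 : ℂ), ‖ω‖ ≤ 1 := by
      filter_upwards [mem_nhdsWithin_of_mem_nhds (closedBall_mem_nhds (0 : ℂ) one_pos)] with ω hω
      exact mem_closedBall_zero_iff.1 hω
    filter_upwards [self_mem_nhdsWithin, h1] with ω hω hω1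
    have h3 := hg ω hω hω1
    have h4 : ω ^ i ≠ 0 := pow_ne_zero _ (hDne ω hω)
    have h5 : g ω / ω ^ i - c = (g ω - c * ω ^ i) / ω ^ i := by field_simp
    have h6 : 0 < ‖ω‖ := norm_pos_iff.2 (hDne ω hω)
    rw [h5, norm_div, norm_pow, div_le_iff₀ (by positivity)]
    refine h3.trans (le_of_eq ?_)
    rw [pow_succ, pow_mul, Real.sq_sqrt h6.le]
    ring
  have hU1 := hdiv (fun ω => Uf φ (fun _ => 1) ((1 - ω) • q)) b C hlead
  -- coordinates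
  obtain ⟨R, hR, hR'⟩ := S.exists_radius
  have hcoord : ∀ m : Fin n, ∃ c : ℂ,
      Tendsto (fun ω : ℂ => (φ ((1 - ω) • q)) m) (𝓝[D] 0) (𝓝 c) := by
    intro m
    have hfd : Differentiable ℂ (fun x : E n => x m) := (EuclideanSpace.proj (𝕜 := ℂ) m).differentiable
    obtain ⟨K, hK, hexp⟩ := S.U_expansion hq hV hfd
    obtain ⟨a, ha⟩ := hexp 0 (by simp) (by simp)
    have h2 : ∀ ω : ℂ, ‖1 - ω‖ < 1 → ‖ω‖ ≤ 1 → ‖Uf φ (fun x : E n => x m) ((1 - ω) • q)‖ ≤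
        (R * (‖b‖ + C)) * ‖ω‖ ^ i := by
      intro ω hω1 hω2
      have h3 := hlead ω hω1 hω2
      have h4 : ‖Uf φ (fun _ => 1) ((1 - ω) • q)‖ ≤ (‖b‖ + C) * ‖ω‖ ^ i := by
        have h5 := norm_add_le (Uf φ (fun _ => 1) ((1 - ω) • q) - b * ω ^ i) (b * ω ^ i)
        rw [sub_add_cancel, norm_mul, norm_pow] at h5
        have h6 : (Real.sqrt ‖ω‖) ^ (2 * i + 1) ≤ ‖ω‖ ^ i := by
          rw [pow_succ, pow_mul, Real.sq_sqrt (norm_nonneg _)]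
          have : Real.sqrt ‖ω‖ ≤ 1 := Real.sqrt_le_one.2 hω2
          have h7 : 0 ≤ ‖ω‖ ^ i := by positivity
          nlinarith
        have h7 : C * (Real.sqrt ‖ω‖) ^ (2 * i + 1) ≤ C * ‖ω‖ ^ i := by gcongr
        nlinarith
      have h5 : Uf φ (fun x : E n => x m) ((1 - ω) • q) =
          (φ ((1 - ω) • q)) m * Uf φ (fun _ => 1) ((1 - ω) • q) := by
        unfold Uf; ring
      have h6 : ‖(φ ((1 - ω) • q)) m‖ ≤ R :=
        (PiLp.norm_apply_le _ m).trans (hR' _ (S.mφ (mem_ball_zero_iff.2 (hDnorm ω hω1)))).le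
      rw [h5, norm_mul]
      calc _ ≤ R * ((‖b‖ + C) * ‖ω‖ ^ i) := by gcongr
        _ = _ := by ring
    obtain ⟨C', hC', hC''⟩ := slice_lead (g := fun ω => Uf φ (fun x : E n => x m) ((1 - ω) • q))
      hij hK (by positivity) (fun ω hω => by
        have h3 := ha ω 0 (by rw [norm_zero]; nlinarith [norm_nonneg ω]) (by
          rw [zero_smul, add_zero]; exact hDnorm ω hω)
        rwa [zero_smul, add_zero] at h3) h2
    have h7 := hdiv _ _ C' hC''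
    refine ⟨a (i, 0) / b, ?_⟩
    refine (h7.div hU1 hb).congr' ?_
    filter_upwards [self_mem_nhdsWithin] with ω hω
    have h8 : ω ^ i ≠ 0 := pow_ne_zero _ (hDne ω hω)
    have h9 := S.Uf_one_ne_zero (hDnorm ω hω)
    change Uf φ (fun x : E n => x m) ((1 - ω) • q) / ω ^ i /
      (Uf φ (fun _ => 1) ((1 - ω) • q) / ω ^ i) = _
    rw [div_div_div_cancel_right₀ h8, div_eq_iff h9]
    unfold Uf; ring
  choose c hc using hcoord
  refine ⟨i, b, (WithLp.equiv 2 (Fin n → ℂ)).symm c, hb, hU1, ?_⟩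
  have h1 : Tendsto (fun ω : ℂ => (WithLp.equiv 2 (Fin n → ℂ)) (φ ((1 - ω) • q)))
      (𝓝[D] 0) (𝓝 c) := by
    rw [tendsto_pi_nhds]
    exact hc
  have h2 := ((PiLp.continuous_toLp 2 (fun _ : Fin n => ℂ)).tendsto c).comp h1
  exact h2

end Setup

end Pool.Agent.Ball44
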