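import Mathlib
import Pool.Agent.Helper44_Ball.Basic

/-! Second order Taylor expansion and the quadratic family of discs at a boundary point. -/

set_option autoImplicit false
set_option maxSynthPendingDepth 3
open Set Metric Filter Topology

namespace Pool.Agent.Ball44

lemma taylor2 {F : Type*} [NormedAddCommGroup F] [NormedSpace ℝ F] {f : F → ℝ} {p : F}
    (hf : ContDiffAt ℝ 2 f p) {η : ℝ} (hη : 0 < η) :
    ∃ r > 0, ∀ h : F, ‖h‖ < r →
      |f (p + h) - f p - fderiv ℝ f p h - (1 / 2) * fderiv ℝ (fderiv ℝ f) p h h| ≤ η * ‖h‖ ^ 2 := by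
  have hsymm : IsSymmSndFDerivAt ℝ f p := hf.isSymmSndFDerivAt (by simp)
  have hf1 : ContDiffAt ℝ 1 (fderiv ℝ f) p := hf.fderiv_right (by norm_num)
  have hd : HasFDerivAt (fderiv ℝ f) (fderiv ℝ (fderiv ℝ f) p) p :=
    (hf1.differentiableAt (by norm_num)).hasFDerivAt
  have hev : ∀ᶠ y in 𝓝 p, DifferentiableAt ℝ f y := by
    filter_upwards [hf.eventually (by simp)] with y hy
    exact hy.differentiableAt (by norm_num)
  have hlit := (hasFDerivAt_iff_isLittleO_nhds_zero.1 hd).def hη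
  have hev' : ∀ᶠ h in 𝓝 (0 : F), DifferentiableAt ℝ f (p + h) := by
    have : Tendsto (fun h : F => p + h) (𝓝 0) (𝓝 p) := by
      have hcont : Continuous fun h : F => p + h := by fun_prop
      have := hcont.tendsto 0
      rwa [add_zero] at this
    exact this.eventually hev
  obtain ⟨r, hr, hb⟩ := Metric.eventually_nhds_iff_ball.1 (hlit.and hev')
  refine ⟨r, hr, fun h hh => ?_⟩
  set D2 := fderiv ℝ (fderiv ℝ f) p with hD2
  set g : F → ℝ := fun y => f (p + y) - f p - fderiv ℝ f p y - (1 / 2) * D2 y y with hg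
  have hgd : ∀ y ∈ closedBall (0 : F) ‖h‖,
      HasFDerivWithinAt g (fderiv ℝ f (p + y) - fderiv ℝ f p - D2 y) (closedBall (0 : F) ‖h‖) y := by
    intro y hy
    rw [mem_closedBall_zero_iff] at hy
    have hy' := hb y (by rw [mem_ball_zero_iff]; exact lt_of_le_of_lt hy hh)
    have h1 : HasFDerivAt (fun y : F => f (p + y)) (fderiv ℝ f (p + y)) y := by
      have h2 : HasFDerivAt f (fderiv ℝ f (p + y)) (p + y) := hy'.2.hasFDerivAt
      have h3 : HasFDerivAt (fun y : F => p + y) (ContinuousLinearMap.id ℝ F) y :=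
        (hasFDerivAt_id y).const_add p
      exact h2.comp y h3
    have h2 : HasFDerivAt (fun y : F => (1 / 2 : ℝ) * D2 y y) (D2 y) y := by
      have h3 : HasFDerivAt (fun y : F => D2 y y) (D2 y + D2.flip y) y := by
        have := (D2.hasFDerivAt (x := y)).clm_apply (hasFDerivAt_id y)
        refine this.congr_fderiv ?_
        ext v
        simp
      have h4 : D2.flip y = D2 y := by
        ext v
        exact hsymm v y
      rw [h4] at h3
      have h5 := h3.const_mul (1 / 2 : ℝ)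
      refine h5.congr_fderiv ?_
      rw [← two_smul ℝ (D2 y), smul_smul]
      norm_num
    exact (((h1.sub_const (f p)).sub ((fderiv ℝ f p).hasFDerivAt)).sub h2).hasFDerivWithinAt
  have hbound : ∀ y ∈ closedBall (0 : F) ‖h‖,
      ‖fderiv ℝ f (p + y) - fderiv ℝ f p - D2 y‖ ≤ η * ‖h‖ := by
    intro y hy
    rw [mem_closedBall_zero_iff] at hy
    have hy' := hb y (by rw [mem_ball_zero_iff]; exact lt_of_le_of_lt hy hh)
    refine hy'.1.trans ?_
    gcongr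
  have hmv := (convex_closedBall (0 : F) ‖h‖).norm_image_sub_le_of_norm_hasFDerivWithin_le
    hgd hbound (mem_closedBall_self (norm_nonneg h))
    (show h ∈ closedBall (0 : F) ‖h‖ by rw [mem_closedBall_zero_iff])
  have hg0 : g 0 = 0 := by simp [hg]
  rw [hg0, sub_zero, sub_zero, Real.norm_eq_abs] at hmv
  calc _ ≤ η * ‖h‖ * ‖h‖ := hmv
    _ = η * ‖h‖ ^ 2 := by ring

variable {n : ℕ}

/-- The Levi form (times 4), evaluated at `(v, v)`. -/
noncomputable def levi (f : E n → ℝ) (p v : E n) : ℝ :=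
  fderiv ℝ (fderiv ℝ f) p v v + fderiv ℝ (fderiv ℝ f) p (Complex.I • v) (Complex.I • v)

/-- Quadratic form on a complex line. -/
lemma bilin_complex_line (H : E n →L[ℝ] E n →L[ℝ] ℝ) (hH : ∀ x y, H x y = H y x) (v : E n)
    (ζ : ℂ) : H (ζ • v) (ζ • v) = (1 / 2) * (H v v + H (Complex.I • v) (Complex.I • v)) * ‖ζ‖ ^ 2 +
      ((((1 / 2) * (H v v - H (Complex.I • v) (Complex.I • v)) : ℝ) -
        (H v (Complex.I • v) : ℝ) * Complex.I) * ζ ^ 2).re := by
  have h1 : ζ • v = ζ.re • v + ζ.im • (Complex.I • v) := by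
    conv_lhs => rw [← Complex.re_add_im ζ]
    rw [add_smul, mul_smul]
    rfl
  rw [h1]
  simp only [map_add, map_smul, _root_.add_apply, _root_.smul_apply, smul_eq_mul]
  rw [hH (Complex.I • v) v, ← Complex.normSq_eq_norm_sq, Complex.normSq_apply]
  simp only [Complex.mul_re, Complex.sub_re, Complex.ofReal_re, Complex.ofReal_im, Complex.I_re,
    Complex.I_im, Complex.sub_im, Complex.mul_im, sq]
  ring

/-- The family of quadratic discs at a boundary point. -/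
theorem disc_family {f : E n → ℝ} {p ν v : E n} {a : ℝ} (hf : ContDiffAt ℝ 2 f p) (hp : f p = 0)
    (ha : 0 < a) (hν : ‖ν‖ = 1) (hv : ‖v‖ = 1) (hvν : ip v ν = 0)
    (hd : ∀ w, fderiv ℝ f p w = a * (ip w ν).re) :
    ∃ κ : ℂ, ∀ η > 0, ∃ r > 0, ∀ δ : ℝ, ∀ ζ : ℂ, 0 ≤ δ → δ < r → ‖ζ‖ < r →
      f (p - (δ : ℂ) • ν + ζ • v + (κ * ζ ^ 2) • ν) ≤
        -a * δ + (1 / 4) * levi f p v * ‖ζ‖ ^ 2 + η * (‖ζ‖ ^ 2 + δ) := by
  have hsymm : IsSymmSndFDerivAt ℝ f p := hf.isSymmSndFDerivAt (by simp)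
  set H := fderiv ℝ (fderiv ℝ f) p with hH
  set α : ℂ := (((1 / 2) * (H v v - H (Complex.I • v) (Complex.I • v)) : ℝ) -
        (H v (Complex.I • v) : ℝ) * Complex.I) with hα
  refine ⟨-α / (2 * a), fun η hη => ?_⟩
  set κ : ℂ := -α / (2 * a) with hκ
  set K : ℝ := 1 + ‖κ‖ with hK
  have hK1 : 1 ≤ K := by rw [hK]; linarith [norm_nonneg κ]
  have hH0 : 0 ≤ ‖H‖ := norm_nonneg H
  -- Taylor with small error
  obtain ⟨r1, hr1, hT⟩ := taylor2 hf (η := η / (8 * K ^ 2)) (by positivity)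
  set r : ℝ := min (min 1 (r1 / (4 * K))) (η / (8 * (K ^ 2) * (‖H‖ + 1))) with hr
  have hr0 : 0 < r := by
    rw [hr]
    positivity
  refine ⟨r, hr0, fun δ ζ hδ hδr hζr => ?_⟩
  have hr1' : r ≤ 1 := (min_le_left _ _).trans (min_le_left _ _)
  have hr2' : r ≤ r1 / (4 * K) := (min_le_left _ _).trans (min_le_right _ _)
  have hr3' : r ≤ η / (8 * (K ^ 2) * (‖H‖ + 1)) := min_le_right _ _
  set w : E n := (-(δ : ℂ) + κ * ζ ^ 2) • ν with hw
  set z0 := ‖ζ‖ with hz0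
  have hz00 : 0 ≤ z0 := norm_nonneg ζ
  have hz01 : z0 < 1 := hζr.trans_le hr1'
  have hwn : ‖w‖ ≤ δ + ‖κ‖ * z0 ^ 2 := by
    rw [hw, norm_smul, hν, mul_one]
    refine (norm_add_le _ _).trans ?_
    rw [norm_neg, Complex.norm_real, Real.norm_eq_abs, abs_of_nonneg hδ, norm_mul, norm_pow]
  have hwn2 : ‖w‖ ≤ K * (z0 ^ 2 + δ) := by
    refine hwn.trans ?_
    rw [hK]
    nlinarith [norm_nonneg κ, sq_nonneg z0]
  have hwn3 : ‖w‖ ≤ K * (z0 + δ) := by
    refine hwn2.trans ?_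
    have : z0 ^ 2 ≤ z0 := by nlinarith
    gcongr
  set h : E n := ζ • v + w with hh
  have hpt : p - (δ : ℂ) • ν + ζ • v + (κ * ζ ^ 2) • ν = p + h := by
    rw [hh, hw, add_smul, neg_smul]
    abel
  have hhn : ‖h‖ ≤ 2 * K * (z0 + δ) := by
    rw [hh]
    refine (norm_add_le _ _).trans ?_
    rw [norm_smul, hv, mul_one]
    nlinarith
  have hhr : ‖h‖ < r1 := by
    have e1 : z0 + δ < 2 * r := by linarith
    have e2 : 2 * K * (z0 + δ) < 2 * K * (2 * r) := by gcongr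
    have e3 : 2 * K * (2 * r) ≤ 2 * K * (2 * (r1 / (4 * K))) := by gcongr
    have e4 : 2 * K * (2 * (r1 / (4 * K))) = r1 := by field_simp; norm_num
    linarith
  have hT' := (abs_le.1 (hT h hhr)).2
  rw [hpt]
  have hws : ‖w‖ ≤ 2 * K * r := by
    refine hwn2.trans ?_
    have : z0 ^ 2 ≤ r := by nlinarith
    have : z0 ^ 2 + δ ≤ 2 * r := by linarith
    calc K * (z0 ^ 2 + δ) ≤ K * (2 * r) := by gcongr
      _ = _ := by ring
  set q : ℝ := z0 ^ 2 + δ with hq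
  have hq0 : 0 ≤ q := by positivity
  have hq2 : q ≤ 2 := by nlinarith
  -- the squared norm of `h`
  have hhsq : ‖h‖ ^ 2 ≤ 6 * K ^ 2 * q := by
    have e1 : ‖h‖ ≤ z0 + ‖w‖ := by
      rw [hh]
      refine (norm_add_le _ _).trans ?_
      rw [norm_smul, hv, mul_one]
    have e2 : ‖h‖ ^ 2 ≤ (z0 + ‖w‖) ^ 2 := by gcongr
    have e3 : (z0 + ‖w‖) ^ 2 ≤ 2 * z0 ^ 2 + 2 * ‖w‖ ^ 2 := by
      nlinarith only [sq_nonneg (z0 - ‖w‖)]
    have e4 : ‖w‖ ^ 2 ≤ (K * q) ^ 2 := by gcongr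
    have e5 : (K * q) ^ 2 ≤ 2 * K ^ 2 * q := by
      rw [mul_pow]
      have : q ^ 2 ≤ 2 * q := by nlinarith only [hq0, hq2]
      have hK2 : 0 ≤ K ^ 2 := by positivity
      nlinarith only [this, hK2]
    have e6 : z0 ^ 2 ≤ K ^ 2 * q := by
      have h1 : z0 ^ 2 ≤ q := by linarith
      have h2 : 1 ≤ K ^ 2 := by nlinarith only [hK1]
      nlinarith only [h1, h2, hq0]
    linarith
  -- derivative term
  have hlin : fderiv ℝ f p h = a * (-δ + (κ * ζ ^ 2).re) := by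
    rw [hd, hh, ip_add_left, ip_smul_left, hvν, mul_zero, zero_add, hw, ip_smul_left, ip_self, hν]
    simp
  have hsv : ‖ζ • v‖ = z0 := by rw [norm_smul, hv, mul_one]
  have hquad : H h h ≤ (1 / 2) * levi f p v * z0 ^ 2 + (α * ζ ^ 2).re +
      ‖H‖ * (2 * z0 * ‖w‖ + ‖w‖ ^ 2) := by
    have e1 : H h h = H (ζ • v) (ζ • v) + (H (ζ • v) w + H w (ζ • v) + H w w) := by
      rw [hh]
      simp only [map_add, _root_.add_apply]
      ring
    have e0 := bilin_complex_line H (fun x y => hsymm x y) v ζ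
    have e2 : H (ζ • v) w ≤ ‖H‖ * z0 * ‖w‖ := by
      calc _ ≤ ‖H (ζ • v) w‖ := Real.le_norm_self _
        _ ≤ ‖H‖ * ‖ζ • v‖ * ‖w‖ := H.le_opNorm₂ _ _
        _ = _ := by rw [hsv]
    have e3 : H w (ζ • v) ≤ ‖H‖ * z0 * ‖w‖ := by
      calc _ ≤ ‖H w (ζ • v)‖ := Real.le_norm_self _
        _ ≤ ‖H‖ * ‖w‖ * ‖ζ • v‖ := H.le_opNorm₂ _ _
        _ = _ := by rw [hsv]; ring
    have e4 : H w w ≤ ‖H‖ * ‖w‖ ^ 2 := by
      calc _ ≤ ‖H w w‖ := Real.le_norm_self _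
        _ ≤ ‖H‖ * ‖w‖ * ‖w‖ := H.le_opNorm₂ _ _
        _ = _ := by ring
    have e5 : levi f p v = H v v + H (Complex.I • v) (Complex.I • v) := rfl
    rw [e5, e1, e0, ← hz0]
    linarith
  have hrest : (1 / 2) * (‖H‖ * (2 * z0 * ‖w‖ + ‖w‖ ^ 2)) ≤ (η / 4) * q := by
    have e1 : 2 * z0 * ‖w‖ + ‖w‖ ^ 2 ≤ (4 * K * r) * ‖w‖ := by
      have h1 : 2 * z0 + ‖w‖ ≤ 4 * K * r := by nlinarith only [hws, hζr, hK1, hr0]
      have h2 := mul_le_mul_of_nonneg_right h1 (norm_nonneg w)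
      linarith
    have e2 : (4 * K * r) * ‖w‖ ≤ (4 * K * r) * (K * q) := by gcongr
    have e3 : ‖H‖ * ((4 * K * r) * (K * q)) ≤ (‖H‖ + 1) * ((4 * K * r) * (K * q)) := by
      have : 0 ≤ (4 * K * r) * (K * q) := by positivity
      linarith
    have e4 : (‖H‖ + 1) * ((4 * K * r) * (K * q)) ≤ (‖H‖ + 1) *
        ((4 * K * (η / (8 * (K ^ 2) * (‖H‖ + 1)))) * (K * q)) := by gcongr
    have e5 : (‖H‖ + 1) * ((4 * K * (η / (8 * (K ^ 2) * (‖H‖ + 1)))) * (K * q)) = (η / 2) * q := by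
      field_simp
      ring
    have e6 : ‖H‖ * (2 * z0 * ‖w‖ + ‖w‖ ^ 2) ≤ ‖H‖ * ((4 * K * r) * (K * q)) := by
      apply mul_le_mul_of_nonneg_left _ hH0
      linarith
    linarith
  have hκa : a * (κ * ζ ^ 2).re = -(1 / 2) * (α * ζ ^ 2).re := by
    have : κ * ζ ^ 2 = ((-(1 / (2 * a)) : ℝ) : ℂ) * (α * ζ ^ 2) := by
      rw [hκ]
      push_cast
      ring
    rw [this, Complex.re_ofReal_mul]
    field_simp
  have hTe : η / (8 * K ^ 2) * ‖h‖ ^ 2 ≤ (3 * η / 4) * q := by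
    calc η / (8 * K ^ 2) * ‖h‖ ^ 2 ≤ η / (8 * K ^ 2) * (6 * K ^ 2 * q) := by gcongr
      _ = (3 * η / 4) * q := by field_simp; ring
  rw [hp, hlin] at hT'
  rw [mul_add, hκa] at hT'
  have e7 : fderiv ℝ (fderiv ℝ f) p h h = H h h := rfl
  rw [e7] at hT'
  linarith

end Pool.Agent.Ball44
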