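import Mathlib
import Pool.Agent.Helper44_Ball.DetBound
import Pool.Agent.Helper44_Ball.Taylor

/-! Determinant estimate at a point where the Levi form is not positive. -/

set_option autoImplicit false
set_option maxSynthPendingDepth 3
open Set Metric Filter Topology MeasureTheory

namespace Pool.Agent.Ball44

variable {n : ℕ}

lemma two_le_of_orthonormal {ν v : E n} (hν : ‖ν‖ = 1) (hv : ‖v‖ = 1) (h : ip v ν = 0) :
    2 ≤ n := by
  have ho : Orthonormal ℂ ![ν, v] := by
    rw [orthonormal_iff_ite]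
    intro i j
    have h1 : inner ℂ ν v = 0 := h
    have h2 : inner ℂ v ν = 0 := by
      have := ip_conj v ν
      rw [h, map_zero] at this
      exact this.symm
    fin_cases i <;> fin_cases j <;>
      simp [h1, h2, inner_self_eq_norm_sq_to_K, hν, hv]
  have := ho.linearIndependent.fintype_card_le_finrank
  simpa using this

/-- Upper Taylor bound near a point. -/
lemma taylor_upper {f : E n → ℝ} {p : E n} (hf : ContDiffAt ℝ 2 f p) :
    ∃ M r : ℝ, 1 ≤ M ∧ 0 < r ∧ ∀ h : E n, ‖h‖ < r →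
      |f (p + h) - f p - fderiv ℝ f p h| ≤ M * ‖h‖ ^ 2 := by
  obtain ⟨r, hr, hT⟩ := taylor2 hf (η := 1) one_pos
  refine ⟨1 + ‖fderiv ℝ (fderiv ℝ f) p‖, r, by linarith [norm_nonneg (fderiv ℝ (fderiv ℝ f) p)],
    hr, fun h hh => ?_⟩
  have h1 := hT h hh
  have h2 : |fderiv ℝ (fderiv ℝ f) p h h| ≤ ‖fderiv ℝ (fderiv ℝ f) p‖ * ‖h‖ ^ 2 := by
    rw [← Real.norm_eq_abs]
    calc _ ≤ ‖fderiv ℝ (fderiv ℝ f) p‖ * ‖h‖ * ‖h‖ :=
        (fderiv ℝ (fderiv ℝ f) p).le_opNorm₂ _ _
      _ = _ := by ring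
  rw [abs_le] at h1 h2 ⊢
  constructor <;> nlinarith [h1.1, h1.2, h2.1, h2.2]

namespace Setup

variable {ρ : E n → ℝ} {φ ψ : E n → E n} (S : Setup n ρ φ ψ)

include S

theorem det_est_degenerate {p ν v : E n} {a : ℝ} (hp : ρ p = 0)
    (ha : 0 < a) (hν : ‖ν‖ = 1) (hv : ‖v‖ = 1) (hvν : ip v ν = 0)
    (hd : ∀ w, fderiv ℝ ρ p w = a * (ip w ν).re) (hlevi : levi ρ p v ≤ 0) :
    ∃ C : ℝ, 0 < C ∧ ∀ ε : ℝ, 0 < ε → ε ≤ 1 → ∃ δ0 > 0, ∀ δ : ℝ, 0 < δ → δ < δ0 →
      ρ (p - (δ : ℂ) • ν) < 0 ∧ -ρ (p - (δ : ℂ) • ν) ≤ C * δ ∧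
      ‖jac ψ (p - (δ : ℂ) • ν)‖ * (Real.sqrt δ) ^ (n + 1) ≤
        C * ε * (Real.sqrt (1 - ‖ψ (p - (δ : ℂ) • ν)‖)) ^ (n + 1) := by
  have hcd : ContDiffAt ℝ 2 ρ p := S.smooth.contDiffAt
  obtain ⟨M, r1, hM1, hr1, hT⟩ := taylor_upper hcd
  obtain ⟨κ, hκ⟩ := disc_family hcd hp ha hν hv hvν hd
  have hM0 : 0 < M := by linarith
  obtain ⟨m, rfl⟩ : ∃ m, n = m + 2 := ⟨n - 2, by have := two_le_of_orthonormal hν hv hvν; omega⟩
  -- the tangential radius constant
  obtain ⟨c, hc0, hc1, hcM⟩ : ∃ c : ℝ, 0 < c ∧ c ≤ 1 ∧ 16 * M * c ^ 2 ≤ a := by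
    refine ⟨min 1 (a / (16 * M)), by positivity, min_le_left _ _, ?_⟩
    have h1 : (min 1 (a / (16 * M))) ^ 2 ≤ a / (16 * M) := by
      have h2 : 0 < min 1 (a / (16 * M)) := by positivity
      have h3 : min 1 (a / (16 * M)) ≤ 1 := min_le_left _ _
      have h4 : min 1 (a / (16 * M)) ≤ a / (16 * M) := min_le_right _ _
      nlinarith
    calc 16 * M * (min 1 (a / (16 * M))) ^ 2 ≤ 16 * M * (a / (16 * M)) := by gcongr
      _ = a := by field_simp
  -- the orthonormal basis
  obtain ⟨b, hb⟩ := Orthonormal.exists_orthonormalBasis_extension_of_card_eq (𝕜 := ℂ)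
    (E := E (m + 2)) (ι := Fin (m + 2)) (by simp) (v := fun k => if k = 0 then ν else v)
    (s := {0, 1}) (by
      rw [orthonormal_iff_ite]
      have h1 : inner ℂ ν v = 0 := hvν
      have h2 : inner ℂ v ν = 0 := by
        have := ip_conj v ν
        rw [hvν, map_zero] at this
        exact this.symm
      rintro ⟨i, hi⟩ ⟨j, hj⟩
      rcases hi with rfl | hi
      · rcases hj with rfl | hj
        · simp [Set.domRestrict, inner_self_eq_norm_sq_to_K, hν]
        · rw [mem_singleton_iff] at hj; subst hj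
          simp [Set.domRestrict, h1]
      · rw [mem_singleton_iff] at hi; subst hi
        rcases hj with rfl | hj
        · simp [Set.domRestrict, h2]
        · rw [mem_singleton_iff] at hj; subst hj
          simp [Set.domRestrict, inner_self_eq_norm_sq_to_K, hv])
  have hb0 : b 0 = ν := by simpa using hb 0 (by simp)
  have hb1 : b 1 = v := by simpa using hb 1 (by simp)
  have hbn : ∀ k, k ≠ 0 → ip (b k) ν = 0 := by
    intro k hk
    rw [← hb0]
    exact b.orthonormal.2 hk.symm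
  have hbu : ∀ k, ‖b k‖ = 1 := fun k => b.orthonormal.1 k
  refine ⟨(m + 2).factorial * 20 ^ (m + 2) * (2 / c ^ m) + (a + M), by positivity, ?_⟩
  intro ε hε hε1
  obtain ⟨r2, hr2, hfam⟩ := hκ (a * ε ^ 2 / 4) (by positivity)
  -- the threshold
  set δ0 : ℝ := min (min 1 (a / (64 * M))) (min (r1 ^ 2 / 16) (min (ε ^ 2 * r2 ^ 2) r2)) with hδ0
  have hδ00 : 0 < δ0 := by rw [hδ0]; positivity
  refine ⟨δ0, hδ00, fun δ hδ hδlt => ?_⟩
  have hδ1 : δ < 1 := hδlt.trans_le ((min_le_left _ _).trans (min_le_left _ _))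
  have hδ2 : δ < a / (64 * M) := hδlt.trans_le ((min_le_left _ _).trans (min_le_right _ _))
  have hδ3 : δ < r1 ^ 2 / 16 := hδlt.trans_le ((min_le_right _ _).trans (min_le_left _ _))
  have hδ4 : δ < ε ^ 2 * r2 ^ 2 := hδlt.trans_le
    ((min_le_right _ _).trans ((min_le_right _ _).trans (min_le_left _ _)))
  have hδ5 : δ < r2 := hδlt.trans_le
    ((min_le_right _ _).trans ((min_le_right _ _).trans (min_le_right _ _)))
  rw [lt_div_iff₀ (by positivity)] at hδ2
  set s := Real.sqrt δ with hs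
  have hs0 : 0 < s := Real.sqrt_pos.2 hδ
  have hs2 : s ^ 2 = δ := Real.sq_sqrt hδ.le
  have hs1 : s < 1 := by nlinarith
  have hsr1 : s < r1 / 4 := by
    have : s ^ 2 < (r1 / 4) ^ 2 := by rw [hs2]; nlinarith
    exact lt_of_pow_lt_pow_left₀ 2 (by positivity) this
  have hδs : δ < s := by nlinarith
  have hsr2 : s < ε * r2 := by
    have : s ^ 2 < (ε * r2) ^ 2 := by rw [hs2, mul_pow]; exact hδ4
    exact lt_of_pow_lt_pow_left₀ 2 (by positivity) this
  set x : E (m + 2) := p - (δ : ℂ) • ν with hx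
  -- general bound for points `p + (-δ ν + ...)`
  have hgen : ∀ (t : ℂ) (w : E (m + 2)), ip w ν = 0 → ‖t‖ ≤ δ / 2 → ‖w‖ ≤ c * s →
      ρ (p + ((-(δ : ℂ) + t) • ν + w)) < 0 := by
    intro t w hw ht hwn
    have hnorm : ‖(-(δ : ℂ) + t) • ν + w‖ ≤ 3 / 2 * δ + c * s := by
      refine (norm_add_le _ _).trans ?_
      rw [norm_smul, hν, mul_one]
      have h1 : ‖-(δ : ℂ) + t‖ ≤ δ + δ / 2 := by
        refine (norm_add_le _ _).trans ?_
        rw [norm_neg, Complex.norm_real, Real.norm_eq_abs, abs_of_pos hδ]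
        linarith
      linarith
    have hcs : c * s ≤ s := by nlinarith
    have hlt : ‖(-(δ : ℂ) + t) • ν + w‖ < r1 := by linarith
    have h1 := (abs_le.1 (hT _ hlt)).2
    rw [hp, hd, ip_add_left, hw, add_zero, ip_smul_left, ip_self, hν] at h1
    have h2 : ((-(δ : ℂ) + t) * ((1 ^ 2 : ℝ) : ℂ)).re = -δ + t.re := by simp
    rw [h2] at h1
    have h3 : t.re ≤ δ / 2 := (Complex.re_le_norm t).trans ht
    have h4 : ‖(-(δ : ℂ) + t) • ν + w‖ ^ 2 ≤ 2 * (3 / 2 * δ) ^ 2 + 2 * (c * s) ^ 2 := by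
      have h5 : ‖(-(δ : ℂ) + t) • ν + w‖ ^ 2 ≤ (3 / 2 * δ + c * s) ^ 2 := by gcongr
      nlinarith only [h5, sq_nonneg (3 / 2 * δ - c * s)]
    have h6 : M * (2 * (3 / 2 * δ) ^ 2 + 2 * (c * s) ^ 2) ≤ (a / 4) * δ := by
      have e1 : M * (2 * (3 / 2 * δ) ^ 2 + 2 * (c * s) ^ 2) =
          (9 / 2) * (δ * M) * δ + 2 * (M * c ^ 2) * δ := by
        rw [mul_pow c s, hs2]; ring
      rw [e1]
      have e2 : (9 / 2) * (δ * M) * δ ≤ (a / 8) * δ := by
        apply mul_le_mul_of_nonneg_right _ hδ.le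
        linarith
      have e3 : 2 * (M * c ^ 2) * δ ≤ (a / 8) * δ := by
        apply mul_le_mul_of_nonneg_right _ hδ.le
        linarith
      linarith
    have h7 : M * ‖(-(δ : ℂ) + t) • ν + w‖ ^ 2 ≤ (a / 4) * δ :=
      (mul_le_mul_of_nonneg_left h4 hM0.le).trans h6
    have h8 : a * (-δ + t.re) ≤ -(a / 2) * δ := by
      have := mul_le_mul_of_nonneg_left h3 ha.le
      linarith
    have h9 : 0 < a * δ := by positivity
    linarith
  have hxeq : x = p + ((-(δ : ℂ) + 0) • ν + 0) := by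
    rw [hx, add_zero, add_zero, neg_smul, sub_eq_add_neg]
  have hxneg : ρ x < 0 := by
    rw [hxeq]
    exact hgen 0 0 (ip_zero_left _) (by rw [norm_zero]; positivity) (by rw [norm_zero]; positivity)
  have hxlow : -ρ x ≤ (a + M) * δ := by
    have hlt : ‖(-(δ : ℂ)) • ν‖ < r1 := by
      rw [norm_smul, hν, norm_neg, Complex.norm_real, Real.norm_eq_abs, abs_of_pos hδ, mul_one]
      linarith
    have h1 := (abs_le.1 (hT _ hlt)).1
    have h2 : p + (-(δ : ℂ)) • ν = x := by rw [hx, neg_smul, sub_eq_add_neg]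
    rw [h2, hp, hd, ip_smul_left, ip_self, hν, norm_smul, hν, norm_neg, Complex.norm_real,
      Real.norm_eq_abs, abs_of_pos hδ] at h1
    have h3 : (-(δ : ℂ) * ((1 ^ 2 : ℝ) : ℂ)).re = -δ := by simp
    rw [h3, mul_one] at h1
    have h4 : M * δ ^ 2 ≤ M * δ := by
      have : δ ^ 2 ≤ δ := by nlinarith
      gcongr
    linarith
  refine ⟨hxneg, ?_, ?_⟩
  · refine hxlow.trans ?_
    apply mul_le_mul_of_nonneg_right _ hδ.le
    have : (0 : ℝ) ≤ (m + 2).factorial * 20 ^ (m + 2) * (2 / c ^ m) := by positivity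
    linarith
  set r : Fin (m + 2) → ℝ := fun k => if k = 0 then δ / 2 else if k = 1 then s / ε else c * s
    with hr
  have hr0 : ∀ k, 0 < r k := by
    intro k
    simp only [hr]
    split_ifs <;> positivity
  have hmain := S.det_est hxneg b r hr0 (by
    intro k
    by_cases hk0 : k = 0
    · -- the normal direction
      subst hk0
      refine ⟨fun ζ => x + ζ • b 0, ?_, by simp, ?_, ?_⟩
      · exact ((differentiable_id.smul_const _).const_add _).differentiableOn
      · have : HasDerivAt (fun ζ : ℂ => x + ζ • b 0) ((1 : ℂ) • b 0) 0 :=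
          ((hasDerivAt_id (0 : ℂ)).smul_const (b 0)).const_add x
        rw [this.deriv, one_smul]
      · intro ζ hζ
        rw [mem_ball_zero_iff] at hζ
        have hζ2 : ‖ζ‖ < δ / 2 := by simpa [hr] using hζ
        have := hgen ζ 0 (ip_zero_left _) hζ2.le (by rw [norm_zero]; positivity)
        have e : p + ((-(δ : ℂ) + ζ) • ν + 0) = x + ζ • b 0 := by
          rw [hx, hb0, add_smul, neg_smul, add_zero]; abel
        rwa [e] at this
    · by_cases hk1 : k = 1
      · -- the degenerate direction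
        subst hk1
        refine ⟨fun ζ => p - (δ : ℂ) • ν + ζ • v + (κ * ζ ^ 2) • ν, ?_, ?_, ?_, ?_⟩
        · apply Differentiable.differentiableOn
          fun_prop
        · simp [hx]
        · have h1 : HasDerivAt (fun ζ : ℂ => p - (δ : ℂ) • ν + ζ • v) ((1 : ℂ) • v) 0 :=
            ((hasDerivAt_id (0 : ℂ)).smul_const v).const_add _
          have h2 : HasDerivAt (fun ζ : ℂ => (κ * ζ ^ 2)) (κ * ((2 : ℕ) * 0 ^ (2 - 1) * 1)) 0 :=
            ((hasDerivAt_id (0 : ℂ)).pow 2).const_mul κ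
          have h3 : HasDerivAt (fun ζ : ℂ => p - (δ : ℂ) • ν + ζ • v + (κ * ζ ^ 2) • ν)
              ((1 : ℂ) • v + (κ * ((2 : ℕ) * 0 ^ (2 - 1) * 1)) • ν) 0 :=
            h1.add (h2.smul_const ν)
          rw [h3.deriv, hb1]
          simp
        · intro ζ hζ
          rw [mem_ball_zero_iff] at hζ
          have hζ2 : ‖ζ‖ < s / ε := by simpa [hr] using hζ
          have hζ3 : ‖ζ‖ < r2 := by
            refine hζ2.trans ?_
            rw [div_lt_iff₀ hε]
            linarith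
          have h1 := hfam δ ζ hδ.le hδ5 hζ3
          show ρ (p - (δ : ℂ) • ν + ζ • v + (κ * ζ ^ 2) • ν) < 0
          have h2 : (1 / 4) * levi ρ p v * ‖ζ‖ ^ 2 ≤ 0 := by
            have : 0 ≤ ‖ζ‖ ^ 2 := by positivity
            nlinarith
          rw [lt_div_iff₀ hε] at hζ2
          have h3 : (‖ζ‖ * ε) ^ 2 ≤ δ := by
            rw [← hs2]
            gcongr
          have h4 : a * ε ^ 2 / 4 * (‖ζ‖ ^ 2 + δ) ≤ (a / 2) * δ := by
            have e1 : a * ε ^ 2 / 4 * (‖ζ‖ ^ 2 + δ) = (a / 4) * (‖ζ‖ * ε) ^ 2 +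
              (a / 4) * (ε ^ 2 * δ) := by ring
            have e2 : ε ^ 2 * δ ≤ δ := by
              have : ε ^ 2 ≤ 1 := by nlinarith
              nlinarith
            rw [e1]
            have e3 := mul_le_mul_of_nonneg_left h3 (by positivity : 0 ≤ a / 4)
            have e4 := mul_le_mul_of_nonneg_left e2 (by positivity : 0 ≤ a / 4)
            linarith
          have h5 : 0 < a * δ := by positivity
          linarith
      · -- other tangential directions
        refine ⟨fun ζ => x + ζ • b k, ?_, by simp, ?_, ?_⟩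
        · exact ((differentiable_id.smul_const _).const_add _).differentiableOn
        · have : HasDerivAt (fun ζ : ℂ => x + ζ • b k) ((1 : ℂ) • b k) 0 :=
            ((hasDerivAt_id (0 : ℂ)).smul_const (b k)).const_add x
          rw [this.deriv, one_smul]
        · intro ζ hζ
          rw [mem_ball_zero_iff] at hζ
          have hζ2 : ‖ζ‖ < c * s := by simpa [hr, hk0, hk1] using hζ
          have := hgen 0 (ζ • b k) (by rw [ip_smul_left, hbn k hk0, mul_zero])
            (by rw [norm_zero]; positivity) (by rw [norm_smul, hbu, mul_one]; exact hζ2.le)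
          have e : p + ((-(δ : ℂ) + 0) • ν + ζ • b k) = x + ζ • b k := by
            rw [hx, add_zero, neg_smul]; abel
          rwa [e] at this)
  rw [Fin.prod_univ_succ, Fin.prod_univ_succ] at hmain
  have hprod : (∏ i : Fin m, r i.succ.succ) = (c * s) ^ m := by
    rw [Finset.prod_congr rfl (g := fun _ => c * s), Finset.prod_const,
      Finset.card_univ, Fintype.card_fin]
    intro i _
    have h1 : (i.succ.succ : Fin (m + 2)) ≠ 0 := Fin.succ_ne_zero _
    have h2 : (i.succ.succ : Fin (m + 2)) ≠ 1 := by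
      intro h
      have := congrArg Fin.val h
      simp at this
    simp [hr, h1, h2]
  have hr00 : r 0 = δ / 2 := by simp [hr]
  have hr01 : r (Fin.succ 0) = s / ε := by simp [hr]
  rw [hprod, hr00, hr01, mul_pow c s] at hmain
  set J := ‖jac ψ x‖ with hJ
  set G := Real.sqrt (1 - ‖ψ x‖) with hG
  have h4 : J * s ^ (m + 2 + 1) = (J * (δ / 2 * (s / ε * (c ^ m * s ^ m)))) * (2 / c ^ m) * ε := by
    rw [← hs2, show m + 2 + 1 = m + 3 from rfl, pow_add]
    field_simp
  rw [h4]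
  have h5 : (J * (δ / 2 * (s / ε * (c ^ m * s ^ m)))) * (2 / c ^ m) * ε ≤
      ((m + 2).factorial * 20 ^ (m + 2) * G ^ (m + 2 + 1)) * (2 / c ^ m) * ε := by
    gcongr
  refine h5.trans ?_
  have h6 : 0 ≤ (a + M) * ε * G ^ (m + 2 + 1) := by positivity
  nlinarith

end Setup

end Pool.Agent.Ball44
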