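import Mathlib
import Pool.Agent.Helper44_Ball.Degenerate

/-! Levi pseudoconvexity of the domain. -/

set_option autoImplicit false
set_option maxSynthPendingDepth 3
open Set Metric Filter Topology MeasureTheory

namespace Pool.Agent.Ball44

variable {n : ℕ}

lemma levi_smul (f : E n → ℝ) (p v : E n) (c : ℝ) : levi f p (c • v) = c ^ 2 * levi f p v := by
  unfold levi
  rw [smul_comm Complex.I c v]
  simp only [map_smul, _root_.smul_apply, smul_eq_mul]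
  ring

namespace Setup

variable {ρ : E n → ℝ} {φ ψ : E n → E n} (S : Setup n ρ φ ψ)

include S

theorem levi_nonneg_unit {f : E n → ℝ} {p ν v : E n} {a : ℝ} (hf : ContDiffAt ℝ 2 f p)
    (hfp : f p = 0) (ha : 0 < a) (hν : ‖ν‖ = 1) (hv : ‖v‖ = 1) (hvν : ip v ν = 0)
    (hd : ∀ w, fderiv ℝ f p w = a * (ip w ν).re) (hloc : ∀ᶠ x in 𝓝 p, f x < 0 → ρ x < 0)
    (hp : 0 ≤ ρ p) : 0 ≤ levi f p v := by
  by_contra hneg
  push Not at hneg
  obtain ⟨lam, hlam⟩ : ∃ lam : ℝ, lam = -levi f p v := ⟨_, rfl⟩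
  have hlam0 : 0 < lam := by linarith
  obtain ⟨κ, hκ⟩ := disc_family hf hfp ha hν hv hvν hd
  obtain ⟨r1, hr1, hfam⟩ := hκ (min (a / 2) (lam / 8)) (by positivity)
  obtain ⟨r2, hr2, hloc'⟩ := Metric.eventually_nhds_iff.1 hloc
  obtain ⟨r, hr0, hrr1, hr1', hrr2⟩ : ∃ r : ℝ, 0 < r ∧ r < r1 ∧ r ≤ 1 ∧ (2 + ‖κ‖) * r < r2 := by
    refine ⟨min (min (r1 / 2) 1) (r2 / (2 * (2 + ‖κ‖))), by positivity, ?_, ?_, ?_⟩
    · exact lt_of_le_of_lt ((min_le_left _ _).trans (min_le_left _ _)) (by linarith)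
    · exact (min_le_left _ _).trans (min_le_right _ _)
    · calc (2 + ‖κ‖) * min (min (r1 / 2) 1) (r2 / (2 * (2 + ‖κ‖)))
          ≤ (2 + ‖κ‖) * (r2 / (2 * (2 + ‖κ‖))) := by
            apply mul_le_mul_of_nonneg_left (min_le_right _ _) (by positivity)
        _ = r2 / 2 := by field_simp
        _ < r2 := by linarith
  set Δ : ℝ → ℂ → E n := fun δ ζ => p - (δ : ℂ) • ν + ζ • v + (κ * ζ ^ 2) • ν with hΔdef
  have hΔ : ∀ δ ζ, 0 ≤ δ → δ ≤ r → ‖ζ‖ ≤ r → (0 < δ ∨ ζ ≠ 0) → ρ (Δ δ ζ) < 0 := by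
    intro δ ζ hδ0 hδr hζ hne
    apply hloc'
    · rw [dist_eq_norm]
      have h1 : Δ δ ζ - p = -((δ : ℂ) • ν) + ζ • v + (κ * ζ ^ 2) • ν := by
        simp only [hΔdef]; abel
      rw [h1]
      calc ‖-((δ : ℂ) • ν) + ζ • v + (κ * ζ ^ 2) • ν‖
          ≤ ‖-((δ : ℂ) • ν)‖ + ‖ζ • v‖ + ‖(κ * ζ ^ 2) • ν‖ := norm_add₃_le
        _ = δ + ‖ζ‖ + ‖κ‖ * ‖ζ‖ ^ 2 := by
          rw [norm_neg, norm_smul, norm_smul, norm_smul, hν, hv, Complex.norm_real,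
            Real.norm_eq_abs, abs_of_nonneg hδ0, norm_mul, norm_pow, mul_one, mul_one, mul_one]
        _ ≤ r + r + ‖κ‖ * r := by
          have h2 : ‖ζ‖ ^ 2 ≤ r := by nlinarith [norm_nonneg ζ]
          gcongr
        _ = (2 + ‖κ‖) * r := by ring
        _ < r2 := hrr2
    · have h1 := hfam δ ζ hδ0 (by linarith) (by linarith)
      have h2 : min (a / 2) (lam / 8) * (‖ζ‖ ^ 2 + δ) ≤ (lam / 8) * ‖ζ‖ ^ 2 + (a / 2) * δ := by
        have h3 := min_le_left (a / 2) (lam / 8)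
        have h4 := min_le_right (a / 2) (lam / 8)
        have h5 : 0 ≤ ‖ζ‖ ^ 2 := by positivity
        nlinarith
      have h6 : levi f p v = -lam := by linarith
      rw [h6] at h1
      have h7 : 0 < lam * ‖ζ‖ ^ 2 + a * δ := by
        rcases hne with h | h
        · positivity
        · have := norm_pos_iff.2 h
          positivity
      simp only [hΔdef]
      nlinarith
  have hΔc : Continuous (fun x : ℝ × ℂ => Δ x.1 x.2) := by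
    simp only [hΔdef]
    fun_prop
  -- compact set
  have hK1 : IsCompact ((fun x : ℝ × ℂ => Δ x.1 x.2) '' (Icc (0 : ℝ) r ×ˢ sphere (0 : ℂ) r)) :=
    (isCompact_Icc.prod (isCompact_sphere _ _)).image hΔc
  have hsub : ∀ x ∈ ((fun x : ℝ × ℂ => Δ x.1 x.2) '' (Icc (0 : ℝ) r ×ˢ sphere (0 : ℂ) r)),
      ρ x < 0 := by
    rintro _ ⟨⟨δ, ζ⟩, ⟨hδ, hζ⟩, rfl⟩
    have hζ' : ‖ζ‖ = r := mem_sphere_zero_iff_norm.1 hζ
    refine hΔ δ ζ hδ.1 hδ.2 hζ'.le (Or.inr ?_)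
    intro h0
    rw [h0, norm_zero] at hζ'
    linarith
  have hne1 : ((fun x : ℝ × ℂ => Δ x.1 x.2) '' (Icc (0 : ℝ) r ×ˢ sphere (0 : ℂ) r)).Nonempty := by
    refine ⟨_, ⟨(0, (r : ℂ)), ⟨⟨le_rfl, hr0.le⟩, ?_⟩, rfl⟩⟩
    rw [mem_sphere_zero_iff_norm, Complex.norm_real, Real.norm_eq_abs, abs_of_pos hr0]
  have hψc : ContinuousOn (fun x => ‖ψ x‖)
      ((fun x : ℝ × ℂ => Δ x.1 x.2) '' (Icc (0 : ℝ) r ×ˢ sphere (0 : ℂ) r)) :=
    (S.hψ.continuousOn.mono hsub).norm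
  obtain ⟨x₀, hx₀, hmax⟩ := hK1.exists_isMaxOn hne1 hψc
  have hc1 : ‖ψ x₀‖ < 1 := S.norm_ψ_lt (hsub x₀ hx₀)
  have hbd : ∀ δ : ℝ, 0 < δ → δ ≤ r → ‖ψ (Δ δ 0)‖ ≤ ‖ψ x₀‖ := by
    intro δ hδ0 hδr
    refine Complex.norm_le_of_forall_mem_frontier_norm_le (U := ball (0 : ℂ) r)
      (f := fun ζ => ψ (Δ δ ζ)) isBounded_ball ?_ ?_ (subset_closure (mem_ball_self hr0))
    · refine DifferentiableOn.diffContOnCl fun ζ hζ => ?_
      rw [closure_ball _ hr0.ne', mem_closedBall_zero_iff] at hζ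
      have h1 := S.ψ_diffAt (hΔ δ ζ hδ0.le hδr hζ (Or.inl hδ0))
      have h2 : DifferentiableAt ℂ (fun ζ => Δ δ ζ) ζ := by
        simp only [hΔdef]
        fun_prop
      exact (DifferentiableAt.comp (g := ψ) ζ h1 h2).differentiableWithinAt
    · intro ζ hζ
      rw [frontier_ball _ hr0.ne'] at hζ
      exact hmax ⟨(δ, ζ), ⟨⟨hδ0.le, hδr⟩, hζ⟩, rfl⟩
  have hsub2 : closedBall (0 : E n) ‖ψ x₀‖ ⊆ ball (0 : E n) 1 := by
    intro x hx
    rw [mem_closedBall_zero_iff] at hx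
    rw [mem_ball_zero_iff]
    linarith
  have hK2 : IsCompact (φ '' closedBall (0 : E n) ‖ψ x₀‖) :=
    (isCompact_closedBall _ _).image_of_continuousOn (S.hφ.continuousOn.mono hsub2)
  have hmem : ∀ δ : ℝ, 0 < δ → δ ≤ r → Δ δ 0 ∈ φ '' closedBall (0 : E n) ‖ψ x₀‖ := by
    intro δ hδ0 hδr
    refine ⟨ψ (Δ δ 0), mem_closedBall_zero_iff.2 (hbd δ hδ0 hδr), ?_⟩
    exact S.right _ (hΔ δ 0 hδ0.le hδr (by rw [norm_zero]; exact hr0.le) (Or.inl hδ0))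
  have hlim : Tendsto (fun δ : ℝ => Δ δ 0) (𝓝[>] 0) (𝓝 p) := by
    have h1 : Continuous (fun δ : ℝ => Δ δ 0) := by
      simp only [hΔdef]; fun_prop
    have h2 := h1.tendsto 0
    have h3 : Δ 0 0 = p := by simp [hΔdef]
    rw [h3] at h2
    exact h2.mono_left nhdsWithin_le_nhds
  have hpm : p ∈ φ '' closedBall (0 : E n) ‖ψ x₀‖ := by
    refine hK2.isClosed.mem_of_tendsto hlim ?_
    filter_upwards [Ioc_mem_nhdsGT hr0] with δ hδ
    exact hmem δ hδ.1 hδ.2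
  obtain ⟨y, hy, hyp⟩ := hpm
  have := S.ρφ_neg (hsub2 hy)
  rw [hyp] at this
  linarith

/-- Pseudoconvexity: any local defining function has nonnegative Levi form. -/
theorem levi_nonneg {f : E n → ℝ} {p v : E n} (hf : ContDiffAt ℝ 2 f p)
    (hfp : f p = 0) (hdf : fderiv ℝ f p ≠ 0) (hloc : ∀ᶠ x in 𝓝 p, f x < 0 → ρ x < 0)
    (hp : 0 ≤ ρ p) (hv1 : fderiv ℝ f p v = 0) (hv2 : fderiv ℝ f p (Complex.I • v) = 0) :
    0 ≤ levi f p v := by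
  obtain ⟨ν, hν, hνd⟩ := exists_normal S.hn (fderiv ℝ f p)
  have ha : 0 < ‖fderiv ℝ f p‖ := norm_pos_iff.2 hdf
  by_cases hv0 : v = 0
  · rw [hv0]; simp [levi]
  have hvn : 0 < ‖v‖ := norm_pos_iff.2 hv0
  have hvν : ip v ν = 0 := by
    rw [hνd] at hv1 hv2
    rw [ip_smul_left] at hv2
    have h1 := (mul_eq_zero.1 hv1).resolve_left ha.ne'
    have h2 := (mul_eq_zero.1 hv2).resolve_left ha.ne'
    simp at h2
    exact Complex.ext h1 h2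
  have h1 : v = ‖v‖ • (‖v‖⁻¹ • v) := by
    rw [smul_smul, mul_inv_cancel₀ hvn.ne', one_smul]
  rw [h1, levi_smul]
  refine mul_nonneg (by positivity) ?_
  refine S.levi_nonneg_unit hf hfp ha hν ?_ ?_ hνd hloc hp
  · rw [norm_smul, norm_inv, norm_norm, inv_mul_cancel₀ hvn.ne']
  · have h2 : (‖v‖⁻¹ • v : E n) = ((‖v‖⁻¹ : ℝ) : ℂ) • v := by
      rw [Complex.coe_smul]
    rw [h2, ip_smul_left, hvν, mul_zero]

end Setup

end Pool.Agent.Ball44
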