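import Mathlib
import Pool.Agent.Helper44_Ball.Levi
import Pool.Agent.Helper44_Ball.KernelInt

/-! A local defining function invariant under translations in the normal direction. -/

set_option autoImplicit false
set_option maxSynthPendingDepth 3
open Set Metric Filter Topology MeasureTheory

namespace Pool.Agent.Ball44

variable {n : ℕ}

/-- Graph function by the inverse function theorem. -/
lemma exists_graph {F : Type*} [NormedAddCommGroup F] [NormedSpace ℝ F] [CompleteSpace F]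
    {f : F → ℝ} (hf : ContDiff ℝ 2 f) {p₀ e : F} {L : F →L[ℝ] ℝ} {a : ℝ} (hp : f p₀ = 0)
    (ha : a ≠ 0) (hL : L e = 1) (hd : fderiv ℝ f p₀ = a • L) :
    ∃ T : F → ℝ, (∀ x (σ : ℝ), T (x + σ • e) = T x - σ) ∧ T p₀ = 0 ∧ ContDiffAt ℝ 2 T p₀ ∧
      ∀ᶠ x in 𝓝 p₀, f (x + T x • e) = 0 := by
  set Φ : F → F := fun x => x - L x • e + f x • e with hΦ
  have hΦc : ContDiff ℝ 2 Φ := by
    simp only [hΦ]
    exact (contDiff_id.sub (L.contDiff.smul contDiff_const)).add (hf.smul contDiff_const)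
  set A : F →L[ℝ] F := ContinuousLinearMap.id ℝ F + (a - 1) • L.smulRight e with hA
  set B : F →L[ℝ] F := ContinuousLinearMap.id ℝ F + (a⁻¹ - 1) • L.smulRight e with hB
  have hAB : ∀ x, A (B x) = x := by
    intro x
    have h1 : A (B x) = (x + (a⁻¹ - 1) • L x • e) +
        (a - 1) • (L (x + (a⁻¹ - 1) • L x • e)) • e := rfl
    have h2 : L (x + (a⁻¹ - 1) • L x • e) = a⁻¹ * L x := by
      rw [map_add, map_smul, map_smul, hL, smul_eq_mul, smul_eq_mul]; ring
    rw [h1, h2]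
    have h3 : (x + (a⁻¹ - 1) • L x • e) + (a - 1) • (a⁻¹ * L x) • e =
        x + (((a⁻¹ - 1) + (a - 1) * a⁻¹) * L x) • e := by module
    have h4 : (a⁻¹ - 1) + (a - 1) * a⁻¹ = 0 := by field_simp; ring
    rw [h3, h4, zero_mul, zero_smul, add_zero]
  have hBA : ∀ x, B (A x) = x := by
    intro x
    have h1 : B (A x) = (x + (a - 1) • L x • e) +
        (a⁻¹ - 1) • (L (x + (a - 1) • L x • e)) • e := rfl
    have h2 : L (x + (a - 1) • L x • e) = a * L x := by
      rw [map_add, map_smul, map_smul, hL, smul_eq_mul, smul_eq_mul]; ring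
    rw [h1, h2]
    have h3 : (x + (a - 1) • L x • e) + (a⁻¹ - 1) • (a * L x) • e =
        x + (((a - 1) + (a⁻¹ - 1) * a) * L x) • e := by module
    have h4 : (a - 1) + (a⁻¹ - 1) * a = 0 := by field_simp; ring
    rw [h3, h4, zero_mul, zero_smul, add_zero]
  set Φ' : F ≃L[ℝ] F := ContinuousLinearEquiv.equivOfInverse A B hBA hAB with hΦ'
  have hder : HasFDerivAt Φ (Φ' : F →L[ℝ] F) p₀ := by
    have h1 : HasFDerivAt f (a • L) p₀ := by
      rw [← hd]
      exact (hf.differentiable (by norm_num) p₀).hasFDerivAt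
    have h2 : HasFDerivAt Φ (ContinuousLinearMap.id ℝ F - L.smulRight e + (a • L).smulRight e) p₀ :=
      ((hasFDerivAt_id p₀).sub (L.hasFDerivAt.smul_const e)).add (h1.smul_const e)
    have h3 : (Φ' : F →L[ℝ] F) =
        ContinuousLinearMap.id ℝ F - L.smulRight e + (a • L).smulRight e := by
      ext x
      simp only [hΦ', ContinuousLinearEquiv.coe_coe, ContinuousLinearEquiv.equivOfInverse_apply, hA,
        _root_.add_apply, _root_.sub_apply, _root_.smul_apply, ContinuousLinearMap.id_apply,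
        ContinuousLinearMap.smulRight_apply, smul_eq_mul]
      rw [sub_smul, one_smul, smul_smul]
      abel
    rw [h3]; exact h2
  have h2 : (2 : WithTop ℕ∞) ≠ 0 := by norm_num
  have hca : ContDiffAt ℝ 2 Φ p₀ := hΦc.contDiffAt
  set Ψ := hca.localInverse hder h2 with hΨ
  have hΨc : ContDiffAt ℝ 2 Ψ (Φ p₀) := hca.to_localInverse hder h2
  have hΨ0 : Ψ (Φ p₀) = p₀ := hca.localInverse_apply_image hder h2
  have hΨr : ∀ᶠ y in 𝓝 (Φ p₀), Φ (Ψ y) = y :=
    (hca.hasStrictFDerivAt' hder h2).eventually_right_inverse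
  have hπ0 : Φ p₀ = p₀ - L p₀ • e := by
    simp [hΦ, hp]
  have hπc : ContDiff ℝ 2 (fun x : F => x - L x • e) :=
    contDiff_id.sub (L.contDiff.smul contDiff_const)
  refine ⟨fun x => L (Ψ (x - L x • e)) - L x, ?_, ?_, ?_, ?_⟩
  · intro x σ
    have h3 : x + σ • e - L (x + σ • e) • e = x - L x • e := by
      rw [map_add, map_smul, hL, smul_eq_mul, mul_one, add_smul]
      abel
    simp only [h3]
    rw [map_add, map_smul, hL, smul_eq_mul, mul_one]
    ring
  · simp only []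
    rw [← hπ0, hΨ0, sub_self]
  · refine ContDiffAt.sub ?_ L.contDiff.contDiffAt
    have h3 : ContDiffAt ℝ 2 (fun x => Ψ (x - L x • e)) p₀ := by
      refine ContDiffAt.comp p₀ ?_ hπc.contDiffAt
      rw [← hπ0]; exact hΨc
    exact L.contDiff.contDiffAt.comp p₀ h3
  · have h3 : Tendsto (fun x : F => x - L x • e) (𝓝 p₀) (𝓝 (Φ p₀)) := by
      rw [hπ0]; exact hπc.continuous.tendsto p₀
    filter_upwards [h3.eventually hΨr] with x hx
    set y := Ψ (x - L x • e) with hy
    have h4 : y - L y • e + f y • e = x - L x • e := hx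
    have h5 : f y = 0 := by
      have h6 := congrArg L h4
      simp only [map_add, map_sub, map_smul, hL, smul_eq_mul, mul_one] at h6
      linarith
    rw [h5, zero_smul, add_zero] at h4
    have h7 : x + (L y - L x) • e = y := by
      rw [sub_smul, ← add_sub_assoc, add_sub_right_comm, ← h4]
      abel
    rw [h7]; exact h5

/-- Off-tangential estimate for the Levi form. -/
lemma levi_le_of_tangential (hn : 0 < n) {T : E n → ℝ} {x e : E n} {M : ℝ}
    (hH : ‖fderiv ℝ (fderiv ℝ T) x‖ ≤ M) (he : ‖e‖ = 1) (hDe : fderiv ℝ T x e = -1)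
    (htan : ∀ τ, fderiv ℝ T x τ = 0 → fderiv ℝ T x (Complex.I • τ) = 0 → levi T x τ ≤ 0)
    (v : E n) : levi T x v ≤ 6 * M * ‖v‖ *
      Real.sqrt ((fderiv ℝ T x v) ^ 2 + (fderiv ℝ T x (Complex.I • v)) ^ 2) := by
  obtain ⟨ν, hν, hνd⟩ := exists_normal hn (fderiv ℝ T x)
  set ℓ := fderiv ℝ T x with hℓ
  set H := fderiv ℝ (fderiv ℝ T) x with hHdef
  have hM : 0 ≤ M := (norm_nonneg _).trans hH
  have hℓ1 : 1 ≤ ‖ℓ‖ := by
    have h1 := ℓ.le_opNorm e
    rw [hDe, he, mul_one, norm_neg, norm_one] at h1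
    exact h1
  set α : ℂ := ip v ν with hα
  set τ : E n := v - α • ν with hτ
  have hτν : ip τ ν = 0 := by
    rw [hτ, ip_sub_left, ip_smul_left, ip_self, hν, hα]
    simp
  have h1 : ℓ τ = 0 := by rw [hνd, hτν]; simp
  have h2 : ℓ (Complex.I • τ) = 0 := by rw [hνd, ip_smul_left, hτν]; simp
  have h3 := htan τ h1 h2
  have hαv : ‖α‖ ≤ ‖v‖ := by
    have := norm_ip_le v ν
    rwa [hν, mul_one] at this
  have hτv : ‖τ‖ ≤ ‖v‖ := by
    have h4 := norm_sub_proj_sq v ν hν
    have h5 : ‖τ‖ ^ 2 ≤ ‖v‖ ^ 2 := by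
      rw [hτ, hα, h4]
      nlinarith [sq_nonneg ‖ip v ν‖]
    exact le_of_sq_le_sq h5 (norm_nonneg v)
  have hϑ : ‖α‖ ≤ Real.sqrt ((ℓ v) ^ 2 + (ℓ (Complex.I • v)) ^ 2) := by
    apply Real.le_sqrt_of_sq_le
    rw [hνd v, hνd (Complex.I • v), ip_smul_left, ← hα]
    have e1 : (Complex.I * α).re = -α.im := by simp
    rw [e1, ← Complex.normSq_eq_norm_sq, Complex.normSq_apply]
    have e2 : (‖ℓ‖ * α.re) ^ 2 + (‖ℓ‖ * -α.im) ^ 2 = ‖ℓ‖ ^ 2 * (α.re * α.re + α.im * α.im) := by
      ring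
    rw [e2]
    have e3 : 1 ≤ ‖ℓ‖ ^ 2 := by nlinarith
    have e4 : 0 ≤ α.re * α.re + α.im * α.im := by nlinarith [sq_nonneg α.re, sq_nonneg α.im]
    nlinarith
  have hHb : ∀ u w : E n, H u w ≤ M * ‖u‖ * ‖w‖ := by
    intro u w
    calc H u w ≤ ‖H u w‖ := Real.le_norm_self _
      _ ≤ ‖H u‖ * ‖w‖ := (H u).le_opNorm w
      _ ≤ (‖H‖ * ‖u‖) * ‖w‖ := by
        have := H.le_opNorm u
        gcongr
      _ ≤ _ := by gcongr
  have hv : v = τ + α • ν := by rw [hτ]; abel
  have hIv : Complex.I • v = Complex.I • τ + (Complex.I * α) • ν := by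
    conv_lhs => rw [hv]
    rw [smul_add, smul_smul]
  have hn1 : ‖α • ν‖ = ‖α‖ := by rw [norm_smul, hν, mul_one]
  have hn2 : ‖(Complex.I * α) • ν‖ = ‖α‖ := by
    rw [norm_smul, hν, mul_one, norm_mul, Complex.norm_I, one_mul]
  have hn3 : ‖Complex.I • τ‖ = ‖τ‖ := by rw [norm_smul, Complex.norm_I, one_mul]
  have hexp : levi T x v = levi T x τ + (H τ (α • ν) + H (α • ν) τ + H (α • ν) (α • ν)) +
      (H (Complex.I • τ) ((Complex.I * α) • ν) + H ((Complex.I * α) • ν) (Complex.I • τ) +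
        H ((Complex.I * α) • ν) ((Complex.I * α) • ν)) := by
    have e1 : levi T x v = H v v + H (Complex.I • v) (Complex.I • v) := rfl
    have e2 : levi T x τ = H τ τ + H (Complex.I • τ) (Complex.I • τ) := rfl
    have e3 : H v v = H τ τ + (H τ (α • ν) + H (α • ν) τ + H (α • ν) (α • ν)) := by
      conv_lhs => rw [hv]
      simp only [map_add, _root_.add_apply]
      ring
    rw [e1, e2, hIv, e3]
    simp only [map_add, _root_.add_apply]
    ring
  have b1 := hHb τ (α • ν)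
  have b2 := hHb (α • ν) τ
  have b3 := hHb (α • ν) (α • ν)
  have b4 := hHb (Complex.I • τ) ((Complex.I * α) • ν)
  have b5 := hHb ((Complex.I * α) • ν) (Complex.I • τ)
  have b6 := hHb ((Complex.I * α) • ν) ((Complex.I * α) • ν)
  rw [hn1] at b1 b2 b3
  rw [hn2, hn3] at b4 b5
  rw [hn2] at b6
  have c1 : M * ‖τ‖ * ‖α‖ ≤ M * ‖v‖ * ‖α‖ := by gcongr
  have c2 : M * ‖α‖ * ‖α‖ ≤ M * ‖v‖ * ‖α‖ := by gcongr
  calc levi T x v ≤ 6 * M * ‖v‖ * ‖α‖ := by rw [hexp]; nlinarith
    _ ≤ _ := by gcongr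

namespace Setup

variable {ρ : E n → ℝ} {φ ψ : E n → E n} (S : Setup n ρ φ ψ)

include S

theorem exists_T {p₀ : E n} (hp₀ : ρ p₀ = 0) : ∃ (T : E n → ℝ) (δ c M : ℝ), 0 < δ ∧ 0 < c ∧
    0 < M ∧ ∀ x, ‖x - p₀‖ < δ → ContDiffAt ℝ 2 T x ∧
      (ρ x < 0 → 0 < T x ∧ c * T x ≤ -ρ x ∧ c * (-ρ x) ≤ T x) ∧
      (∀ v, levi T x v ≤ M * ‖v‖ *
        Real.sqrt ((fderiv ℝ T x v) ^ 2 + (fderiv ℝ T x (Complex.I • v)) ^ 2)) := by
  obtain ⟨e, he, hed⟩ := exists_normal S.hn (fderiv ℝ ρ p₀)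
  set a : ℝ := ‖fderiv ℝ ρ p₀‖ with ha
  have ha0 : 0 < a := norm_pos_iff.2 (S.grad p₀ hp₀)
  set L : E n →L[ℝ] ℝ := Complex.reCLM.comp ((ipL e).restrictScalars ℝ) with hL
  have hLapp : ∀ w, L w = (ip w e).re := fun w => rfl
  have hLe : L e = 1 := by rw [hLapp, ip_self, he]; simp
  have hfd : fderiv ℝ ρ p₀ = a • L := by
    ext w
    rw [hed w, _root_.smul_apply, hLapp, smul_eq_mul]
  obtain ⟨T, hTe, hT0, hTc, hTg⟩ := exists_graph S.smooth hp₀ ha0.ne' hLe hfd
  have hc1 : ContDiff ℝ 1 (fderiv ℝ ρ) := S.smooth.fderiv_right (by norm_num)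
  -- invariance of derivatives
  have hfd1 : ∀ x (σ : ℝ), fderiv ℝ T (x + σ • e) = fderiv ℝ T x := by
    intro x σ
    rw [← fderiv_comp_add_right]
    have : (fun x => T (x + σ • e)) = fun x => T x - σ := by
      funext y; exact hTe y σ
    rw [this, fderiv_sub_const]
  have hfd2 : ∀ x (σ : ℝ), fderiv ℝ (fderiv ℝ T) (x + σ • e) = fderiv ℝ (fderiv ℝ T) x := by
    intro x σ
    rw [← fderiv_comp_add_right]
    have : (fun x => fderiv ℝ T (x + σ • e)) = fderiv ℝ T := by
      funext y; exact hfd1 y σ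
    rw [this]
  -- eventual properties
  have hA : ∀ᶠ x in 𝓝 p₀, ContDiffAt ℝ 2 T x := hTc.eventually (by simp)
  have hC : ∀ᶠ x in 𝓝 p₀, a / 2 < fderiv ℝ ρ x e ∧ fderiv ℝ ρ x e < 2 * a := by
    have h1 : Continuous (fun x => fderiv ℝ ρ x e) := hc1.continuous.clm_apply continuous_const
    have h2 : fderiv ℝ ρ p₀ e = a := by
      rw [hfd, _root_.smul_apply, hLe, smul_eq_mul, mul_one]
    have h3 : Ioo (a / 2) (2 * a) ∈ 𝓝 (fderiv ℝ ρ p₀ e) := by
      rw [h2]; exact Ioo_mem_nhds (by linarith) (by linarith)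
    exact h1.continuousAt.eventually h3
  set M₂ : ℝ := ‖fderiv ℝ (fderiv ℝ T) p₀‖ + 1 with hM₂
  have hD : ∀ᶠ x in 𝓝 p₀, ‖fderiv ℝ (fderiv ℝ T) x‖ ≤ M₂ := by
    have h1 : ContDiffAt ℝ 1 (fderiv ℝ T) p₀ := hTc.fderiv_right (by norm_num)
    have h2 : ContDiffAt ℝ 0 (fderiv ℝ (fderiv ℝ T)) p₀ := h1.fderiv_right (by norm_num)
    have h3 := h2.continuousAt.norm
    have h4 : Iio M₂ ∈ 𝓝 ‖fderiv ℝ (fderiv ℝ T) p₀‖ := Iio_mem_nhds (by rw [hM₂]; linarith)
    filter_upwards [h3.eventually h4] with x hx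
    exact le_of_lt hx
  obtain ⟨δ₀, hδ₀, hall⟩ := Metric.eventually_nhds_iff.1 ((hA.and hTg).and (hC.and hD))
  have hTcont : ContinuousAt T p₀ := hTc.continuousAt
  have hshrink : ∀ η : ℝ, 0 < η → ∃ δ : ℝ, 0 < δ ∧ δ ≤ η / 2 ∧ ∀ x, ‖x - p₀‖ < δ →
      |T x| < η / 2 := by
    intro η hη
    obtain ⟨δ, hδ, h⟩ := Metric.continuousAt_iff.1 hTcont (η / 2) (by positivity)
    refine ⟨min δ (η / 2), by positivity, min_le_right _ _, fun x hx => ?_⟩
    have h1 := h (x := x) (by rw [dist_eq_norm]; exact hx.trans_le (min_le_left _ _))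
    rwa [hT0, Real.dist_eq, sub_zero] at h1
  obtain ⟨δ₁, hδ₁, hδ₁0, hT₁⟩ := hshrink δ₀ hδ₀
  obtain ⟨δ₂, hδ₂, hδ₂1, hT₂⟩ := hshrink δ₁ hδ₁
  have hline : ∀ η : ℝ, ∀ x, ‖x - p₀‖ < η / 2 → ∀ s : ℝ, |s| < η / 2 →
      ‖(x + s • e) - p₀‖ < η := by
    intro η x hx s hs
    calc ‖(x + s • e) - p₀‖ = ‖(x - p₀) + s • e‖ := by congr 1; abel
      _ ≤ ‖x - p₀‖ + ‖s • e‖ := norm_add_le _ _
      _ < η := by
        rw [norm_smul, he, mul_one, Real.norm_eq_abs]; linarith
  have hall' : ∀ x, ‖x - p₀‖ < δ₀ → (ContDiffAt ℝ 2 T x ∧ ρ (x + T x • e) = 0) ∧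
      ((a / 2 < fderiv ℝ ρ x e ∧ fderiv ℝ ρ x e < 2 * a) ∧ ‖fderiv ℝ (fderiv ℝ T) x‖ ≤ M₂) :=
    fun x hx => hall (by rw [dist_eq_norm]; exact hx)
  -- the comparison
  have hgd : ∀ x (s : ℝ), HasDerivAt (fun s : ℝ => ρ (x + s • e)) (fderiv ℝ ρ (x + s • e) e) s := by
    intro x s
    have h1 : HasDerivAt (fun s : ℝ => x + s • e) e s := by
      have := ((hasDerivAt_id s).smul_const e).const_add x
      simpa using this
    exact ((S.smooth.differentiable (by norm_num)) (x + s • e)).hasFDerivAt.comp_hasDerivAt s h1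
  have hcomp : ∀ x, ‖x - p₀‖ < δ₁ → (ρ x < 0 → 0 < T x) ∧ (0 < T x →
      ρ x < 0 ∧ (a / 2) * T x ≤ -ρ x ∧ -ρ x ≤ (2 * a) * T x) := by
    intro x hx
    have hx0 : ‖x - p₀‖ < δ₀ := by linarith
    have hTx := hT₁ x hx
    have hg1 := (hall' x hx0).1.2
    constructor
    · intro hρ
      by_contra hneg
      push Not at hneg
      rcases hneg.lt_or_eq with h | h
      · obtain ⟨s, hs, hs'⟩ := exists_hasDerivAt_eq_slope (fun s : ℝ => ρ (x + s • e))
          (fun s => fderiv ℝ ρ (x + s • e) e) h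
          (fun s _ => (hgd x s).continuousAt.continuousWithinAt) (fun s _ => hgd x s)
        have h3 : ‖(x + s • e) - p₀‖ < δ₀ := by
          refine hline δ₀ x (by linarith) s ?_
          rw [abs_lt] at hTx ⊢
          constructor <;> linarith [hs.1, hs.2]
        have h4 := (hall' _ h3).2.1.1
        rw [hs', hg1, zero_smul, add_zero] at h4
        have h5 : (ρ x - 0) / (0 - T x) < 0 := by
          apply div_neg_of_neg_of_pos <;> linarith
        linarith
      · rw [h, zero_smul, add_zero] at hg1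
        linarith
    · intro hpos
      obtain ⟨s, hs, hs'⟩ := exists_hasDerivAt_eq_slope (fun s : ℝ => ρ (x + s • e))
          (fun s => fderiv ℝ ρ (x + s • e) e) hpos
          (fun s _ => (hgd x s).continuousAt.continuousWithinAt) (fun s _ => hgd x s)
      have h3 : ‖(x + s • e) - p₀‖ < δ₀ := by
        refine hline δ₀ x (by linarith) s ?_
        rw [abs_lt] at hTx ⊢
        constructor <;> linarith [hs.1, hs.2]
      have h4 := (hall' _ h3).2.1
      rw [hs', hg1, zero_smul, add_zero, sub_zero, zero_sub] at h4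
      have h5 : -ρ x / T x * T x = -ρ x := div_mul_cancel₀ _ hpos.ne'
      have h6 : (a / 2) * T x ≤ -ρ x := by
        rw [← h5]; exact mul_le_mul_of_nonneg_right h4.1.le hpos.le
      have h7 : -ρ x ≤ (2 * a) * T x := by
        rw [← h5]; exact mul_le_mul_of_nonneg_right h4.2.le hpos.le
      refine ⟨?_, h6, h7⟩
      have : 0 < (a / 2) * T x := by positivity
      linarith
  refine ⟨T, δ₂, min (a / 2) (2 * a)⁻¹, 6 * M₂, hδ₂, by positivity, by positivity, fun x hx => ?_⟩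
  have hx1 : ‖x - p₀‖ < δ₁ := by linarith
  have hx0 : ‖x - p₀‖ < δ₀ := by linarith
  refine ⟨(hall' x hx0).1.1, ?_, ?_⟩
  · intro hρ
    have h1 := (hcomp x hx1).1 hρ
    have h2 := (hcomp x hx1).2 h1
    refine ⟨h1, ?_, ?_⟩
    · refine le_trans ?_ h2.2.1
      exact mul_le_mul_of_nonneg_right (min_le_left _ _) h1.le
    · calc min (a / 2) (2 * a)⁻¹ * (-ρ x) ≤ (2 * a)⁻¹ * (-ρ x) :=
            mul_le_mul_of_nonneg_right (min_le_right _ _) (by linarith)
        _ ≤ (2 * a)⁻¹ * ((2 * a) * T x) := by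
          apply mul_le_mul_of_nonneg_left h2.2.2 (by positivity)
        _ = T x := by field_simp
  · refine levi_le_of_tangential S.hn (hall' x hx0).2.2 he ?_ ?_
    · have h1 : HasDerivAt (fun s : ℝ => x + s • e) e 0 := by
        have := ((hasDerivAt_id (0 : ℝ)).smul_const e).const_add x
        simpa using this
      have h2 : HasFDerivAt T (fderiv ℝ T x) (x + (0 : ℝ) • e) := by
        rw [zero_smul, add_zero]
        exact ((hall' x hx0).1.1.differentiableAt (by norm_num)).hasFDerivAt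
      have h3 := h2.comp_hasDerivAt (0 : ℝ) h1
      have h4 : HasDerivAt (T ∘ fun s : ℝ => x + s • e) (-1) 0 := by
        have h5 : (T ∘ fun s : ℝ => x + s • e) = fun s => T x - s := by
          funext s; exact hTe x s
        rw [h5]
        exact (hasDerivAt_id (0 : ℝ)).const_sub (T x)
      exact h3.unique h4
    · intro τ hτ1 hτ2
      set y := x + T x • e with hy
      have hy1 : ‖y - p₀‖ < δ₁ := hline δ₁ x (by linarith) (T x) (hT₂ x hx)
      have hy0 : ‖y - p₀‖ < δ₀ := by linarith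
      have hTy : T y = 0 := by rw [hy, hTe, sub_self]
      have hρy : ρ y = 0 := by
        have := (hall' y hy0).1.2
        rwa [hTy, zero_smul, add_zero] at this
      have hcy : ContDiffAt ℝ 2 T y := (hall' y hy0).1.1
      have hneg1 : fderiv ℝ (fun z => -T z) y = -fderiv ℝ T x := by
        rw [fderiv_fun_neg, hy, hfd1]
      have hneg2 : levi (fun z => -T z) y τ = -levi T x τ := by
        unfold levi
        have e1 : fderiv ℝ (fun z => -T z) = fun z => -fderiv ℝ T z := by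
          funext z; exact fderiv_fun_neg
        rw [e1, fderiv_fun_neg, hy, hfd2]
        simp only [_root_.neg_apply]
        ring
      have h1 := S.levi_nonneg (f := fun z => -T z) (p := y) (v := τ) hcy.neg
        (by simp only [hTy, neg_zero]) ?_ ?_ hρy.ge ?_ ?_
      · rw [hneg2] at h1
        linarith
      · rw [hneg1]
        intro h0
        have h5 : fderiv ℝ T x = 0 := neg_eq_zero.1 h0
        have h6 : HasFDerivAt T (fderiv ℝ T x) (x + (0 : ℝ) • e) := by
          rw [zero_smul, add_zero]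
          exact ((hall' x hx0).1.1.differentiableAt (by norm_num)).hasFDerivAt
        have h7 : HasDerivAt (fun s : ℝ => x + s • e) e 0 := by
          have := ((hasDerivAt_id (0 : ℝ)).smul_const e).const_add x
          simpa using this
        have h3 := h6.comp_hasDerivAt (0 : ℝ) h7
        have h4 : HasDerivAt (T ∘ fun s : ℝ => x + s • e) (-1) 0 := by
          have h5 : (T ∘ fun s : ℝ => x + s • e) = fun s => T x - s := by
            funext s; exact hTe x s
          rw [h5]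
          exact (hasDerivAt_id (0 : ℝ)).const_sub (T x)
        have h8 := h3.unique h4
        rw [h5] at h8
        simp at h8
      · have hball : ball p₀ δ₁ ∈ 𝓝 y := isOpen_ball.mem_nhds (by rw [mem_ball, dist_eq_norm]; exact hy1)
        filter_upwards [hball] with z hz hz'
        rw [mem_ball, dist_eq_norm] at hz
        exact ((hcomp z hz).2 (by linarith)).1
      · rw [hneg1, _root_.neg_apply, hτ1, neg_zero]
      · rw [hneg1, _root_.neg_apply, hτ2, neg_zero]

end Setup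

end Pool.Agent.Ball44
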