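import Mathlib
import Pool.Agent.Helper44_Ball.Taylor

/-! Second derivatives along lines and a comparison principle on annuli. -/

set_option autoImplicit false
set_option maxSynthPendingDepth 3
open Set Metric Filter Topology MeasureTheory

namespace Pool.Agent.Ball44

variable {n : ℕ}

/-- `h` is twice differentiable at `0` with derivatives `d1`, `d2`. -/
def HasSnd {F : Type*} [NormedAddCommGroup F] [NormedSpace ℝ F] (h : ℝ → F) (d1 d2 : F) : Prop :=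
  ∃ D : ℝ → F, D 0 = d1 ∧ (∀ᶠ s in 𝓝 (0 : ℝ), HasDerivAt h (D s) s) ∧ HasDerivAt D d2 0

section
variable {F : Type*} [NormedAddCommGroup F] [NormedSpace ℝ F]

lemma HasSnd.hasDerivAt {h : ℝ → F} {d1 d2 : F} (H : HasSnd h d1 d2) : HasDerivAt h d1 0 := by
  obtain ⟨D, hD0, hD, -⟩ := H
  rw [← hD0]
  exact hD.self_of_nhds

lemma HasSnd.add {h k : ℝ → F} {d1 d2 e1 e2 : F} (H : HasSnd h d1 d2) (K : HasSnd k e1 e2) :
    HasSnd (fun s => h s + k s) (d1 + e1) (d2 + e2) := by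
  obtain ⟨D, hD0, hD, hD'⟩ := H
  obtain ⟨Q, hQ0, hQ, hQ'⟩ := K
  refine ⟨fun s => D s + Q s, by simp only [hD0, hQ0], ?_, hD'.add hQ'⟩
  filter_upwards [hD, hQ] with s h1 h2
  exact h1.add h2

lemma HasSnd.sub {h k : ℝ → F} {d1 d2 e1 e2 : F} (H : HasSnd h d1 d2) (K : HasSnd k e1 e2) :
    HasSnd (fun s => h s - k s) (d1 - e1) (d2 - e2) := by
  obtain ⟨D, hD0, hD, hD'⟩ := H
  obtain ⟨Q, hQ0, hQ, hQ'⟩ := K
  refine ⟨fun s => D s - Q s, by simp only [hD0, hQ0], ?_, hD'.sub hQ'⟩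
  filter_upwards [hD, hQ] with s h1 h2
  exact h1.sub h2

lemma hasSnd_const (c : F) : HasSnd (fun _ => c) 0 0 :=
  ⟨fun _ => 0, rfl, Eventually.of_forall fun s => hasDerivAt_const s c, hasDerivAt_const 0 0⟩

end

lemma HasSnd.mul {h k : ℝ → ℝ} {d1 d2 e1 e2 : ℝ} (H : HasSnd h d1 d2) (K : HasSnd k e1 e2) :
    HasSnd (fun s => h s * k s) (d1 * k 0 + h 0 * e1) (d2 * k 0 + 2 * (d1 * e1) + h 0 * e2) := by
  have hh := H.hasDerivAt
  have hk := K.hasDerivAt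
  obtain ⟨D, hD0, hD, hD'⟩ := H
  obtain ⟨Q, hQ0, hQ, hQ'⟩ := K
  refine ⟨fun s => D s * k s + h s * Q s, by simp only [hD0, hQ0], ?_, ?_⟩
  · filter_upwards [hD, hQ] with s h1 h2
    exact h1.mul h2
  · have h1 := (hD'.mul hk).add (hh.mul hQ')
    refine h1.congr_deriv ?_
    rw [hD0, hQ0]; ring

lemma HasSnd.const_mul {h : ℝ → ℝ} {d1 d2 : ℝ} (c : ℝ) (H : HasSnd h d1 d2) :
    HasSnd (fun s => c * h s) (c * d1) (c * d2) := by
  obtain ⟨D, hD0, hD, hD'⟩ := H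
  refine ⟨fun s => c * D s, by simp only [hD0], ?_, hD'.const_mul c⟩
  filter_upwards [hD] with s h1
  exact h1.const_mul c

lemma HasSnd.rpow {h : ℝ → ℝ} {d1 d2 : ℝ} (H : HasSnd h d1 d2) (h0 : 0 < h 0) (η : ℝ) :
    HasSnd (fun s => h s ^ η) (η * h 0 ^ (η - 1) * d1)
      (η * (η - 1) * h 0 ^ (η - 2) * d1 ^ 2 + η * h 0 ^ (η - 1) * d2) := by
  have hh := H.hasDerivAt
  obtain ⟨D, hD0, hD, hD'⟩ := H
  have hpos : ∀ᶠ s in 𝓝 (0 : ℝ), 0 < h s := hh.continuousAt.eventually (lt_mem_nhds h0)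
  refine ⟨fun s => D s * η * h s ^ (η - 1), ?_, ?_, ?_⟩
  · simp only [hD0]; ring
  · filter_upwards [hD, hpos] with s h1 h2
    exact h1.rpow_const (Or.inl h2.ne')
  · have h1 := (hD'.mul_const η).mul (hh.rpow_const (p := η - 1) (Or.inl h0.ne'))
    refine h1.congr_deriv ?_
    rw [hD0, show η - 1 - 1 = η - 2 by ring]
    ring

lemma HasSnd.nonneg_of_isLocalMin {h : ℝ → ℝ} {d1 d2 : ℝ} (H : HasSnd h d1 d2)
    (hm : IsLocalMin h 0) : 0 ≤ d2 := by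
  have hd1 : d1 = 0 := hm.hasDerivAt_eq_zero H.hasDerivAt
  obtain ⟨D, hD0, hD, hD'⟩ := H
  by_contra hneg
  push Not at hneg
  have h1 := hD'.tendsto_slope
  have h2 : ∀ᶠ s in 𝓝[≠] (0 : ℝ), slope D 0 s < 0 := h1.eventually (gt_mem_nhds hneg)
  have h3 : ∀ᶠ s in 𝓝 (0 : ℝ), 0 < s → D s < 0 := by
    rw [eventually_nhdsWithin_iff] at h2
    filter_upwards [h2] with s hs hs0
    have h4 := hs (ne_of_gt hs0)
    rw [slope_def_field, hD0, hd1, sub_zero, sub_zero] at h4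
    by_contra h5
    push Not at h5
    have := div_nonneg h5 hs0.le
    linarith
  obtain ⟨δ, hδ, hall⟩ := Metric.eventually_nhds_iff.1 ((h3.and hD).and hm)
  have hlt : (0 : ℝ) < δ / 2 := by positivity
  have hin : ∀ s : ℝ, 0 ≤ s → s ≤ δ / 2 → dist s 0 < δ := by
    intro s hs0 hs1
    rw [Real.dist_eq, sub_zero, abs_of_nonneg hs0]; linarith
  obtain ⟨c, hc, hc'⟩ := exists_hasDerivAt_eq_slope h D hlt
    (fun s hs => (hall (hin s hs.1 hs.2)).1.2.continuousAt.continuousWithinAt)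
    (fun s hs => (hall (hin s hs.1.le hs.2.le)).1.2)
  have h6 := (hall (hin c hc.1.le hc.2.le)).1.1 hc.1
  have h7 := (hall (hin (δ / 2) hlt.le le_rfl)).2
  rw [hc'] at h6
  have h8 : 0 ≤ (h (δ / 2) - h 0) / (δ / 2 - 0) := by
    apply div_nonneg <;> linarith
  linarith

/-- Comparison principle on a closed annulus. -/
lemma comparison {u w : ℂ → ℝ} {a : ℂ} {r₁ r₂ : ℝ} (h12 : r₁ ≤ r₂)
    (hu : ContinuousOn u {ζ | r₁ ≤ ‖ζ - a‖ ∧ ‖ζ - a‖ ≤ r₂})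
    (hw : ContinuousOn w {ζ | r₁ ≤ ‖ζ - a‖ ∧ ‖ζ - a‖ ≤ r₂})
    (h1 : ∀ ζ, ‖ζ - a‖ = r₁ → w ζ ≤ u ζ) (h2 : ∀ ζ, ‖ζ - a‖ = r₂ → w ζ ≤ u ζ)
    (hL : ∀ ζ, r₁ < ‖ζ - a‖ → ‖ζ - a‖ < r₂ → ∃ d1 d2 d1' d2' : ℝ,
      HasSnd (fun s : ℝ => u (ζ + s * 1) - w (ζ + s * 1)) d1 d2 ∧
      HasSnd (fun s : ℝ => u (ζ + s * Complex.I) - w (ζ + s * Complex.I)) d1' d2' ∧
      d2 + d2' < 0) :
    ∀ ζ, r₁ ≤ ‖ζ - a‖ → ‖ζ - a‖ ≤ r₂ → w ζ ≤ u ζ := by
  set A : Set ℂ := {ζ | r₁ ≤ ‖ζ - a‖ ∧ ‖ζ - a‖ ≤ r₂} with hA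
  have hcn : Continuous (fun ζ : ℂ => ‖ζ - a‖) := by fun_prop
  have hAc : IsCompact A := by
    refine (isCompact_closedBall a r₂).of_isClosed_subset ?_ ?_
    · exact (isClosed_le continuous_const hcn).inter (isClosed_le hcn continuous_const)
    · intro ζ hζ
      rw [mem_closedBall, dist_eq_norm]; exact hζ.2
  intro ζ hζ1 hζ2
  obtain ⟨ζ₀, hζ₀, hmin⟩ := hAc.exists_isMinOn ⟨ζ, hζ1, hζ2⟩ (hu.sub hw)
  have hle : u ζ₀ - w ζ₀ ≤ u ζ - w ζ := hmin ⟨hζ1, hζ2⟩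
  suffices h : 0 ≤ u ζ₀ - w ζ₀ by linarith
  rcases hζ₀.1.eq_or_lt with h | h
  · have := h1 ζ₀ h.symm
    linarith
  rcases hζ₀.2.eq_or_lt with h' | h'
  · have := h2 ζ₀ h'
    linarith
  exfalso
  obtain ⟨d1, d2, d1', d2', H1, H2, hneg⟩ := hL ζ₀ h h'
  have hopen : {ζ : ℂ | r₁ < ‖ζ - a‖ ∧ ‖ζ - a‖ < r₂} ∈ 𝓝 ζ₀ := by
    refine IsOpen.mem_nhds ?_ ⟨h, h'⟩
    exact (isOpen_lt continuous_const hcn).inter (isOpen_lt hcn continuous_const)
  have hloc : ∀ e : ℂ, IsLocalMin (fun s : ℝ => u (ζ₀ + s * e) - w (ζ₀ + s * e)) 0 := by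
    intro e
    have hc : Tendsto (fun s : ℝ => ζ₀ + (s : ℂ) * e) (𝓝 0) (𝓝 ζ₀) := by
      have h3 : Continuous (fun s : ℝ => ζ₀ + (s : ℂ) * e) := by fun_prop
      have h4 := h3.tendsto 0
      simpa using h4
    have h5 := hc.eventually hopen
    unfold IsLocalMin IsMinFilter
    filter_upwards [h5] with s hs
    have h6 := hmin (show ζ₀ + (s : ℂ) * e ∈ A from ⟨hs.1.le, hs.2.le⟩)
    simp only [Complex.ofReal_zero, zero_mul, add_zero]
    exact h6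
  have e1 := H1.nonneg_of_isLocalMin (hloc 1)
  have e2 := H2.nonneg_of_isLocalMin (hloc Complex.I)
  linarith

/-- Composition with a `C²` function. -/
lemma HasSnd.comp_contDiffAt {F : Type*} [NormedAddCommGroup F] [NormedSpace ℝ F] {γ : ℝ → F}
    {v a : F} (H : HasSnd γ v a) {f : F → ℝ} (hf : ContDiffAt ℝ 2 f (γ 0)) :
    HasSnd (fun s => f (γ s)) (fderiv ℝ f (γ 0) v)
      (fderiv ℝ (fderiv ℝ f) (γ 0) v v + fderiv ℝ f (γ 0) a) := by
  have hγ := H.hasDerivAt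
  obtain ⟨D, hD0, hD, hD'⟩ := H
  have hev : ∀ᶠ s in 𝓝 (0 : ℝ), ContDiffAt ℝ 2 f (γ s) :=
    hγ.continuousAt.eventually (hf.eventually (by simp))
  refine ⟨fun s => fderiv ℝ f (γ s) (D s), by simp only [hD0], ?_, ?_⟩
  · filter_upwards [hD, hev] with s h1 h2
    exact (h2.differentiableAt (by norm_num)).hasFDerivAt.comp_hasDerivAt s h1
  · have h1 : ContDiffAt ℝ 1 (fderiv ℝ f) (γ 0) := hf.fderiv_right (by norm_num)
    have h2 : HasFDerivAt (fderiv ℝ f) (fderiv ℝ (fderiv ℝ f) (γ 0)) (γ 0) :=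
      (h1.differentiableAt (by norm_num)).hasFDerivAt
    have h3 := h2.comp_hasDerivAt (0 : ℝ) hγ
    have h4 := h3.clm_apply hD'
    refine h4.congr_deriv ?_
    rw [hD0]
    rfl

/-- Restriction of a holomorphic map to a line. -/
lemma hasSnd_holo {F : Type*} [NormedAddCommGroup F] [NormedSpace ℂ F] [CompleteSpace F]
    {G : ℂ → F} {ζ : ℂ} (hG : ∀ᶠ z in 𝓝 ζ, DifferentiableAt ℂ G z) (e : ℂ) :
    HasSnd (fun s : ℝ => G (ζ + s * e)) (e • deriv G ζ) (e ^ 2 • deriv (deriv G) ζ) := by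
  have han : AnalyticAt ℂ G ζ := Complex.analyticAt_iff_eventually_differentiableAt.2 hG
  have hline : ∀ s : ℝ, HasDerivAt (fun s : ℝ => ζ + (s : ℂ) * e) e s := by
    intro s
    have h1 : HasDerivAt (fun s : ℝ => (s : ℂ)) 1 s := Complex.ofRealCLM.hasDerivAt
    have := (h1.mul_const e).const_add ζ
    simpa using this
  have hc : Tendsto (fun s : ℝ => ζ + (s : ℂ) * e) (𝓝 0) (𝓝 ζ) := by
    have h3 : Continuous (fun s : ℝ => ζ + (s : ℂ) * e) := by fun_prop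
    have h4 := h3.tendsto 0
    simpa using h4
  refine ⟨fun s => e • deriv G (ζ + s * e), by simp, ?_, ?_⟩
  · filter_upwards [hc.eventually hG] with s hs
    exact hs.hasDerivAt.scomp s (hline s)
  · have h1 : HasDerivAt (deriv G) (deriv (deriv G) ζ) (ζ + ((0 : ℝ) : ℂ) * e) := by
      have h2 : ζ + ((0 : ℝ) : ℂ) * e = ζ := by simp
      rw [h2]
      exact han.deriv.differentiableAt.hasDerivAt
    have h3 := (h1.scomp (0 : ℝ) (hline 0)).const_smul e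
    refine h3.congr_deriv ?_
    rw [smul_smul, sq]

/-- Norm squared along a curve. -/
lemma HasSnd.norm_sq {F : Type*} [NormedAddCommGroup F] [InnerProductSpace ℂ F] {γ : ℝ → F}
    {v a : F} (H : HasSnd γ v a) (p : F) :
    HasSnd (fun s => ‖γ s - p‖ ^ 2) (2 * (inner ℂ (γ 0 - p) v).re)
      (2 * ‖v‖ ^ 2 + 2 * (inner ℂ (γ 0 - p) a).re) := by
  have hγ := H.hasDerivAt
  obtain ⟨D, hD0, hD, hD'⟩ := H
  have hsub : ∀ s d, HasDerivAt γ d s → HasDerivAt (fun s => γ s - p) d s :=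
    fun s d h => h.sub_const p
  have hre : ∀ x y : F, (inner ℂ x y).re = (inner ℂ y x).re := fun x y => by
    rw [← inner_conj_symm x y, Complex.conj_re]
  have hin : ∀ (γ₁ γ₂ : ℝ → F) (s : ℝ) (d₁ d₂ : F), HasDerivAt γ₁ d₁ s → HasDerivAt γ₂ d₂ s →
      HasDerivAt (fun s => (inner ℂ (γ₁ s) (γ₂ s)).re)
        ((inner ℂ (γ₁ s) d₂ + inner ℂ d₁ (γ₂ s)).re) s := by
    intro γ₁ γ₂ s d₁ d₂ h1 h2
    have h3 := h1.inner ℂ h2
    exact Complex.reCLM.hasFDerivAt.comp_hasDerivAt s h3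
  refine ⟨fun s => 2 * (inner ℂ (γ s - p) (D s)).re, by simp only [hD0], ?_, ?_⟩
  · filter_upwards [hD] with s h1
    have h2 := hin _ _ s _ _ (hsub s _ h1) (hsub s _ h1)
    have h3 : (fun s => ‖γ s - p‖ ^ 2) = fun s => (inner ℂ (γ s - p) (γ s - p)).re := by
      funext s
      rw [inner_self_eq_norm_sq_to_K]
      simp [← Complex.ofReal_pow]
    rw [h3]
    refine h2.congr_deriv ?_
    rw [Complex.add_re, hre (D s) (γ s - p)]
    ring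
  · have h2 := (hin _ _ 0 _ _ (hsub 0 _ hγ) hD').const_mul 2
    refine h2.congr_deriv ?_
    rw [hD0, Complex.add_re, inner_self_eq_norm_sq_to_K]
    simp [← Complex.ofReal_pow]
    ring

end Pool.Agent.Ball44
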