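import Mathlib
import Pool.Agent.Helper44_Ball.SndDeriv
import Pool.Agent.Helper44_Ball.LocalT
import Pool.Agent.Helper44_Ball.IBP

/-! The lower estimate of the defining function along holomorphic discs. -/

set_option autoImplicit false
set_option maxSynthPendingDepth 3
open Set Metric Filter Topology MeasureTheory

namespace Pool.Agent.Ball44

variable {n : ℕ}

lemma V_ineq {η t w L b t1 t1' b1 b1' K M d : ℝ} (hη0 : 0 < η) (hη1 : η < 1) (ht : 0 < t)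
    (hw : 0 ≤ w) (hM : 0 ≤ M) (hL : L ≤ M * w * Real.sqrt (t1 ^ 2 + t1' ^ 2)) (hb1 : 1 / 2 ≤ b)
    (hb2 : b ≤ 1) (hd : 0 ≤ d) (hbb : b1 ^ 2 + b1' ^ 2 ≤ (2 * K * w * d) ^ 2)
    (hK : K * (1 - η) = (M + 1) ^ 2) (hK0 : 0 ≤ K) (hKd : 4 * K * d ≤ 1) :
    (η * (η - 1) * t ^ (η - 2) * (t1 ^ 2 + t1' ^ 2) + η * t ^ (η - 1) * L) * b +
      2 * (η * t ^ (η - 1)) * (t1 * b1 + t1' * b1') + t ^ η * (-4 * K * w ^ 2) ≤ 0 := by
  set ϑ := Real.sqrt (t1 ^ 2 + t1' ^ 2) with hϑ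
  have hϑ0 : 0 ≤ ϑ := Real.sqrt_nonneg _
  have hϑ2 : ϑ ^ 2 = t1 ^ 2 + t1' ^ 2 := Real.sq_sqrt (by positivity)
  have e1 : t ^ (η - 1) = t ^ η * t⁻¹ := by
    rw [Real.rpow_sub_one ht.ne', div_eq_mul_inv]
  have e2 : t ^ (η - 2) = t ^ η * t⁻¹ ^ 2 := by
    rw [show η - 2 = (η - 1) - 1 by ring, Real.rpow_sub_one ht.ne', e1]
    ring
  have hcs : t1 * b1 + t1' * b1' ≤ ϑ * (2 * K * w * d) := by
    have h1 : (t1 * b1 + t1' * b1') ^ 2 ≤ (ϑ * (2 * K * w * d)) ^ 2 := by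
      calc (t1 * b1 + t1' * b1') ^ 2 ≤ (t1 ^ 2 + t1' ^ 2) * (b1 ^ 2 + b1' ^ 2) := by
            nlinarith [sq_nonneg (t1 * b1' - t1' * b1)]
        _ ≤ (t1 ^ 2 + t1' ^ 2) * (2 * K * w * d) ^ 2 := by gcongr
        _ = _ := by rw [mul_pow ϑ, hϑ2]
    exact le_of_sq_le_sq h1 (by positivity)
  set P := t ^ η with hP
  have hP0 : 0 < P := Real.rpow_pos_of_pos ht η
  set i := t⁻¹ with hi
  have hi0 : 0 < i := inv_pos.2 ht
  obtain ⟨X, hX⟩ : ∃ X : ℝ, X = ϑ * i := ⟨_, rfl⟩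
  have hX0 : 0 ≤ X := by rw [hX]; positivity
  rw [e1, e2, ← hϑ2]
  have f1 : i * L * b ≤ M * w * X := by
    have h1 : i * L * b ≤ i * (M * w * ϑ) * b := by
      have : i * L ≤ i * (M * w * ϑ) := mul_le_mul_of_nonneg_left hL hi0.le
      exact mul_le_mul_of_nonneg_right this (by linarith)
    have h2 : i * (M * w * ϑ) * b ≤ i * (M * w * ϑ) * 1 := by
      apply mul_le_mul_of_nonneg_left hb2 (by positivity)
    calc i * L * b ≤ i * (M * w * ϑ) * 1 := h1.trans h2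
      _ = M * w * X := by rw [hX]; ring
  have f2 : 2 * i * (t1 * b1 + t1' * b1') ≤ w * X := by
    calc 2 * i * (t1 * b1 + t1' * b1') ≤ 2 * i * (ϑ * (2 * K * w * d)) := by gcongr
      _ = (4 * K * d) * (w * X) := by rw [hX]; ring
      _ ≤ 1 * (w * X) := by gcongr
      _ = w * X := one_mul _
  have f3 : η * (η - 1) * X ^ 2 * b ≤ -(η * (1 - η) * X ^ 2) / 2 := by
    have h1 : 0 ≤ η * (1 - η) * X ^ 2 := by
      have : 0 < 1 - η := by linarith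
      positivity
    nlinarith
  have f4 : -(η * (1 - η) * X ^ 2) / 2 + η * ((M + 1) * w * X) - 4 * K * w ^ 2 ≤ 0 := by
    have h1 : 0 < 1 - η := by linarith
    by_contra hneg
    push Not at hneg
    have h2 := mul_pos h1 hneg
    have h3 : (1 - η) * (-(η * (1 - η) * X ^ 2) / 2 + η * ((M + 1) * w * X) - 4 * K * w ^ 2) =
        -(η / 2) * ((1 - η) * X - (M + 1) * w) ^ 2 - (4 - η / 2) * ((M + 1) * w) ^ 2 := by
      have h4 : (1 - η) * (4 * K * w ^ 2) = 4 * (M + 1) ^ 2 * w ^ 2 := by rw [← hK]; ring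
      calc _ = (1 - η) * (-(η * (1 - η) * X ^ 2) / 2 + η * ((M + 1) * w * X)) -
            (1 - η) * (4 * K * w ^ 2) := by ring
        _ = _ := by rw [h4]; ring
    rw [h3] at h2
    have h5 : 0 ≤ (η / 2) * ((1 - η) * X - (M + 1) * w) ^ 2 := by positivity
    have h6 : 0 ≤ (4 - η / 2) * ((M + 1) * w) ^ 2 := by
      apply mul_nonneg (by linarith) (sq_nonneg _)
    linarith
  have hfin : (η * (η - 1) * (P * i ^ 2) * ϑ ^ 2 + η * (P * i) * L) * b +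
      2 * (η * (P * i)) * (t1 * b1 + t1' * b1') + P * (-4 * K * w ^ 2) =
      P * (η * (η - 1) * X ^ 2 * b + η * (i * L * b) + η * (2 * i * (t1 * b1 + t1' * b1')) -
        4 * K * w ^ 2) := by
    rw [hX]; ring
  rw [hfin]
  apply mul_nonpos_of_nonneg_of_nonpos hP0.le
  have g1 : η * (i * L * b) ≤ η * (M * w * X) := by gcongr
  have g2 : η * (2 * i * (t1 * b1 + t1' * b1')) ≤ η * (w * X) := by gcongr
  nlinarith

/-- Superharmonicity along holomorphic curves. -/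
lemma lap_V {T : E n → ℝ} {p₀ : E n} {G : ℂ → E n} {ζ : ℂ} {η K M : ℝ} (hη0 : 0 < η)
    (hη1 : η < 1) (hM : 0 ≤ M) (hK : K * (1 - η) = (M + 1) ^ 2) (hK0 : 0 ≤ K)
    (hKd : 4 * K * ‖G ζ - p₀‖ ≤ 1) (hKd2 : K * ‖G ζ - p₀‖ ^ 2 ≤ 1 / 2)
    (hG : ∀ᶠ z in 𝓝 ζ, DifferentiableAt ℂ G z) (hT : ContDiffAt ℝ 2 T (G ζ)) (hTpos : 0 < T (G ζ))
    (hlevi : ∀ v, levi T (G ζ) v ≤ M * ‖v‖ *
        Real.sqrt ((fderiv ℝ T (G ζ) v) ^ 2 + (fderiv ℝ T (G ζ) (Complex.I • v)) ^ 2)) :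
    ∃ d1 d2 d1' d2' : ℝ,
      HasSnd (fun s : ℝ => T (G (ζ + s * 1)) ^ η * (1 - K * ‖G (ζ + s * 1) - p₀‖ ^ 2)) d1 d2 ∧
      HasSnd (fun s : ℝ => T (G (ζ + s * Complex.I)) ^ η *
        (1 - K * ‖G (ζ + s * Complex.I) - p₀‖ ^ 2)) d1' d2' ∧ d2 + d2' ≤ 0 := by
  have key : ∀ e : ℂ, HasSnd (fun s : ℝ => T (G (ζ + s * e)) ^ η *
      (1 - K * ‖G (ζ + s * e) - p₀‖ ^ 2)) _ _ := fun e => by
    have h0 : G (ζ + ((0 : ℝ) : ℂ) * e) = G ζ := by simp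
    have HG := hasSnd_holo hG e
    have HT := HG.comp_contDiffAt (f := T) (by rw [h0]; exact hT)
    rw [h0] at HT
    have HP := HT.rpow (by simpa using hTpos) η
    have HN := HG.norm_sq p₀
    have HB := (hasSnd_const (1 : ℝ)).sub (HN.const_mul K)
    have HV := HP.mul HB
    simp only [h0] at HV
    exact HV
  refine ⟨_, _, _, _, key 1, key Complex.I, ?_⟩
  set v := deriv G ζ with hv
  set a := deriv (deriv G) ζ with ha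
  set x := G ζ with hx
  have i1 : (inner ℂ (x - p₀) (Complex.I • v)).re = -(inner ℂ (x - p₀) v).im := by
    rw [inner_smul_right, Complex.I_mul_re]
  have i2 : fderiv ℝ T x (Complex.I ^ 2 • a) = -fderiv ℝ T x a := by
    rw [Complex.I_sq, neg_smul, one_smul, map_neg]
  have i3 : (inner ℂ (x - p₀) (Complex.I ^ 2 • a)).re = -(inner ℂ (x - p₀) a).re := by
    rw [Complex.I_sq, neg_smul, one_smul, inner_neg_right, Complex.neg_re]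
  have i4 : ‖Complex.I • v‖ = ‖v‖ := by rw [norm_smul, Complex.norm_I, one_mul]
  have hL := hlevi v
  have hin : ‖inner ℂ (x - p₀) v‖ ≤ ‖x - p₀‖ * ‖v‖ := norm_inner_le_norm _ _
  have hbb : (-(K * (2 * (inner ℂ (x - p₀) v).re))) ^ 2 +
      (-(K * (2 * -(inner ℂ (x - p₀) v).im))) ^ 2 ≤ (2 * K * ‖v‖ * ‖x - p₀‖) ^ 2 := by
    have e1 : (-(K * (2 * (inner ℂ (x - p₀) v).re))) ^ 2 +
      (-(K * (2 * -(inner ℂ (x - p₀) v).im))) ^ 2 = (2 * K) ^ 2 * ‖inner ℂ (x - p₀) v‖ ^ 2 := by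
      rw [← Complex.normSq_eq_norm_sq, Complex.normSq_apply]; ring
    rw [e1]
    calc (2 * K) ^ 2 * ‖inner ℂ (x - p₀) v‖ ^ 2 ≤ (2 * K) ^ 2 * (‖x - p₀‖ * ‖v‖) ^ 2 := by gcongr
      _ = _ := by ring
  have hfin := V_ineq (b := 1 - K * ‖x - p₀‖ ^ 2) hη0 hη1 hTpos (norm_nonneg v) hM hL
    (by linarith) (by have : 0 ≤ K * ‖x - p₀‖ ^ 2 := by positivity
                      linarith) (norm_nonneg (x - p₀)) hbb hK hK0 hKd
  refine le_of_eq_of_le ?_ hfin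
  simp only [one_smul, one_pow, i1, i2, i3, i4]
  unfold levi
  ring

/-- The straight line. -/
lemma hasSnd_line (ζ e : ℂ) : HasSnd (fun s : ℝ => ζ + s * e) e 0 := by
  refine ⟨fun _ => e, rfl, Eventually.of_forall fun s => ?_, hasDerivAt_const 0 e⟩
  have h1 : HasDerivAt (fun s : ℝ => (s : ℂ)) 1 s := Complex.ofRealCLM.hasDerivAt
  have := (h1.mul_const e).const_add ζ
  simpa using this

lemma hasSnd_dist_sq (ζ a e : ℂ) : HasSnd (fun s : ℝ => ‖ζ + s * e - a‖ ^ 2)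
    (2 * (inner ℂ (ζ - a) e).re) (2 * ‖e‖ ^ 2) := by
  have h := (hasSnd_line ζ e).norm_sq a
  simp only [Complex.ofReal_zero, zero_mul, add_zero, inner_zero_right, Complex.zero_re,
    mul_zero] at h
  exact h

/-- The barrier. -/
lemma barrier_snd {ζ a : ℂ} (h : ζ ≠ a) (A R : ℝ) : ∃ d1 d2 d1' d2' : ℝ,
    HasSnd (fun s : ℝ => A * (R * (‖ζ + s * 1 - a‖ ^ 2) ^ (-1 : ℝ) - 1)) d1 d2 ∧
    HasSnd (fun s : ℝ => A * (R * (‖ζ + s * Complex.I - a‖ ^ 2) ^ (-1 : ℝ) - 1)) d1' d2' ∧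
    d2 + d2' = 4 * A * R * (‖ζ - a‖ ^ 2) ^ (-2 : ℝ) := by
  have hpos : 0 < ‖ζ - a‖ ^ 2 := by
    have := norm_pos_iff.2 (sub_ne_zero.2 h)
    positivity
  have key : ∀ e : ℂ, HasSnd (fun s : ℝ => A * (R * (‖ζ + s * e - a‖ ^ 2) ^ (-1 : ℝ) - 1)) _ _ :=
    fun e => by
    have h0 : ‖ζ + ((0 : ℝ) : ℂ) * e - a‖ = ‖ζ - a‖ := by simp
    have H1 := (hasSnd_dist_sq ζ a e).rpow (by rw [h0]; exact hpos) (-1)
    have H2 := ((H1.const_mul R).sub (hasSnd_const (1 : ℝ))).const_mul A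
    simp only [h0] at H2
    exact H2
  refine ⟨_, _, _, _, key 1, key Complex.I, ?_⟩
  have i1 : (inner ℂ (ζ - a) (1 : ℂ)).re = (ζ - a).re := by simp
  have i2 : (inner ℂ (ζ - a) Complex.I).re = (ζ - a).im := by simp; ring
  have e1 : (‖ζ - a‖ ^ 2) ^ ((-1 : ℝ) - 1) = (‖ζ - a‖ ^ 2) ^ (-2 : ℝ) := by norm_num
  have e2 : (‖ζ - a‖ ^ 2) ^ ((-1 : ℝ) - 2) * ‖ζ - a‖ ^ 2 = (‖ζ - a‖ ^ 2) ^ (-2 : ℝ) := by
    rw [← Real.rpow_add_one hpos.ne']; norm_num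
  have e3 : (ζ - a).re ^ 2 + (ζ - a).im ^ 2 = ‖ζ - a‖ ^ 2 := by
    rw [← Complex.normSq_eq_norm_sq, Complex.normSq_apply]; ring
  rw [i1, i2, e1, norm_one, Complex.norm_I]
  have : A * (R * (-1 * (-1 - 1) * (‖ζ - a‖ ^ 2) ^ ((-1 : ℝ) - 2) * (2 * (ζ - a).re) ^ 2 +
      -1 * (‖ζ - a‖ ^ 2) ^ (-2 : ℝ) * (2 * 1 ^ 2)) - 0) +
      A * (R * (-1 * (-1 - 1) * (‖ζ - a‖ ^ 2) ^ ((-1 : ℝ) - 2) * (2 * (ζ - a).im) ^ 2 +
      -1 * (‖ζ - a‖ ^ 2) ^ (-2 : ℝ) * (2 * 1 ^ 2)) - 0) =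
      A * R * (8 * ((‖ζ - a‖ ^ 2) ^ ((-1 : ℝ) - 2) * ((ζ - a).re ^ 2 + (ζ - a).im ^ 2)) -
        4 * (‖ζ - a‖ ^ 2) ^ (-2 : ℝ)) := by ring
  rw [this, e3, e2]
  ring

namespace Setup

variable {ρ : E n → ℝ} {φ ψ : E n → E n} (S : Setup n ρ φ ψ)

include S

/-- Local disc lemma. -/
theorem disc_local {p₀ : E n} (hp₀ : ρ p₀ = 0) {η : ℝ} (hη0 : 0 < η) (hη1 : η < 1) :
    ∃ δ c : ℝ, 0 < δ ∧ 0 < c ∧ ∀ (G : ℂ → E n) (a : ℂ) (r μ : ℝ), 0 < r → 0 < μ →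
      DifferentiableOn ℂ G (ball a r) → (∀ ζ ∈ ball a r, ρ (G ζ) < 0 ∧ ‖G ζ - p₀‖ < δ) →
      (∀ ζ, ‖ζ - a‖ ≤ r / 4 → μ ≤ -ρ (G ζ)) →
      ∀ ζ ∈ ball a r, c * μ ^ η * ((r - ‖ζ - a‖) / r) ≤ (-ρ (G ζ)) ^ η := by
  obtain ⟨T, δ₀, c₀, M, hδ₀, hc₀, hM, hTall⟩ := S.exists_T hp₀
  have h1η : 0 < 1 - η := by linarith
  set K : ℝ := (M + 1) ^ 2 / (1 - η) with hKdef
  have hK0 : 0 < K := by positivity
  have hK : K * (1 - η) = (M + 1) ^ 2 := by rw [hKdef]; field_simp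
  refine ⟨min δ₀ (min 1 (1 / (4 * K))), c₀ ^ η * (c₀ ^ η / 30), by positivity, by positivity, ?_⟩
  intro G a r μ hr hμ hGd hGm hGi
  have hδ1 : ∀ ζ ∈ ball a r, ‖G ζ - p₀‖ < δ₀ := fun ζ hζ =>
    (hGm ζ hζ).2.trans_le (min_le_left _ _)
  have hδ2 : ∀ ζ ∈ ball a r, ‖G ζ - p₀‖ < 1 := fun ζ hζ =>
    (hGm ζ hζ).2.trans_le ((min_le_right _ _).trans (min_le_left _ _))
  have hδ3 : ∀ ζ ∈ ball a r, 4 * K * ‖G ζ - p₀‖ ≤ 1 := fun ζ hζ => by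
    have h1 := (hGm ζ hζ).2.trans_le ((min_le_right _ _).trans (min_le_right _ _))
    calc 4 * K * ‖G ζ - p₀‖ ≤ 4 * K * (1 / (4 * K)) := by gcongr
      _ = 1 := by field_simp
  have hδ4 : ∀ ζ ∈ ball a r, K * ‖G ζ - p₀‖ ^ 2 ≤ 1 / 2 := fun ζ hζ => by
    have h1 := hδ3 ζ hζ
    have h2 := hδ2 ζ hζ
    have h3 : K * ‖G ζ - p₀‖ ^ 2 ≤ K * ‖G ζ - p₀‖ := by
      have : ‖G ζ - p₀‖ ^ 2 ≤ ‖G ζ - p₀‖ := by nlinarith [norm_nonneg (G ζ - p₀)]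
      gcongr
    linarith
  set u : ℂ → ℝ := fun ζ => T (G ζ) ^ η * (1 - K * ‖G ζ - p₀‖ ^ 2) with hu
  have hTc : ∀ ζ ∈ ball a r, ContDiffAt ℝ 2 T (G ζ) := fun ζ hζ => (hTall _ (hδ1 ζ hζ)).1
  have hTp : ∀ ζ ∈ ball a r, 0 < T (G ζ) ∧ c₀ * T (G ζ) ≤ -ρ (G ζ) ∧ c₀ * (-ρ (G ζ)) ≤ T (G ζ) :=
    fun ζ hζ => (hTall _ (hδ1 ζ hζ)).2.1 (hGm ζ hζ).1
  have hGat : ∀ ζ ∈ ball a r, ∀ᶠ z in 𝓝 ζ, DifferentiableAt ℂ G z := fun ζ hζ => by
    filter_upwards [isOpen_ball.mem_nhds hζ] with z hz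
    exact (hGd z hz).differentiableAt (isOpen_ball.mem_nhds hz)
  have hucont : ContinuousOn u (ball a r) := by
    intro ζ hζ
    have h1 : ContinuousAt G ζ := (hGat ζ hζ).self_of_nhds.continuousAt
    have h2 : ContinuousAt (fun ζ => T (G ζ)) ζ :=
      ContinuousAt.comp (f := G) (g := T) (hTc ζ hζ).continuousAt h1
    have h3 : ContinuousAt (fun ζ => T (G ζ) ^ η) ζ :=
      h2.rpow_const (Or.inl (hTp ζ hζ).1.ne')
    have h4 : ContinuousAt (fun ζ => 1 - K * ‖G ζ - p₀‖ ^ 2) ζ :=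
      continuousAt_const.sub (continuousAt_const.mul ((h1.sub continuousAt_const).norm.pow 2))
    exact (h3.mul h4).continuousWithinAt
  have hu1 : ∀ ζ ∈ ball a r, T (G ζ) ^ η / 2 ≤ u ζ := fun ζ hζ => by
    have h1 := hδ4 ζ hζ
    have h2 : 0 < T (G ζ) ^ η := Real.rpow_pos_of_pos (hTp ζ hζ).1 η
    simp only [hu]
    nlinarith
  have hu2 : ∀ ζ ∈ ball a r, u ζ ≤ T (G ζ) ^ η := fun ζ hζ => by
    have h2 : 0 < T (G ζ) ^ η := Real.rpow_pos_of_pos (hTp ζ hζ).1 η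
    have h3 : 0 ≤ K * ‖G ζ - p₀‖ ^ 2 := by positivity
    simp only [hu]
    nlinarith
  have hupos : ∀ ζ ∈ ball a r, 0 < u ζ := fun ζ hζ => by
    have h2 : 0 < T (G ζ) ^ η := Real.rpow_pos_of_pos (hTp ζ hζ).1 η
    have := hu1 ζ hζ
    linarith
  set m₁ : ℝ := c₀ ^ η * μ ^ η / 2 with hm₁
  have hm₁0 : 0 < m₁ := by positivity
  have hinner : ∀ ζ, ‖ζ - a‖ ≤ r / 4 → m₁ ≤ u ζ := by
    intro ζ hζ
    have hζr : ζ ∈ ball a r := by rw [mem_ball, dist_eq_norm]; linarith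
    have h1 := hGi ζ hζ
    have h2 := (hTp ζ hζr).2.2
    have h3 : c₀ * μ ≤ T (G ζ) := by
      calc c₀ * μ ≤ c₀ * (-ρ (G ζ)) := by gcongr
        _ ≤ _ := h2
    have h4 : c₀ ^ η * μ ^ η ≤ T (G ζ) ^ η := by
      rw [← Real.mul_rpow hc₀.le hμ.le]
      exact Real.rpow_le_rpow (by positivity) h3 hη0.le
    have := hu1 ζ hζr
    rw [hm₁]; linarith
  set A : ℝ := m₁ / 15 with hA
  have hA0 : 0 < A := by positivity
  -- comparison on slightly smaller annuli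
  have hcomp : ∀ r' : ℝ, r / 4 < r' → r' < r → ∀ ζ, r / 4 ≤ ‖ζ - a‖ → ‖ζ - a‖ ≤ r' →
      A * (r' ^ 2 * (‖ζ - a‖ ^ 2) ^ (-1 : ℝ) - 1) ≤ u ζ := by
    intro r' hr'1 hr'2
    have hr'0 : 0 < r' := by linarith
    have hsub : ∀ ζ, ‖ζ - a‖ ≤ r' → ζ ∈ ball a r := fun ζ hζ => by
      rw [mem_ball, dist_eq_norm]; linarith
    refine comparison (u := u) (w := fun ζ => A * (r' ^ 2 * (‖ζ - a‖ ^ 2) ^ (-1 : ℝ) - 1))
      (a := a) hr'1.le ?_ ?_ ?_ ?_ ?_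
    · exact hucont.mono fun ζ hζ => hsub ζ hζ.2
    · intro ζ hζ
      have h1 : 0 < ‖ζ - a‖ := by linarith [hζ.1]
      have h2 : ContinuousAt (fun ζ : ℂ => ‖ζ - a‖ ^ 2) ζ := by fun_prop
      have h3 : ContinuousAt (fun ζ : ℂ => (‖ζ - a‖ ^ 2) ^ (-1 : ℝ)) ζ :=
        h2.rpow_const (Or.inl (by positivity))
      exact (continuousAt_const.mul ((continuousAt_const.mul h3).sub
        continuousAt_const)).continuousWithinAt
    · intro ζ hζ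
      refine le_trans ?_ (hinner ζ hζ.le)
      simp only [hζ]
      rw [Real.rpow_neg_one]
      have h1 : r' ^ 2 * ((r / 4) ^ 2)⁻¹ ≤ 16 := by
        rw [← div_eq_mul_inv, div_le_iff₀ (by positivity)]
        nlinarith
      calc A * (r' ^ 2 * ((r / 4) ^ 2)⁻¹ - 1) ≤ A * (16 - 1) := by gcongr
        _ = m₁ := by rw [hA]; ring
    · intro ζ hζ
      simp only [hζ]
      rw [Real.rpow_neg_one, mul_inv_cancel₀ (by positivity), sub_self, mul_zero]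
      exact (hupos ζ (hsub ζ hζ.le)).le
    · intro ζ hζ1 hζ2
      have hζr := hsub ζ hζ2.le
      have hne : ζ ≠ a := by
        rintro rfl
        rw [sub_self, norm_zero] at hζ1
        linarith
      obtain ⟨d1, d2, d1', d2', H1, H2, H3⟩ := lap_V hη0 hη1 hM.le hK hK0.le (hδ3 ζ hζr)
        (hδ4 ζ hζr) (hGat ζ hζr) (hTc ζ hζr) (hTp ζ hζr).1 (hTall _ (hδ1 ζ hζr)).2.2
      obtain ⟨e1, e2, e1', e2', L1, L2, L3⟩ := barrier_snd hne A (r' ^ 2)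
      refine ⟨_, _, _, _, H1.sub L1, H2.sub L2, ?_⟩
      have h4 : 0 < (‖ζ - a‖ ^ 2) ^ (-2 : ℝ) := by
        apply Real.rpow_pos_of_pos
        have : 0 < ‖ζ - a‖ := by linarith
        positivity
      have h5 : 0 < 4 * A * r' ^ 2 * (‖ζ - a‖ ^ 2) ^ (-2 : ℝ) := by positivity
      linarith
  intro ζ hζ
  have hζn : ‖ζ - a‖ < r := by rwa [mem_ball, dist_eq_norm] at hζ
  have hulow : A * ((r - ‖ζ - a‖) / r) ≤ u ζ := by
    have hfr : (r - ‖ζ - a‖) / r ≤ 1 := by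
      rw [div_le_one hr]; linarith [norm_nonneg (ζ - a)]
    rcases le_or_gt ‖ζ - a‖ (r / 4) with h | h
    · refine le_trans ?_ (hinner ζ h)
      calc A * ((r - ‖ζ - a‖) / r) ≤ A * 1 := by gcongr
        _ ≤ m₁ := by rw [hA]; linarith
    · have hpos : 0 < ‖ζ - a‖ := by linarith
      have hlim : Tendsto (fun r' : ℝ => A * (r' ^ 2 * (‖ζ - a‖ ^ 2) ^ (-1 : ℝ) - 1)) (𝓝[<] r)
          (𝓝 (A * (r ^ 2 * (‖ζ - a‖ ^ 2) ^ (-1 : ℝ) - 1))) := by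
        have : Continuous (fun r' : ℝ => A * (r' ^ 2 * (‖ζ - a‖ ^ 2) ^ (-1 : ℝ) - 1)) := by
          fun_prop
        exact (this.tendsto r).mono_left nhdsWithin_le_nhds
      have hle : A * (r ^ 2 * (‖ζ - a‖ ^ 2) ^ (-1 : ℝ) - 1) ≤ u ζ := by
        refine le_of_tendsto hlim ?_
        filter_upwards [Ioo_mem_nhdsLT hζn] with r' hr'
        exact hcomp r' (by linarith [hr'.1]) hr'.2 ζ h.le hr'.1.le
      refine le_trans ?_ hle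
      apply mul_le_mul_of_nonneg_left _ hA0.le
      rw [Real.rpow_neg_one, div_le_iff₀ hr, ← div_eq_mul_inv]
      have h6 : r ^ 2 / ‖ζ - a‖ ^ 2 - 1 = (r - ‖ζ - a‖) * (r + ‖ζ - a‖) / ‖ζ - a‖ ^ 2 := by
        field_simp
        ring
      rw [h6, div_mul_eq_mul_div, le_div_iff₀ (by positivity)]
      have h7 : 0 < r - ‖ζ - a‖ := by linarith
      have h8 : ‖ζ - a‖ ^ 2 ≤ (r + ‖ζ - a‖) * r := by nlinarith
      calc (r - ‖ζ - a‖) * ‖ζ - a‖ ^ 2 ≤ (r - ‖ζ - a‖) * ((r + ‖ζ - a‖) * r) := by gcongr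
        _ = _ := by ring
  have h1 := hu2 ζ hζ
  have h2 := (hTp ζ hζ).2.1
  have h3 : c₀ ^ η * T (G ζ) ^ η ≤ (-ρ (G ζ)) ^ η := by
    rw [← Real.mul_rpow hc₀.le (hTp ζ hζ).1.le]
    exact Real.rpow_le_rpow (mul_nonneg hc₀.le (hTp ζ hζ).1.le) h2 hη0.le
  calc c₀ ^ η * (c₀ ^ η / 30) * μ ^ η * ((r - ‖ζ - a‖) / r)
      = c₀ ^ η * (A * ((r - ‖ζ - a‖) / r)) := by rw [hA, hm₁]; ring
    _ ≤ c₀ ^ η * T (G ζ) ^ η := by
      apply mul_le_mul_of_nonneg_left (hulow.trans h1) (by positivity)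
    _ ≤ _ := h3

/-- Points near the boundary. -/
lemma exists_near {δ : ℝ} (hδ : 0 < δ) : ∃ ε : ℝ, 0 < ε ∧ ∀ x, ρ x < 0 → -ρ x < ε →
    ∃ z ∈ closure {x | ρ x < 0} ∩ {x | ρ x = 0}, ‖x - z‖ < δ := by
  set Z : Set (E n) := closure {x | ρ x < 0} ∩ {x | ρ x = 0} with hZ
  set K : Set (E n) := closure {x | ρ x < 0} \ ⋃ z ∈ Z, ball z δ with hK
  have hKc : IsCompact K := S.isCompact_closure.diff (isOpen_biUnion fun z _ => isOpen_ball)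
  have hle : ∀ x ∈ closure {x | ρ x < 0}, ρ x ≤ 0 := by
    intro x hx
    have h1 : closure {x | ρ x < 0} ⊆ {x | ρ x ≤ 0} :=
      closure_minimal (fun x (hx : ρ x < 0) => (hx.le : ρ x ≤ 0))
        (isClosed_le S.cont continuous_const)
    exact h1 hx
  rcases K.eq_empty_or_nonempty with h | h
  · refine ⟨1, one_pos, fun x hx _ => ?_⟩
    by_contra hne
    have hxK : x ∈ K := by
      refine ⟨subset_closure hx, ?_⟩
      intro hmem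
      rw [mem_iUnion₂] at hmem
      obtain ⟨z, hz, hz'⟩ := hmem
      exact hne ⟨z, hz, by rwa [mem_ball, dist_eq_norm] at hz'⟩
    rw [h] at hxK
    exact hxK
  · obtain ⟨x₀, hx₀, hmin⟩ := hKc.exists_isMinOn h S.cont.neg.continuousOn
    have hx0 : ρ x₀ < 0 := by
      rcases (hle x₀ hx₀.1).lt_or_eq with h1 | h1
      · exact h1
      · exfalso
        apply hx₀.2
        rw [mem_iUnion₂]
        exact ⟨x₀, ⟨hx₀.1, h1⟩, mem_ball_self hδ⟩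
    refine ⟨-ρ x₀, by linarith, fun x hx hlt => ?_⟩
    by_contra hne
    have hxK : x ∈ K := by
      refine ⟨subset_closure hx, ?_⟩
      intro hmem
      rw [mem_iUnion₂] at hmem
      obtain ⟨z, hz, hz'⟩ := hmem
      exact hne ⟨z, hz, by rwa [mem_ball, dist_eq_norm] at hz'⟩
    have : -ρ x₀ ≤ -ρ x := hmin hxK
    linarith

/-- Uniform disc lemma. -/
theorem disc_lemma {η : ℝ} (hη0 : 0 < η) (hη1 : η < 1) :
    ∃ δ c ε : ℝ, 0 < δ ∧ 0 < c ∧ 0 < ε ∧ ∀ x, ρ x < 0 → -ρ x < ε →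
      ∀ (G : ℂ → E n) (a : ℂ) (r μ : ℝ), 0 < r → 0 < μ →
      DifferentiableOn ℂ G (ball a r) → (∀ ζ ∈ ball a r, ρ (G ζ) < 0 ∧ ‖G ζ - x‖ < δ) →
      (∀ ζ, ‖ζ - a‖ ≤ r / 4 → μ ≤ -ρ (G ζ)) →
      ∀ ζ ∈ ball a r, c * μ ^ η * ((r - ‖ζ - a‖) / r) ≤ (-ρ (G ζ)) ^ η := by
  set Z : Set (E n) := closure {x | ρ x < 0} ∩ {x | ρ x = 0} with hZ
  have hZc : IsCompact Z :=
    S.isCompact_closure.inter_right (isClosed_eq S.cont continuous_const)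
  set P : Set (E n) → Prop := fun s => ∃ δ c : ℝ, 0 < δ ∧ 0 < c ∧ ∀ x ∈ s,
      ∀ (G : ℂ → E n) (a : ℂ) (r μ : ℝ), 0 < r → 0 < μ →
      DifferentiableOn ℂ G (ball a r) → (∀ ζ ∈ ball a r, ρ (G ζ) < 0 ∧ ‖G ζ - x‖ < δ) →
      (∀ ζ, ‖ζ - a‖ ≤ r / 4 → μ ≤ -ρ (G ζ)) →
      ∀ ζ ∈ ball a r, c * μ ^ η * ((r - ‖ζ - a‖) / r) ≤ (-ρ (G ζ)) ^ η with hP
  have hPZ : P Z := by
    refine hZc.induction_on (p := P) ?_ ?_ ?_ ?_
    · exact ⟨1, 1, one_pos, one_pos, fun x hx => absurd hx (notMem_empty x)⟩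
    · rintro s t hst ⟨δ, c, hδ, hc, h⟩
      exact ⟨δ, c, hδ, hc, fun x hx => h x (hst hx)⟩
    · rintro s t ⟨δ, c, hδ, hc, h⟩ ⟨δ', c', hδ', hc', h'⟩
      refine ⟨min δ δ', min c c', by positivity, by positivity, ?_⟩
      intro x hx G a r μ hr hμ hG hGm hGi ζ hζ
      have hfr : 0 ≤ μ ^ η * ((r - ‖ζ - a‖) / r) := by
        have h1 : 0 ≤ r - ‖ζ - a‖ := by
          rw [mem_ball, dist_eq_norm] at hζ; linarith
        positivity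
      rcases hx with hx | hx
      · have h2 := h x hx G a r μ hr hμ hG
          (fun ζ hζ => ⟨(hGm ζ hζ).1, (hGm ζ hζ).2.trans_le (min_le_left _ _)⟩) hGi ζ hζ
        refine le_trans ?_ h2
        rw [mul_assoc, mul_assoc]
        exact mul_le_mul_of_nonneg_right (min_le_left _ _) hfr
      · have h2 := h' x hx G a r μ hr hμ hG
          (fun ζ hζ => ⟨(hGm ζ hζ).1, (hGm ζ hζ).2.trans_le (min_le_right _ _)⟩) hGi ζ hζ
        refine le_trans ?_ h2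
        rw [mul_assoc, mul_assoc]
        exact mul_le_mul_of_nonneg_right (min_le_right _ _) hfr
    · intro p hp
      obtain ⟨δ, c, hδ, hc, h⟩ := S.disc_local hp.2 hη0 hη1
      refine ⟨ball p (δ / 2), mem_nhdsWithin_of_mem_nhds (ball_mem_nhds p (by positivity)),
        δ / 2, c, by positivity, hc, ?_⟩
      intro x hx G a r μ hr hμ hG hGm hGi
      refine h G a r μ hr hμ hG (fun ζ hζ => ⟨(hGm ζ hζ).1, ?_⟩) hGi
      rw [mem_ball, dist_eq_norm] at hx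
      calc ‖G ζ - p‖ = ‖(G ζ - x) + (x - p)‖ := by congr 1; abel
        _ ≤ ‖G ζ - x‖ + ‖x - p‖ := norm_add_le _ _
        _ < δ := by linarith [(hGm ζ hζ).2]
  obtain ⟨δ, c, hδ, hc, h⟩ := hPZ
  obtain ⟨ε, hε, hnear⟩ := S.exists_near (δ := δ / 2) (by positivity)
  refine ⟨δ / 2, c, ε, by positivity, hc, hε, ?_⟩
  intro x hx hxε G a r μ hr hμ hG hGm hGi
  obtain ⟨z, hz, hxz⟩ := hnear x hx hxε
  refine h z hz G a r μ hr hμ hG (fun ζ hζ => ⟨(hGm ζ hζ).1, ?_⟩) hGi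
  calc ‖G ζ - z‖ = ‖(G ζ - x) + (x - z)‖ := by congr 1; abel
    _ ≤ ‖G ζ - x‖ + ‖x - z‖ := norm_add_le _ _
    _ < δ := by linarith [(hGm ζ hζ).2]

end Setup

end Pool.Agent.Ball44
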