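import Mathlib
import Pool.Agent.Helper44_Ball.DiscLemma
import Pool.Agent.Helper44_Ball.Dichotomy

/-! Polynomial lower bound and finite vanishing order of the Jacobian. -/

set_option autoImplicit false
set_option maxSynthPendingDepth 3
open Set Metric Filter Topology MeasureTheory

namespace Pool.Agent.Ball44

variable {n : ℕ}

namespace Setup

variable {ρ : E n → ℝ} {φ ψ : E n → E n} (S : Setup n ρ φ ψ)

include S

/-- Compactness lower bound away from the sphere. -/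
lemma exists_lower_compact {r : ℝ} (hr : r < 1) : ∃ m : ℝ, 0 < m ∧ ∀ z : E n, ‖z‖ ≤ r →
    m ≤ -ρ (φ z) := by
  rcases lt_or_ge r 0 with h | h
  · exact ⟨1, one_pos, fun z hz => absurd (norm_nonneg z) (by linarith)⟩
  have hsub : closedBall (0 : E n) r ⊆ ball 0 1 := closedBall_subset_ball hr
  obtain ⟨z₀, hz₀, hmin⟩ := (isCompact_closedBall (0 : E n) r).exists_isMinOn
    ⟨0, mem_closedBall_self h⟩
    ((S.cont.comp_continuousOn (S.continuousOn_φ.mono hsub)).neg)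
  refine ⟨-ρ (φ z₀), by linarith [S.ρφ_neg (hsub hz₀)], fun z hz => ?_⟩
  exact hmin (mem_closedBall_zero_iff.2 hz)

/-- Local Lipschitz estimate. -/
lemma slice_lip : ∃ R : ℝ, 0 < R ∧ ∀ (e : E n) (ζ₀ ζ : ℂ), ‖e‖ = 1 → ‖ζ₀‖ < 1 →
    ‖ζ - ζ₀‖ < 1 - ‖ζ₀‖ →
    ‖φ (ζ • e) - φ (ζ₀ • e)‖ ≤ R / (1 - ‖ζ₀‖) * ‖ζ - ζ₀‖ := by
  obtain ⟨R, hR, hR'⟩ := S.exists_radius
  refine ⟨2 * R, by positivity, fun e ζ₀ ζ he h0 hζ => ?_⟩
  have hmem : ∀ z ∈ ball ζ₀ (1 - ‖ζ₀‖), z • e ∈ ball (0 : E n) 1 := by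
    intro z hz
    rw [mem_ball, dist_eq_norm] at hz
    rw [mem_ball_zero_iff, norm_smul, he, mul_one]
    calc ‖z‖ = ‖(z - ζ₀) + ζ₀‖ := by congr 1; ring
      _ ≤ ‖z - ζ₀‖ + ‖ζ₀‖ := norm_add_le _ _
      _ < 1 := by linarith
  have hd : DifferentiableOn ℂ (fun z : ℂ => φ (z • e)) (ball ζ₀ (1 - ‖ζ₀‖)) := by
    intro z hz
    have h1 := S.φ_diffAt (hmem z hz)
    have h2 : DifferentiableAt ℂ (fun z : ℂ => z • e) z := differentiableAt_id.smul_const e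
    exact (DifferentiableAt.comp (g := φ) z h1 h2).differentiableWithinAt
  have hmaps : MapsTo (fun z : ℂ => φ (z • e)) (ball ζ₀ (1 - ‖ζ₀‖))
      (ball ((fun z : ℂ => φ (z • e)) ζ₀) (2 * R)) := by
    intro z hz
    rw [mem_ball, dist_eq_norm]
    have h1 := hR' _ (S.mφ (hmem z hz))
    have h2 := hR' _ (S.mφ (hmem ζ₀ (mem_ball_self (by linarith))))
    calc ‖φ (z • e) - φ (ζ₀ • e)‖ ≤ ‖φ (z • e)‖ + ‖φ (ζ₀ • e)‖ := norm_sub_le _ _
      _ < 2 * R := by linarith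
  have h := Complex.dist_le_div_mul_dist_of_mapsTo_ball hd (hmaps.mono_right ball_subset_closedBall)
    (show ζ ∈ ball ζ₀ (1 - ‖ζ₀‖) by rw [mem_ball, dist_eq_norm]; exact hζ)
  rwa [dist_eq_norm, dist_eq_norm] at h

theorem chain_lower : ∃ lam c₂ c₀ : ℝ, 1 < lam ∧ 0 < c₂ ∧ c₂ ≤ 1 ∧ 0 < c₀ ∧
    ∀ k : ℕ, ∀ z : E n, ‖z‖ < 1 → (lam⁻¹) ^ k ≤ 1 - ‖z‖ → c₀ * c₂ ^ k ≤ -ρ (φ z) := by
  obtain ⟨δ, c, ε, hδ, hc, hε, hdisc⟩ := S.disc_lemma (η := 1 / 2) (by norm_num) (by norm_num)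
  obtain ⟨R, hR, hlip⟩ := S.slice_lip
  obtain ⟨m, hm, hm'⟩ := S.exists_lower_compact (r := 1 / 2) (by norm_num)
  obtain ⟨κ, hκ0, hκ1, hκ2⟩ : ∃ κ : ℝ, 0 < κ ∧ κ ≤ 1 / 8 ∧ 3 * R * κ < δ := by
    refine ⟨min (1 / 8) (δ / (6 * R)), by positivity, min_le_left _ _, ?_⟩
    calc 3 * R * min (1 / 8) (δ / (6 * R)) ≤ 3 * R * (δ / (6 * R)) := by
          apply mul_le_mul_of_nonneg_left (min_le_right _ _) (by positivity)
      _ = δ / 2 := by field_simp; norm_num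
      _ < δ := by linarith
  refine ⟨1 + κ / 2, min 1 (c ^ 2 / 4), min ε m, by linarith, by positivity, min_le_left _ _,
    by positivity, ?_⟩
  set lam : ℝ := 1 + κ / 2 with hlam
  set c₂ : ℝ := min 1 (c ^ 2 / 4) with hc₂
  set c₀ : ℝ := min ε m with hc₀
  have hlam1 : 1 < lam := by rw [hlam]; linarith
  have hc₂0 : 0 < c₂ := by positivity
  have hc₂1 : c₂ ≤ 1 := min_le_left _ _
  have hc₀0 : 0 < c₀ := by positivity
  intro k
  induction k with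
  | zero =>
    intro z hz h1
    rw [pow_zero] at h1
    have h2 := hm' z (by linarith)
    rw [pow_zero, mul_one]
    exact (min_le_right _ _).trans h2
  | succ k ih =>
    intro z hz h1
    have hpow : c₀ * c₂ ^ (k + 1) ≤ c₀ := by
      have : c₂ ^ (k + 1) ≤ 1 := pow_le_one₀ hc₂0.le hc₂1
      nlinarith
    have hpow' : c₀ * c₂ ^ (k + 1) ≤ c₀ * c₂ ^ k := by
      rw [pow_succ]
      have : 0 < c₀ * c₂ ^ k := by positivity
      nlinarith
    by_cases hA : (lam⁻¹) ^ k ≤ 1 - ‖z‖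
    · exact hpow'.trans (ih z hz hA)
    push Not at hA
    by_cases hB : ‖z‖ ≤ 1 / 2
    · exact hpow.trans ((min_le_right _ _).trans (hm' z hB))
    push Not at hB
    by_cases hC : ε ≤ -ρ (φ z)
    · exact hpow.trans ((min_le_left _ _).trans hC)
    push Not at hC
    obtain ⟨t, ht⟩ : ∃ t : ℝ, t = 1 - ‖z‖ := ⟨_, rfl⟩
    have ht0 : 0 < t := by linarith
    have ht1 : t < 1 / 2 := by linarith
    have hzn : 0 < ‖z‖ := by linarith
    set e : E n := ((‖z‖⁻¹ : ℝ) : ℂ) • z with he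
    have he1 : ‖e‖ = 1 := by
      rw [he, norm_smul, Complex.norm_real, norm_inv, norm_norm, inv_mul_cancel₀ hzn.ne']
    have hez : ((‖z‖ : ℝ) : ℂ) • e = z := by
      rw [he, smul_smul, ← Complex.ofReal_mul, mul_inv_cancel₀ hzn.ne', Complex.ofReal_one,
        one_smul]
    have hκt : κ * t < 1 / 2 := by nlinarith
    set a : ℂ := ((‖z‖ - κ * t : ℝ) : ℂ) with ha
    have han : ‖a‖ = ‖z‖ - κ * t := by
      rw [ha, Complex.norm_real, Real.norm_eq_abs, abs_of_nonneg (by linarith)]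
    have hr : 0 < 2 * κ * t := by positivity
    have hin : ∀ ζ ∈ ball a (2 * κ * t), ζ • e ∈ ball (0 : E n) 1 := by
      intro ζ hζ
      rw [mem_ball, dist_eq_norm] at hζ
      rw [mem_ball_zero_iff, norm_smul, he1, mul_one]
      have h3 : ‖ζ‖ ≤ ‖ζ - a‖ + ‖a‖ := by
        have := norm_add_le (ζ - a) a
        rwa [sub_add_cancel] at this
      have h4 : κ * t < t := by nlinarith
      linarith
    have hμ : 0 < c₀ * c₂ ^ k := by positivity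
    have hza : ‖((‖z‖ : ℝ) : ℂ) - a‖ = κ * t := by
      rw [ha, ← Complex.ofReal_sub, Complex.norm_real, Real.norm_eq_abs, sub_sub_cancel,
        abs_of_pos (by positivity)]
    have hres := hdisc (φ z) (S.mφ (mem_ball_zero_iff.2 hz)) hC (fun ζ => φ (ζ • e)) a
      (2 * κ * t) (c₀ * c₂ ^ k) hr hμ ?_ ?_ ?_ ((‖z‖ : ℝ) : ℂ) ?_
    · rw [hza] at hres
      simp only [hez] at hres
      have h5 : (2 * κ * t - κ * t) / (2 * κ * t) = 1 / 2 := by field_simp; norm_num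
      rw [h5, ← Real.sqrt_eq_rpow, ← Real.sqrt_eq_rpow] at hres
      have hX : 0 < -ρ (φ z) := by linarith [S.ρφ_neg (mem_ball_zero_iff.2 hz)]
      have h6 : (c * Real.sqrt (c₀ * c₂ ^ k) * (1 / 2)) ^ 2 ≤ (Real.sqrt (-ρ (φ z))) ^ 2 :=
        pow_le_pow_left₀ (by positivity) hres 2
      rw [Real.sq_sqrt hX.le, mul_pow, mul_pow, Real.sq_sqrt hμ.le] at h6
      have h7 : c₂ ≤ c ^ 2 / 4 := min_le_right _ _
      calc c₀ * c₂ ^ (k + 1) = c₂ * (c₀ * c₂ ^ k) := by ring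
        _ ≤ c ^ 2 / 4 * (c₀ * c₂ ^ k) := by gcongr
        _ = c ^ 2 * (c₀ * c₂ ^ k) * (1 / 2) ^ 2 := by ring
        _ ≤ _ := h6
    · intro ζ hζ
      have h1 := S.φ_diffAt (hin ζ hζ)
      have h2 : DifferentiableAt ℂ (fun z : ℂ => z • e) ζ := differentiableAt_id.smul_const e
      exact (DifferentiableAt.comp (g := φ) ζ h1 h2).differentiableWithinAt
    · intro ζ hζ
      refine ⟨S.ρφ_neg (hin ζ hζ), ?_⟩
      rw [mem_ball, dist_eq_norm] at hζ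
      have h3 : ‖ζ - ((‖z‖ : ℝ) : ℂ)‖ < 3 * κ * t := by
        calc ‖ζ - ((‖z‖ : ℝ) : ℂ)‖ = ‖(ζ - a) - (((‖z‖ : ℝ) : ℂ) - a)‖ := by congr 1; ring
          _ ≤ ‖ζ - a‖ + ‖((‖z‖ : ℝ) : ℂ) - a‖ := norm_sub_le _ _
          _ < 3 * κ * t := by rw [hza]; linarith
      have hzz : ‖((‖z‖ : ℝ) : ℂ)‖ = ‖z‖ := by rw [Complex.norm_real, norm_norm]
      have h4 := hlip e ((‖z‖ : ℝ) : ℂ) ζ he1 (by rw [hzz]; exact hz) (by
        rw [hzz, ← ht]; nlinarith)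
      rw [hzz, hez, ← ht] at h4
      calc ‖φ (ζ • e) - φ z‖ ≤ R / t * ‖ζ - ((‖z‖ : ℝ) : ℂ)‖ := h4
        _ ≤ R / t * (3 * κ * t) := by gcongr
        _ = 3 * R * κ := by field_simp
        _ < δ := hκ2
    · intro ζ hζ
      have h3 : ‖ζ • e‖ ≤ ‖z‖ - κ * t + κ * t / 2 := by
        rw [norm_smul, he1, mul_one]
        have := norm_add_le (ζ - a) a
        rw [sub_add_cancel] at this
        linarith
      have h4 : lam * t ≤ 1 - ‖ζ • e‖ := by rw [hlam]; linarith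
      have h5 : (lam⁻¹) ^ k ≤ lam * t := by
        rw [pow_succ] at h1
        have hl0 : 0 < lam := by linarith
        have h6 : lam * ((lam⁻¹) ^ k * lam⁻¹) ≤ lam * t := by
          rw [ht]; exact mul_le_mul_of_nonneg_left h1 hl0.le
        have h7 : lam * ((lam⁻¹) ^ k * lam⁻¹) = (lam⁻¹) ^ k := by field_simp
        linarith
      refine ih (ζ • e) ?_ (h5.trans h4)
      have : 0 < lam * t := by positivity
      linarith
    · rw [mem_ball, dist_eq_norm, hza]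
      nlinarith

/-- The vanishing order is finite. -/
theorem exists_not_VO {q : E n} (hq : ‖q‖ = 1) : ∃ j, ¬ VO φ q j := by
  by_contra hall
  push Not at hall
  obtain ⟨lam, c₂, c₀, hlam, hc₂, hc₂1, hc₀, hlow⟩ := S.chain_lower
  obtain ⟨C, hC, hup⟩ := S.exists_upper_jac
  obtain ⟨j, hj⟩ := pow_unbounded_of_one_lt (2 / c₂ ^ (n + 1)) hlam
  have hj' : 2 ≤ c₂ ^ (n + 1) * lam ^ j := by
    rw [div_lt_iff₀ (by positivity)] at hj
    linarith
  obtain ⟨Cj, hCj, hVO⟩ := hall j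
  have hbound : ∀ k : ℕ, 1 ≤ k → c₀ ^ (n + 1) * 2 ^ k ≤ (C * Cj) ^ 2 := by
    intro k hk
    obtain ⟨t, ht⟩ : ∃ t : ℝ, t = (lam⁻¹) ^ k := ⟨_, rfl⟩
    have hli : lam⁻¹ < 1 := inv_lt_one_of_one_lt₀ hlam
    have ht0 : 0 < t := by rw [ht]; positivity
    have ht1 : t < 1 := by rw [ht]; exact pow_lt_one₀ (by positivity) hli (by omega)
    set z : E n := ((1 - t : ℝ) : ℂ) • q with hz
    have hzn : ‖z‖ = 1 - t := by
      rw [hz, norm_smul, hq, mul_one, Complex.norm_real, Real.norm_eq_abs,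
        abs_of_nonneg (by linarith)]
    have hz1 : ‖z‖ < 1 := by rw [hzn]; linarith
    have hzb := mem_ball_zero_iff.2 hz1
    have hip : ‖1 - ip q z‖ = t := by
      rw [hz, ip_smul_right, ip_self, hq, Complex.conj_ofReal]
      have : (1 : ℂ) - ((1 - t : ℝ) : ℂ) * ((1 ^ 2 : ℝ) : ℂ) = (t : ℂ) := by push_cast; ring
      rw [this, Complex.norm_real, Real.norm_eq_abs, abs_of_pos ht0]
    have h1 := hlow k z hz1 (by rw [hzn, ← ht]; linarith)
    have h2 := hup z hzb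
    have h3 := hVO z hzb
    rw [hip] at h3
    rw [hzn, sub_sub_cancel] at h2
    have hX : 0 < -ρ (φ z) := by linarith [S.ρφ_neg hzb]
    have hs1 : Real.sqrt t ≤ 1 := Real.sqrt_le_one.2 ht1.le
    have hs0 : 0 < Real.sqrt t := Real.sqrt_pos.2 ht0
    have h4 : (Real.sqrt (-ρ (φ z))) ^ (n + 1) ≤ (C * Cj) * (Real.sqrt t) ^ j := by
      calc (Real.sqrt (-ρ (φ z))) ^ (n + 1) ≤ C * ‖jac φ z‖ * (Real.sqrt t) ^ (n + 1) := h2
        _ ≤ C * (Cj * (Real.sqrt t) ^ j) * 1 := by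
          have : (Real.sqrt t) ^ (n + 1) ≤ 1 := pow_le_one₀ hs0.le hs1
          gcongr
        _ = _ := by ring
    have h5 : ((Real.sqrt (-ρ (φ z))) ^ (n + 1)) ^ 2 ≤ ((C * Cj) * (Real.sqrt t) ^ j) ^ 2 :=
      pow_le_pow_left₀ (by positivity) h4 2
    rw [← pow_mul, mul_comm (n + 1) 2, pow_mul, Real.sq_sqrt hX.le, mul_pow, ← pow_mul,
      mul_comm j 2, pow_mul, Real.sq_sqrt ht0.le] at h5
    have h6 : (c₀ * c₂ ^ k) ^ (n + 1) ≤ (C * Cj) ^ 2 * t ^ j :=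
      (pow_le_pow_left₀ (by positivity) h1 (n + 1)).trans h5
    have h7 : t ^ j * (lam ^ j) ^ k = 1 := by
      rw [ht, ← pow_mul, ← pow_mul, mul_comm j k, ← mul_pow,
        inv_mul_cancel₀ (by positivity), one_pow]
    have h8 : (c₀ * c₂ ^ k) ^ (n + 1) * (lam ^ j) ^ k ≤ (C * Cj) ^ 2 := by
      calc (c₀ * c₂ ^ k) ^ (n + 1) * (lam ^ j) ^ k ≤ ((C * Cj) ^ 2 * t ^ j) * (lam ^ j) ^ k := by
            gcongr
        _ = (C * Cj) ^ 2 * (t ^ j * (lam ^ j) ^ k) := by ring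
        _ = _ := by rw [h7, mul_one]
    calc c₀ ^ (n + 1) * 2 ^ k ≤ c₀ ^ (n + 1) * (c₂ ^ (n + 1) * lam ^ j) ^ k := by gcongr
      _ = (c₀ * c₂ ^ k) ^ (n + 1) * (lam ^ j) ^ k := by
        rw [mul_pow, mul_pow, ← pow_mul, ← pow_mul, mul_comm (n + 1) k]
        ring
      _ ≤ _ := h8
  obtain ⟨k, hk⟩ := pow_unbounded_of_one_lt ((C * Cj) ^ 2 / c₀ ^ (n + 1)) (show (1 : ℝ) < 2 by norm_num)
  have h1 := hbound (k + 1) (by omega)
  rw [div_lt_iff₀ (by positivity)] at hk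
  have h2 : (2 : ℝ) ^ k ≤ 2 ^ (k + 1) := pow_le_pow_right₀ (by norm_num) (by omega)
  have h3 : c₀ ^ (n + 1) * 2 ^ k ≤ c₀ ^ (n + 1) * 2 ^ (k + 1) := by gcongr
  linarith

lemma exists_critical {q : E n} (hq : ‖q‖ = 1) : ∃ j, VO φ q j ∧ ¬ VO φ q (j + 1) := by
  classical
  have hex := S.exists_not_VO hq
  have h1 := Nat.find_spec hex
  have h2 : Nat.find hex ≠ 0 := by
    intro h0
    rw [h0] at h1
    exact h1 (S.VO_zero q)
  obtain ⟨j, hj⟩ := Nat.exists_eq_succ_of_ne_zero h2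
  refine ⟨j, ?_, ?_⟩
  · have := Nat.find_min hex (m := j) (by omega)
    push Not at this
    exact this
  · rw [hj] at h1
    exact h1

end Setup

end Pool.Agent.Ball44
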