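import Mathlib
import Pool.Agent.Helper44_Ball.Chain

/-! The Jacobian is bounded away from zero and the biholomorphism is Hölder continuous. -/

set_option autoImplicit false
set_option maxSynthPendingDepth 3
open Set Metric Filter Topology MeasureTheory

namespace Pool.Agent.Ball44

variable {n : ℕ}

/-- The conclusion of the disc lemma. -/
def DiscEst (ρ : E n → ℝ) (η δ c ε : ℝ) : Prop :=
  ∀ x, ρ x < 0 → -ρ x < ε →
      ∀ (G : ℂ → E n) (a : ℂ) (r μ : ℝ), 0 < r → 0 < μ →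
      DifferentiableOn ℂ G (ball a r) → (∀ ζ ∈ ball a r, ρ (G ζ) < 0 ∧ ‖G ζ - x‖ < δ) →
      (∀ ζ, ‖ζ - a‖ ≤ r / 4 → μ ≤ -ρ (G ζ)) →
      ∀ ζ ∈ ball a r, c * μ ^ η * ((r - ‖ζ - a‖) / r) ≤ (-ρ (G ζ)) ^ η

lemma power_contradiction (n : ℕ) {c₁ C₂ τ₁ : ℝ} (hc₁ : 0 < c₁) (hC₂ : 0 < C₂) (hτ₁ : 0 < τ₁)
    (X : ℝ → ℝ) (hX : ∀ τ, 0 < τ → τ < τ₁ → 0 < X τ)
    (h1 : ∀ τ, 0 < τ → τ < τ₁ → c₁ * τ ≤ (X τ) ^ (((n : ℝ) + 2) / (n + 3)))
    (h2 : ∀ τ, 0 < τ → τ < τ₁ → (Real.sqrt (X τ)) ^ (n + 1) ≤ C₂ * τ * (Real.sqrt τ) ^ (n + 1)) :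
    False := by
  have key : ∀ τ, 0 < τ → τ < τ₁ → τ < 1 →
      c₁ ^ ((n + 3) * (n + 1)) ≤ (C₂ ^ 2) ^ (n + 2) * τ := by
    intro τ h0 hτ hτ1
    have hXp := hX τ h0 hτ
    have a1 : (c₁ * τ) ^ (n + 3) ≤ (X τ) ^ (n + 2) := by
      have e1 := pow_le_pow_left₀ (by positivity) (h1 τ h0 hτ) (n + 3)
      have e2 : ((X τ) ^ (((n : ℝ) + 2) / (n + 3))) ^ (n + 3) = (X τ) ^ (n + 2) := by
        rw [← Real.rpow_natCast, ← Real.rpow_mul hXp.le, ← Real.rpow_natCast]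
        congr 1
        push_cast
        field_simp
      rwa [e2] at e1
    have a2 : (X τ) ^ (n + 1) ≤ C₂ ^ 2 * τ ^ (n + 3) := by
      have e1 := pow_le_pow_left₀ (by positivity) (h2 τ h0 hτ) 2
      rw [← pow_mul, mul_comm (n + 1) 2, pow_mul, Real.sq_sqrt hXp.le, mul_pow, mul_pow, ← pow_mul,
        mul_comm (n + 1) 2, pow_mul, Real.sq_sqrt h0.le] at e1
      calc (X τ) ^ (n + 1) ≤ C₂ ^ 2 * τ ^ 2 * τ ^ (n + 1) := e1
        _ = _ := by ring
    have a3 : (c₁ * τ) ^ ((n + 3) * (n + 1)) ≤ (C₂ ^ 2) ^ (n + 2) * τ ^ ((n + 3) * (n + 2)) := by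
      calc (c₁ * τ) ^ ((n + 3) * (n + 1)) = ((c₁ * τ) ^ (n + 3)) ^ (n + 1) := by rw [pow_mul]
        _ ≤ ((X τ) ^ (n + 2)) ^ (n + 1) := by gcongr
        _ = ((X τ) ^ (n + 1)) ^ (n + 2) := by rw [← pow_mul, ← pow_mul, mul_comm]
        _ ≤ (C₂ ^ 2 * τ ^ (n + 3)) ^ (n + 2) := by gcongr
        _ = _ := by rw [mul_pow, ← pow_mul τ]
    have a4 : τ ^ ((n + 3) * (n + 2)) = τ ^ ((n + 3) * (n + 1)) * τ ^ (n + 3) := by
      rw [← pow_add]; ring_nf
    rw [a4, mul_pow] at a3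
    have a5 : 0 < τ ^ ((n + 3) * (n + 1)) := by positivity
    have a6 : c₁ ^ ((n + 3) * (n + 1)) ≤ (C₂ ^ 2) ^ (n + 2) * τ ^ (n + 3) := by
      refine le_of_mul_le_mul_right ?_ a5
      calc c₁ ^ ((n + 3) * (n + 1)) * τ ^ ((n + 3) * (n + 1)) ≤ _ := a3
        _ = _ := by ring
    refine a6.trans ?_
    have a7 : τ ^ (n + 3) ≤ τ := by
      calc τ ^ (n + 3) = τ ^ (n + 2) * τ := pow_succ _ _
        _ ≤ 1 * τ := by
          have : τ ^ (n + 2) ≤ 1 := pow_le_one₀ h0.le hτ1.le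
          gcongr
        _ = τ := one_mul τ
    gcongr
  set L : ℝ := c₁ ^ ((n + 3) * (n + 1)) with hL
  set K : ℝ := (C₂ ^ 2) ^ (n + 2) with hK
  have hL0 : 0 < L := by positivity
  have hK0 : 0 < K := by positivity
  have h3 := key (min (τ₁ / 2) (min (1 / 2) (L / (2 * K)))) (by positivity)
    ((min_le_left _ _).trans_lt (by linarith))
    (((min_le_right _ _).trans (min_le_left _ _)).trans_lt (by norm_num))
  have h4 : K * min (τ₁ / 2) (min (1 / 2) (L / (2 * K))) ≤ K * (L / (2 * K)) := by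
    apply mul_le_mul_of_nonneg_left _ hK0.le
    exact (min_le_right _ _).trans (min_le_right _ _)
  have h5 : K * (L / (2 * K)) = L / 2 := by field_simp
  linarith

namespace Setup

variable {ρ : E n → ℝ} {φ ψ : E n → E n} (S : Setup n ρ φ ψ)

include S

/-- Estimate on tangent discs. -/
lemma tangent_lower {η δ c ε : ℝ} (hD : DiscEst ρ η δ c ε) {q : E n} (hq : ‖q‖ = 1) {s : ℝ}
    (hs0 : 0 < s) (hs1 : s ≤ 1)
    (ha : ∀ ω : ℂ, ‖ω - s‖ < s → ‖φ ((1 - ω) • q) - φ ((1 - (s : ℂ)) • q)‖ < δ)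
    (hb : -ρ (φ ((1 - (s : ℂ)) • q)) < ε) {μ : ℝ} (hμ : 0 < μ)
    (hμ' : ∀ z : E n, ‖z‖ ≤ 1 - 3 * s / 4 → μ ≤ -ρ (φ z)) :
    ∀ τ : ℝ, 0 < τ → τ ≤ s → c * μ ^ η * (τ / s) ≤ (-ρ (φ ((1 - (τ : ℂ)) • q))) ^ η := by
  intro τ hτ0 hτs
  have hs' : ‖(1 : ℂ) - s‖ = 1 - s := by
    rw [← Complex.ofReal_one, ← Complex.ofReal_sub, Complex.norm_real, Real.norm_eq_abs,
      abs_of_nonneg (by linarith)]
  have hnorm : ∀ ω : ℂ, ‖(1 - ω) • q‖ ≤ 1 - s + ‖ω - s‖ := by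
    intro ω
    rw [norm_smul, hq, mul_one]
    calc ‖1 - ω‖ = ‖(1 - (s : ℂ)) - (ω - s)‖ := by congr 1; ring
      _ ≤ ‖1 - (s : ℂ)‖ + ‖ω - s‖ := norm_sub_le _ _
      _ = _ := by rw [hs']
  have hball : ∀ ω ∈ ball (s : ℂ) s, (1 - ω) • q ∈ ball (0 : E n) 1 := by
    intro ω hω
    rw [mem_ball, dist_eq_norm] at hω
    rw [mem_ball_zero_iff]
    have := hnorm ω
    linarith
  have hcen : (1 - (s : ℂ)) • q ∈ ball (0 : E n) 1 := hball s (mem_ball_self hs0)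
  have hτn : ‖(τ : ℂ) - s‖ = s - τ := by
    rw [← Complex.ofReal_sub, Complex.norm_real, Real.norm_eq_abs, abs_of_nonpos (by linarith)]
    ring
  have h := hD _ (S.ρφ_neg hcen) hb (fun ω => φ ((1 - ω) • q)) (s : ℂ) s μ hs0 hμ ?_ ?_ ?_
    (τ : ℂ) ?_
  · rw [hτn, sub_sub_cancel] at h
    exact h
  · intro ω hω
    have h1 := S.φ_diffAt (hball ω hω)
    have h2 : DifferentiableAt ℂ (fun ω : ℂ => (1 - ω) • q) ω :=
      (differentiableAt_id.const_sub 1).smul_const q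
    exact (DifferentiableAt.comp (g := φ) ω h1 h2).differentiableWithinAt
  · intro ω hω
    refine ⟨S.ρφ_neg (hball ω hω), ha ω ?_⟩
    rwa [mem_ball, dist_eq_norm] at hω
  · intro ω hω
    refine hμ' _ ?_
    have := hnorm ω
    linarith
  · rw [mem_ball, dist_eq_norm, hτn]
    linarith

lemma continuousOn_KI {f : E n → ℂ} (hf' : Differentiable ℂ f) :
    ∃ K : ℝ, 0 < K ∧ ∀ z z' : E n, ‖z‖ ≤ 1 → ‖z'‖ ≤ 1 →
      ‖KI (sf ρ φ f) z - KI (sf ρ φ f) z'‖ ≤ K * ‖z - z'‖ ^ (3 / 4 : ℝ) := by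
  obtain ⟨K, hK, hKh⟩ := exists_holder n
  have hfc := S.contDiff_one_of_entire hf'
  obtain ⟨B, hB, hB'⟩ := S.exists_sf_bound hfc
  obtain ⟨C, hC, hC'⟩ := S.exists_jac_bound
  refine ⟨K * (B * C), by positivity, fun z z' hz hz' => ?_⟩
  refine hKh (sf ρ φ f) (B * C) (S.continuousOn_sf hfc) ?_ z z' hz hz'
  intro w hw
  have h1 := hB' w hw
  have h2 := hC' w hw
  have h3 : 0 ≤ 1 - ‖w‖ := by rw [mem_ball_zero_iff] at hw; linarith
  calc ‖sf ρ φ f w‖ ≤ B * ‖jac φ w‖ * (1 - ‖w‖) := h1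
    _ ≤ B * C * (1 - ‖w‖) := by gcongr

lemma tendsto_real_slice : Tendsto (fun τ : ℝ => (τ : ℂ)) (𝓝[>] 0)
    (𝓝[{ω : ℂ | ‖1 - ω‖ < 1}] 0) := by
  rw [tendsto_nhdsWithin_iff]
  constructor
  · have h : Continuous (fun τ : ℝ => (τ : ℂ)) := Complex.continuous_ofReal
    have h2 := h.tendsto 0
    rw [Complex.ofReal_zero] at h2
    exact h2.mono_left nhdsWithin_le_nhds
  · filter_upwards [Ioo_mem_nhdsGT (show (0 : ℝ) < 1 by norm_num)] with τ hτ
    rw [← Complex.ofReal_one, ← Complex.ofReal_sub, Complex.norm_real,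
      Real.norm_eq_abs, abs_of_pos (by linarith [hτ.2])]
    linarith [hτ.1]

theorem KI_ne_zero {q : E n} (hq : ‖q‖ = 1) : KI (sf ρ φ (fun _ => 1)) q ≠ 0 := by
  obtain ⟨j, hj, hj'⟩ := S.exists_critical hq
  obtain ⟨i, b, p₀, hb, hU, hφ⟩ := S.dichotomy hq hj hj'
  have hUr := hU.comp S.tendsto_real_slice
  rcases Nat.eq_zero_or_pos i with hi | hi
  · -- the Jacobian does not vanish
    obtain ⟨K, hK, hKh⟩ := S.continuousOn_KI (f := fun _ => 1) (differentiable_const _)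
    have hlim : Tendsto (fun τ : ℝ => Uf φ (fun _ => 1) ((1 - (τ : ℂ)) • q)) (𝓝[>] 0)
        (𝓝 (KI (sf ρ φ (fun _ => 1)) q)) := by
      rw [tendsto_iff_norm_sub_tendsto_zero]
      have h1 : Tendsto (fun τ : ℝ => K * |τ| ^ (3 / 4 : ℝ)) (𝓝[>] 0) (𝓝 0) := by
        have h2 : Continuous (fun τ : ℝ => K * |τ| ^ (3 / 4 : ℝ)) :=
          continuous_const.mul (continuous_abs.rpow_const fun _ => Or.inr (by norm_num))
        have h3 := h2.tendsto 0
        simp only [abs_zero] at h3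
        rw [Real.zero_rpow (by norm_num), mul_zero] at h3
        exact h3.mono_left nhdsWithin_le_nhds
      refine squeeze_zero' (Eventually.of_forall fun _ => norm_nonneg _) ?_ h1
      filter_upwards [Ioo_mem_nhdsGT (show (0 : ℝ) < 1 by norm_num)] with τ hτ
      have hzn : ‖(1 - (τ : ℂ)) • q‖ = 1 - τ := by
        rw [norm_smul, hq, mul_one, ← Complex.ofReal_one, ← Complex.ofReal_sub, Complex.norm_real,
          Real.norm_eq_abs, abs_of_pos (by linarith [hτ.2])]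
      have hz1 : ‖(1 - (τ : ℂ)) • q‖ < 1 := by rw [hzn]; linarith [hτ.1]
      rw [S.Uf_eq_KI (differentiable_const _) hz1]
      refine (hKh _ q hz1.le hq.le).trans (le_of_eq ?_)
      have h4 : (1 - (τ : ℂ)) • q - q = -((τ : ℂ) • q) := by
        rw [sub_smul, one_smul]; abel
      rw [h4, norm_neg, norm_smul, hq, mul_one, Complex.norm_real, Real.norm_eq_abs]
    have hlim2 : Tendsto (fun τ : ℝ => Uf φ (fun _ => 1) ((1 - (τ : ℂ)) • q)) (𝓝[>] 0) (𝓝 b) := by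
      refine hUr.congr fun τ => ?_
      simp [hi]
    rw [tendsto_nhds_unique hlim hlim2]
    exact hb
  · exfalso
    set η : ℝ := ((n : ℝ) + 2) / (n + 3) with hη
    have hη0 : 0 < η := by positivity
    have hη1 : η < 1 := by rw [hη, div_lt_one (by positivity)]; linarith
    obtain ⟨δ, c, ε, hδ, hc, hε, hdisc⟩ := S.disc_lemma hη0 hη1
    obtain ⟨C, hC, hup⟩ := S.exists_upper
    obtain ⟨C', hC', hupj⟩ := S.exists_upper_jac
    -- closeness
    have hev : ∀ᶠ ω in 𝓝[{ω : ℂ | ‖1 - ω‖ < 1}] (0 : ℂ), ‖φ ((1 - ω) • q) - p₀‖ < δ / 2 := by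
      have h1 := hφ.eventually (ball_mem_nhds p₀ (show 0 < δ / 2 by positivity))
      filter_upwards [h1] with ω hω
      rwa [dist_eq_norm] at hω
    rw [eventually_nhdsWithin_iff] at hev
    obtain ⟨s₀, hs₀, hs₀'⟩ := Metric.eventually_nhds_iff.1 hev
    obtain ⟨s, hs0, hs1, hs2, hs3⟩ : ∃ s : ℝ, 0 < s ∧ s ≤ 1 / 2 ∧ 2 * s ≤ s₀ ∧ C * s < ε := by
      refine ⟨min (1 / 2) (min (s₀ / 2) (ε / (2 * C))), by positivity, min_le_left _ _, ?_, ?_⟩
      · have : min (1 / 2) (min (s₀ / 2) (ε / (2 * C))) ≤ s₀ / 2 :=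
          (min_le_right _ _).trans (min_le_left _ _)
        linarith
      · have h1 : min (1 / 2) (min (s₀ / 2) (ε / (2 * C))) ≤ ε / (2 * C) :=
          (min_le_right _ _).trans (min_le_right _ _)
        calc C * min (1 / 2) (min (s₀ / 2) (ε / (2 * C))) ≤ C * (ε / (2 * C)) := by gcongr
          _ = ε / 2 := by field_simp
          _ < ε := by linarith
    have hnormτ : ∀ τ : ℝ, 0 < τ → τ < 1 → ‖(1 : ℂ) - τ‖ = 1 - τ := by
      intro τ h0 h1
      rw [← Complex.ofReal_one, ← Complex.ofReal_sub, Complex.norm_real,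
          Real.norm_eq_abs, abs_of_pos (by linarith)]
    have hin : ∀ ω : ℂ, ‖ω - s‖ < s → ‖1 - ω‖ < 1 ∧ ‖ω‖ < s₀ := by
      intro ω hω
      constructor
      · calc ‖1 - ω‖ = ‖(1 - (s : ℂ)) - (ω - s)‖ := by congr 1; ring
          _ ≤ ‖1 - (s : ℂ)‖ + ‖ω - s‖ := norm_sub_le _ _
          _ < 1 := by rw [hnormτ s hs0 (by linarith)]; linarith
      · calc ‖ω‖ = ‖(ω - s) + s‖ := by congr 1; ring
          _ ≤ ‖ω - s‖ + ‖(s : ℂ)‖ := norm_add_le _ _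
          _ < s₀ := by
            rw [Complex.norm_real, Real.norm_eq_abs, abs_of_pos hs0]; linarith
    have hsself : ‖(s : ℂ) - s‖ < s := by rw [sub_self, norm_zero]; exact hs0
    obtain ⟨μ, hμ, hμ'⟩ := S.exists_lower_compact (r := 1 - 3 * s / 4) (by linarith)
    have hclose : ∀ ω : ℂ, ‖ω - s‖ < s → ‖φ ((1 - ω) • q) - p₀‖ < δ / 2 := by
      intro ω hω
      obtain ⟨h1, h2⟩ := hin ω hω
      exact hs₀' (by rwa [dist_zero_right]) h1
    have hcs : (1 - (s : ℂ)) • q ∈ ball (0 : E n) 1 := by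
      rw [mem_ball_zero_iff, norm_smul, hq, mul_one]; exact (hin s hsself).1
    have htan := S.tangent_lower (η := η) hdisc hq hs0 (by linarith) (fun ω hω => by
        calc ‖φ ((1 - ω) • q) - φ ((1 - (s : ℂ)) • q)‖
            = ‖(φ ((1 - ω) • q) - p₀) - (φ ((1 - (s : ℂ)) • q) - p₀)‖ := by congr 1; abel
          _ ≤ ‖φ ((1 - ω) • q) - p₀‖ + ‖φ ((1 - (s : ℂ)) • q) - p₀‖ := norm_sub_le _ _
          _ < δ := by linarith [hclose ω hω, hclose s hsself]) (by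
        have h1 := hup _ hcs
        rw [norm_smul, hq, mul_one, hnormτ s hs0 (by linarith), sub_sub_cancel] at h1
        linarith) hμ hμ'
    -- upper bound of the Jacobian
    obtain ⟨τ₁, hτ₁, hjac⟩ : ∃ τ₁ : ℝ, 0 < τ₁ ∧ ∀ τ : ℝ, 0 < τ → τ < τ₁ →
        ‖Uf φ (fun _ => 1) ((1 - (τ : ℂ)) • q)‖ ≤ (‖b‖ + 1) * τ ^ i := by
      have h1 := hUr.norm.eventually (gt_mem_nhds (show ‖b‖ < ‖b‖ + 1 by linarith))
      rw [eventually_nhdsWithin_iff] at h1
      obtain ⟨τ₁, hτ₁, h2⟩ := Metric.eventually_nhds_iff.1 h1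
      refine ⟨τ₁, hτ₁, fun τ h0 hlt => ?_⟩
      have h3 := h2 (y := τ) (by rw [Real.dist_eq, sub_zero, abs_of_pos h0]; exact hlt) h0
      simp only [Function.comp_apply, norm_div, norm_pow, Complex.norm_real, Real.norm_eq_abs,
        abs_of_pos h0] at h3
      rw [div_lt_iff₀ (by positivity)] at h3
      exact h3.le
    have hvb := vb_pos n
    refine power_contradiction n (c₁ := c * μ ^ η / s) (C₂ := C' * ((‖b‖ + 1) / vb n))
      (τ₁ := min (min τ₁ s) 1) (by positivity) (by positivity) (by positivity)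
      (fun τ => -ρ (φ ((1 - (τ : ℂ)) • q))) ?_ ?_ ?_
    · intro τ h0 hlt
      have hτ1 : τ < 1 := hlt.trans_le (min_le_right _ _)
      have hm : (1 - (τ : ℂ)) • q ∈ ball (0 : E n) 1 := by
        rw [mem_ball_zero_iff, norm_smul, hq, mul_one, hnormτ τ h0 hτ1]; linarith
      have := S.ρφ_neg hm
      linarith
    · intro τ h0 hlt
      have hτs : τ < s := hlt.trans_le ((min_le_left _ _).trans (min_le_right _ _))
      have := htan τ h0 hτs.le
      calc c * μ ^ η / s * τ = c * μ ^ η * (τ / s) := by ring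
        _ ≤ _ := this
    · intro τ h0 hlt
      have hτ1 : τ < 1 := hlt.trans_le (min_le_right _ _)
      have hττ : τ < τ₁ := hlt.trans_le ((min_le_left _ _).trans (min_le_left _ _))
      have hzn : ‖(1 - (τ : ℂ)) • q‖ = 1 - τ := by
        rw [norm_smul, hq, mul_one, hnormτ τ h0 hτ1]
      have hm : (1 - (τ : ℂ)) • q ∈ ball (0 : E n) 1 := by
        rw [mem_ball_zero_iff, hzn]; linarith
      have h1 := hupj _ hm
      rw [hzn, sub_sub_cancel] at h1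
      have h2 := hjac τ h0 hττ
      unfold Uf at h2
      rw [mul_one, norm_mul, Complex.norm_real, Real.norm_eq_abs, abs_of_pos hvb] at h2
      have h3 : ‖jac φ ((1 - (τ : ℂ)) • q)‖ ≤ (‖b‖ + 1) / vb n * τ := by
        have h4 : τ ^ i ≤ τ := by
          calc τ ^ i ≤ τ ^ 1 := pow_le_pow_of_le_one h0.le hτ1.le hi
            _ = τ := pow_one τ
        have h5 : vb n * ‖jac φ ((1 - (τ : ℂ)) • q)‖ ≤ (‖b‖ + 1) * τ := by
          calc _ ≤ (‖b‖ + 1) * τ ^ i := h2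
            _ ≤ _ := by gcongr
        rw [div_mul_eq_mul_div, le_div_iff₀ hvb]
        linarith
      calc _ ≤ C' * ‖jac φ ((1 - (τ : ℂ)) • q)‖ * (Real.sqrt τ) ^ (n + 1) := h1
        _ ≤ C' * ((‖b‖ + 1) / vb n * τ) * (Real.sqrt τ) ^ (n + 1) := by gcongr
        _ = _ := by ring

/-- The Jacobian is bounded from below. -/
theorem exists_jac_lower : ∃ c : ℝ, 0 < c ∧ ∀ z ∈ ball (0 : E n) 1, c ≤ ‖jac φ z‖ := by
  obtain ⟨K, hK, hKh⟩ := S.continuousOn_KI (f := fun _ => 1) (differentiable_const _)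
  have hcont : ContinuousOn (KI (sf ρ φ (fun _ => 1))) (closedBall (0 : E n) 1) := by
    intro z hz
    rw [mem_closedBall_zero_iff] at hz
    rw [ContinuousWithinAt, tendsto_iff_norm_sub_tendsto_zero]
    have h1 : Tendsto (fun y : E n => K * ‖y - z‖ ^ (3 / 4 : ℝ)) (𝓝[closedBall 0 1] z) (𝓝 0) := by
      have h2 : Continuous (fun y : E n => K * ‖y - z‖ ^ (3 / 4 : ℝ)) :=
        continuous_const.mul ((continuous_norm.comp (continuous_id.sub continuous_const)).rpow_const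
          fun _ => Or.inr (by norm_num))
      have h3 := h2.tendsto z
      simp only [sub_self, norm_zero] at h3
      rw [Real.zero_rpow (by norm_num), mul_zero] at h3
      exact h3.mono_left nhdsWithin_le_nhds
    refine squeeze_zero' (Eventually.of_forall fun _ => norm_nonneg _) ?_ h1
    filter_upwards [self_mem_nhdsWithin] with y hy
    exact hKh y z (mem_closedBall_zero_iff.1 hy) hz
  have hne : ∀ z ∈ closedBall (0 : E n) 1, KI (sf ρ φ (fun _ => 1)) z ≠ 0 := by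
    intro z hz
    rw [mem_closedBall_zero_iff] at hz
    rcases hz.lt_or_eq with h | h
    · rw [← S.Uf_eq_KI (differentiable_const _) h]
      exact S.Uf_one_ne_zero h
    · exact S.KI_ne_zero h
  obtain ⟨z₀, hz₀, hmin⟩ := (isCompact_closedBall (0 : E n) 1).exists_isMinOn
    ⟨0, mem_closedBall_self zero_le_one⟩ hcont.norm
  have hvb := vb_pos n
  refine ⟨‖KI (sf ρ φ (fun _ => 1)) z₀‖ / vb n, div_pos (norm_pos_iff.2 (hne z₀ hz₀)) hvb,
    fun z hz => ?_⟩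
  have h1 : ‖KI (sf ρ φ (fun _ => 1)) z₀‖ ≤ ‖KI (sf ρ φ (fun _ => 1)) z‖ :=
    hmin (ball_subset_closedBall hz)
  rw [mem_ball_zero_iff] at hz
  rw [← S.Uf_eq_KI (differentiable_const _) hz] at h1
  unfold Uf at h1
  rw [mul_one, norm_mul, Complex.norm_real, Real.norm_eq_abs, abs_of_pos hvb] at h1
  rw [div_le_iff₀ hvb]
  linarith

/-- Hölder continuity of the biholomorphism. -/
theorem exists_holder_φ : ∃ C : ℝ, 0 < C ∧ ∀ z ∈ ball (0 : E n) 1, ∀ z' ∈ ball (0 : E n) 1,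
    ‖φ z - φ z'‖ ≤ C * ‖z - z'‖ ^ (3 / 4 : ℝ) := by
  obtain ⟨K, hK, hKh⟩ := S.continuousOn_KI (f := fun _ => 1) (differentiable_const _)
  obtain ⟨cJ, hcJ, hJ⟩ := S.exists_jac_lower
  obtain ⟨R, hR, hR'⟩ := S.exists_radius
  have hvb := vb_pos n
  have hcoord : ∀ m : Fin n, ∃ C : ℝ, 0 < C ∧ ∀ z ∈ ball (0 : E n) 1, ∀ z' ∈ ball (0 : E n) 1,
      ‖(φ z) m - (φ z') m‖ ≤ C * ‖z - z'‖ ^ (3 / 4 : ℝ) := by
    intro m
    have hfd : Differentiable ℂ (fun x : E n => x m) :=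
      (EuclideanSpace.proj (𝕜 := ℂ) m).differentiable
    obtain ⟨L, hL, hLh⟩ := S.continuousOn_KI hfd
    refine ⟨(L + R * K) / (vb n * cJ), by positivity, fun z hz z' hz' => ?_⟩
    have hz1 := mem_ball_zero_iff.1 hz
    have hz1' := mem_ball_zero_iff.1 hz'
    have e1 := hLh z z' hz1.le hz1'.le
    have e2 := hKh z z' hz1.le hz1'.le
    rw [← S.Uf_eq_KI hfd hz1, ← S.Uf_eq_KI hfd hz1'] at e1
    rw [← S.Uf_eq_KI (differentiable_const _) hz1, ← S.Uf_eq_KI (differentiable_const _) hz1'] at e2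
    have e3 : Uf φ (fun _ => 1) z * ((φ z) m - (φ z') m) =
        (Uf φ (fun x : E n => x m) z - Uf φ (fun x : E n => x m) z') -
          (φ z') m * (Uf φ (fun _ => 1) z - Uf φ (fun _ => 1) z') := by
      unfold Uf; ring
    have e4 : ‖(φ z') m‖ ≤ R := (PiLp.norm_apply_le _ m).trans (hR' _ (S.mφ hz')).le
    have e5 : vb n * cJ ≤ ‖Uf φ (fun _ => 1) z‖ := by
      unfold Uf
      rw [mul_one, norm_mul, Complex.norm_real, Real.norm_eq_abs, abs_of_pos hvb]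
      have := hJ z hz
      gcongr
    have e6 : ‖Uf φ (fun _ => 1) z‖ * ‖(φ z) m - (φ z') m‖ ≤ (L + R * K) * ‖z - z'‖ ^ (3 / 4 : ℝ) := by
      rw [← norm_mul, e3]
      calc _ ≤ ‖Uf φ (fun x : E n => x m) z - Uf φ (fun x : E n => x m) z'‖ +
            ‖(φ z') m * (Uf φ (fun _ => 1) z - Uf φ (fun _ => 1) z')‖ := norm_sub_le _ _
        _ ≤ L * ‖z - z'‖ ^ (3 / 4 : ℝ) + R * (K * ‖z - z'‖ ^ (3 / 4 : ℝ)) := by
          rw [norm_mul]
          gcongr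
        _ = _ := by ring
    rw [div_mul_eq_mul_div, le_div_iff₀ (by positivity)]
    calc ‖(φ z) m - (φ z') m‖ * (vb n * cJ) = (vb n * cJ) * ‖(φ z) m - (φ z') m‖ := mul_comm _ _
      _ ≤ ‖Uf φ (fun _ => 1) z‖ * ‖(φ z) m - (φ z') m‖ := by gcongr
      _ ≤ _ := e6
  choose C hC hCh using hcoord
  refine ⟨∑ m, C m + 1, ?_, fun z hz z' hz' => ?_⟩
  · have : 0 ≤ ∑ m, C m := Finset.sum_nonneg fun m _ => (hC m).le
    linarith
  have h1 : φ z - φ z' = ∑ m, ((φ z - φ z') m) • ev m := eq_sum_ev _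
  have h2 : ‖φ z - φ z'‖ ≤ ∑ m, ‖(φ z) m - (φ z') m‖ := by
    rw [h1]
    refine (norm_sum_le _ _).trans (Finset.sum_le_sum fun m _ => ?_)
    rw [norm_smul]
    have : ‖(ev m : E n)‖ = 1 := by simp [ev]
    rw [this, mul_one]
    rfl
  have h3 : 0 ≤ ‖z - z'‖ ^ (3 / 4 : ℝ) := by positivity
  calc ‖φ z - φ z'‖ ≤ ∑ m, ‖(φ z) m - (φ z') m‖ := h2
    _ ≤ ∑ m, C m * ‖z - z'‖ ^ (3 / 4 : ℝ) := Finset.sum_le_sum fun m _ => hCh m z hz z' hz'
    _ = (∑ m, C m) * ‖z - z'‖ ^ (3 / 4 : ℝ) := by rw [Finset.sum_mul]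
    _ ≤ _ := by nlinarith

end Setup

end Pool.Agent.Ball44
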