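import Mathlib
import Pool.Agent.Helper44_Ball.NonVanish

/-! The linear lower bound for the defining function. -/

set_option autoImplicit false
set_option maxSynthPendingDepth 3
open Set Metric Filter Topology MeasureTheory

namespace Pool.Agent.Ball44

variable {n : ℕ}

/-- The second barrier. -/
lemma barrier2_snd {ζ : ℂ} {R : ℝ} (h : 0 < R - ‖ζ‖ ^ 2) (B : ℝ) : ∃ d1 d2 d1' d2' : ℝ,
    HasSnd (fun s : ℝ => B * (R - ‖ζ + s * 1‖ ^ 2) ^ (3 / 2 : ℝ)) d1 d2 ∧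
    HasSnd (fun s : ℝ => B * (R - ‖ζ + s * Complex.I‖ ^ 2) ^ (3 / 2 : ℝ)) d1' d2' ∧
    d2 + d2' = B * ((R - ‖ζ‖ ^ 2) ^ (-(1 / 2) : ℝ) * (3 * ‖ζ‖ ^ 2 - 6 * (R - ‖ζ‖ ^ 2))) := by
  have key : ∀ e : ℂ, HasSnd (fun s : ℝ => B * (R - ‖ζ + s * e‖ ^ 2) ^ (3 / 2 : ℝ)) _ _ :=
    fun e => by
    have h0 : ‖ζ + ((0 : ℝ) : ℂ) * e‖ = ‖ζ‖ := by simp
    have H0 := hasSnd_dist_sq ζ 0 e
    simp only [sub_zero] at H0
    have H1 := ((hasSnd_const R).sub H0).rpow (by rw [h0]; exact h) (3 / 2)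
    have H2 := H1.const_mul B
    simp only [h0] at H2
    exact H2
  refine ⟨_, _, _, _, key 1, key Complex.I, ?_⟩
  have i1 : (inner ℂ ζ (1 : ℂ)).re = ζ.re := by simp
  have i2 : (inner ℂ ζ Complex.I).re = ζ.im := by simp
  have e3 : ζ.re ^ 2 + ζ.im ^ 2 = ‖ζ‖ ^ 2 := by
    rw [← Complex.normSq_eq_norm_sq, Complex.normSq_apply]; ring
  rw [i1, i2, norm_one, Complex.norm_I]
  set H := R - ‖ζ‖ ^ 2 with hH
  have e1 : H ^ ((3 / 2 : ℝ) - 2) = H ^ (-(1 / 2) : ℝ) := by norm_num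
  have e2 : H ^ ((3 / 2 : ℝ) - 1) = H ^ (-(1 / 2) : ℝ) * H := by
    rw [← Real.rpow_add_one h.ne']; norm_num
  rw [e1, e2]
  have e4 : B * (3 / 2 * (3 / 2 - 1) * H ^ (-(1 / 2) : ℝ) * (0 - 2 * ζ.re) ^ 2 +
      3 / 2 * (H ^ (-(1 / 2) : ℝ) * H) * (0 - 2 * 1 ^ 2)) +
      B * (3 / 2 * (3 / 2 - 1) * H ^ (-(1 / 2) : ℝ) * (0 - 2 * ζ.im) ^ 2 +
      3 / 2 * (H ^ (-(1 / 2) : ℝ) * H) * (0 - 2 * 1 ^ 2)) =
      B * (H ^ (-(1 / 2) : ℝ) * (3 * (ζ.re ^ 2 + ζ.im ^ 2) - 6 * H)) := by ring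
  rw [e4, e3]

namespace Setup

variable {ρ : E n → ℝ} {φ ψ : E n → E n} (S : Setup n ρ φ ψ)

include S

lemma exists_unit_smul {z : E n} (hz : z ≠ 0) : ∃ e : E n, ‖e‖ = 1 ∧ ((‖z‖ : ℝ) : ℂ) • e = z := by
  have hzn : 0 < ‖z‖ := norm_pos_iff.2 hz
  refine ⟨((‖z‖⁻¹ : ℝ) : ℂ) • z, ?_, ?_⟩
  · rw [norm_smul, Complex.norm_real, norm_inv, norm_norm, inv_mul_cancel₀ hzn.ne']
  · rw [smul_smul, ← Complex.ofReal_mul, mul_inv_cancel₀ hzn.ne', Complex.ofReal_one,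
        one_smul]

/-- Lower bound with exponent `4/3`. -/
lemma lower_pow : ∃ s c₁ : ℝ, 0 < s ∧ s ≤ 1 / 2 ∧ 0 < c₁ ∧ ∀ z : E n, ‖z‖ < 1 → 1 - ‖z‖ ≤ s →
    (c₁ * (1 - ‖z‖)) ^ 4 ≤ (-ρ (φ z)) ^ 3 := by
  obtain ⟨δ, c, ε, hδ, hc, hε, hdisc⟩ := S.disc_lemma (η := 3 / 4) (by norm_num) (by norm_num)
  obtain ⟨C, hC, hup⟩ := S.exists_upper
  obtain ⟨CH, hCH, hHol⟩ := S.exists_holder_φ
  obtain ⟨s, hs0, hs1, hs2, hs3⟩ : ∃ s : ℝ, 0 < s ∧ s ≤ 1 / 2 ∧ C * s < ε ∧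
      CH * s ^ (3 / 4 : ℝ) < δ := by
    refine ⟨min (1 / 2) (min (ε / (2 * C)) ((δ / (2 * CH)) ^ (4 / 3 : ℝ))), by positivity,
      min_le_left _ _, ?_, ?_⟩
    · have h1 : min (1 / 2) (min (ε / (2 * C)) ((δ / (2 * CH)) ^ (4 / 3 : ℝ))) ≤ ε / (2 * C) :=
        (min_le_right _ _).trans (min_le_left _ _)
      calc C * min (1 / 2) (min (ε / (2 * C)) ((δ / (2 * CH)) ^ (4 / 3 : ℝ))) ≤
          C * (ε / (2 * C)) := by gcongr
        _ = ε / 2 := by field_simp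
        _ < ε := by linarith
    · have h1 : min (1 / 2) (min (ε / (2 * C)) ((δ / (2 * CH)) ^ (4 / 3 : ℝ))) ≤
          (δ / (2 * CH)) ^ (4 / 3 : ℝ) := (min_le_right _ _).trans (min_le_right _ _)
      have h2 : (min (1 / 2) (min (ε / (2 * C)) ((δ / (2 * CH)) ^ (4 / 3 : ℝ)))) ^ (3 / 4 : ℝ) ≤
          ((δ / (2 * CH)) ^ (4 / 3 : ℝ)) ^ (3 / 4 : ℝ) :=
        Real.rpow_le_rpow (by positivity) h1 (by norm_num)
      rw [← Real.rpow_mul (by positivity)] at h2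
      norm_num at h2
      calc CH * _ ≤ CH * (δ / (2 * CH)) := by gcongr
        _ = δ / 2 := by field_simp
        _ < δ := by linarith
  obtain ⟨μ, hμ, hμ'⟩ := S.exists_lower_compact (r := 1 - 3 * s / 4) (by linarith)
  refine ⟨s, c * μ ^ (3 / 4 : ℝ) / s, hs0, hs1, by positivity, fun z hz hzs => ?_⟩
  have hz0 : z ≠ 0 := by
    rintro rfl
    rw [norm_zero] at hzs
    linarith
  obtain ⟨q, hq, hqz⟩ := S.exists_unit_smul hz0
  have hs' : ‖(1 : ℂ) - s‖ = 1 - s := by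
    rw [← Complex.ofReal_one, ← Complex.ofReal_sub, Complex.norm_real, Real.norm_eq_abs,
      abs_of_nonneg (by linarith)]
  have hcs : (1 - (s : ℂ)) • q ∈ ball (0 : E n) 1 := by
    rw [mem_ball_zero_iff, norm_smul, hq, mul_one, hs']; linarith
  have h := S.tangent_lower (η := 3 / 4) hdisc hq hs0 (by linarith) (fun ω hω => by
    have hm : (1 - ω) • q ∈ ball (0 : E n) 1 := by
      rw [mem_ball_zero_iff, norm_smul, hq, mul_one]
      calc ‖1 - ω‖ = ‖(1 - (s : ℂ)) - (ω - s)‖ := by congr 1; ring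
        _ ≤ ‖1 - (s : ℂ)‖ + ‖ω - s‖ := norm_sub_le _ _
        _ < 1 := by rw [hs']; linarith
    have h1 := hHol _ hm _ hcs
    have h2 : (1 - ω) • q - (1 - (s : ℂ)) • q = -((ω - s) • q) := by
      rw [← sub_smul, ← neg_smul]; congr 1; ring
    rw [h2, norm_neg, norm_smul, hq, mul_one] at h1
    have h3 : ‖ω - s‖ ^ (3 / 4 : ℝ) ≤ s ^ (3 / 4 : ℝ) :=
      Real.rpow_le_rpow (norm_nonneg _) hω.le (by norm_num)
    calc _ ≤ CH * ‖ω - s‖ ^ (3 / 4 : ℝ) := h1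
      _ ≤ CH * s ^ (3 / 4 : ℝ) := by gcongr
      _ < δ := hs3) (by
    have h1 := hup _ hcs
    rw [norm_smul, hq, mul_one, hs', sub_sub_cancel] at h1
    linarith) hμ hμ' (1 - ‖z‖) (by linarith) hzs
  have h4 : (1 - ((1 - ‖z‖ : ℝ) : ℂ)) • q = z := by
    rw [← hqz]
    congr 1
    rw [hqz]
    push_cast
    ring
  rw [h4] at h
  have hX : 0 < -ρ (φ z) := by linarith [S.ρφ_neg (mem_ball_zero_iff.2 hz)]
  have h5 : (c * μ ^ (3 / 4 : ℝ) / s * (1 - ‖z‖)) ^ 4 ≤ ((-ρ (φ z)) ^ (3 / 4 : ℝ)) ^ 4 := by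
    have h6 : 0 ≤ 1 - ‖z‖ := by linarith
    refine pow_le_pow_left₀ (by positivity) ?_ 4
    calc c * μ ^ (3 / 4 : ℝ) / s * (1 - ‖z‖) = c * μ ^ (3 / 4 : ℝ) * ((1 - ‖z‖) / s) := by ring
      _ ≤ _ := h
  have h6 : ((-ρ (φ z)) ^ (3 / 4 : ℝ)) ^ 4 = (-ρ (φ z)) ^ 3 := by
    rw [← Real.rpow_natCast, ← Real.rpow_mul hX.le]
    norm_num
  rwa [h6] at h5

/-- Derivative bound on slices. -/
lemma deriv_slice : ∃ C : ℝ, 0 < C ∧ ∀ (e : E n) (ζ : ℂ), ‖e‖ = 1 → ‖ζ‖ < 1 →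
    ‖deriv (fun z : ℂ => φ (z • e)) ζ‖ ^ 2 ≤ C / Real.sqrt (1 - ‖ζ‖) := by
  obtain ⟨CH, hCH, hHol⟩ := S.exists_holder_φ
  refine ⟨2 * CH ^ 2, by positivity, fun e ζ he hζ => ?_⟩
  obtain ⟨d, hd⟩ : ∃ d : ℝ, d = 1 - ‖ζ‖ := ⟨_, rfl⟩
  have hd0 : 0 < d := by linarith
  set r : ℝ := d / 2 with hr
  have hr0 : 0 < r := by positivity
  have hmem : ∀ z : ℂ, ‖z - ζ‖ ≤ r → z • e ∈ ball (0 : E n) 1 := by
    intro z hz
    rw [mem_ball_zero_iff, norm_smul, he, mul_one]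
    calc ‖z‖ = ‖(z - ζ) + ζ‖ := by congr 1; ring
      _ ≤ ‖z - ζ‖ + ‖ζ‖ := norm_add_le _ _
      _ < 1 := by linarith
  have hdiff : ∀ z : ℂ, ‖z - ζ‖ ≤ r → DifferentiableAt ℂ (fun z : ℂ => φ (z • e)) z := by
    intro z hz
    have h1 := S.φ_diffAt (hmem z hz)
    have h2 : DifferentiableAt ℂ (fun z : ℂ => z • e) z := differentiableAt_id.smul_const e
    exact DifferentiableAt.comp (g := φ) z h1 h2
  have hζζ : ‖ζ - ζ‖ ≤ r := by rw [sub_self, norm_zero]; exact hr0.le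
  have hbound := Complex.norm_deriv_le_of_forall_mem_sphere_norm_le (c := ζ) (R := r)
    (C := CH * r ^ (3 / 4 : ℝ)) (f := fun z : ℂ => φ (z • e) - φ (ζ • e)) hr0 ?_ ?_
  · have h1 : deriv (fun z : ℂ => φ (z • e) - φ (ζ • e)) ζ = deriv (fun z : ℂ => φ (z • e)) ζ := by
      rw [deriv_sub_const]
    rw [h1] at hbound
    have h2 : ‖deriv (fun z : ℂ => φ (z • e)) ζ‖ ^ 2 ≤ (CH * r ^ (3 / 4 : ℝ) / r) ^ 2 :=
      pow_le_pow_left₀ (norm_nonneg _) hbound 2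
    refine h2.trans ?_
    have h3 : (r ^ (3 / 4 : ℝ) / r) ^ 2 = (Real.sqrt r)⁻¹ := by
      rw [Real.sqrt_eq_rpow, ← Real.rpow_neg hr0.le, ← Real.rpow_sub_one hr0.ne',
        ← Real.rpow_natCast, ← Real.rpow_mul hr0.le]
      norm_num
    have h4 : (CH * r ^ (3 / 4 : ℝ) / r) ^ 2 = CH ^ 2 * (Real.sqrt r)⁻¹ := by
      rw [mul_div_assoc, mul_pow, h3]
    rw [h4, ← hd, div_eq_mul_inv]
    have h5 : Real.sqrt d ≤ 2 * Real.sqrt r := by
      rw [show d = 2 * r by rw [hr]; ring, Real.sqrt_mul (by norm_num)]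
      have : Real.sqrt 2 ≤ 2 := by
        rw [Real.sqrt_le_left (by norm_num)]; norm_num
      gcongr
    have h6 : 0 < Real.sqrt r := Real.sqrt_pos.2 hr0
    have h7 : 0 < Real.sqrt d := Real.sqrt_pos.2 hd0
    have h8 : (Real.sqrt r)⁻¹ ≤ 2 * (Real.sqrt d)⁻¹ := by
      rw [inv_eq_one_div, div_le_iff₀ h6, mul_assoc, inv_mul_eq_div, mul_div_assoc', le_div_iff₀ h7]
      linarith
    calc CH ^ 2 * (Real.sqrt r)⁻¹ ≤ CH ^ 2 * (2 * (Real.sqrt d)⁻¹) := by gcongr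
      _ = _ := by ring
  · refine DifferentiableOn.diffContOnCl fun z hz => ?_
    rw [closure_ball _ hr0.ne', mem_closedBall, dist_eq_norm] at hz
    exact ((hdiff z hz).sub_const _).differentiableWithinAt
  · intro z hz
    rw [mem_sphere, dist_eq_norm] at hz
    have h1 := hHol _ (hmem z hz.le) _ (hmem ζ hζζ)
    rwa [← sub_smul, norm_smul, he, mul_one, hz] at h1

/-- The linear lower bound. -/
theorem lower_linear : ∃ c : ℝ, 0 < c ∧ ∀ z : E n, ‖z‖ < 1 → c * (1 - ‖z‖) ≤ -ρ (φ z) := by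
  obtain ⟨s, c₁, hs0, hs1, hc₁, hlow⟩ := S.lower_pow
  obtain ⟨CD, hCD, hder⟩ := S.deriv_slice
  have hc1 : ContDiff ℝ 1 (fderiv ℝ ρ) := S.smooth.fderiv_right (by norm_num)
  obtain ⟨M, hM0, hM⟩ := S.bdd_of_continuous (hc1.continuous_fderiv (by norm_num))
  set C₃ : ℝ := 2 * M * CD + 1 with hC₃
  have hC₃0 : 0 < C₃ := by positivity
  set B : ℝ := 3 * C₃ with hB
  have hB0 : 0 < B := by positivity
  obtain ⟨t, ht0, ht1, hts, ht2⟩ : ∃ t : ℝ, 0 < t ∧ t ≤ 1 / 8 ∧ t ≤ s ∧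
      (32 * B ^ 2) ^ 3 * t ≤ c₁ ^ 8 := by
    refine ⟨min (1 / 8) (min s (c₁ ^ 8 / (32 * B ^ 2) ^ 3)), by positivity, min_le_left _ _,
      (min_le_right _ _).trans (min_le_left _ _), ?_⟩
    calc (32 * B ^ 2) ^ 3 * min (1 / 8) (min s (c₁ ^ 8 / (32 * B ^ 2) ^ 3)) ≤
        (32 * B ^ 2) ^ 3 * (c₁ ^ 8 / (32 * B ^ 2) ^ 3) := by
          apply mul_le_mul_of_nonneg_left _ (by positivity)
          exact (min_le_right _ _).trans (min_le_right _ _)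
      _ = c₁ ^ 8 := by field_simp
  set A : ℝ := B * (2 * t) ^ (3 / 2 : ℝ) with hA
  have hA0 : 0 < A := by positivity
  -- value on the inner circle
  have hcirc : ∀ z : E n, ‖z‖ = 1 - t → 2 * A ≤ -ρ (φ z) := by
    intro z hz
    have h1 := hlow z (by linarith) (by linarith)
    have h2 : 1 - ‖z‖ = t := by linarith
    rw [h2] at h1
    have hX : 0 < -ρ (φ z) := by
      have := S.ρφ_neg (mem_ball_zero_iff.2 (show ‖z‖ < 1 by linarith)); linarith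
    by_contra hneg
    push Not at hneg
    have h3 : (-ρ (φ z)) ^ 6 < (2 * A) ^ 6 := pow_lt_pow_left₀ hneg hX.le (by norm_num)
    have h4 : (2 * A) ^ 6 = (32 * B ^ 2) ^ 3 * t ^ 9 := by
      have h5 : ((2 * t) ^ (3 / 2 : ℝ)) ^ 2 = (2 * t) ^ 3 := by
        rw [← Real.rpow_natCast, ← Real.rpow_mul (by positivity)]
        norm_num
      have h6 : (2 * A) ^ 6 = (4 * B ^ 2 * ((2 * t) ^ (3 / 2 : ℝ)) ^ 2) ^ 3 := by
        rw [hA]; ring
      rw [h6, h5]; ring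
    have h7 : (c₁ * t) ^ 8 ≤ (-ρ (φ z)) ^ 6 := by
      calc (c₁ * t) ^ 8 = ((c₁ * t) ^ 4) ^ 2 := by ring
        _ ≤ ((-ρ (φ z)) ^ 3) ^ 2 := by gcongr
        _ = _ := by ring
    have h8 : (32 * B ^ 2) ^ 3 * t ^ 9 ≤ (c₁ * t) ^ 8 := by
      calc (32 * B ^ 2) ^ 3 * t ^ 9 = ((32 * B ^ 2) ^ 3 * t) * t ^ 8 := by ring
        _ ≤ c₁ ^ 8 * t ^ 8 := by gcongr
        _ = _ := by ring
    linarith
  -- the main comparison
  have hmain : ∀ (e : E n) (ζ : ℂ), ‖e‖ = 1 → 1 - t ≤ ‖ζ‖ → ‖ζ‖ < 1 →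
      A * (1 - ‖ζ‖) ≤ -ρ (φ (ζ • e)) := by
    intro e ζ he hζ1 hζ2
    have hmem : ∀ z : ℂ, ‖z‖ < 1 → z • e ∈ ball (0 : E n) 1 := by
      intro z hz
      rw [mem_ball_zero_iff, norm_smul, he, mul_one]; exact hz
    have hdiff : ∀ z : ℂ, ‖z‖ < 1 → DifferentiableAt ℂ (fun z : ℂ => φ (z • e)) z := by
      intro z hz
      have h1 := S.φ_diffAt (hmem z hz)
      have h2 : DifferentiableAt ℂ (fun z : ℂ => z • e) z := differentiableAt_id.smul_const e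
      exact DifferentiableAt.comp (g := φ) z h1 h2
    have hcomp : ∀ r' : ℝ, ‖ζ‖ < r' → r' < 1 →
        A * (r' ^ 2 * (‖ζ‖ ^ 2) ^ (-1 : ℝ) - 1) ≤ -ρ (φ (ζ • e)) := by
      intro r' hr'1 hr'2
      have hr't : 1 - t < r' := by linarith
      have hr'0 : 0 < r' := by linarith
      have hcmp := comparison (u := fun ζ => -ρ (φ (ζ • e)))
        (w := fun ζ => A * (r' ^ 2 * (‖ζ - 0‖ ^ 2) ^ (-1 : ℝ) - 1) +
          B * (r' ^ 2 - ‖ζ‖ ^ 2) ^ (3 / 2 : ℝ))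
        (a := 0) (r₁ := 1 - t) (r₂ := r') hr't.le ?_ ?_ ?_ ?_ ?_ ζ (by rwa [sub_zero])
        (by rw [sub_zero]; exact hr'1.le)
      · rw [sub_zero] at hcmp
        refine le_trans ?_ hcmp
        have h1 : 0 ≤ r' ^ 2 - ‖ζ‖ ^ 2 := by
          have := norm_nonneg ζ
          nlinarith
        have h2 : 0 ≤ B * (r' ^ 2 - ‖ζ‖ ^ 2) ^ (3 / 2 : ℝ) := by positivity
        linarith
      · intro z hz
        have hz2 : ‖z‖ < 1 := by have := hz.2; rw [sub_zero] at this; linarith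
        have h1 : ContinuousAt (fun z : ℂ => φ (z • e)) z := (hdiff z hz2).continuousAt
        exact (ContinuousAt.comp (g := ρ) (f := fun z : ℂ => φ (z • e))
          S.cont.continuousAt h1).neg.continuousWithinAt
      · intro z hz
        have h0 : 0 < ‖z‖ := by have := hz.1; rw [sub_zero] at this; linarith
        have h2 : ContinuousAt (fun ζ : ℂ => ‖ζ - 0‖ ^ 2) z := by fun_prop
        have h3 : ContinuousAt (fun ζ : ℂ => (‖ζ - 0‖ ^ 2) ^ (-1 : ℝ)) z :=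
          h2.rpow_const (Or.inl (by rw [sub_zero]; positivity))
        have h4 : ContinuousAt (fun ζ : ℂ => r' ^ 2 - ‖ζ‖ ^ 2) z := by fun_prop
        have h5 : ContinuousAt (fun ζ : ℂ => (r' ^ 2 - ‖ζ‖ ^ 2) ^ (3 / 2 : ℝ)) z :=
          h4.rpow_const (Or.inr (by norm_num))
        exact ((continuousAt_const.mul ((continuousAt_const.mul h3).sub
          continuousAt_const)).add (continuousAt_const.mul h5)).continuousWithinAt
      · intro z hz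
        rw [sub_zero] at hz
        have h1 := hcirc (z • e) (by rw [norm_smul, he, mul_one, hz])
        refine le_trans ?_ h1
        simp only [sub_zero, hz]
        rw [Real.rpow_neg_one]
        have hq : 3 / 4 ≤ (1 - t) ^ 2 := by nlinarith
        have h2 : r' ^ 2 * ((1 - t) ^ 2)⁻¹ ≤ 4 / 3 := by
          rw [← div_eq_mul_inv, div_le_iff₀ (by positivity)]
          nlinarith
        have h3 : (r' ^ 2 - (1 - t) ^ 2) ^ (3 / 2 : ℝ) ≤ (2 * t) ^ (3 / 2 : ℝ) := by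
          apply Real.rpow_le_rpow
          · nlinarith
          · nlinarith
          · norm_num
        calc A * (r' ^ 2 * ((1 - t) ^ 2)⁻¹ - 1) + B * (r' ^ 2 - (1 - t) ^ 2) ^ (3 / 2 : ℝ)
            ≤ A * (4 / 3 - 1) + B * (2 * t) ^ (3 / 2 : ℝ) := by gcongr
          _ = A * (4 / 3) := by rw [← hA]; ring
          _ ≤ 2 * A := by linarith
      · intro z hz
        rw [sub_zero] at hz
        simp only [sub_zero, hz]
        rw [Real.rpow_neg_one, mul_inv_cancel₀ (by positivity), sub_self, sub_self,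
          Real.zero_rpow (by norm_num), mul_zero, mul_zero, add_zero]
        have := S.ρφ_neg (hmem z (by linarith))
        linarith
      · intro z hz1 hz2
        rw [sub_zero] at hz1 hz2
        have hz3 : ‖z‖ < 1 := by linarith
        have hne : z ≠ 0 := by
          rintro rfl
          rw [norm_zero] at hz1
          linarith
        have hGev : ∀ᶠ w in 𝓝 z, DifferentiableAt ℂ (fun w : ℂ => φ (w • e)) w := by
          have : ball (0 : ℂ) 1 ∈ 𝓝 z := isOpen_ball.mem_nhds (mem_ball_zero_iff.2 hz3)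
          filter_upwards [this] with w hw
          exact hdiff w (mem_ball_zero_iff.1 hw)
        have HU : ∀ c : ℂ, HasSnd (fun s : ℝ => -ρ (φ ((z + s * c) • e))) _ _ := fun c => by
          have h0 : φ ((z + ((0 : ℝ) : ℂ) * c) • e) = φ (z • e) := by simp
          have H1 := (hasSnd_holo hGev c).comp_contDiffAt (f := fun x => -ρ x)
            (by exact S.smooth.neg.contDiffAt)
          rw [h0] at H1
          exact H1
        have hH : 0 < r' ^ 2 - ‖z‖ ^ 2 := by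
          have := norm_nonneg z
          nlinarith
        obtain ⟨e1, e2, e1', e2', L1, L2, L3⟩ := barrier_snd hne A (r' ^ 2)
        obtain ⟨f1, f2, f1', f2', P1, P2, P3⟩ := barrier2_snd hH B
        refine ⟨_, _, _, _, (HU 1).sub (L1.add P1), (HU Complex.I).sub (L2.add P2), ?_⟩
        set v := deriv (fun w : ℂ => φ (w • e)) z with hv
        set x := φ (z • e) with hx
        have i2 : ∀ (ℓ : E n →L[ℝ] ℝ) (a : E n), ℓ (Complex.I ^ 2 • a) = -ℓ a := by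
          intro ℓ a
          rw [Complex.I_sq, neg_smul, one_smul, map_neg]
        have i3 : fderiv ℝ (fderiv ℝ (fun x => -ρ x)) x = -fderiv ℝ (fderiv ℝ ρ) x := by
          have e1 : fderiv ℝ (fun z => -ρ z) = fun z => -fderiv ℝ ρ z := by
            funext z; exact fderiv_fun_neg
          rw [e1, fderiv_fun_neg]
        rw [i2, i3]
        simp only [one_smul, one_pow, _root_.neg_apply]
        have hbil : ∀ w : E n, -(fderiv ℝ (fderiv ℝ ρ) x w w) ≤ M * ‖w‖ ^ 2 := by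
          intro w
          have h1 : ‖fderiv ℝ (fderiv ℝ ρ) x w w‖ ≤ ‖fderiv ℝ (fderiv ℝ ρ) x‖ * ‖w‖ * ‖w‖ :=
            ContinuousLinearMap.le_opNorm₂ _ _ _
          have h2 : ‖fderiv ℝ (fderiv ℝ ρ) x‖ ≤ M := hM x (S.ρφ_neg (hmem z hz3))
          calc -(fderiv ℝ (fderiv ℝ ρ) x w w) ≤ ‖fderiv ℝ (fderiv ℝ ρ) x w w‖ := by
                rw [Real.norm_eq_abs]; exact neg_le_abs _
            _ ≤ ‖fderiv ℝ (fderiv ℝ ρ) x‖ * ‖w‖ * ‖w‖ := h1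
            _ ≤ M * ‖w‖ * ‖w‖ := by gcongr
            _ = _ := by ring
        have b1 := hbil v
        have b2 := hbil (Complex.I • v)
        rw [norm_smul, Complex.norm_I, one_mul] at b2
        have hd0 : 0 < 1 - ‖z‖ := by linarith
        have hsd : 0 < Real.sqrt (1 - ‖z‖) := Real.sqrt_pos.2 hd0
        have b3 : ‖v‖ ^ 2 ≤ CD / Real.sqrt (1 - ‖z‖) := hder e z he hz3
        have b4 : -(fderiv ℝ (fderiv ℝ ρ) x v v) + -(fderiv ℝ (fderiv ℝ ρ) x (Complex.I • v)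
            (Complex.I • v)) ≤ (C₃ - 1) / Real.sqrt (1 - ‖z‖) := by
          have h1 : 2 * M * ‖v‖ ^ 2 ≤ 2 * M * (CD / Real.sqrt (1 - ‖z‖)) := by gcongr
          have h2 : 2 * M * (CD / Real.sqrt (1 - ‖z‖)) = (C₃ - 1) / Real.sqrt (1 - ‖z‖) := by
            rw [hC₃]; ring
          linarith
        have hz4 : 0 < (‖z - 0‖ ^ 2) ^ (-2 : ℝ) := by
          apply Real.rpow_pos_of_pos
          rw [sub_zero]
          have := norm_pos_iff.2 hne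
          positivity
        have b5 : 0 < 4 * A * r' ^ 2 * (‖z - 0‖ ^ 2) ^ (-2 : ℝ) := by positivity
        have b6 : C₃ / Real.sqrt (1 - ‖z‖) ≤ B * ((r' ^ 2 - ‖z‖ ^ 2) ^ (-(1 / 2) : ℝ) *
            (3 * ‖z‖ ^ 2 - 6 * (r' ^ 2 - ‖z‖ ^ 2))) := by
          have hN : 3 / 4 ≤ ‖z‖ ^ 2 := by nlinarith
          have h1 : 3 / 4 ≤ 3 * ‖z‖ ^ 2 - 6 * (r' ^ 2 - ‖z‖ ^ 2) := by nlinarith
          have h2 : (r' ^ 2 - ‖z‖ ^ 2) ^ (-(1 / 2) : ℝ) =
              (Real.sqrt (r' ^ 2 - ‖z‖ ^ 2))⁻¹ := by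
            rw [Real.rpow_neg hH.le, Real.sqrt_eq_rpow]
          have h3 : Real.sqrt (r' ^ 2 - ‖z‖ ^ 2) ≤ 2 * Real.sqrt (1 - ‖z‖) := by
            rw [Real.sqrt_le_left (by positivity), mul_pow, Real.sq_sqrt hd0.le]
            nlinarith [norm_nonneg z]
          have h4 : 0 < Real.sqrt (r' ^ 2 - ‖z‖ ^ 2) := Real.sqrt_pos.2 hH
          have h5 : (2 * Real.sqrt (1 - ‖z‖))⁻¹ ≤ (Real.sqrt (r' ^ 2 - ‖z‖ ^ 2))⁻¹ :=
            inv_anti₀ h4 h3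
          rw [h2]
          calc C₃ / Real.sqrt (1 - ‖z‖) ≤ B * ((2 * Real.sqrt (1 - ‖z‖))⁻¹ * (3 / 4)) := by
                rw [hB, mul_inv, div_eq_mul_inv]
                have : 0 < C₃ * (Real.sqrt (1 - ‖z‖))⁻¹ := by positivity
                nlinarith
            _ ≤ _ := by gcongr
        have b7 : (C₃ - 1) / Real.sqrt (1 - ‖z‖) < C₃ / Real.sqrt (1 - ‖z‖) := by
          apply div_lt_div_of_pos_right _ hsd
          linarith
        have hgoal : -(fderiv ℝ (fderiv ℝ ρ) x v v) + -(fderiv ℝ (fderiv ℝ ρ) x (Complex.I • v)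
            (Complex.I • v)) - (e2 + e2') - (f2 + f2') < 0 := by
          rw [L3, P3]
          linarith
        refine lt_of_eq_of_lt ?_ hgoal
        ring
    have hpos : 0 < ‖ζ‖ := by linarith
    have hlim : Tendsto (fun r' : ℝ => A * (r' ^ 2 * (‖ζ‖ ^ 2) ^ (-1 : ℝ) - 1)) (𝓝[<] 1)
        (𝓝 (A * (1 ^ 2 * (‖ζ‖ ^ 2) ^ (-1 : ℝ) - 1))) := by
      have : Continuous (fun r' : ℝ => A * (r' ^ 2 * (‖ζ‖ ^ 2) ^ (-1 : ℝ) - 1)) := by
        fun_prop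
      exact (this.tendsto 1).mono_left nhdsWithin_le_nhds
    have hle : A * (1 ^ 2 * (‖ζ‖ ^ 2) ^ (-1 : ℝ) - 1) ≤ -ρ (φ (ζ • e)) := by
      refine le_of_tendsto hlim ?_
      filter_upwards [Ioo_mem_nhdsLT hζ2] with r' hr'
      exact hcomp r' hr'.1 hr'.2
    refine le_trans ?_ hle
    apply mul_le_mul_of_nonneg_left _ hA0.le
    rw [Real.rpow_neg_one, one_pow, one_mul]
    have h1 : 1 ≤ (‖ζ‖)⁻¹ := (one_le_inv₀ hpos).2 hζ2.le
    have h2 : (‖ζ‖ ^ 2)⁻¹ = (‖ζ‖)⁻¹ ^ 2 := by rw [inv_pow]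
    rw [h2]
    have h3 : 1 ≤ (‖ζ‖)⁻¹ ^ 2 := one_le_pow₀ h1
    have h4 : (‖ζ‖)⁻¹ * ‖ζ‖ = 1 := inv_mul_cancel₀ hpos.ne'
    nlinarith
  obtain ⟨m, hm, hm'⟩ := S.exists_lower_compact (r := 1 - t) (by linarith)
  refine ⟨min A m, by positivity, fun z hz => ?_⟩
  have h0 : 0 ≤ 1 - ‖z‖ := by linarith
  rcases le_or_gt ‖z‖ (1 - t) with h | h
  · calc min A m * (1 - ‖z‖) ≤ m * 1 := by
          have : 1 - ‖z‖ ≤ 1 := by linarith [norm_nonneg z]
          have h2 : min A m ≤ m := min_le_right _ _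
          gcongr
      _ = m := mul_one m
      _ ≤ _ := hm' z h
  · have hz0 : z ≠ 0 := by
      rintro rfl
      rw [norm_zero] at h
      linarith
    obtain ⟨e, he, hez⟩ := S.exists_unit_smul hz0
    have hzz : ‖((‖z‖ : ℝ) : ℂ)‖ = ‖z‖ := by rw [Complex.norm_real, norm_norm]
    have h1 := hmain e ((‖z‖ : ℝ) : ℂ) he (by rw [hzz]; exact h.le) (by rw [hzz]; exact hz)
    rw [hzz, hez] at h1
    refine le_trans ?_ h1
    exact mul_le_mul_of_nonneg_right (min_le_left _ _) h0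

end Setup

end Pool.Agent.Ball44
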