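import Mathlib
import Pool.Agent.Helper44_Ball.LowerLinear

/-! Strong pseudoconvexity. -/

set_option autoImplicit false
set_option maxSynthPendingDepth 3
open Set Metric Filter Topology MeasureTheory

namespace Pool.Agent.Ball44

variable {n : ℕ}

namespace Setup

variable {ρ : E n → ℝ} {φ ψ : E n → E n} (S : Setup n ρ φ ψ)

include S

theorem levi_pos_unit {p ν v : E n} {a : ℝ} (hp : ρ p = 0)
    (ha : 0 < a) (hν : ‖ν‖ = 1) (hv : ‖v‖ = 1) (hvν : ip v ν = 0)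
    (hd : ∀ w, fderiv ℝ ρ p w = a * (ip w ν).re) : 0 < levi ρ p v := by
  by_contra hneg
  push Not at hneg
  obtain ⟨C, hC, hdeg⟩ := S.det_est_degenerate hp ha hν hv hvν hd hneg
  obtain ⟨CJ, hCJ, hJ⟩ := S.exists_jac_bound
  obtain ⟨c, hc, hlow⟩ := S.lower_linear
  set L : ℝ := C * (Real.sqrt (C / c)) ^ (n + 1) * CJ with hL
  have hL0 : 0 < L := by positivity
  have key : ∀ ε : ℝ, 0 < ε → ε ≤ 1 → 1 ≤ ε * L := by
    intro ε hε hε1
    obtain ⟨δ0, hδ0, hδ⟩ := hdeg ε hε hε1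
    obtain ⟨h1, h2, h3⟩ := hδ (δ0 / 2) (by positivity) (by linarith)
    obtain ⟨δ, hδd⟩ : ∃ δ : ℝ, δ = δ0 / 2 := ⟨_, rfl⟩
    rw [← hδd] at h1 h2 h3
    have hδpos : 0 < δ := by rw [hδd]; positivity
    set x : E n := p - (δ : ℂ) • ν with hx
    have hz := S.norm_ψ_lt h1
    have hzb : ψ x ∈ ball (0 : E n) 1 := mem_ball_zero_iff.2 hz
    have hφψ : φ (ψ x) = x := S.right x h1
    have h4 := hlow (ψ x) hz
    rw [hφψ] at h4
    have h5 : 1 - ‖ψ x‖ ≤ C / c * δ := by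
      rw [div_mul_eq_mul_div, le_div_iff₀ hc]
      linarith
    have h6 := S.norm_jac_mul hzb
    rw [hφψ] at h6
    have h7 := hJ (ψ x) hzb
    have hs0 : 0 < Real.sqrt δ := Real.sqrt_pos.2 hδpos
    have h8 : Real.sqrt (1 - ‖ψ x‖) ≤ Real.sqrt (C / c) * Real.sqrt δ := by
      rw [← Real.sqrt_mul (by positivity)]
      exact Real.sqrt_le_sqrt h5
    have h9 : 1 ≤ CJ * ‖jac ψ x‖ := by
      have : ‖jac ψ x‖ * ‖jac φ (ψ x)‖ ≤ ‖jac ψ x‖ * CJ := by gcongr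
      linarith
    have h10 : (Real.sqrt δ) ^ (n + 1) ≤ ε * L * (Real.sqrt δ) ^ (n + 1) := by
      calc (Real.sqrt δ) ^ (n + 1) = 1 * (Real.sqrt δ) ^ (n + 1) := (one_mul _).symm
        _ ≤ (CJ * ‖jac ψ x‖) * (Real.sqrt δ) ^ (n + 1) := by gcongr
        _ = CJ * (‖jac ψ x‖ * (Real.sqrt δ) ^ (n + 1)) := by ring
        _ ≤ CJ * (C * ε * (Real.sqrt (1 - ‖ψ x‖)) ^ (n + 1)) := by gcongr
        _ ≤ CJ * (C * ε * (Real.sqrt (C / c) * Real.sqrt δ) ^ (n + 1)) := by gcongr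
        _ = _ := by rw [mul_pow, hL]; ring
    have h11 : 0 < (Real.sqrt δ) ^ (n + 1) := by positivity
    have h12 : 1 * (Real.sqrt δ) ^ (n + 1) ≤ ε * L * (Real.sqrt δ) ^ (n + 1) := by
      rw [one_mul]; exact h10
    exact le_of_mul_le_mul_right h12 h11
  have h1 := key (min 1 (1 / (2 * L))) (by positivity) (min_le_left _ _)
  have h2 : min 1 (1 / (2 * L)) * L ≤ 1 / (2 * L) * L :=
    mul_le_mul_of_nonneg_right (min_le_right _ _) hL0.le
  have h3 : 1 / (2 * L) * L = 1 / 2 := by field_simp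
  linarith

theorem levi_pos {p v : E n} (hp : ρ p = 0) (hv0 : v ≠ 0) (hv1 : fderiv ℝ ρ p v = 0)
    (hv2 : fderiv ℝ ρ p (Complex.I • v) = 0) : 0 < levi ρ p v := by
  obtain ⟨ν, hν, hνd⟩ := exists_normal S.hn (fderiv ℝ ρ p)
  have ha : 0 < ‖fderiv ℝ ρ p‖ := norm_pos_iff.2 (S.grad p hp)
  have hvn : 0 < ‖v‖ := norm_pos_iff.2 hv0
  have hvν : ip v ν = 0 := by
    rw [hνd] at hv1 hv2
    rw [ip_smul_left] at hv2
    have h1 := (mul_eq_zero.1 hv1).resolve_left ha.ne'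
    have h2 := (mul_eq_zero.1 hv2).resolve_left ha.ne'
    simp at h2
    exact Complex.ext h1 h2
  have h1 : v = ‖v‖ • (‖v‖⁻¹ • v) := by
    rw [smul_smul, mul_inv_cancel₀ hvn.ne', one_smul]
  rw [h1, levi_smul]
  refine mul_pos (by positivity) ?_
  refine S.levi_pos_unit hp ha hν ?_ ?_ hνd
  · rw [norm_smul, norm_inv, norm_norm, inv_mul_cancel₀ hvn.ne']
  · have h2 : (‖v‖⁻¹ • v : E n) = ((‖v‖⁻¹ : ℝ) : ℂ) • v := by
      rw [Complex.coe_smul]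
    rw [h2, ip_smul_left, hvν, mul_zero]

end Setup

end Pool.Agent.Ball44
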